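import Pool.Agent.Work.MP_b5407d_pos_helper13.Ppos

/-! # MP_b5407d_gt (POS), `r = 0`: mirror identities, `N > 0`, collapse (helper13) -/

set_option autoImplicit false

open MeasureTheory Set Filter Topology

namespace Pool.Agent.Work.MP_b5407d_pos_h13

open Pool.LBM Pool.LBM.Path

section
variable {m : ℕ} {a b : ℕ → ℝ} (v w : ℝ)

/-- mirror identities without convexity -/
theorem mr4 (ha0 : a 0 = 0) (ham : a m = 0) (hb0 : b 0 = 0) (hb1 : b 1 = 0) (hm : 0 < m) :
    pd w v (mr m 0 b) (mr m 0 a) m = pd v w a b m ∧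
    pP w v (mr m 0 b) (mr m 0 a) m = pN v w a b m 0 ∧
    pN w v (mr m 0 b) (mr m 0 a) m 0 = pP v w a b m ∧
    pM w v (mr m 0 b) (mr m 0 a) m 0 = pM v w a b m 0 := by
  have hb := fun z1 z2 : ℝ => bil_eq (m := m) (r := 0) (a := a) (b := b) v w z1 z2 ha0 ham
    hb0 hb1 hm
  have e1 : pX v w a b ((0 : ℕ) : ℝ) - mE v (a 0) = 0 := by simp [pX, ha0]
  have e2 : mE w (b 0) + ∫ s in (0 : ℝ)..((0 : ℕ) : ℝ), pe v w a b s * dpl b s = 0 := by
    simp [hb0]
  simp only [e1, e2, add_zero, sub_zero] at hb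
  have hH : ∀ C, Ht v w a b m C (((0 : ℕ) : ℝ) + 1) = C * pN v w a b m 0 - pM v w a b m 0 :=
    fun C => rfl
  have hH' : ∀ C, Ht w v (mr m 0 b) (mr m 0 a) m C (((0 : ℕ) : ℝ) + 1) =
      C * pN w v (mr m 0 b) (mr m 0 a) m 0 - pM w v (mr m 0 b) (mr m 0 a) m 0 := fun C => rfl
  simp only [hH, hH'] at hb
  have b00 := hb 0 0
  have b10 := hb 1 0
  have b01 := hb 0 1
  have b11 := hb 1 1
  refine ⟨?_, ?_, ?_, ?_⟩ <;> linarith

theorem P_pos_std (h : Std m 0 a b) : 0 < pP v w a b m :=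
  P_pos (CP_of_Std h) fun _ hk => std_b_nonneg h hk

theorem N_pos_std (h : Std m 0 a b) : 0 < pN v w a b m 0 := by
  rw [← (mr4 v w h.a0 h.am h.br h.br1 h.lt).2.1]
  exact P_pos_std w v (std_mr h)

/-- `z.1` is bounded on the polygon -/
theorem KK_x_le (h : CP m a b) {B : ℝ} (hB : ∀ k ≤ m, a k ≤ B) {z : R2} (hz : z ∈ KK m a b) :
    z.1 ≤ B := by
  obtain ⟨K, hK0, hKm, hinc, hdec⟩ := uni h
  obtain ⟨J, rfl⟩ : ∃ J, K = J + 1 := ⟨K - 1, by omega⟩
  have e1 := hz.2 J (by omega)
  have e2 := hz.2 (J + 1) hKm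
  have p0 := hinc J (by omega)
  have r0 := hdec (J + 1) le_rfl hKm
  have hc := h.conv J (J + 1) (J + 1 + 1) (by omega) (by omega) (by omega)
  have hBK := hB (J + 1) (by omega)
  set p := a (J + 1) - a J with hp
  set q := b (J + 1) - b J with hq
  set r := a (J + 1) - a (J + 1 + 1) with hr
  set s := b (J + 1 + 1) - b (J + 1) with hs
  have hp0 : 0 ≤ p := by linarith
  have hr0 : 0 ≤ r := by linarith
  have hD : 0 < p * s + q * r := by
    have : a (J + 1 + 1) - a J = p - r := by rw [hp, hr]; ring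
    have h2 : b (J + 1 + 1) - b J = q + s := by rw [hq, hs]; ring
    rw [this, h2] at hc
    linarith
  have f1 : 0 ≤ p * (z.2 - b (J + 1)) - q * (z.1 - a (J + 1)) := by
    have : p * (z.2 - b (J + 1)) - q * (z.1 - a (J + 1)) =
      p * (z.2 - b J) - q * (z.1 - a J) := by rw [hp, hq]; ring
    rw [this]; exact e1
  have f2 : 0 ≤ -r * (z.2 - b (J + 1)) - s * (z.1 - a (J + 1)) := by
    have : -r = a (J + 1 + 1) - a (J + 1) := by rw [hr]; ring
    rw [this]; exact e2
  have f3 : 0 ≤ (p * s + q * r) * (a (J + 1) - z.1) := by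
    have g1 := mul_nonneg hr0 f1
    have g2 := mul_nonneg hp0 f2
    linarith
  have f4 := nonneg_of_mul_nonneg_right f3 hD
  linarith

theorem std_box (h : Std m 0 a b) {B : ℝ} (ha : ∀ k ≤ m, a k ≤ B) (hb : ∀ k ≤ m, b k ≤ B)
    {z : R2} (hz : z ∈ KK m a b) : 0 ≤ z.1 ∧ z.1 ≤ B ∧ 0 ≤ z.2 ∧ z.2 ≤ B := by
  have h1 : (z.2, z.1) ∈ KK m (mr m 0 b) (mr m 0 a) := (KK_mr h (z.2, z.1)).2 hz
  refine ⟨hz.1, KK_x_le (CP_of_Std h) ha hz, h1.1, ?_⟩
  refine KK_x_le (CP_of_Std (std_mr h)) (B := B) (fun k hk => ?_) h1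
  unfold mr
  by_cases hk0 : k ≤ 0
  · simp only [hk0, if_true]; exact hb _ (by omega)
  · simp only [hk0, if_false]; exact hb _ (by omega)

/-- `d ≥ c * area` -/
theorem pd_ge_area (h : Std m 0 a b) {B : ℝ} (ha : ∀ k ≤ m, a k ≤ B) (hb : ∀ k ≤ m, b k ≤ B) :
    Real.exp (-((|v| + |w|) * B)) * pd 0 0 a b m ≤ pd v w a b m := by
  have hC := CP_of_Std h
  rw [← pd_area hC, ← pd_area hC, ← integral_const_mul]
  have hc1 : Continuous fun z : R2 => Real.exp (v * z.1 + w * z.2) := by fun_prop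
  have hc2 : Continuous fun z : R2 => Real.exp (-((|v| + |w|) * B)) *
    Real.exp (0 * z.1 + 0 * z.2) := by fun_prop
  refine setIntegral_mono_on (hc2.continuousOn.integrableOn_compact (KK_compact hC))
    (hc1.continuousOn.integrableOn_compact (KK_compact hC)) (KK_closed m a b).measurableSet ?_
  intro z hz
  obtain ⟨z1, z2, z3, z4⟩ := std_box h ha hb hz
  rw [zero_mul, zero_mul, add_zero, Real.exp_zero, mul_one]
  refine Real.exp_le_exp.2 ?_
  have h1 : -(|v| * B) ≤ v * z.1 := by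
    have := neg_abs_le v
    have h2 : -|v| * z.1 ≤ v * z.1 := mul_le_mul_of_nonneg_right this z1
    have h3 : |v| * z.1 ≤ |v| * B := mul_le_mul_of_nonneg_left z2 (abs_nonneg v)
    linarith
  have h2 : -(|w| * B) ≤ w * z.2 := by
    have := neg_abs_le w
    have h2 : -|w| * z.2 ≤ w * z.2 := mul_le_mul_of_nonneg_right this z3
    have h3 : |w| * z.2 ≤ |w| * B := mul_le_mul_of_nonneg_left z4 (abs_nonneg w)
    linarith
  linarith

/-- `∫` over an edge -/
theorem edge_xdy (a b : ℕ → ℝ) (k : ℕ) : (∫ t in (k : ℝ)..((k : ℝ) + 1), pl a t * dpl b t) =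
    (a k + a (k + 1)) / 2 * (b (k + 1) - b k) := by
  have e : (∫ t in (k : ℝ)..((k : ℝ) + 1), pl a t * dpl b t) =
      ∫ t in (k : ℝ)..((k : ℝ) + 1), (a k + (t - k) * (a (k + 1) - a k)) *
        (b (k + 1) - b k) := by
    refine intervalIntegral.integral_congr_ae ?_
    have hne : ∀ᵐ u : ℝ, u ≠ (k : ℝ) + 1 := by rw [ae_iff]; simp
    filter_upwards [hne] with s hs hsI
    rw [uIoc_of_le (by linarith)] at hsI
    have hfl : ⌊s⌋₊ = k :=
      Nat.floor_eq_on_Ico k _ ⟨hsI.1.le, lt_of_le_of_ne hsI.2 hs⟩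
    rw [pl_aff a k hsI.1.le hsI.2]
    simp only [dpl, hfl]
  rw [e]
  have hd : ∀ t : ℝ, HasDerivAt (fun t : ℝ => (a k * (t - k) + (t - k) ^ 2 / 2 *
      (a (k + 1) - a k)) * (b (k + 1) - b k))
      ((a k + (t - k) * (a (k + 1) - a k)) * (b (k + 1) - b k)) t := by
    intro t
    have h1 : HasDerivAt (fun t : ℝ => t - (k : ℝ)) 1 t := (hasDerivAt_id t).sub_const _
    refine ((((h1.const_mul (a k)).add (((h1.pow 2).div_const 2).mul_const
      (a (k + 1) - a k))).mul_const (b (k + 1) - b k))).congr_deriv ?_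
    simp
  rw [intervalIntegral.integral_eq_sub_of_hasDerivAt (fun t _ => hd t)
    ((by fun_prop : Continuous fun t : ℝ => (a k + (t - k) * (a (k + 1) - a k)) *
      (b (k + 1) - b k)).intervalIntegrable _ _)]
  ring

theorem area_sum (a b : ℕ → ℝ) (m : ℕ) : pd 0 0 a b m =
    ∑ k ∈ Finset.range m, (a k + a (k + 1)) / 2 * (b (k + 1) - b k) := by
  have e0 : ∀ x, mE 0 x = x := by
    intro x; simp [mE]
  have e1 : pd 0 0 a b m = ∫ t in (0 : ℝ)..m, pl a t * dpl b t := by
    unfold pd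
    refine intervalIntegral.integral_congr fun t _ => ?_
    simp only [e0, pe, zero_mul, neg_zero, sub_zero, Real.exp_zero, div_one]
  rw [e1]
  have h := intervalIntegral.sum_integral_adjacent_intervals
    (f := fun t => pl a t * dpl b t) (a := fun k : ℕ => (k : ℝ)) (n := m) (μ := volume)
    (fun k _ => mul_ii b (cont_pl a) _ _)
  rw [Nat.cast_zero] at h
  rw [← h]
  refine Finset.sum_congr rfl fun k _ => ?_
  rw [← edge_xdy a b k]
  push_cast
  rfl

theorem area_cr (a b : ℕ → ℝ) (m : ℕ) : 2 * pd 0 0 a b m =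
    (∑ k ∈ Finset.range m, (a k * b (k + 1) - b k * a (k + 1))) + (a m * b m - a 0 * b 0) := by
  rw [area_sum]
  induction m with
  | zero => simp
  | succ n ih =>
    rw [Finset.sum_range_succ, Finset.sum_range_succ, mul_add, ih]
    ring

theorem pM_a0 (ha : ∀ k ≤ m, a k = 0) : pM v w a b m 0 = 0 := by
  rw [← (cg4 v w (m := m) (a := a) (b := b) (a' := fun _ => 0) (b' := b) 0
    (fun k hk => (ha k hk).symm) (fun _ _ => rfl)).2.2.2]
  have hX : ∀ t, pX v w (fun _ => (0:ℝ)) b t = 0 := by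
    intro t
    unfold pX
    have : ∀ s, dpl (fun _ : ℕ => (0:ℝ)) s = 0 := fun s => by simp [dpl]
    simp [this]
  unfold pM
  simp [hX]

theorem pd_a0 (ha : ∀ k ≤ m, a k = 0) : pd v w a b m = 0 := by
  rw [← (cg4 v w (m := m) (a := a) (b := b) (a' := fun _ => 0) (b' := b) 0
    (fun k hk => (ha k hk).symm) (fun _ _ => rfl)).1]
  have hX : ∀ t, pl (fun _ : ℕ => (0:ℝ)) t = 0 := fun t => by simp [pl]
  unfold pd
  simp [hX]

/-- collapsed polygons have `M = 0` -/
theorem collapse (ha0 : a 0 = 0) (ham : a m = 0) (hb0 : b 0 = 0)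
    (hconv : ∀ i j k, i < j → j < k → k ≤ m →
      0 ≤ (a j - a i) * (b k - b i) - (b j - b i) * (a k - a i))
    (hA : pd 0 0 a b m = 0) : pM v w a b m 0 = 0 := by
  have h2 := area_cr a b m
  rw [hA, ha0, ham] at h2
  simp only [mul_zero, zero_mul, sub_zero, add_zero] at h2
  have hcr : ∀ j k, j < k → k ≤ m → 0 ≤ a j * b k - b j * a k := by
    intro j k hjk hk
    rcases Nat.eq_zero_or_pos j with h0 | h0
    · rw [h0, ha0, hb0]; simp
    · have := hconv 0 j k h0 hjk hk
      rw [ha0, hb0] at this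
      linarith
  have hstep : ∀ k < m, a k * b (k + 1) - b k * a (k + 1) = 0 := by
    intro k hk
    have := (Finset.sum_eq_zero_iff_of_nonneg (s := Finset.range m)
      (f := fun k => a k * b (k + 1) - b k * a (k + 1)) (fun i hi =>
        hcr i (i + 1) (by omega) (by have := Finset.mem_range.1 hi; omega))).1 h2.symm k
        (Finset.mem_range.2 hk)
    exact this
  have hall : ∀ n j, j + (n + 1) ≤ m → a j * b (j + (n + 1)) - b j * a (j + (n + 1)) = 0 := by
    intro n
    induction n with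
    | zero => intro j hj; exact hstep j (by omega)
    | succ n ih =>
      intro j hj
      have h3 := ih j (by omega)
      have h4 := hstep (j + (n + 1)) (by omega)
      have h5 := hcr j (j + (n + 1 + 1)) (by omega) hj
      have h6 := hconv j (j + (n + 1)) (j + (n + 1 + 1)) (by omega) (by omega) hj
      have e : j + (n + 1) + 1 = j + (n + 1 + 1) := by ring
      rw [e] at h4
      linarith
  have hcol : ∀ j k, j ≤ m → k ≤ m → a j * b k = b j * a k := by
    intro j k hj hk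
    rcases lt_trichotomy j k with h | h | h
    · have := hall (k - j - 1) j (by omega)
      have e : j + (k - j - 1 + 1) = k := by omega
      rw [e] at this; linarith
    · subst h; ring
    · have := hall (j - k - 1) k (by omega)
      have e : k + (j - k - 1 + 1) = j := by omega
      rw [e] at this; linarith
  by_cases hz : ∀ k ≤ m, a k = 0
  · exact pM_a0 v w hz
  · push Not at hz
    obtain ⟨j, hj, hne⟩ := hz
    have hb' : ∀ k ≤ m, (fun k => 0 + b j / a j * a k) k = b k := by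
      intro k hk
      have := hcol j k hj hk
      simp only
      field_simp
      linarith
    rw [← (cg4 v w (m := m) (a := a) (b := b) (a' := a) (b' := fun k => 0 + b j / a j * a k) 0
      (fun _ _ => rfl) hb').2.2.2]
    exact (Pool.Agent.Work.MP_b5407d_pos_h64.Thin.line_zero v w 0 (b j / a j) a m 0
      ha0 ham).2.2.2

end

end Pool.Agent.Work.MP_b5407d_pos_h13
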