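import Pool.Agent.Work.MP_b5407d_pos_helper13.VCond
import Pool.Agent.Work.MP_b5407d_lbm_helper20.PV
import Pool.Agent.Work.MP_b5407d_lbm_helper93.PX
import Pool.Agent.Work.MP_b5407d_lbm_helper18.PY

/-! # MP_b5407d_gt (POS): `c J = 2 ∫_K x e` (helper13) -/

set_option autoImplicit false

open MeasureTheory Set Filter Topology

namespace Pool.Agent.Work.MP_b5407d_pos_h13

open Pool.LBM Pool.LBM.Path

section
variable {v w : ℝ} {a b : ℕ → ℝ} {m : ℕ} {C : ℝ}

/-- `∫ x q x'` -/
noncomputable def Ixq (v w : ℝ) (a b : ℕ → ℝ) (m : ℕ) : ℝ :=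
  ∫ t in (0 : ℝ)..m, pl a t * pq v w a b t * dpl a t

theorem cexp (v : ℝ) (a : ℕ → ℝ) : Continuous fun t => Real.exp (-(v * pl a t)) := by
  have := cont_pl a
  fun_prop

theorem cmL (w : ℝ) (b : ℕ → ℝ) : Continuous fun t => mL w (pl b t) :=
  (mL_cont w).comp (cont_pl b)

/-- identity A -/
theorem int_A (ha0 : a 0 = 0) (ham : a m = 0) :
    (∫ t in (0 : ℝ)..m, (pe v w a b t * pl a t) * dpl b t) -
      (∫ t in (0 : ℝ)..m, (pe v w a b t * pl b t) * dpl a t) =
    2 * pJ v w a b m + v * Ixq v w a b m +
      w * ∫ t in (0 : ℝ)..m, Real.exp (-(v * pl a t)) * mL w (pl b t) * dpl a t := by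
  have hx := cont_pl a
  have hy := cont_pl b
  have he := pe_cont v w a b
  have hq := pq_cont v w a b
  have hE := cexp v a
  have hM := cmL w b
  have h := ftc2 a b (F := fun t => pl a t * pq v w a b t) (hx.mul hq)
    (f := fun t => pq v w a b t - v * (pl a t * pq v w a b t))
    (g := fun t => pe v w a b t * pl a t) (by fun_prop) (by fun_prop) (fun t ht => by
      refine ((deriv_pl a ht).mul (pq_deriv v w a b ht)).congr_deriv ?_
      ring) 0 m
  rw [pl_nat, pl_zero, ha0, ham] at h
  simp only [zero_mul, sub_self] at h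
  have i1 := mul_ii a hq 0 m
  have i2 : IntervalIntegrable (fun t => pl a t * pq v w a b t * dpl a t) volume 0 m :=
    mul_ii a (g := fun t => pl a t * pq v w a b t) (by fun_prop) 0 m
  have i3 : IntervalIntegrable (fun t => Real.exp (-(v * pl a t)) * mL w (pl b t) * dpl a t)
    volume 0 m := mul_ii a (g := fun t => Real.exp (-(v * pl a t)) * mL w (pl b t))
      (by fun_prop) 0 m
  have e1 : (∫ t in (0 : ℝ)..m, (pq v w a b t - v * (pl a t * pq v w a b t)) * dpl a t) =
      (∫ t in (0 : ℝ)..m, pq v w a b t * dpl a t) - v * Ixq v w a b m := by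
    unfold Ixq
    rw [← intervalIntegral.integral_const_mul, ← intervalIntegral.integral_sub i1
      (i2.const_mul v)]
    refine intervalIntegral.integral_congr fun t _ => ?_
    ring
  have e2 : (∫ t in (0 : ℝ)..m, (pe v w a b t * pl b t) * dpl a t) =
      (∫ t in (0 : ℝ)..m, pq v w a b t * dpl a t) -
      w * ∫ t in (0 : ℝ)..m, Real.exp (-(v * pl a t)) * mL w (pl b t) * dpl a t := by
    rw [← intervalIntegral.integral_const_mul, ← intervalIntegral.integral_sub i1
      (i3.const_mul w)]
    refine intervalIntegral.integral_congr fun t _ => ?_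
    have h5 := mul_mL w (pl b t)
    simp only [pe_eq, pq]
    linear_combination (Real.exp (-(v * pl a t)) * dpl a t) * h5
  rw [e1] at h
  rw [e2]
  unfold pJ pL
  linarith

/-- identity B -/
theorem int_B (ha0 : a 0 = 0) (ham : a m = 0) :
    (∫ t in (0 : ℝ)..m, (pe v w a b t * pl a t * pl a t) * dpl b t) -
      (∫ t in (0 : ℝ)..m, (pe v w a b t * pl a t * pl b t) * dpl a t) =
    -(3 * Ixq v w a b m) + v * (∫ t in (0 : ℝ)..m, pl a t ^ 2 * pq v w a b t * dpl a t) +
      w * ∫ t in (0 : ℝ)..m,
        pl a t * (Real.exp (-(v * pl a t)) * mL w (pl b t)) * dpl a t := by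
  have hx := cont_pl a
  have hy := cont_pl b
  have he := pe_cont v w a b
  have hq := pq_cont v w a b
  have hE := cexp v a
  have hM := cmL w b
  have h := ftc2 a b (F := fun t => pl a t ^ 2 * pq v w a b t) (by fun_prop)
    (f := fun t => 2 * (pl a t * pq v w a b t) - v * (pl a t ^ 2 * pq v w a b t))
    (g := fun t => pe v w a b t * pl a t * pl a t) (by fun_prop) (by fun_prop) (fun t ht => by
      refine (((deriv_pl a ht).fun_pow 2).mul (pq_deriv v w a b ht)).congr_deriv ?_
      push_cast
      ring) 0 m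
  rw [pl_nat, pl_zero, ha0, ham] at h
  simp only [ne_eq, OfNat.ofNat_ne_zero, not_false_eq_true, zero_pow, zero_mul, sub_self] at h
  have i1 : IntervalIntegrable (fun t => pl a t * pq v w a b t * dpl a t) volume 0 m :=
    mul_ii a (g := fun t => pl a t * pq v w a b t) (by fun_prop) 0 m
  have i2 : IntervalIntegrable (fun t => pl a t ^ 2 * pq v w a b t * dpl a t) volume 0 m :=
    mul_ii a (g := fun t => pl a t ^ 2 * pq v w a b t) (by fun_prop) 0 m
  have i3 : IntervalIntegrable (fun t => pl a t * (Real.exp (-(v * pl a t)) * mL w (pl b t)) *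
    dpl a t) volume 0 m := mul_ii a
      (g := fun t => pl a t * (Real.exp (-(v * pl a t)) * mL w (pl b t))) (by fun_prop) 0 m
  have e1 : (∫ t in (0 : ℝ)..m, (2 * (pl a t * pq v w a b t) -
      v * (pl a t ^ 2 * pq v w a b t)) * dpl a t) =
      2 * Ixq v w a b m - v * ∫ t in (0 : ℝ)..m, pl a t ^ 2 * pq v w a b t * dpl a t := by
    unfold Ixq
    rw [← intervalIntegral.integral_const_mul, ← intervalIntegral.integral_const_mul,
      ← intervalIntegral.integral_sub (i1.const_mul 2) (i2.const_mul v)]
    refine intervalIntegral.integral_congr fun t _ => ?_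
    ring
  have e2 : (∫ t in (0 : ℝ)..m, (pe v w a b t * pl a t * pl b t) * dpl a t) =
      Ixq v w a b m - w * ∫ t in (0 : ℝ)..m,
        pl a t * (Real.exp (-(v * pl a t)) * mL w (pl b t)) * dpl a t := by
    unfold Ixq
    rw [← intervalIntegral.integral_const_mul, ← intervalIntegral.integral_sub i1
      (i3.const_mul w)]
    refine intervalIntegral.integral_congr fun t _ => ?_
    have h5 := mul_mL w (pl b t)
    simp only [pe_eq, pq]
    linear_combination (Real.exp (-(v * pl a t)) * pl a t * dpl a t) * h5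
  rw [e1] at h
  rw [e2]
  linarith

theorem int_mE (w p q : ℝ) : (∫ s in p..q, Real.exp (-(w * s))) = mE w q - mE w p := by
  unfold mE
  rw [intervalIntegral.integral_interval_sub_left]
  · exact (by fun_prop : Continuous fun s : ℝ => Real.exp (-(w * s))).intervalIntegrable _ _
  · exact (by fun_prop : Continuous fun s : ℝ => Real.exp (-(w * s))).intervalIntegrable _ _

theorem int_mL (w p q : ℝ) : (∫ s in p..q, s * Real.exp (-(w * s))) = mL w q - mL w p := by
  unfold mL
  rw [intervalIntegral.integral_interval_sub_left]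
  · exact (by fun_prop : Continuous fun s : ℝ => s * Real.exp (-(w * s))).intervalIntegrable _ _
  · exact (by fun_prop : Continuous fun s : ℝ => s * Real.exp (-(w * s))).intervalIntegrable _ _

/-- `c J = - 2 ∫ x q x'` -/
theorem c_J (ha0 : a 0 = 0) (ham : a m = 0) (hC : pP v w a b m = C * pd v w a b m)
    (hJ : pJ v w a b m ≠ 0) :
    pc v w a b m C (kapV v w a b m C) (etaV v w a b m C) * pJ v w a b m =
      -(2 * Ixq v w a b m) := by
  set κ := kapV v w a b m C with hκ
  set η := etaV v w a b m C with hη
  have hV := pVx_m ha0 ham hC κ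
  have hPV := blk_PV blk_PC m a b v w C κ η ha0 ham hV
  have hPX := blk_PX blk_PC m a b v w C κ η ha0 ham hV
  have hPY := blk_PY blk_PC m a b v w C κ η ha0 ham hV
  have hu := pu_cont v w a b C
  have hx := cont_pl a
  have hy := cont_pl b
  have he := pe_cont v w a b
  have hq := pq_cont v w a b
  have hVx := pVx_cont v w a b C κ
  have hVy := pVy_cont v w a b m C η
  have hL := pL_cont v w a b
  have hmL : Continuous fun t => mL v (pl a t) := cmL v a
  -- the right side of `PX`
  have h4 : pJ v w a b m * κ =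
      (∫ t in (0 : ℝ)..m, (mL v (pl a t) * pu v w a b C t) * dpl b t) -
        ∫ t in (0 : ℝ)..m, (pq v w a b t * V0 v w a b C t) * dpl a t := by
    rw [hκ]; unfold kapV; field_simp
  have h3 : pJ v w a b m * η =
      -(∫ t in (0 : ℝ)..m, (pL v w a b t * pu v w a b C t) * dpl b t) := by
    rw [hη]; unfold etaV; field_simp
  have hV0c := V0_cont v w a b C
  have hqV : (∫ t in (0 : ℝ)..m, pq v w a b t * pVx v w a b C κ t * dpl a t) =
      κ * pJ v w a b m + ∫ t in (0 : ℝ)..m, (pq v w a b t * V0 v w a b C t) * dpl a t := by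
    have i1 := mul_ii a hq 0 m
    have i2 : IntervalIntegrable (fun t => (pq v w a b t * V0 v w a b C t) * dpl a t)
      volume 0 m := mul_ii a (by fun_prop) 0 m
    have e1 : κ * pJ v w a b m = ∫ t in (0 : ℝ)..m, -κ * (pq v w a b t * dpl a t) := by
      rw [intervalIntegral.integral_const_mul]; unfold pJ pL; ring
    rw [e1, ← intervalIntegral.integral_add (i1.const_mul _) i2]
    refine intervalIntegral.integral_congr fun t _ => ?_
    simp only [pVx, V0]
    ring
  rw [hqV] at hPX
  -- the derivative of `e (V_x y - V_y x)`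
  have hpt : ∀ t, pu v w a b C t = pc v w a b m C κ η - pl a t + v * pVx v w a b C κ t +
      w * pVy v w a b m C η t := by
    intro t
    have := Pool.LBM.PC.part2 v w a b m C κ η ham hV t
    linarith
  set c := pc v w a b m C κ η with hc
  have h := ftc2 a b (F := fun t => pe v w a b t *
      (pVx v w a b C κ t * pl b t - pVy v w a b m C η t * pl a t)) (by fun_prop)
    (f := fun t => v * (pe v w a b t * pl a t * pVy v w a b m C η t) +
      w * (pe v w a b t * pl b t * pVy v w a b m C η t) - pe v w a b t * pVy v w a b m C η t +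
      c * (pe v w a b t * pl b t) - pe v w a b t * pl a t * pl b t)
    (g := fun t => -(v * (pe v w a b t * pl a t * pVx v w a b C κ t)) -
      w * (pe v w a b t * pl b t * pVx v w a b C κ t) + pe v w a b t * pVx v w a b C κ t -
      c * (pe v w a b t * pl a t) + pe v w a b t * pl a t * pl a t)
    (by fun_prop) (by fun_prop) (fun t ht => by
      have d1 := pe_deriv v w a b ht
      have d2 := pVx_deriv v w a b C κ ht
      have d3 := pVy_deriv v w a b m C η ht
      have d4 := deriv_pl a ht
      have d5 := deriv_pl b ht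
      refine (d1.mul ((d2.mul d5).sub (d3.mul d4))).congr_deriv ?_
      rw [hpt t]
      simp only [Pi.sub_apply, Pi.mul_apply]
      ring) 0 m
  -- split the integrals
  have j : ∀ (c : ℕ → ℝ) (g : ℝ → ℝ), Continuous g →
      IntervalIntegrable (fun t => g t * dpl c t) volume 0 m := fun c g hg => mul_ii c hg 0 m
  have cX1 : Continuous fun t => pe v w a b t * pl a t * pVy v w a b m C η t := by fun_prop
  have cX2 : Continuous fun t => pe v w a b t * pl b t * pVy v w a b m C η t := by fun_prop
  have cX3 : Continuous fun t => pe v w a b t * pVy v w a b m C η t := by fun_prop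
  have cX4 : Continuous fun t => pe v w a b t * pl b t := by fun_prop
  have cX5 : Continuous fun t => pe v w a b t * pl a t * pl b t := by fun_prop
  have cY1 : Continuous fun t => pe v w a b t * pl a t * pVx v w a b C κ t := by fun_prop
  have cY2 : Continuous fun t => pe v w a b t * pl b t * pVx v w a b C κ t := by fun_prop
  have cY3 : Continuous fun t => pe v w a b t * pVx v w a b C κ t := by fun_prop
  have cY4 : Continuous fun t => pe v w a b t * pl a t := by fun_prop
  have cY5 : Continuous fun t => pe v w a b t * pl a t * pl a t := by fun_prop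
  have e1 : (∫ t in (0 : ℝ)..m, (v * (pe v w a b t * pl a t * pVy v w a b m C η t) +
      w * (pe v w a b t * pl b t * pVy v w a b m C η t) - pe v w a b t * pVy v w a b m C η t +
      c * (pe v w a b t * pl b t) - pe v w a b t * pl a t * pl b t) * dpl a t) =
      v * (∫ t in (0 : ℝ)..m, (pe v w a b t * pl a t * pVy v w a b m C η t) * dpl a t) +
      w * (∫ t in (0 : ℝ)..m, (pe v w a b t * pl b t * pVy v w a b m C η t) * dpl a t) -
      (∫ t in (0 : ℝ)..m, (pe v w a b t * pVy v w a b m C η t) * dpl a t) +
      c * (∫ t in (0 : ℝ)..m, (pe v w a b t * pl b t) * dpl a t) -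
      ∫ t in (0 : ℝ)..m, (pe v w a b t * pl a t * pl b t) * dpl a t := by
    rw [← intervalIntegral.integral_const_mul, ← intervalIntegral.integral_const_mul,
      ← intervalIntegral.integral_const_mul,
      ← intervalIntegral.integral_add ((j a _ cX1).const_mul v) ((j a _ cX2).const_mul w),
      ← intervalIntegral.integral_sub (((j a _ cX1).const_mul v).add ((j a _ cX2).const_mul w))
        (j a _ cX3),
      ← intervalIntegral.integral_add ((((j a _ cX1).const_mul v).add
        ((j a _ cX2).const_mul w)).sub (j a _ cX3)) ((j a _ cX4).const_mul c),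
      ← intervalIntegral.integral_sub (((((j a _ cX1).const_mul v).add
        ((j a _ cX2).const_mul w)).sub (j a _ cX3)).add ((j a _ cX4).const_mul c))
        (j a _ cX5)]
    refine intervalIntegral.integral_congr fun t _ => ?_
    ring
  have e2 : (∫ t in (0 : ℝ)..m, (-(v * (pe v w a b t * pl a t * pVx v w a b C κ t)) -
      w * (pe v w a b t * pl b t * pVx v w a b C κ t) + pe v w a b t * pVx v w a b C κ t -
      c * (pe v w a b t * pl a t) + pe v w a b t * pl a t * pl a t) * dpl b t) =
      (-v) * (∫ t in (0 : ℝ)..m, (pe v w a b t * pl a t * pVx v w a b C κ t) * dpl b t) -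
      w * (∫ t in (0 : ℝ)..m, (pe v w a b t * pl b t * pVx v w a b C κ t) * dpl b t) +
      (∫ t in (0 : ℝ)..m, (pe v w a b t * pVx v w a b C κ t) * dpl b t) -
      c * (∫ t in (0 : ℝ)..m, (pe v w a b t * pl a t) * dpl b t) +
      ∫ t in (0 : ℝ)..m, (pe v w a b t * pl a t * pl a t) * dpl b t := by
    rw [← intervalIntegral.integral_const_mul, ← intervalIntegral.integral_const_mul,
      ← intervalIntegral.integral_const_mul,
      ← intervalIntegral.integral_sub ((j b _ cY1).const_mul (-v)) ((j b _ cY2).const_mul w),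
      ← intervalIntegral.integral_add (((j b _ cY1).const_mul (-v)).sub
        ((j b _ cY2).const_mul w)) (j b _ cY3),
      ← intervalIntegral.integral_sub ((((j b _ cY1).const_mul (-v)).sub
        ((j b _ cY2).const_mul w)).add (j b _ cY3)) ((j b _ cY4).const_mul c),
      ← intervalIntegral.integral_add (((((j b _ cY1).const_mul (-v)).sub
        ((j b _ cY2).const_mul w)).add (j b _ cY3)).sub ((j b _ cY4).const_mul c))
        (j b _ cY5)]
    refine intervalIntegral.integral_congr fun t _ => ?_
    ring
  rw [e1, e2] at h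
  -- the boundary terms
  have hVy0 : pl a (m : ℝ) = 0 := by rw [pl_nat, ham]
  have hVx0 : pVx v w a b C κ 0 = -κ := by simp [pVx]
  have hpa0 : pl a 0 = 0 := by rw [pl_zero, ha0]
  have hpb0 : pl b 0 = b 0 := pl_zero b
  have hpbm : pl b (m : ℝ) = b m := pl_nat b m
  have hem : pe v w a b m = Real.exp (-(w * b m)) := by
    rw [pe_eq, hVy0, hpbm]; simp
  have he0 : pe v w a b 0 = Real.exp (-(w * b 0)) := by
    rw [pe_eq, hpa0, hpb0]; simp
  simp only [hV, hVx0, hVy0, hpa0, hpb0, hpbm, hem, he0] at h
  -- split PV, PX, PY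
  have sPV : (∫ t in (0 : ℝ)..m, pe v w a b t *
      (pVx v w a b C κ t * dpl b t - pVy v w a b m C η t * dpl a t)) =
      (∫ t in (0 : ℝ)..m, (pe v w a b t * pVx v w a b C κ t) * dpl b t) -
      ∫ t in (0 : ℝ)..m, (pe v w a b t * pVy v w a b m C η t) * dpl a t := by
    rw [← intervalIntegral.integral_sub (j b _ cY3) (j a _ cX3)]
    refine intervalIntegral.integral_congr fun t _ => ?_
    ring
  have sPX : (∫ t in (0 : ℝ)..m, pe v w a b t * pl a t *
      (pVx v w a b C κ t * dpl b t - pVy v w a b m C η t * dpl a t)) =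
      (∫ t in (0 : ℝ)..m, (pe v w a b t * pl a t * pVx v w a b C κ t) * dpl b t) -
      ∫ t in (0 : ℝ)..m, (pe v w a b t * pl a t * pVy v w a b m C η t) * dpl a t := by
    rw [← intervalIntegral.integral_sub (j b _ cY1) (j a _ cX1)]
    refine intervalIntegral.integral_congr fun t _ => ?_
    ring
  have sPY : (∫ t in (0 : ℝ)..m, pe v w a b t * pl b t *
      (pVx v w a b C κ t * dpl b t - pVy v w a b m C η t * dpl a t)) =
      (∫ t in (0 : ℝ)..m, (pe v w a b t * pl b t * pVx v w a b C κ t) * dpl b t) -
      ∫ t in (0 : ℝ)..m, (pe v w a b t * pl b t * pVy v w a b m C η t) * dpl a t := by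
    rw [← intervalIntegral.integral_sub (j b _ cY2) (j a _ cX2)]
    refine intervalIntegral.integral_congr fun t _ => ?_
    ring
  rw [sPV, int_mE] at hPV
  rw [sPX] at hPX
  rw [sPY, int_mL] at hPY
  have hA := int_A (v := v) (w := w) (a := a) (b := b) (m := m) ha0 ham
  have hB := int_B (v := v) (w := w) (a := a) (b := b) (m := m) ha0 ham
  have k1 := mul_mL w (b m)
  have k0 := mul_mL w (b 0)
  have hIx : (∫ t in (0 : ℝ)..m, pl a t * pq v w a b t * dpl a t) = Ixq v w a b m := rfl
  have hmLu : (∫ t in (0 : ℝ)..m, mL v (pl a t) * pu v w a b C t * dpl b t) =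
      ∫ t in (0 : ℝ)..m, (mL v (pl a t) * pu v w a b C t) * dpl b t := rfl
  rw [hIx] at hPV hPX
  linear_combination -h - v * hPX - w * hPY + hPV - c * hA + hB + v * h4 + κ * k1 -
    κ * k0 - w * h3 - hC
end

end Pool.Agent.Work.MP_b5407d_pos_h13
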