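import Pool.Agent.Work.MP_b5407d_pos_helper13.Green
import Pool.Agent.Work.MP_b5407d_pos_helper13.CJ

/-! # MP_b5407d_gt (POS): area integrals of the polygon (helper13) -/

set_option autoImplicit false

open MeasureTheory Set Filter Topology

namespace Pool.Agent.Work.MP_b5407d_pos_h13

open Pool.LBM Pool.LBM.Path

theorem mE_contDiff (w : ℝ) : ContDiff ℝ 1 (mE w) := by
  rw [contDiff_one_iff_deriv]
  refine ⟨fun x => (mE_deriv w x).differentiableAt, ?_⟩
  have : deriv (mE w) = fun x => Real.exp (-(w * x)) := by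
    funext x; exact (mE_deriv w x).deriv
  rw [this]; fun_prop

theorem mL_contDiff (w : ℝ) : ContDiff ℝ 1 (mL w) := by
  rw [contDiff_one_iff_deriv]
  refine ⟨fun x => (mL_deriv w x).differentiableAt, ?_⟩
  have : deriv (mL w) = fun x => x * Real.exp (-(w * x)) := by
    funext x; exact (mL_deriv w x).deriv
  rw [this]; fun_prop

theorem fderiv_dir {Φ : R2 → ℝ} (hΦ : ContDiff ℝ 1 Φ) (z t : R2) {D : ℝ}
    (h : HasDerivAt (fun s : ℝ => Φ (z + s • t)) D 0) : fderiv ℝ Φ z t = D := by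
  have h1 := (hΦ.differentiable (by norm_num) z).lineDeriv_eq_fderiv (v := t)
  rw [← h1]
  exact h.deriv

theorem cd_fst : ContDiff ℝ 1 (fun z : R2 => z.1) := contDiff_fst
theorem cd_snd : ContDiff ℝ 1 (fun z : R2 => z.2) := contDiff_snd

theorem cd_exp1 (v : ℝ) : ContDiff ℝ 1 (fun z : R2 => Real.exp (-(v * z.1))) :=
  Real.contDiff_exp.comp (contDiff_const.mul cd_fst).neg

section
variable {v w : ℝ} {a b : ℕ → ℝ} {m : ℕ}

theorem pJ_area (h : CP m a b) :
    ∫ z in KK m a b, Real.exp (-(v * z.1) - w * z.2) = pJ v w a b m := by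
  have hΦ : ContDiff ℝ 1 (fun z : R2 => Real.exp (-(v * z.1)) * mE w z.2) :=
    (cd_exp1 v).mul ((mE_contDiff w).comp cd_snd)
  have h1 := green_y h hΦ
  have h2 : ∀ z : R2, fderiv ℝ (fun z : R2 => Real.exp (-(v * z.1)) * mE w z.2) z (0, 1) =
      Real.exp (-(v * z.1) - w * z.2) := by
    intro z
    apply fderiv_dir hΦ
    have h3 : HasDerivAt (fun s : ℝ => Real.exp (-(v * z.1)) * mE w (z.2 + s))
        (Real.exp (-(v * z.1)) * (Real.exp (-(w * (z.2 + 0))) * 1)) 0 :=
      ((mE_deriv w (z.2 + 0)).comp 0 ((hasDerivAt_id (0:ℝ)).const_add z.2)).const_mul _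
    have h4 : (fun s : ℝ => Real.exp (-(v * (z + s • ((0:ℝ), (1:ℝ))).1)) *
        mE w (z + s • ((0:ℝ), (1:ℝ))).2) = fun s : ℝ => Real.exp (-(v * z.1)) * mE w (z.2 + s) := by
      funext s; simp
    rw [h4]
    refine h3.congr_deriv ?_
    rw [mul_one, ← Real.exp_add]; congr 1; ring
  simp only [h2] at h1
  rw [h1]
  unfold pJ pL
  rfl

theorem pd_area (h : CP m a b) :
    ∫ z in KK m a b, Real.exp (v * z.1 + w * z.2) = pd v w a b m := by
  have hΦ : ContDiff ℝ 1 (fun z : R2 => mE v z.1 * Real.exp (v * z.1 + w * z.2)) :=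
    ((mE_contDiff v).comp cd_fst).mul (Real.contDiff_exp.comp
      ((contDiff_const.mul cd_fst).add (contDiff_const.mul cd_snd)))
  have h1 := green_x h hΦ
  have h2 : ∀ z : R2, fderiv ℝ (fun z : R2 => mE v z.1 * Real.exp (v * z.1 + w * z.2)) z
      (1, 0) = Real.exp (v * z.1 + w * z.2) := by
    intro z
    apply fderiv_dir hΦ
    have h5 : HasDerivAt (fun s : ℝ => Real.exp (v * (z.1 + s) + w * z.2))
        (Real.exp (v * (z.1 + 0) + w * z.2) * (v * 1)) 0 :=
      ((((hasDerivAt_id (0:ℝ)).const_add z.1).const_mul v).add_const (w * z.2)).exp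
    have h3 := ((mE_deriv v (z.1 + 0)).comp 0 ((hasDerivAt_id (0:ℝ)).const_add z.1)).mul h5
    have h4 : (fun s : ℝ => mE v (z + s • ((1:ℝ), (0:ℝ))).1 *
        Real.exp (v * (z + s • ((1:ℝ), (0:ℝ))).1 + w * (z + s • ((1:ℝ), (0:ℝ))).2)) =
        fun s : ℝ => mE v (z.1 + s) * Real.exp (v * (z.1 + s) + w * z.2) := by
      funext s; simp
    rw [h4]
    refine h3.congr_deriv ?_
    have h6 := mul_mE v z.1
    simp only [Function.comp, add_zero, mul_one]
    linear_combination Real.exp (v * z.1 + w * z.2) * h6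
  simp only [h2] at h1
  rw [h1]
  simp only [mE_zero, zero_mul, intervalIntegral.integral_zero, add_zero]
  unfold pd
  refine intervalIntegral.integral_congr fun t _ => ?_
  simp only [pe, div_eq_mul_inv, ← Real.exp_neg]
  congr 3; ring

theorem Ixq_area (h : CP m a b) :
    ∫ z in KK m a b, z.1 * Real.exp (-(v * z.1) - w * z.2) = -Ixq v w a b m := by
  have hΦ : ContDiff ℝ 1 (fun z : R2 => z.1 * (Real.exp (-(v * z.1)) * mE w z.2)) :=
    cd_fst.mul ((cd_exp1 v).mul ((mE_contDiff w).comp cd_snd))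
  have h1 := green_y h hΦ
  have h2 : ∀ z : R2, fderiv ℝ (fun z : R2 => z.1 * (Real.exp (-(v * z.1)) * mE w z.2)) z
      (0, 1) = z.1 * Real.exp (-(v * z.1) - w * z.2) := by
    intro z
    apply fderiv_dir hΦ
    have h3 : HasDerivAt (fun s : ℝ => z.1 * (Real.exp (-(v * z.1)) * mE w (z.2 + s)))
        (z.1 * (Real.exp (-(v * z.1)) * (Real.exp (-(w * (z.2 + 0))) * 1))) 0 :=
      (((mE_deriv w (z.2 + 0)).comp 0 ((hasDerivAt_id (0:ℝ)).const_add z.2)).const_mul
        _).const_mul _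
    have h4 : (fun s : ℝ => (z + s • ((0:ℝ), (1:ℝ))).1 *
        (Real.exp (-(v * (z + s • ((0:ℝ), (1:ℝ))).1)) *
        mE w (z + s • ((0:ℝ), (1:ℝ))).2)) =
        fun s : ℝ => z.1 * (Real.exp (-(v * z.1)) * mE w (z.2 + s)) := by
      funext s; simp
    rw [h4]
    refine h3.congr_deriv ?_
    rw [mul_one, ← Real.exp_add]; congr 2; ring
  simp only [h2] at h1
  rw [h1]
  unfold Ixq
  congr 1

theorem Iyq_area (h : CP m a b) :
    ∫ z in KK m a b, z.2 * Real.exp (-(v * z.1) - w * z.2) =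
      -∫ t in (0 : ℝ)..m, Real.exp (-(v * pl a t)) * mL w (pl b t) * dpl a t := by
  have hΦ : ContDiff ℝ 1 (fun z : R2 => Real.exp (-(v * z.1)) * mL w z.2) :=
    (cd_exp1 v).mul ((mL_contDiff w).comp cd_snd)
  have h1 := green_y h hΦ
  have h2 : ∀ z : R2, fderiv ℝ (fun z : R2 => Real.exp (-(v * z.1)) * mL w z.2) z (0, 1) =
      z.2 * Real.exp (-(v * z.1) - w * z.2) := by
    intro z
    apply fderiv_dir hΦ
    have h3 : HasDerivAt (fun s : ℝ => Real.exp (-(v * z.1)) * mL w (z.2 + s))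
        (Real.exp (-(v * z.1)) * ((z.2 + 0) * Real.exp (-(w * (z.2 + 0))) * 1)) 0 :=
      ((mL_deriv w (z.2 + 0)).comp 0 ((hasDerivAt_id (0:ℝ)).const_add z.2)).const_mul _
    have h4 : (fun s : ℝ => Real.exp (-(v * (z + s • ((0:ℝ), (1:ℝ))).1)) *
        mL w (z + s • ((0:ℝ), (1:ℝ))).2) = fun s : ℝ => Real.exp (-(v * z.1)) * mL w (z.2 + s) := by
      funext s; simp
    rw [h4]
    refine h3.congr_deriv ?_
    have e : Real.exp (-(v * z.1) - w * z.2) = Real.exp (-(v * z.1)) * Real.exp (-(w * z.2)) := by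
      rw [← Real.exp_add]; congr 1
    rw [e, add_zero, mul_one]; ring
  simp only [h2] at h1
  rw [h1]

theorem pJ_pos (h : CP m a b) : 0 < pJ v w a b m := by
  rw [← pJ_area h]
  have hc : Continuous fun z : R2 => Real.exp (-(v * z.1) - w * z.2) := by fun_prop
  rw [setIntegral_pos_iff_support_of_nonneg_ae
    (Eventually.of_forall fun z => (Real.exp_pos _).le)
    (hc.continuousOn.integrableOn_compact (KK_compact h))]
  have hs : Function.support (fun z : R2 => Real.exp (-(v * z.1) - w * z.2)) = univ := by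
    ext z; simp [Real.exp_ne_zero]
  rw [hs, univ_inter]
  exact lt_of_lt_of_le (isOpen_interior.measure_pos volume (KK_interior h))
    (measure_mono interior_subset)

theorem pd_pos (h : CP m a b) : 0 < pd v w a b m := by
  rw [← pd_area h]
  have hc : Continuous fun z : R2 => Real.exp (v * z.1 + w * z.2) := by fun_prop
  rw [setIntegral_pos_iff_support_of_nonneg_ae
    (Eventually.of_forall fun z => (Real.exp_pos _).le)
    (hc.continuousOn.integrableOn_compact (KK_compact h))]
  have hs : Function.support (fun z : R2 => Real.exp (v * z.1 + w * z.2)) = univ := by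
    ext z; simp [Real.exp_ne_zero]
  rw [hs, univ_inter]
  exact lt_of_lt_of_le (isOpen_interior.measure_pos volume (KK_interior h))
    (measure_mono interior_subset)

end

end Pool.Agent.Work.MP_b5407d_pos_h13
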