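import Pool.Agent.Work.MP_b5407d_lbm.Interface

/-! # MP_b5407d_gt, POS, corner case: blocks (helper13)

All functionals are those of `MP_b5407d_lbm.Interface`.  They depend only on `a k, b k`, `k ≤ m`
(on `[0,m]`, up to a null set).

* `LIP`: the functionals are Lipschitz in the vertices on bounded sets.  Proof: small calculus:
  call `F : (vertices) → ℝ → ℝ` good if on every box `|F p t| ≤ C` and
  `|F p t - F p' t| ≤ C dst p p'` for `t ∈ [0,m]`; good functions are closed under sums, products,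
  composition with locally Lipschitz functions (`exp`, `mE v`, `mL v`), primitives
  `t ↦ ∫_0^t F p s * dpl a s ds` (also with `dpl b`), multiplication by a fixed bounded function
  (the indicator `1[r+1 ≤ t]`); `pl a`, `dpl a` are good (for `dpl a` use `t ∈ [0,m)`).
  `1/pe = exp (v x + w y)` is good as well.
* `REM`: a vertex on the segment of its neighbours can be removed.  `pl a = pl a' ∘ φ` on `[0,m+1]`
  with `φ = pl c`, `c j = j` for `j ≤ k`, `c (k+1) = k + θ`, `c j = j - 1` for `j ≥ k + 2`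
  (`φ` may be constant on one edge, if `θ = 0` or `θ = 1`).  So all primitives correspond.
* `REM0`: the first edge on `x = 0` can be removed (all integrands vanish there).
* `THIN`: the outer chain is one edge, i.e. `K'` is the triangle `(0,0), (A,0), (0,B)`:
  all functionals are `O(d)`.  Proof: let `δ k = 1 - a k / A - b k / B ≥ 0` (`k ≤ r`), `δ = max`.
  (1) `LIP` with `a' = a`, except `a' r = A`, and `b' k = B (1 - a' k / A)`, (`k ≤ r`),
  `a' = a, b' = b` for `k > r`: `dst ≤ C δ`, and all four functionals of `(a',b')` vanish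
  (every point of the path lies on `y = g(x)`, so every integral is `∫ f(x) dx` over a closed
  path in `x`, `J = 0`).  (2) `pd = pJ (-v) (-w)` (integrate
  `d (m_v(x) e^{vx} m_{-w}(y))`), and substituting `x = x(t)` in the outer edge,
  `d = ∫_0^{r+1} e^{vx} (m_{-w}(g(x)) - m_{-w}(y)) x' dt ≥ c ∫_0^{r+1} (g(x) - y) x' dt
  = c * area`, `area = 1/2 ∑ cross(P_k, P_(k+1))` and the fan triangulation from the vertex `k*`
  with `δ = δ k*` (all terms `≥ 0` by convexity) gives `area ≥ A B δ / 2`.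
* `GLUE`: a strictly convex decreasing near chain `(X,Y)` from `(0,Y 0)` to `(X r,0)` glued to the
  outer chain of `K'` (`Std m 0 a b`) gives a polygon in standard position.  Proof of `conv`:
  near-near-near: sum over the edges; outer-outer-outer: from `K'`; near `i`, near `j`, outer `k`:
  the affine function `f z = cross(P_j - P_i, z - P_i)` has positive gradient, `f(T), f(S) ≥ 0`,
  `f(O) < 0`, `f(a 1, 0) > 0`, `f(0, b m) > 0` and `P_k = α (a 1,0) + β (0,b m)` with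
  `α, β ≥ 0`, `α + β ≥ 1` (from `K'`); near `i`, outer `j, k`: `g z = cross(P_k - P_j, z - P_j)`
  has `g(O) > 0`, `g(a 1,0), g(0,b m) ≥ 0` and `P_i = α (a 1,0) + β (0,b m)` with `α, β ≥ 0`,
  `α + β < 1`.
* `GLUW`: the weak version for the triangle (used for `THIN`).
-/

set_option autoImplicit false

open MeasureTheory Set Filter Topology

namespace Pool.Agent.Work.MP_b5407d_pos_h13

open Pool.LBM

/-- distance of two paths -/
noncomputable def dst (m : ℕ) (a b a' b' : ℕ → ℝ) : ℝ :=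
  ∑ k ∈ Finset.range (m + 1), (|a k - a' k| + |b k - b' k|)

/-- removal of the vertex `k` -/
def rem (k : ℕ) (a : ℕ → ℝ) : ℕ → ℝ := fun j => if j < k then a j else a (j + 1)

def Stmt_LIP : Prop := ∀ (m r : ℕ) (v w B : ℝ), ∃ Λ : ℝ, 0 ≤ Λ ∧ ∀ a b a' b' : ℕ → ℝ,
  (∀ k ≤ m, |a k| ≤ B ∧ |b k| ≤ B ∧ |a' k| ≤ B ∧ |b' k| ≤ B) →
  |pd v w a b m - pd v w a' b' m| ≤ Λ * dst m a b a' b' ∧
  |pP v w a b m - pP v w a' b' m| ≤ Λ * dst m a b a' b' ∧
  |pN v w a b m r - pN v w a' b' m r| ≤ Λ * dst m a b a' b' ∧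
  |pM v w a b m r - pM v w a' b' m r| ≤ Λ * dst m a b a' b'

def Stmt_REM : Prop := ∀ (m r k : ℕ) (a b : ℕ → ℝ) (v w θ : ℝ), k ≤ r → r < m →
  0 ≤ θ → θ ≤ 1 → a (k + 1) = (1 - θ) * a k + θ * a (k + 2) →
  b (k + 1) = (1 - θ) * b k + θ * b (k + 2) →
  pd v w a b (m + 1) = pd v w (rem (k + 1) a) (rem (k + 1) b) m ∧
  pP v w a b (m + 1) = pP v w (rem (k + 1) a) (rem (k + 1) b) m ∧
  pN v w a b (m + 1) (r + 1) = pN v w (rem (k + 1) a) (rem (k + 1) b) m r ∧
  pM v w a b (m + 1) (r + 1) = pM v w (rem (k + 1) a) (rem (k + 1) b) m r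

def Stmt_REM0 : Prop := ∀ (m r : ℕ) (a b : ℕ → ℝ) (v w : ℝ), r < m → a 0 = 0 → a 1 = 0 →
  pd v w a b (m + 1) = pd v w (rem 0 a) (rem 0 b) m ∧
  pP v w a b (m + 1) = pP v w (rem 0 a) (rem 0 b) m ∧
  pN v w a b (m + 1) (r + 1) = pN v w (rem 0 a) (rem 0 b) m r ∧
  pM v w a b (m + 1) (r + 1) = pM v w (rem 0 a) (rem 0 b) m r

def Stmt_THIN : Prop := Stmt_LIP → ∀ (r : ℕ) (v w A B : ℝ), 0 < A → 0 < B → ∃ Λ : ℝ,
  ∀ a b : ℕ → ℝ, a 0 = 0 → b r = 0 → a (r + 1) = A → b (r + 1) = 0 → a (r + 2) = 0 →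
  b (r + 2) = B → (∀ k < r, a k ≤ a (k + 1) ∧ b (k + 1) ≤ b k) → a r ≤ A → b 0 ≤ B →
  (∀ i j k, i < j → j < k → k ≤ r + 2 →
    0 ≤ (a j - a i) * (b k - b i) - (b j - b i) * (a k - a i)) →
  0 ≤ pd v w a b (r + 2) ∧
  |pP v w a b (r + 2)| ≤ Λ * pd v w a b (r + 2) ∧
  |pN v w a b (r + 2) r| ≤ Λ * pd v w a b (r + 2) ∧
  |pM v w a b (r + 2) r| ≤ Λ * pd v w a b (r + 2)

/-- near chain `X`, then the outer vertices of `K'` -/
def glu (r : ℕ) (X o : ℕ → ℝ) : ℕ → ℝ := fun k => if k ≤ r then X k else o (k - r)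

def Stmt_GLUE : Prop := ∀ (m r : ℕ) (a b X Y : ℕ → ℝ), Std m 0 a b → X 0 = 0 → Y r = 0 →
  (∀ k < r, X k < X (k + 1) ∧ Y (k + 1) < Y k) →
  (∀ k, k + 1 < r → (Y (k + 1) - Y (k + 2)) * (X (k + 1) - X k) <
    (Y k - Y (k + 1)) * (X (k + 2) - X (k + 1))) →
  1 ≤ r → X r < a 1 → Y 0 < b m → Std (m + r) r (glu r X a) (glu r Y b)

def Stmt_GLUW : Prop := ∀ (r : ℕ) (X Y : ℕ → ℝ) (A B : ℝ), 0 < A → 0 < B → X 0 = 0 → Y r = 0 →
  (∀ k < r, X k ≤ X (k + 1) ∧ Y (k + 1) ≤ Y k) →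
  (∀ i j k, i < j → j < k → k ≤ r →
    0 ≤ (X j - X i) * (Y k - Y i) - (Y j - Y i) * (X k - X i)) →
  X r ≤ A → Y 0 ≤ B → X (r + 1) = A → Y (r + 1) = 0 → X (r + 2) = 0 → Y (r + 2) = B →
  (∀ i j k, i < j → j < k → k ≤ r + 2 →
    0 ≤ (X j - X i) * (Y k - Y i) - (Y j - Y i) * (X k - X i))

end Pool.Agent.Work.MP_b5407d_pos_h13
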