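import Pool.Agent.Work.MP_b5407d_pos_helper13.Weak

/-! # MP_b5407d_gt (POS): boundary cases (helper13) -/

set_option autoImplicit false

open MeasureTheory Set Filter Topology

namespace Pool.Agent.Work.MP_b5407d_pos_h13

open Pool.LBM Pool.LBM.Path

section
variable {M r q : ℕ} {a b X Y : ℕ → ℝ} {v w : ℝ}

theorem sc_scale (S : SC r X Y) {s1 s2 : ℝ} (h1 : 0 < s1) (h2 : 0 < s2) :
    SC r (fun k => s1 * X k) (fun k => s2 * Y k) := by
  refine ⟨fun k hk => ?_, fun k hk => ?_⟩
  · obtain ⟨m1, m2⟩ := S.1 k hk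
    exact ⟨mul_lt_mul_of_pos_left m1 h1, mul_lt_mul_of_pos_left m2 h2⟩
  · have h := mul_lt_mul_of_pos_left (S.2 k hk) (mul_pos h1 h2)
    show (s2 * Y (k + 1) - s2 * Y (k + 2)) * (s1 * X (k + 1) - s1 * X k) <
      (s2 * Y k - s2 * Y (k + 1)) * (s1 * X (k + 2) - s1 * X (k + 1))
    linarith

theorem cd_of (K' : Std M 0 a b) (hr : 1 ≤ r) (hX0 : X 0 = 0) (hYr : Y r = 0)
    (S : SC r X Y) (h1 : X r < a 1) (h2 : Y 0 < b M) : CD M r a b X Y :=
  ⟨K', Pool.Agent.Work.MP_b5407d_pos_h29_glue.blk_GLUE M r a b X Y K' hX0 hYr S.1 S.2 hr h1 h2,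
    hr⟩

theorem CD.sc (D : CD M r a b X Y) : SC r X Y := by
  refine ⟨fun k hk => D.near hk, fun i hi => ?_⟩
  have h := D.K.conv i (i + 1) (i + 2) (by omega) (by omega) (by omega)
  rw [glu_le a (by omega : i ≤ r), glu_le a (by omega : i + 1 ≤ r),
    glu_le a (by omega : i + 2 ≤ r), glu_le b (by omega : i ≤ r),
    glu_le b (by omega : i + 1 ≤ r), glu_le b (by omega : i + 2 ≤ r)] at h
  linarith

theorem CD.wc (D : CD M r a b X Y) : WC M r a b X Y := by
  refine ⟨D.X0, D.Yr, fun k hk => ⟨(D.near hk).1.le, (D.near hk).2.le⟩, ?_, D.Xr_lt.le,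
    D.Y0_lt.le⟩
  intro i j k hij hjk hk
  have h := D.K.conv i j k hij hjk (by omega)
  rw [glu_le a (by omega : i ≤ r), glu_le a (by omega : j ≤ r), glu_le a hk,
    glu_le b (by omega : i ≤ r), glu_le b (by omega : j ≤ r), glu_le b hk] at h
  exact h.le

theorem CD.pi_iff (D : CD M r a b X Y) : PIg v w M r a b X Y ↔
    0 ≤ hK v w (glu r X a) (glu r Y b) (M + r) ((r : ℝ) + 1) :=
  pos_iff (CP_of_Std D.K) r

theorem sc_X_pos (S : SC r X Y) (hX0 : X 0 = 0) (hr : 1 ≤ r) : 0 < X r := by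
  have h : ∀ k, k ≤ r → 1 ≤ k → 0 < X k := by
    intro k
    induction k with
    | zero => intro _ h; omega
    | succ k ih =>
      intro hk _
      have h1 := (S.1 k (by omega)).1
      rcases Nat.eq_zero_or_pos k with h0 | h0
      · subst h0; rw [hX0] at h1; exact h1
      · exact (ih (by omega) h0).trans h1
  exact h r le_rfl hr

theorem sc_Y_pos (S : SC r X Y) (hYr : Y r = 0) (hr : 1 ≤ r) : 0 < Y 0 := by
  have h : ∀ k, k ≤ r → 1 ≤ k → 0 < Y (r - k) := by
    intro k
    induction k with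
    | zero => intro _ h; omega
    | succ k ih =>
      intro hk _
      have h1 := (S.1 (r - (k + 1)) (by omega)).2
      have e : r - (k + 1) + 1 = r - k := by omega
      rw [e] at h1
      rcases Nat.eq_zero_or_pos k with h0 | h0
      · subst h0; rw [Nat.sub_zero, hYr] at h1; exact h1
      · exact (ih (by omega) h0).trans h1
  have := h r le_rfl hr
  rwa [Nat.sub_self] at this

/-- scaled chains are admissible -/
theorem cd_scale (K' : Std M 0 a b) (hr : 1 ≤ r) (W : WC M r a b X Y) (S : SC r X Y)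
    {s1 s2 : ℝ} (h1 : 0 < s1) (h2 : 0 < s2) (h1' : s1 * X r < a 1) (h2' : s2 * Y 0 < b M) :
    CD M r a b (fun k => s1 * X k) (fun k => s2 * Y k) :=
  cd_of K' hr (by simp [W.X0]) (by simp [W.Yr]) (sc_scale S h1 h2) h1' h2'

theorem glu_cont {c : ℕ → ℝ} (f : ℝ → ℝ) (hf : Continuous f) (X : ℕ → ℝ) :
    Continuous (fun t : ℝ => glu r (fun k => f t * X k) c) := by
  refine continuous_pi fun k => ?_
  by_cases h : k ≤ r
  · simp only [glu, h, if_true]
    exact hf.mul continuous_const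
  · simp only [glu, h, if_false]
    exact continuous_const

theorem ev_Ioo : ∀ᶠ t in 𝓝[>] (0 : ℝ), 0 < t ∧ t < 1 := Ioo_mem_nhdsGT zero_lt_one

/-- strict chains, interior or not, from the interior ones -/
theorem strict_all (K' : Std M 0 a b) (hr : 1 ≤ r) (W : WC M r a b X Y) (S : SC r X Y)
    (h : ∀ X Y : ℕ → ℝ, CD M r a b X Y → PIg v w M r a b X Y) : PIg v w M r a b X Y := by
  have hXr := sc_X_pos S W.X0 hr
  have hY0 := sc_Y_pos S W.Yr hr
  set γ : ℝ → PP := fun t => (glu r (fun k => (1 - t) * X k) a,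
    glu r (fun k => (1 - t) * Y k) b) with hγ
  have hγc : Continuous γ :=
    (glu_cont _ (continuous_const.sub continuous_id) X).prodMk
      (glu_cont _ (continuous_const.sub continuous_id) Y)
  have h0 : γ 0 = (glu r X a, glu r Y b) := by rw [hγ]; simp
  have hlim := PI_lim v w (M + r) r hγc (by
    filter_upwards [ev_Ioo] with t ht
    refine h _ _ (cd_scale K' hr W S (by linarith [ht.2]) (by linarith [ht.2]) ?_ ?_)
    · have := W.Xr
      nlinarith [ht.1, ht.2]
    · have := W.Y0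
      nlinarith [ht.1, ht.2])
  rw [h0] at hlim
  exact hlim

/-- all weak chains with fewer edges -/
theorem weak_all (R : ℕ) (K' : Std M 0 a b)
    (hNC : PI v w M 0 a b)
    (h : ∀ r, 1 ≤ r → r ≤ R → ∀ X Y : ℕ → ℝ, CD M r a b X Y → PIg v w M r a b X Y) :
    ∀ r ≤ R, ∀ X Y : ℕ → ℝ, WC M r a b X Y → PIg v w M r a b X Y := by
  have hM : 1 ≤ M := K'.lt
  intro r
  induction r with
  | zero =>
    intro _ X Y W
    have e1 : glu 0 X a = a := by
      funext k
      by_cases hk : k ≤ 0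
      · have : k = 0 := by omega
        subst this
        rw [glu_le a le_rfl, W.X0, K'.a0]
      · simp [glu, hk]
    have e2 : glu 0 Y b = b := by
      funext k
      by_cases hk : k ≤ 0
      · have : k = 0 := by omega
        subst this
        rw [glu_le b le_rfl, W.Yr, K'.br]
      · simp [glu, hk]
    unfold PIg
    rw [e1, e2]
    exact hNC
  | succ r ih =>
    intro hr X Y W
    rcases reduce hM K'.br1 W with hS | ⟨X', Y', W', himp⟩
    · exact strict_all K' (by omega) W hS (h (r + 1) (by omega) hr)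
    · exact himp v w (ih (by omega) X' Y' W')

/-- boundary case 1 -/
theorem boundary1 (K' : Std M 0 a b) (W : WC M (q + 1) a b X Y) (S : SC (q + 1) X Y)
    (hX : X (q + 1) = a 1) (hY : Y 0 < b M)
    (IH : ∀ (r : ℕ) (a b : ℕ → ℝ) (v w : ℝ), Std (M + q) r a b → PI v w (M + q) r a b) :
    PIg v w M (q + 1) a b X Y := by
  have hM : 1 < M := std_r1_lt K'
  have ha1 : 0 < a 1 := by
    have h1 := K'.bot
    rw [K'.a0, zero_add] at h1
    exact h1
  have hb1 : b 1 = 0 := K'.br1
  set al : ℕ → ℝ := fun k => if k = 1 then 1 else 0 with hal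
  have hev := CP_open (CP_of_Std K') (al := al) (by simp [hal]) (by simp [hal]; omega)
  obtain ⟨t, ht, ht0⟩ := ((hev.filter_mono (nhdsWithin_le_nhds (s := Ioi (0:ℝ)))).and
    self_mem_nhdsWithin).exists
  have ht0' : 0 < t := ht0
  set a2 : ℕ → ℝ := fun k => a k + t * al k with ha2
  have a21 : a2 1 = a 1 + t := by simp [ha2, hal]
  have a2k : ∀ k, k ≠ 1 → a2 k = a k := fun k hk => by simp [ha2, hal, hk]
  have K2 : Std M 0 a2 b := by
    refine ⟨K'.lt, ht.conv, ht.a0, ht.am, K'.left, K'.br, K'.br1, ?_⟩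
    rw [zero_add, a21, a2k 0 (by omega), K'.a0]
    linarith
  have G := (cd_of K2 (by omega) W.X0 W.Yr S (by rw [hX, a21]; linarith) hY).K
  set A := glu q (rem (q + 1) X) a with hA
  set B := glu q (rem (q + 1) Y) b with hB
  have vA : ∀ i, A i = glu (q + 1) X a2 (if i ≤ q + 1 then i else i + 1) := by
    intro i
    by_cases h1 : i ≤ q
    · have h2 : i ≤ q + 1 := by omega
      have h3 : i < q + 1 := by omega
      simp [hA, glu, rem, h1, h2, h3]
    · rcases Nat.lt_or_ge (q + 1) i with h2 | h2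
      · have h3 : ¬ i ≤ q + 1 := by omega
        have h4 : ¬ i + 1 ≤ q + 1 := by omega
        have h5 : i + 1 - (q + 1) = i - q := by omega
        have h6 := a2k (i - q) (by omega)
        simp only [hA, glu, h1, h3, h4, if_false, h5, h6]
      · have h3 : i = q + 1 := by omega
        subst h3
        have h5 : q + 1 - q = 1 := by omega
        simp [hA, glu, h5, hX]
  have vB : ∀ i, B i = glu (q + 1) Y b (if i ≤ q + 1 then i else i + 1) := by
    intro i
    by_cases h1 : i ≤ q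
    · have h2 : i ≤ q + 1 := by omega
      have h3 : i < q + 1 := by omega
      simp [hB, glu, rem, h1, h2, h3]
    · rcases Nat.lt_or_ge (q + 1) i with h2 | h2
      · have h3 : ¬ i ≤ q + 1 := by omega
        have h4 : ¬ i + 1 ≤ q + 1 := by omega
        have h5 : i + 1 - (q + 1) = i - q := by omega
        simp only [hB, glu, h1, h3, h4, if_false, h5]
      · have h3 : i = q + 1 := by omega
        subst h3
        have h5 : q + 1 - q = 1 := by omega
        simp [hB, glu, h5, W.Yr, hb1]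
  have A0 : A 0 = 0 := by simp [hA, glu, rem, W.X0]
  have Aq1 : A (q + 1) = a 1 := by rw [hA, add_comm q 1, glu_gt a le_rfl]
  have Bq1 : B (q + 1) = 0 := by rw [hB, add_comm q 1, glu_gt b le_rfl, hb1]
  have Bq2 : B (q + 2) = b 2 := by rw [hB, add_comm q 2, glu_gt b (by omega)]
  have Aq : A q = X q := by
    rw [hA, glu_le a le_rfl]; simp [rem]
  have Bq : B q = Y q := by
    rw [hB, glu_le b le_rfl]; simp [rem]
  have B0 : B 0 = Y 0 := by simp [hB, glu, rem]
  have hC : CP (M + q) A B := by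
    refine ⟨by omega, ?_, A0, ?_, ?_⟩
    · intro i j k hij hjk hk
      rw [vA, vA, vA, vB, vB, vB]
      refine G.conv _ _ _ ?_ ?_ ?_
      · split_ifs <;> omega
      · split_ifs <;> omega
      · split_ifs <;> omega
    · rw [hA, glu_gt a (by omega)]; exact K'.am
    · rw [B0, hB, glu_gt b (by omega)]; exact hY
  obtain ⟨m1, m2⟩ := S.1 q (by omega)
  rw [hX] at m1
  rw [W.Yr] at m2
  have hb2 : 0 < b 2 := std_b_pos K' (by omega) (by omega) (by omega)
  have hP : PI v w (M + q) q A B := vertex_case hC (by omega) Bq1 (by rw [Aq, Aq1]; exact m1)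
    (by rw [Bq]; exact m2) (by rw [Bq2]; exact hb2) (by rw [Aq1]; exact ha1) IH
  refine pi_rem (k := q) (θ := 1) (by omega) le_rfl zero_le_one le_rfl ?_ ?_ hP
  · have e : q + 2 = 1 + (q + 1) := by ring
    rw [glu_le a le_rfl, e, glu_gt a le_rfl, hX]; ring
  · have e : q + 2 = 1 + (q + 1) := by ring
    rw [glu_le b le_rfl, e, glu_gt b le_rfl, W.Yr, hb1]; ring

/-- `P N - d M` -/
noncomputable def Fg (v w : ℝ) (m r : ℕ) (p : PP) : ℝ :=
  pP v w p.1 p.2 m * pN v w p.1 p.2 m r - pd v w p.1 p.2 m * pM v w p.1 p.2 m r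

theorem Fg_cont (v w : ℝ) (m r : ℕ) : Continuous (Fg v w m r) :=
  ((pP_cn v w m).mul (pN_cn v w m r)).sub ((pd_cn v w m).mul (pM_cn v w m r))

theorem Fg_iff (m r : ℕ) (p : PP) : PI v w m r p.1 p.2 ↔ 0 ≤ Fg v w m r p := by
  unfold PI Fg
  constructor <;> intro h <;> linarith

theorem Fg_eq {m : ℕ} {a b : ℕ → ℝ} (h : CP m a b) (r : ℕ) :
    Fg v w m r (a, b) = pd v w a b m * hK v w a b m ((r : ℝ) + 1) := by
  have := (pd_pos (v := v) (w := w) h).ne'
  rw [hK_def]
  unfold Fg
  simp only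
  field_simp

theorem Fg_mr (D : CD M r a b X Y) :
    Fg w v (M + r) r (glu r (rv r Y) (mr M 0 b), glu r (rv r X) (mr M 0 a)) =
      Fg v w (M + r) r (glu r X a, glu r Y b) := by
  rw [Fg_eq (CP_of_Std (CD_mr D).K), Fg_eq (CP_of_Std D.K), hK_CD_mr D]
  congr 1
  rw [(cg4 w v r (glu_mr Y b) (glu_mr X a)).1]
  exact (hK_mr v w D.K).2.1

theorem rv_r (X : ℕ → ℝ) : rv r X r = X 0 := by simp [rv]
theorem rv_0 (X : ℕ → ℝ) : rv r X 0 = X r := by simp [rv]

theorem wc_mr (K' : Std M 0 a b) (W : WC M r a b X Y) :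
    WC M r (mr M 0 b) (mr M 0 a) (rv r Y) (rv r X) := by
  have hM : 1 ≤ M := K'.lt
  refine ⟨by rw [rv_0, W.Yr], by rw [rv_r, W.X0], ?_, ?_, ?_, ?_⟩
  · intro k hk
    have h := W.mono (r - (k + 1)) (by omega)
    have e : r - (k + 1) + 1 = r - k := by omega
    rw [e] at h
    exact ⟨h.2, h.1⟩
  · intro i j k hij hjk hk
    have h := W.conv (r - k) (r - j) (r - i) (by omega) (by omega) (by omega)
    simp only [rv]
    linarith
  · rw [rv_r]
    have e : mr M 0 b 1 = b M := by simp [mr]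
    rw [e]; exact W.Y0
  · rw [rv_0]
    have e : mr M 0 a M = a 1 := by
      have h1 : ¬ M = 0 := by omega
      simp [mr, h1]
    rw [e]; exact W.Xr

theorem sc_mr (S : SC r X Y) : SC r (rv r Y) (rv r X) := by
  refine ⟨fun k hk => ?_, fun k hk => ?_⟩
  · have h := S.1 (r - (k + 1)) (by omega)
    have e : r - (k + 1) + 1 = r - k := by omega
    rw [e] at h
    exact ⟨h.2, h.1⟩
  · have h := S.2 (r - (k + 2)) (by omega)
    have e : r - (k + 2) + 1 = r - (k + 1) := by omega
    have e2 : r - (k + 2) + 2 = r - k := by omega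
    rw [e, e2] at h
    simp only [rv]
    linarith

/-- boundary case 2 -/
theorem boundary2 (K' : Std M 0 a b) (W : WC M (q + 1) a b X Y) (S : SC (q + 1) X Y)
    (hX : X (q + 1) < a 1) (hY : Y 0 = b M)
    (IH : ∀ (r : ℕ) (a b : ℕ → ℝ) (v w : ℝ), Std (M + q) r a b → PI v w (M + q) r a b) :
    PIg v w M (q + 1) a b X Y := by
  have hM : 1 ≤ M := K'.lt
  have hXr := sc_X_pos S W.X0 (by omega)
  have hY0 := sc_Y_pos S W.Yr (by omega)
  have e1 : mr M 0 b 1 = b M := by simp [mr]
  have e2 : mr M 0 a M = a 1 := by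
    have h1 : ¬ M = 0 := by omega
    simp [mr, h1]
  have hB := boundary1 (v := w) (w := v) (std_mr K') (wc_mr K' W) (sc_mr S)
    (by rw [rv_r, e1, hY]) (by rw [rv_0, e2]; exact hX) IH
  have hB' : 0 ≤ Fg w v (M + (q + 1)) (q + 1) (glu (q + 1) (rv (q + 1) Y) (mr M 0 b),
    glu (q + 1) (rv (q + 1) X) (mr M 0 a)) := (Fg_iff _ _ _).1 hB
  refine (Fg_iff (M + (q + 1)) (q + 1) (glu (q + 1) X a, glu (q + 1) Y b)).2 ?_
  set γ : ℝ → PP := fun t => (glu (q + 1) (fun k => (1 - t) * X k) a,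
    glu (q + 1) (fun k => (1 - t) * Y k) b) with hγ
  set δ : ℝ → PP := fun t => (glu (q + 1) (fun k => (1 - t) * rv (q + 1) Y k) (mr M 0 b),
    glu (q + 1) (fun k => (1 - t) * rv (q + 1) X k) (mr M 0 a)) with hδ
  have hγc : Continuous γ :=
    (glu_cont _ (continuous_const.sub continuous_id) X).prodMk
      (glu_cont _ (continuous_const.sub continuous_id) Y)
  have hδc : Continuous δ :=
    (glu_cont _ (continuous_const.sub continuous_id) _).prodMk
      (glu_cont _ (continuous_const.sub continuous_id) _)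
  have h0 : γ 0 = (glu (q + 1) X a, glu (q + 1) Y b) := by rw [hγ]; simp
  have h1 : δ 0 = (glu (q + 1) (rv (q + 1) Y) (mr M 0 b),
    glu (q + 1) (rv (q + 1) X) (mr M 0 a)) := by rw [hδ]; simp
  have heq : ∀ᶠ t in 𝓝[>] (0 : ℝ), Fg w v (M + (q + 1)) (q + 1) (δ t) =
      Fg v w (M + (q + 1)) (q + 1) (γ t) := by
    filter_upwards [ev_Ioo] with t ht
    have D : CD M (q + 1) a b (fun k => (1 - t) * X k) (fun k => (1 - t) * Y k) :=
      cd_scale K' (by omega) W S (by linarith [ht.2]) (by linarith [ht.2]) (by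
        have := W.Xr
        nlinarith [ht.1, ht.2]) (by
        have := W.Y0
        nlinarith [ht.1, ht.2])
    have h5 := Fg_mr (v := v) (w := w) D
    have e3 : rv (q + 1) (fun k => (1 - t) * Y k) = fun k => (1 - t) * rv (q + 1) Y k := rfl
    have e4 : rv (q + 1) (fun k => (1 - t) * X k) = fun k => (1 - t) * rv (q + 1) X k := rfl
    rw [e3, e4] at h5
    simp only [hδ, hγ]
    exact h5
  have l1 : Tendsto (fun t => Fg w v (M + (q + 1)) (q + 1) (δ t)) (𝓝[>] (0 : ℝ))
      (𝓝 (Fg w v (M + (q + 1)) (q + 1) (δ 0))) :=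
    (((Fg_cont w v _ _).comp hδc).tendsto 0).mono_left nhdsWithin_le_nhds
  have l2 : Tendsto (fun t => Fg v w (M + (q + 1)) (q + 1) (γ t)) (𝓝[>] (0 : ℝ))
      (𝓝 (Fg v w (M + (q + 1)) (q + 1) (γ 0))) :=
    (((Fg_cont v w _ _).comp hγc).tendsto 0).mono_left nhdsWithin_le_nhds
  have h2 := tendsto_nhds_unique (l1.congr' heq) l2
  rw [h0, h1] at h2
  rw [← h2]
  exact hB'

/-- all boundary cases -/
theorem boundary (K' : Std M 0 a b) (W : WC M (q + 1) a b X Y) (S : SC (q + 1) X Y)
    (h : X (q + 1) = a 1 ∨ Y 0 = b M)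
    (IH : ∀ (r : ℕ) (a b : ℕ → ℝ) (v w : ℝ), Std (M + q) r a b → PI v w (M + q) r a b) :
    PIg v w M (q + 1) a b X Y := by
  have hY0 := sc_Y_pos S W.Yr (by omega)
  rcases lt_or_eq_of_le W.Y0 with hY | hY
  · rcases lt_or_eq_of_le W.Xr with hX | hX
    · exfalso
      rcases h with h | h <;> linarith
    · exact boundary1 K' W S hX hY IH
  · rcases lt_or_eq_of_le W.Xr with hX | hX
    · exact boundary2 K' W S hX hY IH
    · set γ : ℝ → PP := fun t => (glu (q + 1) (fun k => 1 * X k) a,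
        glu (q + 1) (fun k => (1 - t) * Y k) b) with hγ
      have hγc : Continuous γ :=
        continuous_const.prodMk (glu_cont _ (continuous_const.sub continuous_id) Y)
      have h0 : γ 0 = (glu (q + 1) X a, glu (q + 1) Y b) := by rw [hγ]; simp
      have hlim := PI_lim v w (M + (q + 1)) (q + 1) hγc (by
        filter_upwards [ev_Ioo] with t ht
        have ht1 : 0 < 1 - t := by linarith [ht.2]
        have hlt : (1 - t) * Y 0 < b M := by nlinarith [ht.1, ht.2]
        refine boundary1 K' ?_ (sc_scale S zero_lt_one ht1) (by rw [one_mul]; exact hX) hlt IH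
        refine ⟨by simp [W.X0], by simp [W.Yr], fun k hk => ?_, fun i j k hij hjk hk => ?_,
          by rw [one_mul]; exact W.Xr, hlt.le⟩
        · obtain ⟨m1, m2⟩ := W.mono k hk
          refine ⟨by rw [one_mul, one_mul]; exact m1, mul_le_mul_of_nonneg_left m2 ht1.le⟩
        · have := mul_nonneg ht1.le (W.conv i j k hij hjk hk)
          linarith)
      rw [h0] at hlim
      exact hlim

end

end Pool.Agent.Work.MP_b5407d_pos_h13
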