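import Pool.Agent.Work.MP_b5407d_pos_helper13.NCglue

/-! # MP_b5407d_gt (POS): continuity in the tilt (helper13) -/

set_option autoImplicit false

open MeasureTheory Set Filter Topology

namespace Pool.Agent.Work.MP_b5407d_pos_h13

open Pool.LBM Pool.LBM.Path

/-- tame families of functions of the time -/
structure Tm (T : ℝ) (F : ℝ × ℝ → ℝ → ℝ) : Prop where
  meas : ∀ p, Measurable (F p)
  cont : ∀ t, 0 ≤ t → t ≤ T → Continuous (fun p => F p t)
  bd : ∀ R : ℝ, ∃ C : ℝ, ∀ p : ℝ × ℝ, ‖p‖ ≤ R → ∀ t, 0 ≤ t → t ≤ T → |F p t| ≤ C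

variable {T : ℝ} {F G : ℝ × ℝ → ℝ → ℝ}

theorem Tm.of_cont (hF : Continuous fun q : (ℝ × ℝ) × ℝ => F q.1 q.2) : Tm T F := by
  refine ⟨fun p => ?_, fun t _ _ => ?_, fun R => ?_⟩
  · have : Continuous (F p) := hF.comp (by fun_prop : Continuous fun t : ℝ => (p, t))
    exact this.measurable
  · exact hF.comp (by fun_prop : Continuous fun p : ℝ × ℝ => (p, t))
  · have hc : IsCompact (Metric.closedBall (0 : ℝ × ℝ) R ×ˢ Icc 0 T) :=
      (isCompact_closedBall _ _).prod isCompact_Icc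
    obtain ⟨C, hC⟩ := hc.exists_bound_of_continuousOn hF.continuousOn
    refine ⟨C, fun p hp t h0 h1 => ?_⟩
    have := hC (p, t) ⟨by simpa using hp, h0, h1⟩
    simpa using this

theorem Tm.mul (hF : Tm T F) (hG : Tm T G) : Tm T (fun p t => F p t * G p t) := by
  refine ⟨fun p => (hF.meas p).mul (hG.meas p), fun t h0 h1 => (hF.cont t h0 h1).mul
    (hG.cont t h0 h1), fun R => ?_⟩
  obtain ⟨C, hC⟩ := hF.bd R
  obtain ⟨D, hD⟩ := hG.bd R
  refine ⟨C * D, fun p hp t h0 h1 => ?_⟩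
  rw [abs_mul]
  have h2 := hC p hp t h0 h1
  exact mul_le_mul h2 (hD p hp t h0 h1) (abs_nonneg _) ((abs_nonneg _).trans h2)

theorem Tm.add (hF : Tm T F) (hG : Tm T G) : Tm T (fun p t => F p t + G p t) := by
  refine ⟨fun p => (hF.meas p).add (hG.meas p), fun t h0 h1 => (hF.cont t h0 h1).add
    (hG.cont t h0 h1), fun R => ?_⟩
  obtain ⟨C, hC⟩ := hF.bd R
  obtain ⟨D, hD⟩ := hG.bd R
  refine ⟨C + D, fun p hp t h0 h1 => ?_⟩
  exact (abs_add_le _ _).trans (add_le_add (hC p hp t h0 h1) (hD p hp t h0 h1))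

theorem Tm.fix {χ : ℝ → ℝ} (hm : Measurable χ) {C : ℝ}
    (h : ∀ t, 0 ≤ t → t ≤ T → |χ t| ≤ C) : Tm T (fun _ t => χ t) :=
  ⟨fun _ => hm, fun _ _ _ => continuous_const, fun _ => ⟨C, fun _ _ t h0 h1 => h t h0 h1⟩⟩

theorem Tm.cst {f : ℝ × ℝ → ℝ} (hf : Continuous f) : Tm T (fun p _ => f p) :=
  Tm.of_cont (hf.comp continuous_fst)

theorem Tm.int (hF : Tm T F) {t : ℝ} (h0 : 0 ≤ t) (h1 : t ≤ T) :
    Continuous fun p => ∫ s in (0 : ℝ)..t, F p s := by
  rw [continuous_iff_continuousAt]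
  intro p0
  obtain ⟨C, hC⟩ := hF.bd (‖p0‖ + 1)
  have hev : ∀ᶠ p in 𝓝 p0, ‖p‖ ≤ ‖p0‖ + 1 := by
    have := (continuous_norm (E := ℝ × ℝ)).continuousAt (x := p0)
    exact (this.eventually_lt continuousAt_const (by linarith)).mono fun p hp => hp.le
  refine intervalIntegral.continuousAt_of_dominated_interval (bound := fun _ => C)
    (Eventually.of_forall fun p => (hF.meas p).aestronglyMeasurable) ?_
    intervalIntegrable_const ?_
  · filter_upwards [hev] with p hp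
    refine Eventually.of_forall fun s hs => ?_
    rw [uIoc_of_le h0] at hs
    exact hC p hp s hs.1.le (hs.2.trans h1)
  · refine Eventually.of_forall fun s hs => ?_
    rw [uIoc_of_le h0] at hs
    exact (hF.cont s hs.1.le (hs.2.trans h1)).continuousAt

theorem Tm.pri (hF : Tm T F) (hc : ∀ p, Continuous (fun t => ∫ s in (0 : ℝ)..t, F p s)) :
    Tm T (fun p t => ∫ s in (0 : ℝ)..t, F p s) := by
  refine ⟨fun p => (hc p).measurable, fun t h0 h1 => hF.int h0 h1, fun R => ?_⟩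
  obtain ⟨C, hC⟩ := hF.bd R
  refine ⟨|C| * |T|, fun p hp t h0 h1 => ?_⟩
  have h3 : ‖∫ s in (0 : ℝ)..t, F p s‖ ≤ |C| * |t - 0| := by
    refine intervalIntegral.norm_integral_le_of_norm_le_const fun s hs => ?_
    rw [uIoc_of_le h0] at hs
    exact (hC p hp s hs.1.le (hs.2.trans h1)).trans (le_abs_self C)
  rw [Real.norm_eq_abs, sub_zero, abs_of_nonneg h0] at h3
  exact h3.trans (mul_le_mul_of_nonneg_left (h1.trans (le_abs_self T)) (abs_nonneg _))

section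
variable (m r : ℕ) (a b : ℕ → ℝ)

theorem tm_dpl : Tm (m : ℝ) (fun _ t => dpl a t) := by
  obtain ⟨B, -, hB⟩ := exists_bd (m + 1) a
  refine Tm.fix (dpl_meas a) (C := 2 * B) fun t h0 h1 => ?_
  have hk : ⌊t⌋₊ ≤ m := Nat.floor_le_of_le h1
  have e1 := hB ⌊t⌋₊ (by omega)
  have e2 := hB (⌊t⌋₊ + 1) (by omega)
  unfold dpl
  have := abs_sub (a (⌊t⌋₊ + 1)) (a ⌊t⌋₊)
  linarith

theorem tm_pe : Tm T (fun p t => pe p.1 p.2 a b t) := by
  refine Tm.of_cont ?_
  unfold pe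
  have h1 : Continuous fun q : (ℝ × ℝ) × ℝ => pl a q.2 := (cont_pl a).comp continuous_snd
  have h2 : Continuous fun q : (ℝ × ℝ) × ℝ => pl b q.2 := (cont_pl b).comp continuous_snd
  fun_prop

theorem tm_ipe : Tm T (fun p t => (pe p.1 p.2 a b t)⁻¹) := by
  refine Tm.of_cont ?_
  unfold pe
  have h1 : Continuous fun q : (ℝ × ℝ) × ℝ => pl a q.2 := (cont_pl a).comp continuous_snd
  have h2 : Continuous fun q : (ℝ × ℝ) × ℝ => pl b q.2 := (cont_pl b).comp continuous_snd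
  exact Continuous.inv₀ (by fun_prop) fun q => (Real.exp_pos _).ne'

theorem mE_jc : Continuous fun q : ℝ × ℝ => mE q.1 q.2 := by
  unfold mE
  exact intervalIntegral.continuous_parametric_primitive_of_continuous
    (f := fun v s : ℝ => Real.exp (-(v * s))) (a₀ := 0) (by fun_prop)

theorem tm_mE : Tm T (fun p t => mE p.1 (pl a t)) := by
  refine Tm.of_cont ?_
  have h1 : Continuous fun q : (ℝ × ℝ) × ℝ => pl a q.2 := (cont_pl a).comp continuous_snd
  exact mE_jc.comp (by fun_prop : Continuous fun q : (ℝ × ℝ) × ℝ => (q.1.1, pl a q.2))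

theorem tm_pq : Tm T (fun p t => pq p.1 p.2 a b t) := by
  refine Tm.of_cont ?_
  unfold pq
  have h1 : Continuous fun q : (ℝ × ℝ) × ℝ => pl a q.2 := (cont_pl a).comp continuous_snd
  have h2 : Continuous fun q : (ℝ × ℝ) × ℝ => pl b q.2 := (cont_pl b).comp continuous_snd
  have h3 : Continuous fun q : (ℝ × ℝ) × ℝ => mE q.1.2 (pl b q.2) :=
    mE_jc.comp (by fun_prop : Continuous fun q : (ℝ × ℝ) × ℝ => (q.1.2, pl b q.2))
  exact Continuous.mul (by fun_prop) h3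

theorem tm_pX : Tm (m : ℝ) (fun p t => pX p.1 p.2 a b t) :=
  ((tm_pe a b).mul (tm_dpl m a)).pri fun p => pX_cont p.1 p.2 a b

theorem tm_pL : Tm (m : ℝ) (fun p t => pL p.1 p.2 a b t) :=
  ((tm_pq a b).mul (tm_dpl m a)).pri fun p => pL_cont p.1 p.2 a b

theorem c_pJ : Continuous fun p : ℝ × ℝ => pJ p.1 p.2 a b m :=
  (((tm_pq a b).mul (tm_dpl m a)).int (Nat.cast_nonneg m) le_rfl).neg

theorem tm_pR : Tm (m : ℝ) (fun p t => pR p.1 p.2 a b m r t) := by
  have hχ : Tm (m : ℝ) (fun _ t => if (r : ℝ) + 1 ≤ t then (1 : ℝ) else 0) := by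
    refine Tm.fix (C := 1) ?_ ?_
    · exact Measurable.ite measurableSet_Ici measurable_const measurable_const
    · intro t _ _
      split_ifs <;> simp
  have h := (tm_pL m a b).add (hχ.mul (Tm.cst (c_pJ m a b)))
  have e : (fun (p : ℝ × ℝ) (t : ℝ) => pL p.1 p.2 a b t +
      (if (r : ℝ) + 1 ≤ t then (1 : ℝ) else 0) * pJ p.1 p.2 a b m) =
    (fun p t => pR p.1 p.2 a b m r t) := by
    funext p t
    unfold pR
    split_ifs <;> simp
  rw [e] at h
  exact h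

theorem c_fin {F : ℝ × ℝ → ℝ → ℝ} (hF : Tm (m : ℝ) F) :
    Continuous fun p : ℝ × ℝ => ∫ t in (0 : ℝ)..m, F p t / pe p.1 p.2 a b t * dpl b t :=
  ((hF.mul (tm_ipe a b)).mul (tm_dpl m b)).int (Nat.cast_nonneg m) le_rfl

theorem c_pd : Continuous fun p : ℝ × ℝ => pd p.1 p.2 a b m := c_fin m a b (tm_mE a)

theorem c_pP : Continuous fun p : ℝ × ℝ => pP p.1 p.2 a b m :=
  c_fin m a b ((tm_pX m a b).mul (tm_mE a))

theorem c_pN : Continuous fun p : ℝ × ℝ => pN p.1 p.2 a b m r := c_fin m a b (tm_pR m r a b)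

theorem c_pM : Continuous fun p : ℝ × ℝ => pM p.1 p.2 a b m r :=
  c_fin m a b ((tm_pX m a b).mul (tm_pR m r a b))

/-- closure in the tilt -/
theorem PI_tilt (h : ∀ v w : ℝ, v ≠ 0 → w ≠ 0 → PI v w m r a b) (v w : ℝ) : PI v w m r a b := by
  have hcl : IsClosed {p : ℝ × ℝ | PI p.1 p.2 m r a b} :=
    isClosed_le ((c_pd m a b).mul (c_pM m r a b)) ((c_pP m a b).mul (c_pN m r a b))
  have hγ : Continuous fun t : ℝ => ((v + t, w + t) : ℝ × ℝ) := by fun_prop
  have h1 : Tendsto (fun t : ℝ => ((v + t, w + t) : ℝ × ℝ)) (𝓝[>] (0 : ℝ)) (𝓝 (v, w)) := by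
    have := (hγ.tendsto 0).mono_left (nhdsWithin_le_nhds (s := Ioi (0 : ℝ)))
    simpa using this
  refine hcl.mem_of_tendsto h1 ?_
  have hev : ∀ c : ℝ, ∀ᶠ t in 𝓝[>] (0 : ℝ), c + t ≠ 0 := by
    intro c
    rcases lt_or_ge c 0 with hc | hc
    · filter_upwards [Ioo_mem_nhdsGT (show (0 : ℝ) < -c by linarith)] with t ht
      have := ht.2
      exact ne_of_lt (by linarith)
    · filter_upwards [self_mem_nhdsWithin] with t ht
      have : (0 : ℝ) < t := ht
      exact ne_of_gt (by linarith)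
  filter_upwards [hev v, hev w] with t h1 h2
  exact h _ _ h1 h2

end

/-- **POS from the three cases** -/
theorem POS_of_cases (h1 : ∀ v w : ℝ, v ≠ 0 → w ≠ 0 → CaseW1 v w)
    (h3 : ∀ v w : ℝ, v ≠ 0 → w ≠ 0 → CaseW3 v w)
    (hL : ∀ v w : ℝ, v ≠ 0 → w ≠ 0 → CaseLast v w) : POS :=
  POS_of_NC fun m a b v w h =>
    PI_tilt m 0 a b (fun v w hv hw => NC_glue v w (h1 v w hv hw) (h3 v w hv hw) (hL v w hv hw)
      m a b h) v w

end Pool.Agent.Work.MP_b5407d_pos_h13
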