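import Pool.Agent.Work.MP_b5407d_pos_helper13.Mir3

/-! # MP_b5407d_gt (POS): continuity of the functionals in the vertices (helper13) -/

set_option autoImplicit false

open MeasureTheory Set Filter Topology

namespace Pool.Agent.Work.MP_b5407d_pos_h13

open Pool.LBM Pool.LBM.Path

/-- pairs of sequences -/
abbrev PP : Type := (ℕ → ℝ) × (ℕ → ℝ)

theorem cont_gen {F : (ℕ → ℝ) → (ℕ → ℝ) → ℝ} (m : ℕ)
    (h : ∀ B : ℝ, ∃ Λ : ℝ, 0 ≤ Λ ∧ ∀ a b a' b' : ℕ → ℝ,
      (∀ k ≤ m, |a k| ≤ B ∧ |b k| ≤ B ∧ |a' k| ≤ B ∧ |b' k| ≤ B) →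
      |F a b - F a' b'| ≤ Λ * dst m a b a' b') :
    Continuous (fun p : PP => F p.1 p.2) := by
  rw [continuous_iff_continuousAt]
  intro p0
  obtain ⟨B1, h1, h1'⟩ := exists_bd m p0.1
  obtain ⟨B2, h2, h2'⟩ := exists_bd m p0.2
  obtain ⟨Λ, hΛ0, hΛ⟩ := h (B1 + B2 + 1)
  have c1 : ∀ k : ℕ, Continuous fun p : PP => p.1 k := fun k => by fun_prop
  have c2 : ∀ k : ℕ, Continuous fun p : PP => p.2 k := fun k => by fun_prop
  have hev1 : ∀ᶠ p : PP in 𝓝 p0, ∀ k ∈ Finset.range (m + 1), |p.1 k| < B1 + B2 + 1 :=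
    (Filter.eventually_all_finset _).2 fun k hk => by
      have hk' : k ≤ m := by have := Finset.mem_range.1 hk; omega
      have hc : Continuous fun p : PP => |p.1 k| := (c1 k).abs
      have hlt : |p0.1 k| < B1 + B2 + 1 := by have := h1' k hk'; linarith
      exact hc.continuousAt.eventually_lt continuousAt_const hlt
  have hev2 : ∀ᶠ p : PP in 𝓝 p0, ∀ k ∈ Finset.range (m + 1), |p.2 k| < B1 + B2 + 1 :=
    (Filter.eventually_all_finset _).2 fun k hk => by
      have hk' : k ≤ m := by have := Finset.mem_range.1 hk; omega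
      have hc : Continuous fun p : PP => |p.2 k| := (c2 k).abs
      have hlt : |p0.2 k| < B1 + B2 + 1 := by have := h2' k hk'; linarith
      exact hc.continuousAt.eventually_lt continuousAt_const hlt
  have hdc : Continuous fun p : PP => Λ * dst m p.1 p.2 p0.1 p0.2 := by
    unfold dst
    fun_prop
  have hd0 : Λ * dst m p0.1 p0.2 p0.1 p0.2 = 0 := by
    rw [dst_zero (fun _ _ => rfl) (fun _ _ => rfl), mul_zero]
  have hlim : Tendsto (fun p : PP => Λ * dst m p.1 p.2 p0.1 p0.2) (𝓝 p0) (𝓝 0) := by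
    have := hdc.tendsto p0
    rwa [hd0] at this
  have hsq : Tendsto (fun p : PP => F p.1 p.2 - F p0.1 p0.2) (𝓝 p0) (𝓝 0) := by
    refine squeeze_zero_norm' ?_ hlim
    filter_upwards [hev1, hev2] with p e1 e2
    rw [Real.norm_eq_abs]
    refine hΛ _ _ _ _ fun k hk => ?_
    have hk' : k ∈ Finset.range (m + 1) := Finset.mem_range.2 (by omega)
    have := h1' k hk
    have := h2' k hk
    exact ⟨(e1 k hk').le, (e2 k hk').le, by linarith, by linarith⟩
  have := hsq.add_const (F p0.1 p0.2)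
  simpa [ContinuousAt] using this

section
variable (v w : ℝ) (m r : ℕ)

theorem pd_cn : Continuous (fun p : PP => pd v w p.1 p.2 m) :=
  cont_gen (F := fun a b => pd v w a b m) m fun B => by
    obtain ⟨Λ, h0, h⟩ := blk_LIP m 0 v w B
    exact ⟨Λ, h0, fun a b a' b' hb => (h a b a' b' hb).1⟩

theorem pP_cn : Continuous (fun p : PP => pP v w p.1 p.2 m) :=
  cont_gen (F := fun a b => pP v w a b m) m fun B => by
    obtain ⟨Λ, h0, h⟩ := blk_LIP m 0 v w B
    exact ⟨Λ, h0, fun a b a' b' hb => (h a b a' b' hb).2.1⟩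

theorem pN_cn : Continuous (fun p : PP => pN v w p.1 p.2 m r) :=
  cont_gen (F := fun a b => pN v w a b m r) m fun B => by
    obtain ⟨Λ, h0, h⟩ := blk_LIP m r v w B
    exact ⟨Λ, h0, fun a b a' b' hb => (h a b a' b' hb).2.2.1⟩

theorem pM_cn : Continuous (fun p : PP => pM v w p.1 p.2 m r) :=
  cont_gen (F := fun a b => pM v w a b m r) m fun B => by
    obtain ⟨Λ, h0, h⟩ := blk_LIP m r v w B
    exact ⟨Λ, h0, fun a b a' b' hb => (h a b a' b' hb).2.2.2⟩

/-- the inequality -/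
def PI (a b : ℕ → ℝ) : Prop := pd v w a b m * pM v w a b m r ≤ pP v w a b m * pN v w a b m r

theorem PI_closed : IsClosed {p : PP | PI v w m r p.1 p.2} :=
  isClosed_le ((pd_cn v w m).mul (pM_cn v w m r)) ((pP_cn v w m).mul (pN_cn v w m r))

/-- the inequality passes to the limit -/
theorem PI_lim {γ : ℝ → PP} (hγ : Continuous γ) (h : ∀ᶠ t in 𝓝[>] (0 : ℝ), PI v w m r (γ t).1 (γ t).2) :
    PI v w m r (γ 0).1 (γ 0).2 := by
  have h1 : Tendsto γ (𝓝[>] (0 : ℝ)) (𝓝 (γ 0)) := (hγ.tendsto 0).mono_left nhdsWithin_le_nhds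
  exact (PI_closed v w m r).mem_of_tendsto h1 h

end

end Pool.Agent.Work.MP_b5407d_pos_h13
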