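import Pool.Agent.Work.MP_b5407d_pos_helper13.Corner2

/-! # MP_b5407d_gt (POS): the corner case at a minimiser, one near edge (helper13) -/

set_option autoImplicit false

open MeasureTheory Set Filter Topology

namespace Pool.Agent.Work.MP_b5407d_pos_h13

open Pool.LBM Pool.LBM.Path
open Pool.Agent.MPb5407d (PsiE OmE SigRel Tf Tf_neg_minus Tf_neg_plus M_ge PsiE_pos)
open Pool.Agent.Work.MP_b5407d_pos_h9.FV (cd cn cpp cm chh cp cr' cA cB cF cG ce Zd Zn Zp Zm Xh Jl
  nearChain_of_min cbil_nonneg hone zd zn zp zm pp ex1 ey1 one_edge_min)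

section
variable {v w : ℝ}

section congr
variable {x x2 x' x2' y y2 y' y2' : ℝ → ℝ}
  (hx : ∀ s ∈ Icc (0 : ℝ) 1, x s = x2 s) (hy : ∀ s ∈ Icc (0 : ℝ) 1, y s = y2 s)
  (hx' : ∀ s ∈ Ico (0 : ℝ) 1, x' s = x2' s) (hy' : ∀ s ∈ Ico (0 : ℝ) 1, y' s = y2' s)

theorem int_cong {f g : ℝ → ℝ} {s t : ℝ} (hs : s ∈ Icc (0 : ℝ) 1) (ht : t ∈ Icc (0 : ℝ) 1)
    (h : ∀ u ∈ Ico (0 : ℝ) 1, f u = g u) : (∫ u in s..t, f u) = ∫ u in s..t, g u := by
  refine intervalIntegral.integral_congr_ae ?_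
  have hne : ∀ᵐ u : ℝ, u ≠ 1 := by rw [ae_iff]; simp
  filter_upwards [hne] with u hu huI
  have h2 : u ∈ Icc (0 : ℝ) 1 :=
    (ordConnected_Icc.uIcc_subset hs ht) (uIoc_subset_uIcc huI)
  exact h u ⟨h2.1, lt_of_le_of_ne h2.2 hu⟩

include hx hy in
theorem e_cong {s : ℝ} (hs : s ∈ Icc (0 : ℝ) 1) :
    Pool.Agent.Work.MP_b5407d_pos_h9.FV.e v w x y s =
      Pool.Agent.Work.MP_b5407d_pos_h9.FV.e v w x2 y2 s := by
  unfold Pool.Agent.Work.MP_b5407d_pos_h9.FV.e
  rw [hx s hs, hy s hs]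

include hx hy hx' in
theorem Jl_cong {s : ℝ} (hs : s ∈ Icc (0 : ℝ) 1) : Jl v w x x' y s = Jl v w x2 x2' y2 s := by
  unfold Jl
  refine int_cong ⟨le_rfl, zero_le_one⟩ hs fun u hu => ?_
  rw [hx u (Ico_subset_Icc_self hu), hy u (Ico_subset_Icc_self hu), hx' u hu]

include hx hy hx' in
theorem Xh_cong {s : ℝ} (hs : s ∈ Icc (0 : ℝ) 1) : Xh v w x x' y 1 s = Xh v w x2 x2' y2 1 s := by
  unfold Xh
  rw [hx 1 ⟨zero_le_one, le_rfl⟩]
  congr 1
  refine int_cong ⟨zero_le_one, le_rfl⟩ hs fun u hu => ?_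
  rw [e_cong hx hy (Ico_subset_Icc_self hu), hx' u hu]

include hx hy hy' in
theorem Zd_cong : Zd v w x y y' 1 = Zd v w x2 y2 y2' 1 := by
  unfold Zd
  congr 1
  refine int_cong ⟨le_rfl, zero_le_one⟩ ⟨zero_le_one, le_rfl⟩ fun u hu => ?_
  rw [e_cong hx hy (Ico_subset_Icc_self hu), hx u (Ico_subset_Icc_self hu), hy' u hu]

include hx hy hx' hy' in
theorem Zn_cong : Zn v w x x' y y' 1 = Zn v w x2 x2' y2 y2' 1 := by
  unfold Zn
  congr 1
  refine int_cong ⟨le_rfl, zero_le_one⟩ ⟨zero_le_one, le_rfl⟩ fun u hu => ?_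
  rw [e_cong hx hy (Ico_subset_Icc_self hu), Jl_cong hx hy hx' (Ico_subset_Icc_self hu), hy' u hu]

include hx hy hx' hy' in
theorem Zp_cong : Zp v w x x' y y' 1 = Zp v w x2 x2' y2 y2' 1 := by
  unfold Zp
  congr 1
  refine int_cong ⟨le_rfl, zero_le_one⟩ ⟨zero_le_one, le_rfl⟩ fun u hu => ?_
  rw [e_cong hx hy (Ico_subset_Icc_self hu), Xh_cong hx hy hx' (Ico_subset_Icc_self hu),
    hx u (Ico_subset_Icc_self hu), hy' u hu]

include hx hy hx' hy' in
theorem Zm_cong : Zm v w x x' y y' 1 = Zm v w x2 x2' y2 y2' 1 := by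
  unfold Zm
  congr 1
  refine int_cong ⟨le_rfl, zero_le_one⟩ ⟨zero_le_one, le_rfl⟩ fun u hu => ?_
  rw [e_cong hx hy (Ico_subset_Icc_self hu), Xh_cong hx hy hx' (Ico_subset_Icc_self hu),
    Jl_cong hx hy hx' (Ico_subset_Icc_self hu), hy' u hu]

end congr

section
variable {X Y : ℕ → ℝ} (hX : X 0 = 0) (hY : Y 1 = 0)

include hX in
theorem one_x : ∀ s ∈ Icc (0 : ℝ) 1, pl X s = ex1 (X 1) s := by
  intro s hs
  rw [pl_aff X 0 (by simpa using hs.1) (by simpa using hs.2)]
  unfold ex1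
  rw [hX, Nat.cast_zero, zero_add]; ring

include hY in
theorem one_y : ∀ s ∈ Icc (0 : ℝ) 1, pl Y s = ey1 (Y 0) s := by
  intro s hs
  rw [pl_aff Y 0 (by simpa using hs.1) (by simpa using hs.2)]
  unfold ey1
  rw [zero_add, hY, Nat.cast_zero]; ring

include hX in
theorem one_x' : ∀ s ∈ Ico (0 : ℝ) 1, dpl X s = (fun _ => X 1) s := by
  intro s hs
  have hfl : ⌊s⌋₊ = 0 := by rw [Nat.floor_eq_zero]; exact hs.2
  simp only [dpl, hfl, zero_add, hX, sub_zero]

include hY in
theorem one_y' : ∀ s ∈ Ico (0 : ℝ) 1, dpl Y s = (fun _ => -Y 0) s := by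
  intro s hs
  have hfl : ⌊s⌋₊ = 0 := by rw [Nat.floor_eq_zero]; exact hs.2
  simp only [dpl, hfl, zero_add, hY, zero_sub]

include hX hY in
theorem chh_one (d0 P0 N0 M0 : ℝ) : chh v w X Y 1 d0 P0 N0 M0 =
    hone v w d0 P0 N0 M0 (X 1) (Y 0) := by
  unfold chh hone cpp cn cd cm zp zn zd zm
  rw [Nat.cast_one, Zd_cong (one_x hX) (one_y hY) (one_y' hY),
    Zn_cong (one_x hX) (one_y hY) (one_x' hX) (one_y' hY),
    Zp_cong (one_x hX) (one_y hY) (one_x' hX) (one_y' hY),
    Zm_cong (one_x hX) (one_y hY) (one_x' hX) (one_y' hY)]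

include hX hY in
theorem cd_one : cd v w X Y 1 = zd v w (X 1) (Y 0) := by
  unfold cd zd
  rw [Nat.cast_one, Zd_cong (one_x hX) (one_y hY) (one_y' hY)]

include hX hY in
theorem cpp_one : cpp v w X Y 1 = zp v w (X 1) (Y 0) := by
  unfold cpp zp
  rw [Nat.cast_one, Zp_cong (one_x hX) (one_y hY) (one_x' hX) (one_y' hY)]

include hX hY in
theorem cn_one : cn v w X Y 1 = zn v w (X 1) (Y 0) := by
  unfold cn zn
  rw [Nat.cast_one, Zn_cong (one_x hX) (one_y hY) (one_x' hX) (one_y' hY)]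

end

variable {M : ℕ} {a b X Y : ℕ → ℝ}

/-- the corner case, one near edge -/
theorem corner_one (D : CD M 1 a b X Y)
    (hpos : ∀ (a' b' : ℕ → ℝ) (v' w' : ℝ), Std (M + 1) 0 a' b' →
      pd v' w' a' b' (M + 1) * pM v' w' a' b' (M + 1) 0 ≤
        pP v' w' a' b' (M + 1) * pN v' w' a' b' (M + 1) 0)
    (hNC : pd v w a b M * pM v w a b M 0 ≤ pP v w a b M * pN v w a b M 0)
    (hmin : LM v w M 1 a b X Y) (hle : w * Y 0 ≤ v * X 1) :
    0 ≤ hK v w (glu 1 X a) (glu 1 Y b) (M + 1) (((1 : ℕ) : ℝ) + 1) := by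
  by_contra hneg
  push Not at hneg
  have hD := D.hD_pos (v := v) (w := w)
  have hdg := D.dg_pos (v := v) (w := w)
  have hX0 := D.X0
  have hY1 := D.Yr
  have hA := D.Xr_pos
  have hB := D.Y0_pos
  set d0 := pd v w a b M
  set P0 := pP v w a b M
  set N0 := pN v w a b M 0
  set M0 := pM v w a b M 0
  have hm1 : ∀ al be : ℝ,
      IsLocalMin (fun t => hone v w d0 P0 N0 M0 (X 1 + t * al) (Y 0 + t * be)) 0 := by
    intro al be
    have h1 := hmin (fun k => if k = 1 then al else 0) (fun k => if k = 0 then be else 0)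
      (by simp) (by simp)
    have e : (fun t : ℝ => chh v w (fun k => X k + t * (if k = 1 then al else 0))
        (fun k => Y k + t * (if k = 0 then be else 0)) 1 d0 P0 N0 M0) =
        fun t => hone v w d0 P0 N0 M0 (X 1 + t * al) (Y 0 + t * be) := by
      funext t
      rw [chh_one (by simp [hX0]) (by simp [hY1])]
      simp
    rw [e] at h1
    exact h1
  have hz1 : z1g v w M 1 a b X Y = (P0 - zp v w (X 1) (Y 0)) / (d0 - zd v w (X 1) (Y 0)) := by
    unfold z1g
    rw [cpp_one hX0 hY1, cd_one hX0 hY1]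
  have hz2 : z2g v w M 1 a b X Y = (N0 - zn v w (X 1) (Y 0)) / (d0 - zd v w (X 1) (Y 0)) := by
    unfold z2g
    rw [cn_one hX0 hY1, cd_one hX0 hY1]
  rw [cd_one hX0 hY1] at hD
  obtain ⟨huy, hyu, hT⟩ := one_edge_min (v := v) (w := w) (d0 := d0) (P0 := P0) (N0 := N0)
    (M0 := M0) hA hB hD hm1 hz1 hz2 rfl rfl rfl rfl
  have ece1 : ce v w X Y ((1 : ℕ) : ℝ) = Real.exp (-(v * X 1)) := by
    unfold ce Pool.Agent.Work.MP_b5407d_pos_h9.FV.e
    rw [pl_nat, pl_nat, hY1]; congr 1; ring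
  have ece0 : ce v w X Y 0 = Real.exp (-(w * Y 0)) := by
    unfold ce Pool.Agent.Work.MP_b5407d_pos_h9.FV.e
    rw [pl_zero, pl_zero, hX0]; congr 1; ring
  have hcp : cp v w X Y 1 (z1g v w M 1 a b X Y) 1 = pp v (X 1) (z1g v w M 1 a b X Y) := by
    rw [cp_r, ece1, Real.exp_neg, div_inv_eq_mul]; rfl
  have hcr : cr' v w X Y (z2g v w M 1 a b X Y) 0 = pp w (Y 0) (z2g v w M 1 a b X Y) := by
    rw [cr_0, ece0, Real.exp_neg, div_inv_eq_mul]; rfl
  set A := X 1 with hAd
  set B := Y 0 with hBd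
  set u := pp v A (z1g v w M 1 a b X Y) / A with hu
  set y := pp w B (z2g v w M 1 a b X Y) / B with hy
  set η := v * A - w * B with hη
  set Mm := (v * A + w * B) / 2 with hMm
  have hpA : cp v w X Y 1 (z1g v w M 1 a b X Y) 1 = A * u := by
    rw [hcp, hu]; field_simp
  have hrB : cr' v w X Y (z2g v w M 1 a b X Y) 0 = B * y := by
    rw [hcr, hy]; field_simp
  have hη0 : 0 ≤ η := by rw [hη]; linarith
  have habs : |η| = η := abs_of_nonneg hη0
  have hΨ := PsiE_pos η
  have hrel : SigRel η (u + y) := by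
    unfold SigRel
    have e1 : (u + y) ^ 2 = (y - u) ^ 2 + 4 * (u * y) := by ring
    rw [e1, hyu, huy]; ring
  have hrel' : SigRel η (-(u + y)) := by
    unfold SigRel at hrel ⊢
    rw [neg_sq]; exact hrel
  have hS0 : u + y ≠ 0 := by
    intro h0
    have : y = -u := by linarith
    rw [this] at huy
    nlinarith [sq_nonneg u]
  have g1 : glu 1 X a 1 = A := glu_le a le_rfl
  have g0 : glu 1 Y b 0 = B := glu_le b (Nat.zero_le 1)
  have hpT := pT_glue (v := v) (w := w) D.gh hdg.ne'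
  have hrS := rS_glue (v := v) (w := w) D.gh D.X0
  change _ = cp v w X Y 1 (z1g v w M 1 a b X Y) 1 at hpT
  change _ = cr' v w X Y (z2g v w M 1 a b X Y) 0 at hrS
  rw [hpA] at hpT
  rw [hrB] at hrS
  rcases lt_or_gt_of_ne hS0 with hS | hS
  · -- branch (-)
    have hM1 : Mm < -(η / 2) := by
      by_contra hn
      push Not at hn
      have h1 := Tf_neg_minus (η := η) (M := Mm) (S := -(u + y)) (by linarith) hrel'
        (by rw [habs]; exact hn)
      rw [neg_neg] at h1
      linarith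
    have hvA : v * A < 0 := by rw [hMm, hη] at hM1; linarith
    have hwB : w * B < 0 := by linarith
    have hv : v < 0 := by
      by_contra hn
      push Not at hn
      have := mul_nonneg hn hA.le
      linarith
    have hw : w < 0 := by
      by_contra hn
      push Not at hn
      have := mul_nonneg hn hB.le
      linarith
    have h1 := V_one D.K hpos hneg.le hv.le hw.le
    have h2 := bary_gt (v := v) (w := w) D.K
    rw [g1, g0] at h1 h2
    rw [hpT, hrS] at h1
    have h3 : 0 < A * B * (u + y) := by linarith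
    have h4 : A * B * (u + y) < 0 := mul_neg_of_pos_of_neg (mul_pos hA hB) hS
    linarith
  · -- branch (+)
    have hM1 : η / 2 < Mm := by
      by_contra hn
      push Not at hn
      have h1 := Tf_neg_plus (η := η) (M := Mm) (S := u + y) hS hrel
        (by rw [habs]; exact hn)
      linarith
    have hwB : 0 < w * B := by rw [hMm, hη] at hM1; linarith
    have hvA : 0 < v * A := by linarith
    have hv : 0 < v := pos_left hvA hA.le
    have hw : 0 < w := pos_left hwB hB.le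
    have huy' : 0 < u * y := by rw [huy]; exact hΨ
    have hu0 : 0 < u := by
      by_contra hn
      push Not at hn
      have : 0 < y := by linarith
      have := mul_nonpos_of_nonpos_of_nonneg hn this.le
      linarith
    have hy0 : 0 < y := by
      by_contra hn
      push Not at hn
      have := mul_nonpos_of_nonneg_of_nonpos hu0.le hn
      linarith
    have hV := V4 (r := 0) D.K hpos (by simpa using hneg.le)
    rw [zero_add, hpT, hrS, g1, g0] at hV
    have hmean : v * X 1 + w * Y 0 + 2 * ((v * (A * u) + w * (B * y)) / 2) ≤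
        2 * (v * (Ix v w (glu 1 X a) (glu 1 Y b) (M + 1) /
          pJ v w (glu 1 X a) (glu 1 Y b) (M + 1)) +
          w * (Iy v w (glu 1 X a) (glu 1 Y b) (M + 1) /
            pJ v w (glu 1 X a) (glu 1 Y b) (M + 1))) := by
      rw [← hAd, ← hBd]; linarith
    have hC1 := D.c1 hv hw hmean
    rw [← hAd, ← hBd, ← hη] at hC1
    have e2 : v * (A * u) + w * (B * y) = Mm * (u + y) - η ^ 2 * (PsiE η + OmE η) / 4 := by
      have e3 : v * A = Mm + η / 2 := by rw [hMm, hη]; ring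
      have e4 : w * B = Mm - η / 2 := by rw [hMm, hη]; ring
      have e5 : v * (A * u) + w * (B * y) = Mm * (u + y) - (η / 2) * (y - u) := by
        linear_combination u * e3 + y * e4
      rw [e5, hyu]; ring
    have hη52 : η ≤ 5 / 2 := by
      by_contra hn
      push Not at hn
      have h1 := mu_gt_two (η := η) (M := Mm) (S := u + y) (by rw [habs]; exact hn.le) hS hrel hT
      rw [habs] at h1
      linarith
    have h1 := mu_gt_one (η := η) (M := Mm) (S := u + y) (by rw [habs]; exact hη52) hS hrel hT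
    have hμ : 1 < (v * (A * u) + w * (B * y)) / 2 := by linarith
    have h2 := M_ge (η := η) (M := Mm) (S := u + y) (by rw [habs]; linarith) hS hrel hT
    have hbe : 1 ≤ w * Y 0 := by
      rw [← hBd]
      have e4 : w * B = Mm - η / 2 := by rw [hMm, hη]; ring
      rw [e4]; linarith
    have hfin := D.corner_fin hv hw hle hμ hNC hmean (by rw [hpA]; exact mul_pos hA hu0)
      (by rw [hrB]; exact mul_pos hB hy0) (Or.inl hbe)
    linarith

end

end Pool.Agent.Work.MP_b5407d_pos_h13
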