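import Pool.Agent.Work.MP_b5407d_pos_helper13.G5

/-! # MP_b5407d_gt (POS): the corner case at a minimiser, at least two near edges (helper13) -/

set_option autoImplicit false

open MeasureTheory Set Filter Topology

namespace Pool.Agent.Work.MP_b5407d_pos_h13

open Pool.LBM Pool.LBM.Path
open Pool.Agent.MPb5407d (S5Hyp shc five_d Tri NearChain five_c1 five_c2)
open Pool.Agent.Work.MP_b5407d_pos_h9.FV (cd cn cpp cm chh cp cr' cA cB cF cG ce Zd Zn Zp Zm Xh Jl
  nearChain_of_min cbil_nonneg)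

section
variable {M r : ℕ} {a b X Y : ℕ → ℝ} {v w : ℝ}

/-- `C_x` in the hat coordinates -/
noncomputable def z1g (v w : ℝ) (M r : ℕ) (a b X Y : ℕ → ℝ) : ℝ :=
  (pP v w a b M - cpp v w X Y r) / (pd v w a b M - cd v w X Y r)

/-- `C_y` in the hat coordinates -/
noncomputable def z2g (v w : ℝ) (M r : ℕ) (a b X Y : ℕ → ℝ) : ℝ :=
  (pN v w a b M 0 - cn v w X Y r) / (pd v w a b M - cd v w X Y r)

/-- local minimum along all variations of the near chain -/
def LM (v w : ℝ) (M r : ℕ) (a b X Y : ℕ → ℝ) : Prop :=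
  ∀ al be : ℕ → ℝ, al 0 = 0 → be r = 0 → IsLocalMin (fun t : ℝ =>
    chh v w (fun k => X k + t * al k) (fun k => Y k + t * be k) r
      (pd v w a b M) (pP v w a b M) (pN v w a b M 0) (pM v w a b M 0)) 0

theorem cp_r (z1 : ℝ) : cp v w X Y r z1 r = (z1 - mE v (X r)) / ce v w X Y r := by
  unfold cp cF Pool.Agent.Work.MP_b5407d_pos_h9.FV.F
  rw [mE_eq_mE, pl_nat, intervalIntegral.integral_same, sub_zero]

theorem cr_0 (z2 : ℝ) : cr' v w X Y z2 0 = (z2 - mE w (Y 0)) / ce v w X Y 0 := by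
  unfold cr' Pool.Agent.Work.MP_b5407d_pos_h9.FV.cG Pool.Agent.Work.MP_b5407d_pos_h9.FV.G
  rw [mE_eq_mE, Nat.cast_zero, pl_zero, intervalIntegral.integral_same, sub_zero]

theorem lt_of_cp {z1 : ℝ} (h : 0 < cp v w X Y r z1 r) : mE v (X r) < z1 := by
  rw [cp_r] at h
  have h1 : 0 < ce v w X Y r := Real.exp_pos _
  have h2 := (div_pos_iff_of_pos_right h1).1 h
  linarith

theorem lt_of_cr {z2 : ℝ} (h : 0 < cr' v w X Y z2 0) : mE w (Y 0) < z2 := by
  rw [cr_0] at h
  have h1 : 0 < ce v w X Y 0 := Real.exp_pos _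
  have h2 := (div_pos_iff_of_pos_right h1).1 h
  linarith

namespace CD
variable (D : CD M r a b X Y)
include D

/-- C1 -/
theorem c1 {μ : ℝ} (hv : 0 < v) (hw : 0 < w)
    (h : v * X r + w * Y 0 + 2 * μ ≤
      2 * (v * (Ix v w (glu r X a) (glu r Y b) (M + r) / pJ v w (glu r X a) (glu r Y b) (M + r)) +
        w * (Iy v w (glu r X a) (glu r Y b) (M + r) /
          pJ v w (glu r X a) (glu r Y b) (M + r)))) :
    v * X r - w * Y 0 + 2 * μ ≤ 4 := by
  refine C1' (K := SK v w (KK (M + r) (glu r X a) (glu r Y b)))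
    (SK_compact hv.ne' hw.ne' (KK_compact (CP_of_Std D.K)))
    (SK_convex (KK_convex _ _ _)) ?_ (D.mean hv hw h) ?_
  · have h1 := KK_vertex (CP_of_Std D.K) (j := 0) (by omega)
    rw [glu_le a (Nat.zero_le r), glu_le b (Nat.zero_le r), D.X0] at h1
    have h2 := SK_mem hv.ne' hw.ne' h1
    simpa using h2
  · rw [D.intJ hv hw]
    exact mul_pos (mul_pos hv hw) (pJ_pos (CP_of_Std D.K))

theorem hD_pos : 0 < pd v w a b M - cd v w X Y r := by
  rw [← glue_d D.gh]; exact D.dg_pos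

/-- last step of the corner case -/
theorem corner_fin {μ : ℝ} (hv : 0 < v) (hw : 0 < w) (hle : w * Y 0 ≤ v * X r) (hμ : 1 < μ)
    (hNC : pd v w a b M * pM v w a b M 0 ≤ pP v w a b M * pN v w a b M 0)
    (h : v * X r + w * Y 0 + 2 * μ ≤
      2 * (v * (Ix v w (glu r X a) (glu r Y b) (M + r) / pJ v w (glu r X a) (glu r Y b) (M + r)) +
        w * (Iy v w (glu r X a) (glu r Y b) (M + r) /
          pJ v w (glu r X a) (glu r Y b) (M + r))))
    (hp : 0 < cp v w X Y r (z1g v w M r a b X Y) r) (hr : 0 < cr' v w X Y (z2g v w M r a b X Y) 0)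
    (hc : 1 ≤ w * Y 0 ∨ (1 ≤ w * cr' v w X Y (z2g v w M r a b X Y) 0 ∧
      cr' v w X Y (z2g v w M r a b X Y) 0 < Y 0 * mE (-(v * X r - w * Y 0)) 1)) :
    0 ≤ hK v w (glu r X a) (glu r Y b) (M + r) ((r : ℝ) + 1) := by
  have h1 := lt_of_cp hp
  have h2 := lt_of_cr hr
  have hC1 := D.c1 hv hw h
  have hc' : Real.exp ((v * X r - w * Y 0) / 2) ≤
      w * Y 0 * Real.exp 2 * shc ((v * X r - w * Y 0) / 2) := by
    have hx0 : 0 ≤ (v * X r - w * Y 0) / 2 := by linarith
    have hx1 : (v * X r - w * Y 0) / 2 ≤ 1 := by linarith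
    rcases hc with hc | ⟨hc, hc2⟩
    · exact five_c2 hx0 hx1 hc
    · rcases hx0.eq_or_lt with h0 | h0
      · have e0 : v * X r - w * Y 0 = 0 := by linarith
        rw [e0, neg_zero, mE_zero_one, mul_one] at hc2
        have h5 := mul_lt_mul_of_pos_left hc2 hw
        exact five_c2 hx0 hx1 (by linarith)
      · have hη : 0 < v * X r - w * Y 0 := by linarith
        rw [mE_neg_one_pos hη] at hc2
        have h5 := mul_lt_mul_of_pos_left hc2 hw
        apply five_c1 h0
        set η := v * X r - w * Y 0 with hηd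
        have e2 : 2 * (η / 2) = η := by ring
        rw [e2]
        have h6 : Real.exp (η - 2) ≤ 1 := by
          rw [← Real.exp_zero]; exact Real.exp_le_exp.2 (by linarith)
        have h7 : 0 < Real.exp η - 1 := by
          have := Real.add_one_le_exp η; linarith
        rw [div_le_iff₀ h7]
        have h8 : w * (Y 0 * ((Real.exp η - 1) / η)) * η = w * Y 0 * (Real.exp η - 1) := by
          field_simp
        have h9 : Real.exp (η - 2) * η ≤ 1 * η := mul_le_mul_of_nonneg_right h6 hη.le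
        have h10 : 1 * η ≤ w * (Y 0 * ((Real.exp η - 1) / η)) * η :=
          mul_le_mul_of_nonneg_right (by linarith) hη.le
        linarith
  exact D.final_ineq hNC h1.le h2.le (D.five hv hw hle hμ h hc')

end CD

theorem sum_tel (c : ℕ → ℝ) (n : ℕ) : ∑ i ∈ Finset.range n, (c (i + 1) - c i) = c n - c 0 := by
  exact Finset.sum_range_sub c n

/-- the corner case, at least two near edges -/
theorem corner_ge2 {q : ℕ} (D : CD M (q + 1) a b X Y) (hq : 1 ≤ q)
    (hpos : ∀ (a' b' : ℕ → ℝ) (v' w' : ℝ), Std (M + (q + 1)) q a' b' →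
      pd v' w' a' b' (M + (q + 1)) * pM v' w' a' b' (M + (q + 1)) q ≤
        pP v' w' a' b' (M + (q + 1)) * pN v' w' a' b' (M + (q + 1)) q)
    (hNC : pd v w a b M * pM v w a b M 0 ≤ pP v w a b M * pN v w a b M 0)
    (hmin : LM v w M (q + 1) a b X Y) (hle : w * Y 0 ≤ v * X (q + 1)) :
    0 ≤ hK v w (glu (q + 1) X a) (glu (q + 1) Y b) (M + (q + 1)) (((q + 1 : ℕ) : ℝ) + 1) := by
  by_contra hneg
  push Not at hneg
  have hD := D.hD_pos (v := v) (w := w)
  have hdg := D.dg_pos (v := v) (w := w)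
  have hne : ∀ i < q + 1, 0 < X (i + 1) - X i := fun i hi => by linarith [(D.near hi).1]
  have hne' : ∀ i < q + 1, 0 < Y i - Y (i + 1) := fun i hi => by linarith [(D.near hi).2]
  have hs : ∀ i, i + 1 < q + 1 → (Y (i + 1) - Y (i + 1 + 1)) * (X (i + 1) - X i) <
      (Y i - Y (i + 1)) * (X (i + 1 + 1) - X (i + 1)) := by
    intro i hi
    have h := D.K.conv i (i + 1) (i + 1 + 1) (by omega) (by omega) (by omega)
    rw [glu_le a (by omega : i ≤ q + 1), glu_le a (by omega : i + 1 ≤ q + 1),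
      glu_le a (by omega : i + 1 + 1 ≤ q + 1), glu_le b (by omega : i ≤ q + 1),
      glu_le b (by omega : i + 1 ≤ q + 1), glu_le b (by omega : i + 1 + 1 ≤ q + 1)] at h
    linarith
  have N : NearChain (q + 1) v w (fun i => X (i + 1) - X i) (fun i => Y i - Y (i + 1))
      (cp v w X Y (q + 1) (z1g v w M (q + 1) a b X Y))
      (cr' v w X Y (z2g v w M (q + 1) a b X Y))
      (cA v w X Y (z2g v w M (q + 1) a b X Y))
      (cB v w X Y (q + 1) (z1g v w M (q + 1) a b X Y)) :=
    nearChain_of_min D.X0 D.Yr hne hne' hs hD.ne' hmin rfl rfl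
  have hsum : ∑ i ∈ Finset.range (q + 1), (v * (X (i + 1) - X i) - w * (Y i - Y (i + 1))) =
      v * X (q + 1) - w * Y 0 := by
    rw [Finset.sum_sub_distrib, ← Finset.mul_sum, ← Finset.mul_sum, sum_tel]
    have e : ∑ i ∈ Finset.range (q + 1), (Y i - Y (i + 1)) =
        -∑ i ∈ Finset.range (q + 1), (Y (i + 1) - Y i) := by
      rw [← Finset.sum_neg_distrib]
      exact Finset.sum_congr rfl fun i _ => by ring
    rw [e, sum_tel, D.X0, D.Yr]; ring
  obtain ⟨hv, hw, hp, hr, hvp, halt⟩ := N.section23 (by omega) (by rw [hsum]; linarith)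
  rw [hsum] at halt
  have hV := V4 D.K hpos hneg.le
  rw [pT_glue D.gh hdg.ne', rS_glue D.gh D.X0] at hV
  change v * cp v w X Y (q + 1) (z1g v w M (q + 1) a b X Y) (q + 1) +
    w * cr' v w X Y (z2g v w M (q + 1) a b X Y) 0 ≤ _ at hV
  rw [glu_le a le_rfl, glu_le b (Nat.zero_le _)] at hV
  set p := cp v w X Y (q + 1) (z1g v w M (q + 1) a b X Y) (q + 1) with hpd
  set ρ := cr' v w X Y (z2g v w M (q + 1) a b X Y) 0 with hρ
  have hmean : v * X (q + 1) + w * Y 0 + 2 * ((v * p + w * ρ) / 2) ≤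
      2 * (v * (Ix v w (glu (q + 1) X a) (glu (q + 1) Y b) (M + (q + 1)) /
        pJ v w (glu (q + 1) X a) (glu (q + 1) Y b) (M + (q + 1))) +
        w * (Iy v w (glu (q + 1) X a) (glu (q + 1) Y b) (M + (q + 1)) /
          pJ v w (glu (q + 1) X a) (glu (q + 1) Y b) (M + (q + 1)))) := by
    linarith
  have hC1 := D.c1 hv hw hmean
  have hρ1 : 1 ≤ w * ρ := by
    rcases halt with h | h
    · exact h
    · exfalso; linarith
  have hμ : 1 < (v * p + w * ρ) / 2 := by linarith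
  have hp0 := N.p_all_pos hp 0 (Nat.zero_le _)
  have hfin := D.corner_fin hv hw hle hμ hNC hmean hp hr (Or.inr ⟨hρ1, D.rS_lt hv N hp0⟩)
  linarith

end

end Pool.Agent.Work.MP_b5407d_pos_h13
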