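import Pool.Agent.Work.MP_b5407d_pos_helper13.Bound
import Pool.Agent.Work.MP_b5407d_pos_helper64.THIN

/-! # MP_b5407d_gt (POS): existence of the minimiser (helper13) -/

set_option autoImplicit false

open MeasureTheory Set Filter Topology

namespace Pool.Agent.Work.MP_b5407d_pos_h13

open Pool.LBM Pool.LBM.Path

section
variable {M r : ℕ} {a b X Y : ℕ → ℝ}

/-! ### lower bound for `d` -/

/-- open triangle -/
def UT (p1 p2 p3 : R2) : Set R2 :=
  {z | 0 < cr (p2 - p1) (z - p1) ∧ 0 < cr (p3 - p2) (z - p2) ∧ 0 < cr (p1 - p3) (z - p3)}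

theorem UT_open (p1 p2 p3 : R2) : IsOpen (UT p1 p2 p3) := by
  have h : ∀ p q : R2, IsOpen {z : R2 | 0 < cr (q - p) (z - p)} := by
    intro p q
    refine isOpen_lt continuous_const ?_
    unfold cr
    fun_prop
  exact (h p1 p2).inter ((h p2 p3).inter (h p3 p1))

theorem UT_nonempty {p1 p2 p3 : R2} (h : 0 < cr (p2 - p1) (p3 - p1)) : (UT p1 p2 p3).Nonempty := by
  refine ⟨((p1.1 + p2.1 + p3.1) / 3, (p1.2 + p2.2 + p3.2) / 3), ?_, ?_, ?_⟩
  all_goals
    simp only [cr, Prod.fst_sub, Prod.snd_sub] at h ⊢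
    linarith

/-- points of the triangle satisfy every affine inequality valid at the vertices -/
theorem UT_aff {p1 p2 p3 z : R2} (hz : z ∈ UT p1 p2 p3) (h : 0 < cr (p2 - p1) (p3 - p1))
    (α β γ : ℝ) (h1 : 0 ≤ α * p1.1 + β * p1.2 + γ) (h2 : 0 ≤ α * p2.1 + β * p2.2 + γ)
    (h3 : 0 ≤ α * p3.1 + β * p3.2 + γ) : 0 ≤ α * z.1 + β * z.2 + γ := by
  obtain ⟨g3, g1, g2⟩ := hz
  have e : cr (p2 - p1) (p3 - p1) * (α * z.1 + β * z.2 + γ) =
      cr (p3 - p2) (z - p2) * (α * p1.1 + β * p1.2 + γ) +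
      cr (p1 - p3) (z - p3) * (α * p2.1 + β * p2.2 + γ) +
      cr (p2 - p1) (z - p1) * (α * p3.1 + β * p3.2 + γ) := by
    simp only [cr, Prod.fst_sub, Prod.snd_sub]; ring
  have h4 : 0 ≤ cr (p2 - p1) (p3 - p1) * (α * z.1 + β * z.2 + γ) := by
    rw [e]
    have := mul_nonneg g1.le h1
    have := mul_nonneg g2.le h2
    have := mul_nonneg g3.le h3
    linarith
  exact nonneg_of_mul_nonneg_right h4 h

theorem UT_sub {m : ℕ} {A B : ℕ → ℝ} {p1 p2 p3 : R2} (h : 0 < cr (p2 - p1) (p3 - p1))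
    (h1 : p1 ∈ KK m A B) (h2 : p2 ∈ KK m A B) (h3 : p3 ∈ KK m A B) :
    UT p1 p2 p3 ⊆ KK m A B := by
  intro z hz
  refine ⟨?_, fun k hk => ?_⟩
  · have := UT_aff hz h 1 0 0 (by simpa using h1.1) (by simpa using h2.1) (by simpa using h3.1)
    simpa using this
  · have g1 := h1.2 k hk
    have g2 := h2.2 k hk
    have g3 := h3.2 k hk
    have := UT_aff hz h (-(B (k + 1) - B k)) (A (k + 1) - A k)
      ((B (k + 1) - B k) * A k - (A (k + 1) - A k) * B k) (by linarith) (by linarith)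
      (by linarith)
    linarith

theorem d_lower3 (K' : Std M 0 a b) (hM : 3 ≤ M) (v w : ℝ) : ∃ δ : ℝ, 0 < δ ∧
    ∀ X Y : ℕ → ℝ, CD M r a b X Y → δ ≤ pd v w (glu r X a) (glu r Y b) (M + r) := by
  have hC := CP_of_Std K'
  set p1 : R2 := (a 1, b 1) with hp1
  set p2 : R2 := (a 2, b 2) with hp2
  set p3 : R2 := (a M, b M) with hp3
  have hpos : 0 < cr (p2 - p1) (p3 - p1) := by
    have := K'.conv 1 2 M (by omega) (by omega) le_rfl
    simp only [cr, Prod.fst_sub, Prod.snd_sub, hp1, hp2, hp3]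
    exact this
  have hc : Continuous fun z : R2 => Real.exp (v * z.1 + w * z.2) := by fun_prop
  have hsub' : UT p1 p2 p3 ⊆ KK M a b := UT_sub hpos (KK_vertex hC (by omega))
    (KK_vertex hC (by omega)) (KK_vertex hC le_rfl)
  have hint : IntegrableOn (fun z : R2 => Real.exp (v * z.1 + w * z.2)) (UT p1 p2 p3) volume :=
    (hc.continuousOn.integrableOn_compact (KK_compact hC)).mono_set hsub'
  refine ⟨∫ z in UT p1 p2 p3, Real.exp (v * z.1 + w * z.2), ?_, ?_⟩
  · rw [setIntegral_pos_iff_support_of_nonneg_ae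
      (Eventually.of_forall fun z => (Real.exp_pos _).le) hint]
    have hs : Function.support (fun z : R2 => Real.exp (v * z.1 + w * z.2)) = univ := by
      ext z; simp [Real.exp_ne_zero]
    rw [hs, univ_inter]
    exact (UT_open _ _ _).measure_pos volume (UT_nonempty hpos)
  · intro X Y D
    have hD := CP_of_Std D.K
    have v1 := KK_vertex hD (j := 1 + r) (by omega)
    have v2 := KK_vertex hD (j := 2 + r) (by omega)
    have v3 := KK_vertex hD (j := M + r) le_rfl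
    rw [glu_gt a (by omega), glu_gt b (by omega)] at v1 v2 v3
    rw [← pd_area hD]
    refine setIntegral_mono_set (hc.continuousOn.integrableOn_compact (KK_compact hD))
      (Eventually.of_forall fun z => (Real.exp_pos _).le) ?_
    exact (UT_sub hpos v1 v2 v3 : _ ≤ _).eventuallyLE

theorem d_lower2 (K' : Std M 0 a b) (hM : M = 2) (v w : ℝ) : ∃ Λ : ℝ, 0 ≤ Λ ∧
    ∀ X Y : ℕ → ℝ, CD M r a b X Y →
      -(Λ * pd v w (glu r X a) (glu r Y b) (M + r)) ≤
        hK v w (glu r X a) (glu r Y b) (M + r) ((r : ℝ) + 1) := by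
  subst hM
  have ha1 : 0 < a 1 := by
    have h1 := K'.bot
    rw [K'.a0, zero_add] at h1
    exact h1
  have hb2 : 0 < b 2 := by
    have := K'.left
    rw [K'.br] at this
    exact this
  obtain ⟨Λ, hΛ⟩ := Pool.Agent.Work.MP_b5407d_pos_h64.blk_THIN blk_LIP r v w (a 1) (b 2) ha1 hb2
  refine ⟨|Λ| ^ 2 + |Λ|, by positivity, fun X Y D => ?_⟩
  have h := hΛ (glu r X a) (glu r Y b) (by rw [glu_le a (Nat.zero_le r), D.X0])
    (by rw [glu_le b le_rfl, D.Yr]) (by rw [add_comm r 1, glu_gt a le_rfl])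
    (by rw [add_comm r 1, glu_gt b le_rfl, D.b1])
    (by rw [add_comm r 2, glu_gt a (by omega)]; exact K'.am)
    (by rw [add_comm r 2, glu_gt b (by omega)])
    (fun k hk => by
      rw [glu_le a hk.le, glu_le a (by omega : k + 1 ≤ r), glu_le b hk.le,
        glu_le b (by omega : k + 1 ≤ r)]
      exact ⟨(D.near hk).1.le, (D.near hk).2.le⟩)
    (by rw [glu_le a le_rfl]; exact D.Xr_lt.le)
    (by rw [glu_le b (Nat.zero_le r)]; exact D.Y0_lt.le)
    (fun i j k hij hjk hk => (D.K.conv i j k hij hjk (by omega)).le)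
  obtain ⟨-, h1, h2, h3⟩ := h
  have e : r + 2 = 2 + r := by ring
  rw [e] at h1 h2 h3
  have hd := D.dg_pos (v := v) (w := w)
  rw [hK_def]
  set d := pd v w (glu r X a) (glu r Y b) (2 + r)
  set P := pP v w (glu r X a) (glu r Y b) (2 + r)
  set N := pN v w (glu r X a) (glu r Y b) (2 + r) r
  set Q := pM v w (glu r X a) (glu r Y b) (2 + r) r
  have hL : Λ ≤ |Λ| := le_abs_self Λ
  have hL0 : 0 ≤ |Λ| := abs_nonneg Λ
  have g1 : |P / d| ≤ |Λ| := by
    rw [abs_div, abs_of_pos hd, div_le_iff₀ hd]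
    exact h1.trans (mul_le_mul_of_nonneg_right hL hd.le)
  have g2 : |N| ≤ |Λ| * d := h2.trans (mul_le_mul_of_nonneg_right hL hd.le)
  have g3 : |Q| ≤ |Λ| * d := h3.trans (mul_le_mul_of_nonneg_right hL hd.le)
  have g4 : |P / d * N| ≤ |Λ| * (|Λ| * d) := by
    rw [abs_mul]
    exact mul_le_mul g1 g2 (abs_nonneg _) hL0
  have g5 := (abs_le.1 g4).1
  have g6 := (abs_le.1 g3).2
  nlinarith

theorem d_lower (K' : Std M 0 a b) (v w h0 : ℝ) (hneg : h0 < 0) : ∃ δ : ℝ, 0 < δ ∧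
    ∀ X Y : ℕ → ℝ, CD M r a b X Y →
      hK v w (glu r X a) (glu r Y b) (M + r) ((r : ℝ) + 1) ≤ h0 →
      δ ≤ pd v w (glu r X a) (glu r Y b) (M + r) := by
  have hM : 1 < M := std_r1_lt K'
  rcases Nat.lt_or_ge 2 M with h | h
  · obtain ⟨δ, hδ, hd⟩ := d_lower3 (r := r) K' (by omega) v w
    exact ⟨δ, hδ, fun X Y D _ => hd X Y D⟩
  · obtain ⟨Λ, hΛ, hd⟩ := d_lower2 (r := r) K' (by omega) v w
    refine ⟨-h0 / (Λ + 1), div_pos (by linarith) (by linarith), fun X Y D hh => ?_⟩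
    have h1 := hd X Y D
    have hd0 := D.dg_pos (v := v) (w := w)
    rw [div_le_iff₀ (by linarith)]
    nlinarith

/-! ### compactness -/

/-- the compact set of weak chains -/
def WS (M r : ℕ) (a b : ℕ → ℝ) : Set PP :=
  {p | WC M r a b p.1 p.2 ∧ ∀ k, r < k → p.1 k = 0 ∧ p.2 k = 0}

theorem WS_closed : IsClosed (WS M r a b) := by
  have c1 : ∀ k : ℕ, Continuous fun p : PP => p.1 k := fun k => by fun_prop
  have c2 : ∀ k : ℕ, Continuous fun p : PP => p.2 k := fun k => by fun_prop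
  have e : WS M r a b = {p : PP | p.1 0 = 0} ∩ {p : PP | p.2 r = 0} ∩
      (⋂ k, ⋂ (_ : k < r), ({p : PP | p.1 k ≤ p.1 (k + 1)} ∩ {p : PP | p.2 (k + 1) ≤ p.2 k})) ∩
      (⋂ i, ⋂ j, ⋂ k, ⋂ (_ : i < j), ⋂ (_ : j < k), ⋂ (_ : k ≤ r),
        {p : PP | 0 ≤ (p.1 j - p.1 i) * (p.2 k - p.2 i) - (p.2 j - p.2 i) * (p.1 k - p.1 i)}) ∩
      {p : PP | p.1 r ≤ a 1} ∩ {p : PP | p.2 0 ≤ b M} ∩
      (⋂ k, ⋂ (_ : r < k), ({p : PP | p.1 k = 0} ∩ {p : PP | p.2 k = 0})) := by
    ext p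
    simp only [WS, mem_inter_iff, mem_iInter, Set.mem_ofPred_eq]
    constructor
    · rintro ⟨W, h⟩
      exact ⟨⟨⟨⟨⟨⟨W.X0, W.Yr⟩, W.mono⟩, fun i j k hij hjk hk => W.conv i j k hij hjk hk⟩,
        W.Xr⟩, W.Y0⟩, h⟩
    · rintro ⟨⟨⟨⟨⟨⟨h1, h2⟩, h3⟩, h4⟩, h5⟩, h6⟩, h7⟩
      exact ⟨⟨h1, h2, h3, h4, h5, h6⟩, h7⟩
  rw [e]
  refine (((((((isClosed_eq (c1 0) continuous_const).inter
    (isClosed_eq (c2 r) continuous_const)).inter ?_).inter ?_).inter
    (isClosed_le (c1 r) continuous_const)).inter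
    (isClosed_le (c2 0) continuous_const)).inter ?_)
  · exact isClosed_iInter fun k => isClosed_iInter fun _ =>
      (isClosed_le (c1 k) (c1 (k + 1))).inter (isClosed_le (c2 (k + 1)) (c2 k))
  · exact isClosed_iInter fun i => isClosed_iInter fun j => isClosed_iInter fun k =>
      isClosed_iInter fun _ => isClosed_iInter fun _ => isClosed_iInter fun _ =>
      isClosed_le continuous_const (by fun_prop)
  · exact isClosed_iInter fun k => isClosed_iInter fun _ =>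
      (isClosed_eq (c1 k) continuous_const).inter (isClosed_eq (c2 k) continuous_const)

theorem WS_compact : IsCompact (WS M r a b) := by
  have hK : IsCompact ((Set.univ.pi fun _ : ℕ => Icc (0:ℝ) (max (a 1) 0)) ×ˢ
      (Set.univ.pi fun _ : ℕ => Icc (0:ℝ) (max (b M) 0))) :=
    (isCompact_univ_pi fun _ => isCompact_Icc).prod (isCompact_univ_pi fun _ => isCompact_Icc)
  refine hK.of_isClosed_subset WS_closed ?_
  rintro p ⟨W, h⟩
  refine ⟨fun k _ => ?_, fun k _ => ?_⟩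
  · rcases Nat.lt_or_ge r k with hk | hk
    · rw [(h k hk).1]; exact ⟨le_rfl, le_max_right _ _⟩
    · have h1 := wc_X_mono W (Nat.zero_le k) hk
      have h2 := wc_X_mono W hk le_rfl
      rw [W.X0] at h1
      exact ⟨h1, (h2.trans W.Xr).trans (le_max_left _ _)⟩
  · rcases Nat.lt_or_ge r k with hk | hk
    · rw [(h k hk).2]; exact ⟨le_rfl, le_max_right _ _⟩
    · have h1 := wc_Y_mono W (Nat.zero_le k) hk
      have h2 := wc_Y_mono W hk le_rfl
      rw [W.Yr] at h2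
      exact ⟨h2, (h1.trans W.Y0).trans (le_max_left _ _)⟩

theorem glu_cn : Continuous (fun p : PP => ((glu r p.1 a, glu r p.2 b) : PP)) := by
  have h : ∀ (c : ℕ → ℝ), Continuous (fun x : ℕ → ℝ => glu r x c) := by
    intro c
    refine continuous_pi fun k => ?_
    by_cases hk : k ≤ r
    · simp only [glu, hk, if_true]; exact continuous_apply k
    · simp only [glu, hk, if_false]; exact continuous_const
  exact ((h a).comp continuous_fst).prodMk ((h b).comp continuous_snd)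

/-- truncated sequence -/
def tr (r : ℕ) (X : ℕ → ℝ) : ℕ → ℝ := fun k => if k ≤ r then X k else 0

theorem glu_tr (X c : ℕ → ℝ) : glu r (tr r X) c = glu r X c := by
  funext k
  by_cases hk : k ≤ r <;> simp [glu, tr, hk]

theorem tr_mem (D : CD M r a b X Y) : (tr r X, tr r Y) ∈ WS M r a b := by
  have W := D.wc
  have e : ∀ (c : ℕ → ℝ) {k : ℕ}, k ≤ r → tr r c k = c k := fun c k hk => by simp [tr, hk]
  refine ⟨⟨?_, ?_, fun k hk => ?_, fun i j k hij hjk hk => ?_, ?_, ?_⟩, fun k hk => ?_⟩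
  · show tr r X 0 = 0
    rw [e X (Nat.zero_le r)]; exact W.X0
  · show tr r Y r = 0
    rw [e Y le_rfl]; exact W.Yr
  · show tr r X k ≤ tr r X (k + 1) ∧ tr r Y (k + 1) ≤ tr r Y k
    rw [e X hk.le, e X (by omega), e Y hk.le, e Y (by omega)]
    exact W.mono k hk
  · show 0 ≤ (tr r X j - tr r X i) * (tr r Y k - tr r Y i) -
      (tr r Y j - tr r Y i) * (tr r X k - tr r X i)
    rw [e X (k := j) (by omega), e X (k := i) (by omega), e X hk, e Y (k := j) (by omega),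
      e Y (k := i) (by omega), e Y hk]
    exact W.conv i j k hij hjk hk
  · show tr r X r ≤ a 1
    rw [e X le_rfl]; exact W.Xr
  · show tr r Y 0 ≤ b M
    rw [e Y (Nat.zero_le r)]; exact W.Y0
  · have h : ¬ k ≤ r := by omega
    simp [tr, h]

/-- `h` as a function of the near chain -/
noncomputable def HH (v w : ℝ) (M r : ℕ) (a b : ℕ → ℝ) (p : PP) : ℝ :=
  hK v w (glu r p.1 a) (glu r p.2 b) (M + r) ((r : ℝ) + 1)

theorem HH_def (v w : ℝ) (p : PP) : HH v w M r a b p =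
    pP v w (glu r p.1 a) (glu r p.2 b) (M + r) / pd v w (glu r p.1 a) (glu r p.2 b) (M + r) *
      pN v w (glu r p.1 a) (glu r p.2 b) (M + r) r -
      pM v w (glu r p.1 a) (glu r p.2 b) (M + r) r := by
  unfold HH
  exact hK_def _ _ _ _ _ _

theorem HH_tr (v w : ℝ) (X Y : ℕ → ℝ) : HH v w M r a b (tr r X, tr r Y) =
    hK v w (glu r X a) (glu r Y b) (M + r) ((r : ℝ) + 1) := by
  unfold HH
  rw [glu_tr, glu_tr]

end

end Pool.Agent.Work.MP_b5407d_pos_h13
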