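import Pool.Agent.Work.MP_b5407d_pos_helper13.Exist

/-! # MP_b5407d_gt (POS): existence of the minimiser, final form (helper13) -/

set_option autoImplicit false

open MeasureTheory Set Filter Topology

namespace Pool.Agent.Work.MP_b5407d_pos_h13

open Pool.LBM Pool.LBM.Path

section
variable {M r : ℕ} {a b : ℕ → ℝ}

/-- `d` as a function of the near chain -/
noncomputable def DD (v w : ℝ) (M r : ℕ) (a b : ℕ → ℝ) (p : PP) : ℝ :=
  pd v w (glu r p.1 a) (glu r p.2 b) (M + r)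

theorem DD_cont (v w : ℝ) : Continuous (DD v w M r a b) :=
  (pd_cn v w (M + r)).comp (glu_cn (r := r) (a := a) (b := b))

theorem DD_tr (v w : ℝ) (X Y : ℕ → ℝ) : DD v w M r a b (tr r X, tr r Y) =
    pd v w (glu r X a) (glu r Y b) (M + r) := by
  unfold DD
  rw [glu_tr, glu_tr]

/-- compact set -/
def ZZs (v w : ℝ) (M r : ℕ) (a b : ℕ → ℝ) (δ : ℝ) : Set PP :=
  {p | p ∈ WS M r a b ∧ δ ≤ DD v w M r a b p}

theorem ZZs_compact (v w δ : ℝ) : IsCompact (ZZs v w M r a b δ) := by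
  have hc : IsClosed {p : PP | δ ≤ DD v w M r a b p} :=
    isClosed_le continuous_const (DD_cont v w)
  exact WS_compact.inter_right hc

theorem HH_cont {v w δ : ℝ} (hδ : 0 < δ) :
    ContinuousOn (HH v w M r a b) (ZZs v w M r a b δ) := by
  have hg := glu_cn (r := r) (a := a) (b := b)
  have cP := (pP_cn v w (M + r)).comp hg
  have cN := (pN_cn v w (M + r) r).comp hg
  have cM := (pM_cn v w (M + r) r).comp hg
  simp only [Function.comp_def] at cP cN cM
  have e : HH v w M r a b =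
      fun p : PP => pP v w (glu r p.1 a) (glu r p.2 b) (M + r) /
        DD v w M r a b p *
        pN v w (glu r p.1 a) (glu r p.2 b) (M + r) r -
        pM v w (glu r p.1 a) (glu r p.2 b) (M + r) r := by
    funext p
    exact HH_def v w p
  rw [e]
  have h1 : ∀ p ∈ ZZs v w M r a b δ, DD v w M r a b p ≠ 0 := by
    intro p hp
    have h2 : δ ≤ DD v w M r a b p := hp.2
    exact (lt_of_lt_of_le hδ h2).ne'
  exact ((cP.continuousOn.div (DD_cont v w).continuousOn h1).mul cN.continuousOn).sub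
    cM.continuousOn

/-- EXISTENCE of a minimiser among weak chains -/
theorem exists_min (K' : Std M 0 a b) {X0 Y0 : ℕ → ℝ} (D0 : CD M r a b X0 Y0) {v w : ℝ}
    (hneg : hK v w (glu r X0 a) (glu r Y0 b) (M + r) ((r : ℝ) + 1) < 0) :
    ∃ X Y : ℕ → ℝ, WC M r a b X Y ∧ 0 < pd v w (glu r X a) (glu r Y b) (M + r) ∧
      hK v w (glu r X a) (glu r Y b) (M + r) ((r : ℝ) + 1) < 0 ∧ LMin v w M r a b X Y := by
  obtain ⟨δ, hδ, hd⟩ := d_lower (r := r) K' v w _ hneg
  have hmem : ∀ X Y : ℕ → ℝ, CD M r a b X Y → δ ≤ pd v w (glu r X a) (glu r Y b) (M + r) →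
      ((tr r X, tr r Y) : PP) ∈ ZZs v w M r a b δ := by
    intro X Y D h
    refine And.intro (tr_mem D) ?_
    rw [DD_tr]; exact h
  have h0 := hmem X0 Y0 D0 (hd X0 Y0 D0 le_rfl)
  obtain ⟨p, hpZ, hpmin⟩ := (ZZs_compact v w δ).exists_isMinOn ⟨_, h0⟩ (HH_cont hδ)
  rw [isMinOn_iff] at hpmin
  have hle : ∀ X Y : ℕ → ℝ, CD M r a b X Y →
      δ ≤ pd v w (glu r X a) (glu r Y b) (M + r) →
      HH v w M r a b p ≤ hK v w (glu r X a) (glu r Y b) (M + r) ((r : ℝ) + 1) := by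
    intro X Y D h
    have h1 := hpmin _ (hmem X Y D h)
    rwa [HH_tr] at h1
  have hp0 := hle X0 Y0 D0 (hd X0 Y0 D0 le_rfl)
  have hpn : HH v w M r a b p < 0 := lt_of_le_of_lt hp0 hneg
  have hW : p ∈ WS M r a b := hpZ.1
  have hdp : δ ≤ DD v w M r a b p := hpZ.2
  have hW1 : WC M r a b p.1 p.2 := hW.1
  have hdp' : 0 < DD v w M r a b p := lt_of_lt_of_le hδ hdp
  refine ⟨p.1, p.2, hW1, hdp', hpn, ?_⟩
  intro X Y D
  change HH v w M r a b p ≤ _
  rcases le_or_gt δ (pd v w (glu r X a) (glu r Y b) (M + r)) with h | h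
  · exact hle X Y D h
  · by_contra hn
    push Not at hn
    have h1 : hK v w (glu r X a) (glu r Y b) (M + r) ((r : ℝ) + 1) ≤
        hK v w (glu r X0 a) (glu r Y0 b) (M + r) ((r : ℝ) + 1) := hn.le.trans hp0
    have h2 := hd X Y D h1
    exact absurd h2 (not_le.2 h)

end

end Pool.Agent.Work.MP_b5407d_pos_h13
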