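import Pool.Agent.Work.MP_b5407d_pos_helper13.Exist2

/-! # MP_b5407d_gt (POS): POS from the case without corner (helper13) -/

set_option autoImplicit false

open MeasureTheory Set Filter Topology

namespace Pool.Agent.Work.MP_b5407d_pos_h13

open Pool.LBM Pool.LBM.Path

section
variable {M q : ℕ} {A B : ℕ → ℝ}

/-- outer chain with the corner -/
def oc (q : ℕ) (A : ℕ → ℝ) : ℕ → ℝ := fun k => if k = 0 then 0 else A (k + q)

theorem oc_0 (A : ℕ → ℝ) : oc q A 0 = 0 := by simp [oc]
theorem oc_pos (A : ℕ → ℝ) {k : ℕ} (hk : 1 ≤ k) : oc q A k = A (k + q) := by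
  have : k ≠ 0 := by omega
  simp [oc, this]

theorem px_aux {p q x y : ℝ} (hx : 0 ≤ x) (hy : 0 ≤ y) (h1 : x + y < p) (h2 : x + y < q) :
    p * x + q * y ≤ p * q := by
  rcases le_total p q with h | h
  · have := mul_le_mul_of_nonneg_right h hx
    nlinarith
  · have := mul_le_mul_of_nonneg_right h hy
    nlinarith

/-- `K'` is in standard position -/
theorem std_oc (h : Std (M + (q + 1)) (q + 1) A B) (hM : 1 ≤ M) :
    Std M 0 (oc (q + 1) A) (oc (q + 1) B) := by
  have hb0 : 0 < B 0 := std_b_pos h (by omega) (by omega) (by omega)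
  have hat : 0 < A (q + 1) := std_a_pos h (by omega) (by omega)
  refine ⟨by omega, ?_, oc_0 A, ?_, ?_, oc_0 B, ?_, ?_⟩
  · intro i j k hij hjk hk
    rcases Nat.eq_zero_or_pos i with h0 | h0
    · subst h0
      rw [oc_0, oc_0, oc_pos A (by omega : 1 ≤ j), oc_pos B (by omega : 1 ≤ j),
        oc_pos A (by omega : 1 ≤ k), oc_pos B (by omega : 1 ≤ k)]
      have c1 := h.conv (q + 1) (j + (q + 1)) (k + (q + 1)) (by omega) (by omega) (by omega)
      have c2 := h.conv 0 (j + (q + 1)) (k + (q + 1)) (by omega) (by omega) (by omega)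
      have c3 := h.conv 0 (q + 1) (j + (q + 1)) (by omega) (by omega) (by omega)
      have hAj : 0 ≤ A (j + (q + 1)) := std_a_nonneg h (by omega)
      have hBj : 0 ≤ B (j + (q + 1)) := std_b_nonneg h (by omega)
      rw [h.br] at c1 c3
      rw [h.a0] at c2 c3
      set s := B 0
      set t := A (q + 1)
      set Aj := A (j + (q + 1))
      set Bj := B (j + (q + 1))
      set Ak := A (k + (q + 1))
      set Bk := B (k + (q + 1))
      by_contra hn
      push Not at hn
      have g0 : Aj * Bk - Bj * Ak ≤ 0 := by linarith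
      have hE' : 0 < t * (Bj - Bk) := by linarith
      have hD' : 0 < s * (Ak - Aj) := by linarith
      have hE : 0 < Bj - Bk := pos_left (by linarith [hE'] : 0 < (Bj - Bk) * t) hat.le
      have hD : 0 < Ak - Aj := pos_left (by linarith [hD'] : 0 < (Ak - Aj) * s) hb0.le
      have h1 : Bj * (Ak - Aj) + Aj * (Bj - Bk) < t * (Bj - Bk) := by linarith
      have h2 : Bj * (Ak - Aj) + Aj * (Bj - Bk) < s * (Ak - Aj) := by linarith
      have h3 := px_aux (mul_nonneg hBj hD.le) (mul_nonneg hAj hE.le) h1 h2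
      have h4 : 0 < ((t - 0) * (Bj - s) - (0 - s) * (Aj - 0)) * ((Ak - Aj) * (Bj - Bk)) :=
        mul_pos c3 (mul_pos hD hE)
      nlinarith
    · rw [oc_pos A (by omega : 1 ≤ i), oc_pos B (by omega : 1 ≤ i),
        oc_pos A (by omega : 1 ≤ j), oc_pos B (by omega : 1 ≤ j),
        oc_pos A (by omega : 1 ≤ k), oc_pos B (by omega : 1 ≤ k)]
      exact h.conv _ _ _ (by omega) (by omega) (by omega)
  · rw [oc_pos A hM]; exact h.am
  · rw [oc_0, oc_pos B hM]
    have := h.left
    linarith
  · show oc (q + 1) B (0 + 1) = 0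
    rw [oc_pos B (by omega)]
    have e : 0 + 1 + (q + 1) = q + 1 + 1 := by ring
    rw [e]; exact h.br1
  · rw [oc_0, oc_pos A (by omega)]
    have e : 0 + 1 + (q + 1) = q + 1 + 1 := by ring
    rw [e]
    have := h.bot
    linarith

theorem glu_oc (hA : A 0 = A 0) : glu (q + 1) A (oc (q + 1) A) = A := by
  funext k
  by_cases hk : k ≤ q + 1
  · rw [glu_le _ hk]
  · obtain ⟨j, rfl⟩ : ∃ j, k = j + (q + 1) := ⟨k - (q + 1), by omega⟩
    rw [glu_gt _ (by omega : 1 ≤ j), oc_pos A (by omega)]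

theorem hK_of_PI {m r : ℕ} {a b : ℕ → ℝ} {v w : ℝ} (hd : 0 < pd v w a b m)
    (h : PI v w m r a b) : 0 ≤ hK v w a b m ((r : ℝ) + 1) := by
  rw [hK_def]
  have e : pP v w a b m / pd v w a b m * pN v w a b m r - pM v w a b m r =
      (pP v w a b m * pN v w a b m r - pd v w a b m * pM v w a b m r) / pd v w a b m := by
    field_simp
  rw [e]
  unfold PI at h
  exact div_nonneg (by linarith) hd.le

/-- induction step -/
theorem step (hM : 1 ≤ M)
    (NC : ∀ (m : ℕ) (a b : ℕ → ℝ) (v w : ℝ), Std m 0 a b → PI v w m 0 a b)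
    (IHm : ∀ m < M + (q + 1), ∀ (r : ℕ) (a b : ℕ → ℝ) (v w : ℝ), Std m r a b → PI v w m r a b)
    (IHr : ∀ (a b : ℕ → ℝ) (v w : ℝ), Std (M + (q + 1)) q a b → PI v w (M + (q + 1)) q a b)
    (v w : ℝ) (h : Std (M + (q + 1)) (q + 1) A B) : PI v w (M + (q + 1)) (q + 1) A B := by
  have K' := std_oc h hM
  set a := oc (q + 1) A with ha
  set b := oc (q + 1) B with hb
  have gA : glu (q + 1) A a = A := glu_oc rfl
  have gB : glu (q + 1) B b = B := glu_oc rfl
  have D0 : CD M (q + 1) a b A B := ⟨K', by rw [gA, gB]; exact h, by omega⟩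
  by_contra hn
  have hneg : hK v w (glu (q + 1) A a) (glu (q + 1) B b) (M + (q + 1))
      (((q + 1 : ℕ) : ℝ) + 1) < 0 := by
    by_contra hc
    push Not at hc
    have := (pos_iff (CP_of_Std D0.K) (q + 1)).2 hc
    rw [gA, gB] at this
    exact hn this
  obtain ⟨X, Y, W, hd, hXY, hmin⟩ := exists_min K' D0 hneg
  have IHq : ∀ (r : ℕ) (a b : ℕ → ℝ) (v w : ℝ), Std (M + q) r a b → PI v w (M + q) r a b :=
    IHm (M + q) (by omega)
  rcases reduce hM K'.br1 W with hS | ⟨X', Y', W', himp⟩
  · by_cases hint : X (q + 1) < a 1 ∧ Y 0 < b M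
    · have D : CD M (q + 1) a b X Y := cd_of K' (by omega) W.X0 W.Yr hS hint.1 hint.2
      have h1 := corner_min D (fun q' hq' a' b' v' w' hs => by
        have : q' = q := by omega
        subst this
        exact IHr a' b' v' w' hs) (fun a' b' v' w' hs => NC M a' b' v' w' hs) hmin
      linarith
    · have hor : X (q + 1) = a 1 ∨ Y 0 = b M := by
        by_contra hc
        push Not at hc
        exact hint ⟨lt_of_le_of_ne W.Xr hc.1, lt_of_le_of_ne W.Y0 hc.2⟩
      have h1 := hK_of_PI hd (boundary K' W hS hor IHq)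
      linarith
  · have h2 : PIg v w M q a b X' Y' := by
      refine weak_all q K' (NC M a b v w K') ?_ q le_rfl X' Y' W'
      intro r hr hrq X2 Y2 D2
      exact IHm (M + r) (by omega) r _ _ v w D2.K
    have h1 := hK_of_PI hd (himp v w h2)
    linarith

/-- POS from the case without corner -/
theorem pi_all
    (NC : ∀ (m : ℕ) (a b : ℕ → ℝ) (v w : ℝ), Std m 0 a b → PI v w m 0 a b) :
    ∀ (m r : ℕ) (a b : ℕ → ℝ) (v w : ℝ), Std m r a b → PI v w m r a b := by
  intro m
  induction m using Nat.strong_induction_on with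
  | _ m IHm =>
    intro r
    induction r with
    | zero => exact fun a b v w h => NC m a b v w h
    | succ q IHr =>
      intro a b v w h
      have hlt := std_r1_lt h
      obtain ⟨M, rfl⟩ : ∃ M, m = M + (q + 1) := ⟨m - (q + 1), by omega⟩
      exact step (by omega) NC IHm IHr v w h

/-- THE REDUCTION: `POS` follows from the case `r = 0` -/
theorem POS_of_NC
    (hNC : ∀ (m : ℕ) (a b : ℕ → ℝ) (v w : ℝ), Std m 0 a b →
      pd v w a b m * pM v w a b m 0 ≤ pP v w a b m * pN v w a b m 0) : POS :=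
  fun m r a b v w h => pi_all hNC m r a b v w h

end

end Pool.Agent.Work.MP_b5407d_pos_h13
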