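import Pool.Agent.Work.MP_b5407d_pos_helper13.Sec5
import Pool.Agent.Work.MP_b5407d_pos_helper9.B2

/-! # MP_b5407d_gt (POS): the corner case at a minimiser (helper13) -/

set_option autoImplicit false

open MeasureTheory Set Filter Topology

namespace Pool.Agent.Work.MP_b5407d_pos_h13

open Pool.LBM Pool.LBM.Path
open Pool.Agent.MPb5407d (S5Hyp shc five_d Tri NearChain)
open Pool.Agent.Work.MP_b5407d_pos_h9.FV (cd cn cpp cm chh cp cr' cA cB cF cG ce Zd Zn Zp Zm Xh Jl
  nearChain_of_min cbil_nonneg)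

section
variable {M r : ℕ} {a b X Y : ℕ → ℝ} {v w : ℝ}

theorem diff_alg {P N d m p n δ q : ℝ} (hd : d ≠ 0) (hD : d - δ ≠ 0) :
    (P - p) * (N - n) / (d - δ) - (m - q) = (P * N - d * m) / d +
      (δ * (P / d) * ((N - n) / (d - δ)) - (P / d) * n - ((N - n) / (d - δ)) * p + q) := by
  field_simp
  ring

theorem diff_alg' {P N d m p n δ q : ℝ} (hd : d ≠ 0) (hD : d - δ ≠ 0) :
    (P - p) * (N - n) / (d - δ) - (m - q) = (P * N - d * m) / d +
      (δ * ((P - p) / (d - δ)) * (N / d) - ((P - p) / (d - δ)) * n - (N / d) * p + q) := by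
  field_simp
  ring

namespace CD
variable (D : CD M r a b X Y)
include D

theorem gh : GH M r a b X Y := ⟨D.K'.a0, D.b0, D.b1, D.Yr, D.M1⟩

theorem dg_pos : 0 < pd v w (glu r X a) (glu r Y b) (M + r) := pd_pos (CP_of_Std D.K)

/-- `h_K ≥ 0` from `h_{K'} ≥ 0` and the position of `C`, `C'` -/
theorem final_ineq
    (hNC : pd v w a b M * pM v w a b M 0 ≤ pP v w a b M * pN v w a b M 0)
    (h1 : mE v (X r) ≤ (pP v w a b M - cpp v w X Y r) / (pd v w a b M - cd v w X Y r))
    (h2 : mE w (Y 0) ≤ (pN v w a b M 0 - cn v w X Y r) / (pd v w a b M - cd v w X Y r))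
    (h3 : mE v (X r) ≤ pP v w a b M / pd v w a b M ∨
      mE w (Y 0) ≤ pN v w a b M 0 / pd v w a b M) :
    0 ≤ hK v w (glu r X a) (glu r Y b) (M + r) ((r : ℝ) + 1) := by
  have hd := D.dg_pos (v := v) (w := w)
  rw [hK_glue D.gh hd.ne']
  have hd' := pd_pos (v := v) (w := w) (CP_of_Std D.K')
  have hD : 0 < pd v w a b M - cd v w X Y r := by rw [← glue_d D.gh]; exact hd
  have hX : ∀ i < r, X i ≤ X (i + 1) := fun i hi => (D.near hi).1.le
  have hY : ∀ i < r, Y (i + 1) ≤ Y i := fun i hi => (D.near hi).2.le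
  have h0 : 0 ≤ (pP v w a b M * pN v w a b M 0 - pd v w a b M * pM v w a b M 0) /
      pd v w a b M := div_nonneg (by linarith) hd'.le
  unfold chh
  rcases h3 with h3 | h3
  · rw [diff_alg hd'.ne' hD.ne']
    have h4 := cbil_nonneg (v := v) (w := w) D.X0 hX hY h3 h2
    linarith
  · rw [diff_alg' hd'.ne' hD.ne']
    have h4 := cbil_nonneg (v := v) (w := w) D.X0 hX hY h1 h3
    linarith

/-- the near chain lies below the chord -/
theorem chord_vertex {k : ℕ} (hk : k ≤ r) : Y 0 * X k + X r * Y k ≤ X r * Y 0 := by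
  rcases Nat.eq_zero_or_pos k with h0 | h0
  · subst h0; rw [D.X0]; linarith
  · rcases hk.eq_or_lt with h1 | h1
    · subst h1; rw [D.Yr]; linarith
    · have h := D.K.conv 0 k r h0 h1 (by omega)
      rw [glu_le a hk, glu_le b hk, glu_le a le_rfl, glu_le b le_rfl, glu_le a (Nat.zero_le r),
        glu_le b (Nat.zero_le r), D.X0, D.Yr] at h
      linarith

theorem chord {s : ℝ} (hs : s ∈ Icc (0 : ℝ) r) :
    Y 0 * pl X s + X r * pl Y s ≤ X r * Y 0 := by
  rcases hs.2.eq_or_lt with h | h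
  · rw [h, pl_nat, pl_nat]; exact D.chord_vertex le_rfl
  · set k := ⌊s⌋₊ with hk
    have hk1 : (k : ℝ) ≤ s := Nat.floor_le hs.1
    have hk2 : s < k + 1 := Nat.lt_floor_add_one s
    have hkr : k < r := by
      have : (k : ℝ) < r := lt_of_le_of_lt hk1 h
      exact_mod_cast this
    rw [pl_aff X k hk1 hk2.le, pl_aff Y k hk1 hk2.le]
    have h1 := D.chord_vertex hkr.le
    have h2 := D.chord_vertex (k := k + 1) hkr
    have h3 := mul_le_mul_of_nonneg_left h1 (show 0 ≤ 1 - (s - k) by linarith)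
    have h4 := mul_le_mul_of_nonneg_left h2 (show 0 ≤ s - k by linarith)
    nlinarith

end CD

theorem neg_dpl_nonneg (hY : ∀ k < r, Y (k + 1) ≤ Y k) {s : ℝ} (hs : s ∈ Ico (0 : ℝ) r) :
    0 ≤ -dpl Y s := by
  have hk1 : ((⌊s⌋₊ : ℕ) : ℝ) ≤ s := Nat.floor_le hs.1
  have hkr : ⌊s⌋₊ < r := by
    have : ((⌊s⌋₊ : ℕ) : ℝ) < r := lt_of_le_of_lt hk1 hs.2
    exact_mod_cast this
  have := hY _ hkr
  simp only [dpl]
  linarith

theorem dpl_nonneg' (hX : ∀ k < r, X k ≤ X (k + 1)) {s : ℝ} (hs : s ∈ Ico (0 : ℝ) r) :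
    0 ≤ dpl X s := by
  have hk1 : ((⌊s⌋₊ : ℕ) : ℝ) ≤ s := Nat.floor_le hs.1
  have hkr : ⌊s⌋₊ < r := by
    have : ((⌊s⌋₊ : ℕ) : ℝ) < r := lt_of_le_of_lt hk1 hs.2
    exact_mod_cast this
  have := hX _ hkr
  simp only [dpl]
  linarith

theorem ce_cont : Continuous (ce v w X Y) := by
  have h1 := cont_pl X
  have h2 := cont_pl Y
  unfold ce Pool.Agent.Work.MP_b5407d_pos_h9.FV.e
  fun_prop

theorem ce_ne (s : ℝ) : ce v w X Y s ≠ 0 := (Real.exp_pos _).ne'

theorem cF_anti {z1 : ℝ} (hX : ∀ k < r, X k ≤ X (k + 1)) {s : ℝ} (hs : s ∈ Icc (0 : ℝ) r) :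
    cF v w X Y r z1 s ≤ cF v w X Y r z1 0 := by
  have hc := ce_cont (v := v) (w := w) (X := X) (Y := Y)
  have e1 : cF v w X Y r z1 0 - cF v w X Y r z1 s = ∫ u in (0 : ℝ)..s, ce v w X Y u * dpl X u := by
    unfold cF Pool.Agent.Work.MP_b5407d_pos_h9.FV.F
    have h := intervalIntegral.integral_add_adjacent_intervals
      (mul_ii X hc (r : ℝ) 0) (mul_ii X hc 0 s)
    simp only [ce] at h ⊢
    linarith
  have h2 : 0 ≤ ∫ u in (0 : ℝ)..s, ce v w X Y u * dpl X u := by
    rw [intervalIntegral.integral_of_le hs.1]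
    apply setIntegral_nonneg_of_ae_restrict
    rw [EventuallyLE, ae_restrict_iff' measurableSet_Ioc]
    have hne : ∀ᵐ u : ℝ, u ≠ r := by rw [ae_iff]; simp
    filter_upwards [hne] with u hu huI
    have h3 : u ∈ Ico (0 : ℝ) r := ⟨huI.1.le, lt_of_le_of_ne (huI.2.trans hs.2) hu⟩
    exact mul_nonneg (Real.exp_pos _).le (dpl_nonneg' hX h3)
  linarith

/-- `B_0 ≤ p_0 ∫ (e_0/e) |dy|` -/
theorem cB_le {z1 : ℝ} (hX : ∀ k < r, X k ≤ X (k + 1)) (hY : ∀ k < r, Y (k + 1) ≤ Y k) :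
    cB v w X Y r z1 0 ≤ cp v w X Y r z1 0 *
      ∫ u in (0 : ℝ)..r, (ce v w X Y 0 / ce v w X Y u) * -dpl Y u := by
  have hc := ce_cont (v := v) (w := w) (X := X) (Y := Y)
  have hne := ce_ne (v := v) (w := w) (X := X) (Y := Y)
  have hF : Continuous (cF v w X Y r z1) := by
    have h1 := prim_cont X hc (r : ℝ)
    unfold cF Pool.Agent.Work.MP_b5407d_pos_h9.FV.F
    simp only [ce] at h1
    exact continuous_const.sub h1
  have hFc : Continuous fun u => cF v w X Y r z1 u / ce v w X Y u := hF.div hc hne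
  have e1 : cB v w X Y r z1 0 = ∫ u in (0 : ℝ)..r, (cF v w X Y r z1 u / ce v w X Y u) *
      -dpl Y u := by
    unfold cB
    rw [Nat.cast_zero, intervalIntegral.integral_symm, ← intervalIntegral.integral_neg]
    refine intervalIntegral.integral_congr fun u _ => ?_
    ring
  rw [e1, ← intervalIntegral.integral_const_mul]
  have hr : (0 : ℝ) ≤ r := Nat.cast_nonneg r
  have i1 : IntervalIntegrable (fun u => (cF v w X Y r z1 u / ce v w X Y u) * -dpl Y u)
      volume 0 r := by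
    have := (mul_ii Y hFc 0 r).neg
    refine this.congr (fun u _ => ?_)
    simp
  have i2 : IntervalIntegrable (fun u => cp v w X Y r z1 0 *
      ((ce v w X Y 0 / ce v w X Y u) * -dpl Y u)) volume 0 r := by
    have h5 : Continuous fun u => ce v w X Y 0 / ce v w X Y u := continuous_const.div hc hne
    have := ((mul_ii Y h5 0 r).neg).const_mul (cp v w X Y r z1 0)
    refine this.congr (fun u _ => ?_)
    simp
  apply intervalIntegral.integral_mono_ae_restrict hr i1 i2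
  rw [EventuallyLE, ae_restrict_iff' measurableSet_Icc]
  have hne' : ∀ᵐ u : ℝ, u ≠ r := by rw [ae_iff]; simp
  filter_upwards [hne'] with u hu huI
  have h3 : u ∈ Ico (0 : ℝ) r := ⟨huI.1, lt_of_le_of_ne huI.2 hu⟩
  have h4 := neg_dpl_nonneg hY h3
  have h5 := cF_anti (v := v) (w := w) (Y := Y) (z1 := z1) hX huI
  have h6 : 0 < ce v w X Y u := Real.exp_pos _
  have h7 : 0 < ce v w X Y 0 := Real.exp_pos _
  have h8 : cp v w X Y r z1 0 = cF v w X Y r z1 0 / ce v w X Y 0 := by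
    unfold cp; rw [Nat.cast_zero]
  rw [h8]
  have h9 : cF v w X Y r z1 0 / ce v w X Y 0 * (ce v w X Y 0 / ce v w X Y u * -dpl Y u) =
      (cF v w X Y r z1 0 / ce v w X Y u) * -dpl Y u := by
    field_simp
  rw [h9]
  apply mul_le_mul_of_nonneg_right _ h4
  gcongr

/-- the chord bound -/
theorem CD.G_le (D : CD M r a b X Y) (hv : 0 < v) :
    (∫ u in (0 : ℝ)..r, (ce v w X Y 0 / ce v w X Y u) * -dpl Y u) ≤
      Y 0 * mE (-(v * X r - w * Y 0)) 1 := by
  set η := v * X r - w * Y 0 with hη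
  have hY0 := D.Y0_pos
  have hXr := D.Xr_pos
  have hc := ce_cont (v := v) (w := w) (X := X) (Y := Y)
  have hne := ce_ne (v := v) (w := w) (X := X) (Y := Y)
  have hY : ∀ k < r, Y (k + 1) ≤ Y k := fun k hk => (D.near hk).2.le
  have hr : (0 : ℝ) ≤ r := Nat.cast_nonneg r
  have hpl := cont_pl Y
  have hg : Continuous fun u => Real.exp (η * (1 - pl Y u / Y 0)) := by fun_prop
  have i1 : IntervalIntegrable (fun u => (ce v w X Y 0 / ce v w X Y u) * -dpl Y u)
      volume 0 r := by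
    have h5 : Continuous fun u => ce v w X Y 0 / ce v w X Y u := continuous_const.div hc hne
    refine ((mul_ii Y h5 0 r).neg).congr (fun u _ => ?_)
    simp
  have i2 : IntervalIntegrable (fun u => Real.exp (η * (1 - pl Y u / Y 0)) * -dpl Y u)
      volume 0 r := by
    refine ((mul_ii Y hg 0 r).neg).congr (fun u _ => ?_)
    simp
  have h1 : (∫ u in (0 : ℝ)..r, (ce v w X Y 0 / ce v w X Y u) * -dpl Y u) ≤
      ∫ u in (0 : ℝ)..r, Real.exp (η * (1 - pl Y u / Y 0)) * -dpl Y u := by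
    apply intervalIntegral.integral_mono_ae_restrict hr i1 i2
    rw [EventuallyLE, ae_restrict_iff' measurableSet_Icc]
    have hne' : ∀ᵐ u : ℝ, u ≠ r := by rw [ae_iff]; simp
    filter_upwards [hne'] with u hu huI
    have h3 : u ∈ Ico (0 : ℝ) r := ⟨huI.1, lt_of_le_of_ne huI.2 hu⟩
    have h4 := neg_dpl_nonneg hY h3
    apply mul_le_mul_of_nonneg_right _ h4
    unfold ce Pool.Agent.Work.MP_b5407d_pos_h9.FV.e
    rw [← Real.exp_sub]
    apply Real.exp_le_exp.2
    have h5 := D.chord huI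
    rw [pl_zero, pl_zero, D.X0, hη]
    have h6 : pl X u ≤ X r * (1 - pl Y u / Y 0) := by
      have h7 : Y 0 * pl X u ≤ Y 0 * (X r * (1 - pl Y u / Y 0)) := by
        have : Y 0 * (X r * (1 - pl Y u / Y 0)) = X r * Y 0 - X r * pl Y u := by
          field_simp
        rw [this]; linarith
      exact le_of_mul_le_mul_left h7 hY0
    have h8 := mul_le_mul_of_nonneg_left h6 hv.le
    have h9 : w * pl Y u = w * Y 0 * (pl Y u / Y 0) := by field_simp
    nlinarith
  refine h1.trans (le_of_eq ?_)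
  have h := ftc2 X Y (F := fun t => mE (-η) (1 - pl Y t / Y 0))
    ((mE_cont (-η)).comp (by fun_prop)) (f := fun _ => (0:ℝ))
    (g := fun t => -(Real.exp (η * (1 - pl Y t / Y 0)) / Y 0))
    continuous_const (by fun_prop) (fun t ht => by
      have d1 := (((deriv_pl Y ht).div_const (Y 0)).const_sub 1)
      refine ((mE_deriv (-η) (1 - pl Y t / Y 0)).comp t d1).congr_deriv ?_
      have e : -(-η * (1 - pl Y t / Y 0)) = η * (1 - pl Y t / Y 0) := by ring
      rw [e]; ring) 0 r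
  simp only [zero_mul, intervalIntegral.integral_zero, zero_add] at h
  rw [pl_nat, pl_zero, D.Yr] at h
  simp only [zero_div, sub_zero] at h
  rw [div_self hY0.ne', sub_self, mE_zero, sub_zero] at h
  rw [← h, ← intervalIntegral.integral_const_mul]
  refine intervalIntegral.integral_congr fun u _ => ?_
  field_simp

/-- bound for `r_S` -/
theorem CD.rS_lt (D : CD M r a b X Y) {z1 z2 : ℝ} (hv : 0 < v)
    (N : NearChain r v w (fun i => X (i + 1) - X i) (fun i => Y i - Y (i + 1))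
      (cp v w X Y r z1) (cr' v w X Y z2) (cA v w X Y z2) (cB v w X Y r z1))
    (hp : 0 < cp v w X Y r z1 0) :
    cr' v w X Y z2 0 < Y 0 * mE (-(v * X r - w * Y 0)) 1 := by
  have h1 := N.phi_neg (i := 0) (Nat.zero_le r) D.one
  have hX : ∀ i < r, X i ≤ X (i + 1) := fun i hi => (D.near hi).1.le
  have hY : ∀ i < r, Y (i + 1) ≤ Y i := fun i hi => (D.near hi).2.le
  have h2 := cB_le (v := v) (w := w) (z1 := z1) hX hY
  have h3 := D.G_le (v := v) (w := w) hv
  have h4 := N.hA0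
  rw [h4, sub_zero] at h1
  have h5 := mul_le_mul_of_nonneg_left h3 hp.le
  have h6 : cp v w X Y r z1 0 * cr' v w X Y z2 0 < cp v w X Y r z1 0 *
      (Y 0 * mE (-(v * X r - w * Y 0)) 1) := by linarith
  exact lt_of_mul_lt_mul_left h6 hp.le

theorem mE_neg_one_pos {η : ℝ} (hη : 0 < η) : mE (-η) 1 = (Real.exp η - 1) / η := by
  have h := mul_mE (-η) 1
  rw [mul_one, neg_neg] at h
  field_simp
  linarith

theorem mE_zero_one : mE 0 1 = 1 := by
  unfold mE; simp

end

end Pool.Agent.Work.MP_b5407d_pos_h13
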