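import Pool.Agent.Work.MP_b5407d_lbm_helper35.PathBasics
import Pool.Agent.Work.MP_b5407d_lbm_helper76.GR
import Pool.Agent.Work.MP_b5407d_lbm_helper76.SF
import Pool.Agent.Work.MP_b5407d_lbm_helper67.GN
import Pool.Agent.Work.MP_b5407d_lbm_helper31.GF
import Pool.Agent.Work.MP_b5407d_lbm_helper42.FV
import Pool.Agent.Work.MP_b5407d_lbm_helper42.CF

/-! # MP_b5407d_gt (POS): the polygon of a path in standard position, Green's theorem (helper13) -/

set_option autoImplicit false

open MeasureTheory Set Filter Topology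

namespace Pool.Agent.Work.MP_b5407d_pos_h13

open Pool.LBM Pool.LBM.Path

/-- convex closed path with the closing edge on `x = 0` -/
structure CP (m : ℕ) (a b : ℕ → ℝ) : Prop where
  two : 2 ≤ m
  conv : ∀ i j k, i < j → j < k → k ≤ m →
    0 < (a j - a i) * (b k - b i) - (b j - b i) * (a k - a i)
  a0 : a 0 = 0
  am : a m = 0
  left : b 0 < b m

theorem CP_of_Std {m r : ℕ} {a b : ℕ → ℝ} (h : Std m r a b) : CP m a b := by
  refine ⟨?_, h.conv, h.a0, h.am, h.left⟩
  by_contra hm
  have h1 := h.lt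
  have hm1 : m = 1 := by omega
  subst hm1
  have hr : r = 0 := by omega
  subst hr
  have h2 := h.bot
  rw [h.a0] at h2
  have h3 := h.am
  simp only [zero_add] at h2
  linarith

/-- the polygon -/
def KK (m : ℕ) (a b : ℕ → ℝ) : Set R2 :=
  {z | 0 ≤ z.1 ∧ ∀ k < m, 0 ≤ (a (k + 1) - a k) * (z.2 - b k) - (b (k + 1) - b k) * (z.1 - a k)}

section gon
variable (m : ℕ) (a b : ℕ → ℝ)

/-- periodic vertices -/
def gP (k : ℕ) : R2 := (a (k % (m + 1)), b (k % (m + 1)))

/-- edge vector -/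
def gD (k : ℕ) : R2 := gP m a b (k + 1) - gP m a b k

/-- edge length -/
noncomputable def gl (k : ℕ) : ℝ := Real.sqrt ((gD m a b k).1 ^ 2 + (gD m a b k).2 ^ 2)

/-- edge normal -/
noncomputable def gt' (k : ℕ) : R2 := ((gD m a b k).2 / gl m a b k, -((gD m a b k).1 / gl m a b k))

theorem gP_per (k : ℕ) : gP m a b (k + (m + 1)) = gP m a b k := by
  unfold gP; rw [Nat.add_mod_right]

theorem gD_per (k : ℕ) : gD m a b (k + (m + 1)) = gD m a b k := by
  unfold gD
  have : k + (m + 1) + 1 = (k + 1) + (m + 1) := by ring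
  rw [this, gP_per, gP_per]

theorem gl_per (k : ℕ) : gl m a b (k + (m + 1)) = gl m a b k := by
  unfold gl; rw [gD_per]

theorem gt_per (k : ℕ) : gt' m a b (k + (m + 1)) = gt' m a b k := by
  unfold gt'; rw [gD_per, gl_per]

theorem gP_lt {k : ℕ} (hk : k ≤ m) : gP m a b k = (a k, b k) := by
  unfold gP; rw [Nat.mod_eq_of_lt (by omega)]

theorem gP_top : gP m a b (m + 1) = (a 0, b 0) := by
  unfold gP; simp

variable {m a b}

theorem cr_rot (P Q R : R2) : cr (Q - P) (R - P) = cr (R - Q) (P - Q) := by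
  simp only [cr, Prod.fst_sub, Prod.snd_sub]; ring

theorem g_conv0 (h : CP m a b) {i j k : ℕ} (hij : i < j) (hjk : j < k) (hk : k ≤ m) :
    0 < cr (gP m a b j - gP m a b i) (gP m a b k - gP m a b i) := by
  rw [gP_lt m a b hk, gP_lt m a b (by omega : j ≤ m), gP_lt m a b (by omega : i ≤ m)]
  exact h.conv i j k hij hjk hk

theorem gP_mod (k : ℕ) : gP m a b (k % (m + 1)) = gP m a b k := by
  unfold gP; rw [Nat.mod_mod]

theorem g_conv (h : CP m a b) (i j k : ℕ) (hij : i < j) (hjk : j < k) (hk : k < i + (m + 1)) :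
    0 < cr (gP m a b j - gP m a b i) (gP m a b k - gP m a b i) := by
  -- reduce to `i < m + 1`
  obtain ⟨q, i0, hi0, rfl⟩ : ∃ q i0, i0 < m + 1 ∧ i = i0 + (m + 1) * q :=
    ⟨i / (m + 1), i % (m + 1), Nat.mod_lt _ (by omega), (Nat.mod_add_div i (m + 1)).symm⟩
  obtain ⟨j0, rfl⟩ : ∃ j0, j = j0 + (m + 1) * q := ⟨j - (m + 1) * q, by omega⟩
  obtain ⟨k0, rfl⟩ : ∃ k0, k = k0 + (m + 1) * q := ⟨k - (m + 1) * q, by omega⟩
  have e : ∀ s, gP m a b (s + (m + 1) * q) = gP m a b s := by
    intro s; rw [← gP_mod, Nat.add_mul_mod_self_left, gP_mod]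
  rw [e, e, e]
  have h1 : i0 < j0 := by omega
  have h2 : j0 < k0 := by omega
  have h3 : k0 < i0 + (m + 1) := by omega
  rcases lt_or_ge k0 (m + 1) with hk0 | hk0
  · exact g_conv0 h h1 h2 (by omega)
  · obtain ⟨k1, rfl⟩ : ∃ k1, k0 = k1 + (m + 1) := ⟨k0 - (m + 1), by omega⟩
    rw [gP_per]
    rcases lt_or_ge j0 (m + 1) with hj0 | hj0
    · -- order k1 < i0 < j0
      have := g_conv0 h (i := k1) (j := i0) (k := j0) (by omega) h1 (by omega)
      rwa [cr_rot] at this
    · obtain ⟨j1, rfl⟩ : ∃ j1, j0 = j1 + (m + 1) := ⟨j0 - (m + 1), by omega⟩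
      rw [gP_per]
      have := g_conv0 h (i := j1) (j := k1) (k := i0) (by omega) (by omega) (by omega)
      rwa [cr_rot, cr_rot] at this

theorem gl_pos (h : CP m a b) (k : ℕ) : 0 < gl m a b k := by
  have hm := h.two
  have hc := g_conv h k (k + 1) (k + 2) (by omega) (by omega) (by omega)
  unfold gl
  apply Real.sqrt_pos.mpr
  by_contra hn
  have h1 : (gD m a b k).1 = 0 := by nlinarith [sq_nonneg (gD m a b k).1, sq_nonneg (gD m a b k).2]
  have h2 : (gD m a b k).2 = 0 := by nlinarith [sq_nonneg (gD m a b k).1, sq_nonneg (gD m a b k).2]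
  unfold gD at h1 h2
  simp only [cr, h1, h2] at hc
  simp at hc

theorem gl_smul (h : CP m a b) (k : ℕ) : gl m a b k • rt (gt' m a b k) = gD m a b k := by
  have hl := (gl_pos h k).ne'
  ext
  · simp only [rt, gt', Prod.smul_fst, smul_eq_mul]; field_simp
  · simp only [rt, gt', Prod.smul_snd, smul_eq_mul]; field_simp

theorem gon (h : CP m a b) : Gon (m + 1) (gt' m a b) (gP m a b) (gl m a b) := by
  refine ⟨by have := h.two; omega, gt_per m a b, gP_per m a b, gl_per m a b, ?_, gl_pos h, ?_,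
    g_conv h⟩
  · intro k
    have hl := gl_pos h k
    have hs : gl m a b k ^ 2 = (gD m a b k).1 ^ 2 + (gD m a b k).2 ^ 2 := by
      unfold gl; rw [Real.sq_sqrt (by positivity)]
    simp only [dt, gt']
    field_simp
    rw [hs]; ring
  · intro k
    rw [gl_smul h k]
    unfold gD; abel

theorem dt_gt (h : CP m a b) (k : ℕ) (z : R2) :
    dt (gt' m a b k) z ≤ dt (gt' m a b k) (gP m a b k) ↔
      0 ≤ (gD m a b k).1 * (z.2 - (gP m a b k).2) - (gD m a b k).2 * (z.1 - (gP m a b k).1) := by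
  have hl := gl_pos h k
  have e : dt (gt' m a b k) (gP m a b k) - dt (gt' m a b k) z =
      ((gD m a b k).1 * (z.2 - (gP m a b k).2) - (gD m a b k).2 * (z.1 - (gP m a b k).1)) /
        gl m a b k := by
    simp only [dt, gt']
    field_simp
    ring
  constructor
  · intro h1
    have h2 : 0 ≤ dt (gt' m a b k) (gP m a b k) - dt (gt' m a b k) z := by linarith
    rw [e] at h2
    by_contra hn
    push Not at hn
    exact absurd h2 (not_le.mpr (div_neg_of_neg_of_pos hn hl))
  · intro h1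
    have h2 : 0 ≤ dt (gt' m a b k) (gP m a b k) - dt (gt' m a b k) z := by
      rw [e]; exact div_nonneg h1 hl.le
    linarith

theorem KK_eq (h : CP m a b) : GP (m + 1) (gt' m a b) (gP m a b) = KK m a b := by
  have hb := h.left
  have e1 : ∀ k < m, ∀ z : R2, (dt (gt' m a b k) z ≤ dt (gt' m a b k) (gP m a b k) ↔
      0 ≤ (a (k + 1) - a k) * (z.2 - b k) - (b (k + 1) - b k) * (z.1 - a k)) := by
    intro k hk z
    rw [dt_gt h]
    unfold gD
    rw [gP_lt m a b (by omega : k + 1 ≤ m), gP_lt m a b hk.le]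
    rfl
  have e2 : ∀ z : R2, (dt (gt' m a b m) z ≤ dt (gt' m a b m) (gP m a b m) ↔ 0 ≤ z.1) := by
    intro z
    rw [dt_gt h]
    unfold gD
    rw [gP_top, gP_lt m a b le_rfl]
    simp only [Prod.fst_sub, Prod.snd_sub, h.a0, h.am, sub_zero, sub_self, zero_mul, zero_sub]
    constructor
    · intro h1
      by_contra hn
      push Not at hn
      have : (b 0 - b m) * z.1 > 0 := mul_pos_of_neg_of_neg (by linarith) hn
      linarith
    · intro h1
      have : (b 0 - b m) * z.1 ≤ 0 := mul_nonpos_of_nonpos_of_nonneg (by linarith) h1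
      linarith
  ext z
  constructor
  · intro hz
    have hz' : ∀ i : Fin (m + 1), dt (gt' m a b i) z ≤ dt (gt' m a b i) (gP m a b i) := hz
    refine ⟨(e2 z).1 (by simpa using hz' ⟨m, by omega⟩), fun k hk => ?_⟩
    exact (e1 k hk z).1 (by simpa using hz' ⟨k, by omega⟩)
  · rintro ⟨h1, h2⟩ i
    show dt (gt' m a b i) z ≤ dt (gt' m a b i) (gP m a b i)
    rcases Nat.lt_or_ge (i : ℕ) m with hi | hi
    · exact (e1 i hi z).2 (h2 i hi)
    · have : (i : ℕ) = m := by omega
      rw [this]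
      exact (e2 z).2 h1

theorem KK_closed (m : ℕ) (a b : ℕ → ℝ) : IsClosed (KK m a b) := by
  have : KK m a b = {z : R2 | 0 ≤ z.1} ∩ ⋂ k, ⋂ (_ : k < m), {z : R2 |
      0 ≤ (a (k + 1) - a k) * (z.2 - b k) - (b (k + 1) - b k) * (z.1 - a k)} := by
    ext z; simp [KK]
  rw [this]
  refine (isClosed_le continuous_const continuous_fst).inter ?_
  refine isClosed_iInter fun k => isClosed_iInter fun _ => ?_
  exact isClosed_le continuous_const (by fun_prop)

theorem KK_convex (m : ℕ) (a b : ℕ → ℝ) : Convex ℝ (KK m a b) := by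
  rintro z ⟨hz1, hz2⟩ z' ⟨hz1', hz2'⟩ s t hs ht hst
  refine ⟨?_, fun k hk => ?_⟩
  · simp only [Prod.fst_add, Prod.smul_fst, smul_eq_mul]
    positivity
  · have h1 := mul_nonneg hs (hz2 k hk)
    have h2 := mul_nonneg ht (hz2' k hk)
    simp only [Prod.fst_add, Prod.smul_fst, Prod.snd_add, Prod.smul_snd, smul_eq_mul]
    have e : (a (k + 1) - a k) * (s * z.2 + t * z'.2 - b k) -
        (b (k + 1) - b k) * (s * z.1 + t * z'.1 - a k) =
        s * ((a (k + 1) - a k) * (z.2 - b k) - (b (k + 1) - b k) * (z.1 - a k)) +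
        t * ((a (k + 1) - a k) * (z'.2 - b k) - (b (k + 1) - b k) * (z'.1 - a k)) := by
      have : t = 1 - s := by linarith
      subst this
      ring
    rw [e]; linarith

theorem KK_compact (h : CP m a b) : IsCompact (KK m a b) := by
  rw [← KK_eq h]
  exact Pool.LBM.GR.compact_HP _ _ (blk_GN _ _ _ _ (gon h)).1

theorem KK_vertex (h : CP m a b) {j : ℕ} (hj : j ≤ m) : (a j, b j) ∈ KK m a b := by
  rw [← KK_eq h]
  intro i
  have := Pool.LBM.GN.weak (gon h) i j
  rw [gP_lt m a b hj] at this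
  exact this

theorem KK_interior (h : CP m a b) : (interior (KK m a b)).Nonempty := by
  rw [← KK_eq h]
  obtain ⟨x, hx⟩ := (blk_GN _ _ _ _ (gon h)).2.1
  refine ⟨x, mem_interior.mpr ⟨{x | ∀ j, dt (gth (m + 1) (gt' m a b) j) x <
    gh (m + 1) (gt' m a b) (gP m a b) j}, fun y hy i => (hy i).le, ?_, hx⟩⟩
  have : {x : R2 | ∀ j, dt (gth (m + 1) (gt' m a b) j) x <
      gh (m + 1) (gt' m a b) (gP m a b) j} = ⋂ j, {x : R2 | dt (gth (m + 1) (gt' m a b) j) x <
      gh (m + 1) (gt' m a b) (gP m a b) j} := by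
    ext z; simp
  rw [this]
  refine isOpen_iInter_of_finite fun j => ?_
  refine isOpen_lt ?_ continuous_const
  unfold dt; fun_prop

/-! ### Green's theorem -/

theorem green (h : CP m a b) {Φ : R2 → ℝ} (hΦ : ContDiff ℝ 1 Φ) (t : R2) :
    ∫ x in KK m a b, fderiv ℝ Φ x t = ∑ k ∈ Finset.range (m + 1),
      ((gD m a b k).2 * t.1 - (gD m a b k).1 * t.2) *
        ∫ s in (0 : ℝ)..1, Φ (gP m a b k + s • gD m a b k) := by
  have hFV : Stmt_FV := blk_FV blk_SF blk_CF
  have hGR : Stmt_GR := blk_GR hFV (blk_GF blk_GN) blk_GN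
  have h1 := hGR (m + 1) (gt' m a b) (gP m a b) (gl m a b) (gon h) Φ hΦ t
  rw [KK_eq h] at h1
  rw [h1]
  refine Finset.sum_congr rfl fun k _ => ?_
  have hl := gl_pos h k
  have e1 : EI Φ (gt' m a b) (gP m a b) (gl m a b) k =
      gl m a b k * ∫ s in (0 : ℝ)..1, Φ (gP m a b k + s • gD m a b k) := by
    unfold EI
    have e2 := intervalIntegral.mul_integral_comp_mul_left (a := 0) (b := 1)
      (f := fun s : ℝ => Φ (gP m a b k + s • rt (gt' m a b k))) (gl m a b k)
    rw [mul_zero, mul_one] at e2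
    rw [← e2]
    congr 1
    refine intervalIntegral.integral_congr fun s _ => ?_
    show Φ (gP m a b k + (gl m a b k * s) • rt (gt' m a b k)) = _
    rw [← gl_smul h k, smul_smul, mul_comm s]
  rw [e1]
  simp only [dt, gt']
  field_simp
  ring

theorem edge_path (m : ℕ) (c : ℕ → ℝ) {f : R2 → ℝ} (hf : Continuous f) {k : ℕ} (hk : k < m) :
    (∫ t in (k : ℝ)..((k + 1 : ℕ) : ℝ), f (pl a t, pl b t) * dpl c t) =
      (c (k + 1) - c k) * ∫ s in (0 : ℝ)..1, f (gP m a b k + s • gD m a b k) := by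
  have e0 : ((k + 1 : ℕ) : ℝ) = (k : ℝ) + 1 := by push_cast; ring
  rw [e0]
  have e1 := intervalIntegral.integral_comp_add_left (a := 0) (b := 1)
    (fun t : ℝ => f (pl a t, pl b t) * dpl c t) (k : ℝ)
  rw [add_zero] at e1
  rw [← e1, ← intervalIntegral.integral_const_mul]
  refine intervalIntegral.integral_congr_ae ?_
  have hne : ∀ᵐ u : ℝ, u ≠ 1 := by rw [ae_iff]; simp
  filter_upwards [hne] with s hs hsI
  rw [uIoc_of_le zero_le_one] at hsI
  have hs1 : s < 1 := lt_of_le_of_ne hsI.2 hs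
  have hfl : ⌊(k : ℝ) + s⌋₊ = k :=
    Nat.floor_eq_on_Ico k _ ⟨by linarith [hsI.1], by linarith⟩
  have e2 : dpl c ((k : ℝ) + s) = c (k + 1) - c k := by simp only [dpl, hfl]
  have e3 : pl a ((k : ℝ) + s) = a k + s * (a (k + 1) - a k) := by
    rw [pl_aff a k (by linarith [hsI.1]) (by linarith)]; ring
  have e4 : pl b ((k : ℝ) + s) = b k + s * (b (k + 1) - b k) := by
    rw [pl_aff b k (by linarith [hsI.1]) (by linarith)]; ring
  have e5 : gP m a b k + s • gD m a b k = (pl a ((k : ℝ) + s), pl b ((k : ℝ) + s)) := by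
    unfold gD
    rw [gP_lt m a b hk.le, gP_lt m a b (by omega : k + 1 ≤ m), e3, e4]
    ext
    · simp
    · simp
  rw [e2, e5]; ring

theorem sum_path (m : ℕ) (c : ℕ → ℝ) {f : R2 → ℝ} (hf : Continuous f) :
    ∑ k ∈ Finset.range m, (c (k + 1) - c k) * (∫ s in (0 : ℝ)..1,
      f (gP m a b k + s • gD m a b k)) = ∫ t in (0 : ℝ)..m, f (pl a t, pl b t) * dpl c t := by
  have hc : Continuous fun t => f (pl a t, pl b t) :=
    hf.comp ((cont_pl a).prodMk (cont_pl b))
  have h := intervalIntegral.sum_integral_adjacent_intervals (μ := volume)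
    (f := fun t => f (pl a t, pl b t) * dpl c t) (a := fun k : ℕ => (k : ℝ)) (n := m)
    (fun k _ => mul_ii c hc _ _)
  simp only [Nat.cast_zero] at h
  rw [← h]
  refine Finset.sum_congr rfl fun k hk => ?_
  exact (edge_path m c hf (Finset.mem_range.1 hk)).symm

/-- Green's theorem, horizontal derivative -/
theorem green_x (h : CP m a b) {Φ : R2 → ℝ} (hΦ : ContDiff ℝ 1 Φ) :
    ∫ z in KK m a b, fderiv ℝ Φ z (1, 0) =
      (∫ t in (0 : ℝ)..m, Φ (pl a t, pl b t) * dpl b t) + ∫ s in (b m)..(b 0), Φ (0, s) := by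
  rw [green h hΦ, Finset.sum_range_succ]
  congr 1
  · rw [← sum_path m b hΦ.continuous]
    refine Finset.sum_congr rfl fun k hk => ?_
    have hk' := Finset.mem_range.1 hk
    have e : (gD m a b k).2 = b (k + 1) - b k := by
      unfold gD
      rw [gP_lt m a b hk'.le, gP_lt m a b (by omega : k + 1 ≤ m)]
      rfl
    rw [e]; ring
  · have e : gD m a b m = (0, b 0 - b m) := by
      unfold gD
      rw [gP_top, gP_lt m a b le_rfl, h.a0, h.am]
      ext
      · simp
      · simp
    rw [e, gP_lt m a b le_rfl, h.am]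
    simp only [mul_one, mul_zero, sub_zero]
    have hd : b 0 - b m ≠ 0 := by have := h.left; linarith
    have e2 := intervalIntegral.mul_integral_comp_mul_left (a := 0) (b := 1)
      (f := fun s : ℝ => Φ (0, b m + s)) (b 0 - b m)
    rw [mul_zero, mul_one, intervalIntegral.integral_comp_add_left
      (fun s : ℝ => Φ (0, s)), add_zero, add_sub_cancel] at e2
    rw [← e2]
    congr 1
    refine intervalIntegral.integral_congr fun s _ => ?_
    show Φ _ = Φ _
    congr 1
    ext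
    · simp
    · simp; ring

/-- Green's theorem, vertical derivative -/
theorem green_y (h : CP m a b) {Φ : R2 → ℝ} (hΦ : ContDiff ℝ 1 Φ) :
    ∫ z in KK m a b, fderiv ℝ Φ z (0, 1) =
      -∫ t in (0 : ℝ)..m, Φ (pl a t, pl b t) * dpl a t := by
  rw [green h hΦ, Finset.sum_range_succ]
  have e0 : (gD m a b m).1 = 0 := by
    unfold gD
    rw [gP_top, gP_lt m a b le_rfl, h.a0, h.am]
    simp
  rw [e0]
  simp only [mul_zero, zero_mul, sub_zero, add_zero, mul_one]
  rw [← sum_path m a hΦ.continuous, ← Finset.sum_neg_distrib]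
  refine Finset.sum_congr rfl fun k hk => ?_
  have hk' := Finset.mem_range.1 hk
  have e : (gD m a b k).1 = a (k + 1) - a k := by
    unfold gD
    rw [gP_lt m a b hk'.le, gP_lt m a b (by omega : k + 1 ≤ m)]
    rfl
  rw [e]; ring

end gon

end Pool.Agent.Work.MP_b5407d_pos_h13
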