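import Pool.Agent.Work.MP_b5407d_pos_helper13.StdFacts

/-! # MP_b5407d_gt (POS): the identity `d (1 + v w J) - v P - w N = J` for `r = 0` (helper13) -/

set_option autoImplicit false

open MeasureTheory Set Filter Topology

namespace Pool.Agent.Work.MP_b5407d_pos_h13

open Pool.LBM Pool.LBM.Path

section
variable {v w : ℝ} {a b : ℕ → ℝ} {M : ℕ}

theorem pX_mE (ha0 : a 0 = 0) (t : ℝ) :
    pX v w a b t = mE v (pl a t) - w * pL v w a b t := by
  have hec := pe_cont v w a b
  have hqc := pq_cont v w a b
  have hF : Continuous (fun t => mE v (pl a t)) := (mE_cont v).comp (cont_pl a)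
  have hf : Continuous (fun t => pe v w a b t + w * pq v w a b t) := by fun_prop
  have hd : ∀ t, t ∉ Nt → HasDerivAt (fun t => mE v (pl a t))
      ((pe v w a b t + w * pq v w a b t) * dpl a t + (0:ℝ) * dpl b t) t := by
    intro t ht
    refine (mEx_deriv v a ht).congr_deriv ?_
    rw [pe_add]; ring
  have h := ftc2 a b hF hf (g := fun _ => (0:ℝ)) continuous_const hd 0 t
  rw [pl_zero, ha0] at h
  simp only [zero_mul, intervalIntegral.integral_zero, add_zero, mE_zero, sub_zero] at h
  have e1 : (∫ x in (0:ℝ)..t, (pe v w a b x + w * pq v w a b x) * dpl a x) =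
      pX v w a b t + w * pL v w a b t := by
    unfold pX pL
    rw [← intervalIntegral.integral_const_mul, ← intervalIntegral.integral_add]
    · refine intervalIntegral.integral_congr fun x _ => ?_
      show _ = _
      ring
    · exact mul_ii a hec 0 t
    · exact (mul_ii a hqc 0 t).const_mul w
  rw [e1] at h
  linarith

theorem cexpw (w : ℝ) (b : ℕ → ℝ) : Continuous fun t => Real.exp (w * pl b t) := by
  have := cont_pl b
  fun_prop

theorem inv_pe (t : ℝ) : Real.exp (-(v * pl a t)) / pe v w a b t = Real.exp (w * pl b t) := by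
  unfold pe
  rw [← Real.exp_sub]; congr 1; ring

/-- the identity -/
theorem idD (h : Std M 0 a b) (hw : w ≠ 0) :
    pd v w a b M * (1 + v * w * pJ v w a b M) - v * pP v w a b M - w * pN v w a b M 0 =
      pJ v w a b M := by
  have hX := pX_cont v w a b
  have hL := pL_cont v w a b
  have he := pe_cont v w a b
  have hne := pe_ne v w a b
  have hi : Continuous fun t => (pe v w a b t)⁻¹ := he.inv₀ hne
  have hm : Continuous fun t => mE v (pl a t) := (mE_cont v).comp (cont_pl a)
  have hE := cexpw w b
  have hM1 : 1 ≤ M := h.lt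
  have hM2 : (0 : ℝ) + 1 ≤ M := by rw [zero_add]; exact_mod_cast hM1
  set J := pJ v w a b M with hJ
  set I1 := ∫ t in (0 : ℝ)..M, (pe v w a b t)⁻¹ * dpl b t with hI1
  set E1 := ∫ t in (0 : ℝ)..M, Real.exp (w * pl b t) * dpl b t with hE1
  set IX := ∫ t in (0 : ℝ)..M, (pX v w a b t * (pe v w a b t)⁻¹) * dpl b t with hIX
  set EX := ∫ t in (0 : ℝ)..M, (pX v w a b t * Real.exp (w * pl b t)) * dpl b t with hEX
  set IL := ∫ t in (0 : ℝ)..M, (pL v w a b t * (pe v w a b t)⁻¹) * dpl b t with hIL
  -- v d
  have h1 : v * pd v w a b M = I1 - E1 := by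
    unfold pd
    rw [← intervalIntegral.integral_const_mul, hI1, hE1, ← intervalIntegral.integral_sub
      (mul_ii b hi _ _) (mul_ii b hE _ _)]
    refine intervalIntegral.integral_congr fun t _ => ?_
    have h5 := mul_mE v (pl a t)
    simp only [← inv_pe (v := v) (w := w) (a := a) (b := b) t, div_eq_mul_inv]
    linear_combination ((pe v w a b t)⁻¹ * dpl b t) * h5
  have h2 : v * pP v w a b M = IX - EX := by
    unfold pP
    rw [← intervalIntegral.integral_const_mul, hIX, hEX, ← intervalIntegral.integral_sub]
    · refine intervalIntegral.integral_congr fun t _ => ?_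
      have h5 := mul_mE v (pl a t)
      simp only [← inv_pe (v := v) (w := w) (a := a) (b := b) t, div_eq_mul_inv]
      linear_combination (pX v w a b t * (pe v w a b t)⁻¹ * dpl b t) * h5
    · exact mul_ii b (hX.mul hi) _ _
    · exact mul_ii b (hX.mul hE) _ _
  have h3 : w * IL = pd v w a b M - IX := by
    unfold pd
    rw [hIL, ← intervalIntegral.integral_const_mul, hIX, ← intervalIntegral.integral_sub]
    · refine intervalIntegral.integral_congr fun t _ => ?_
      have h5 := pX_mE (v := v) (w := w) (b := b) h.a0 t
      simp only [div_eq_mul_inv]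
      linear_combination ((pe v w a b t)⁻¹ * dpl b t) * h5
    · exact mul_ii b (g := fun t => mE v (pl a t) / pe v w a b t) (hm.div he hne) _ _
    · exact mul_ii b (hX.mul hi) _ _
  have h4 : pN v w a b M 0 = IL + J * I1 := by
    have e0 : pN v w a b M 0 = ∫ t in (0 : ℝ)..M, pRt v w a b M ((0 : ℝ) + 1) t *
        (pe v w a b t)⁻¹ * dpl b t := by
      unfold pN
      refine intervalIntegral.integral_congr fun t _ => ?_
      simp only [pR_eq, div_eq_mul_inv, Nat.cast_zero]
    rw [e0, int_R v w a b M (by norm_num) hM2 hi b]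
    have e1 := intervalIntegral.integral_add_adjacent_intervals (mul_ii b hi 0 1)
      (mul_ii b hi 1 M)
    have e2 := int_flat b (fun t => (pe v w a b t)⁻¹) (k := 0)
      (by rw [zero_add, h.br, (show b 1 = 0 from h.br1)])
    rw [Nat.cast_zero, zero_add] at e2
    rw [e2, zero_add] at e1
    rw [zero_add, e1]
  -- w * EX
  have h6 : w * EX = w * J * Real.exp (w * b M) := by
    have hF : Continuous (fun t => pX v w a b t * Real.exp (w * pl b t)) := hX.mul hE
    have hEa := cexp v a
    have h := ftc2 a b hF (f := fun t => Real.exp (-(v * pl a t)))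
      (g := fun t => w * (pX v w a b t * Real.exp (w * pl b t))) hEa
      (continuous_const.mul hF) (fun t ht => by
        have d1 := pX_deriv v w a b ht
        have d2 := ((deriv_pl b ht).const_mul w).exp
        refine (d1.mul d2).congr_deriv ?_
        rw [pe_eq]
        have : Real.exp (-(w * pl b t)) * Real.exp (w * pl b t) = 1 := by
          rw [← Real.exp_add]; simp
        linear_combination (Real.exp (-(v * pl a t)) * dpl a t) * this) 0 M
    have e3 : (∫ t in (0 : ℝ)..M, Real.exp (-(v * pl a t)) * dpl a t) = 0 := by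
      have hF : Continuous (fun t => mE v (pl a t)) := hm
      have h := ftc2 a b hF (f := fun t => Real.exp (-(v * pl a t))) (g := fun _ => (0:ℝ)) hEa
        continuous_const (fun t ht => by
          refine (mEx_deriv v a ht).congr_deriv ?_
          ring) 0 M
      simp only [zero_mul, intervalIntegral.integral_zero, add_zero] at h
      rw [h, pl_nat, pl_zero, ‹Std M 0 a b›.a0, ‹Std M 0 a b›.am]; ring
    have e4 : (∫ t in (0 : ℝ)..M, w * (pX v w a b t * Real.exp (w * pl b t)) * dpl b t) =
        w * EX := by
      rw [hEX, ← intervalIntegral.integral_const_mul]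
      refine intervalIntegral.integral_congr fun t _ => ?_
      ring
    rw [e3, e4, pl_nat, zero_add] at h
    have e5 : pX v w a b 0 = 0 := by simp [pX]
    rw [e5, Pool.LBM.PC.X_m v w a b M ‹Std M 0 a b›.a0 ‹Std M 0 a b›.am] at h
    rw [h, hJ]; ring
  have h7 : w * E1 = Real.exp (w * b M) - 1 := by
    have h := ftc2 a b hE (f := fun _ => (0:ℝ)) (g := fun t => w * Real.exp (w * pl b t))
      continuous_const (continuous_const.mul hE) (fun t ht => by
        refine (((deriv_pl b ht).const_mul w).exp).congr_deriv ?_
        ring) 0 M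
    simp only [zero_mul, intervalIntegral.integral_zero, zero_add] at h
    rw [pl_nat, pl_zero, (show b 0 = 0 from ‹Std M 0 a b›.br), mul_zero, Real.exp_zero] at h
    rw [hE1, ← intervalIntegral.integral_const_mul, ← h]
    refine intervalIntegral.integral_congr fun t _ => ?_
    ring
  -- combine
  have h8 : w * (pd v w a b M * (1 + v * w * J) - v * pP v w a b M - w * pN v w a b M 0) =
      w * J := by
    rw [h4]
    have h9 : pd v w a b M * (1 + v * w * J) - v * pP v w a b M - w * (IL + J * I1) =
        EX - w * J * E1 := by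
      rw [h2]
      linear_combination (w * J) * h1 - h3
    rw [h9]
    linear_combination h6 - (w * J) * h7
  exact mul_left_cancel₀ hw h8

end

end Pool.Agent.Work.MP_b5407d_pos_h13
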