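import Pool.Agent.Work.MP_b5407d_pos_helper47.W13
import Pool.Agent.Work.MP_b5407d_pos_helper9.LamPos

/-! # MP_b5407d_gt (POS), `r = 0`: the Lambda identities (helper13, after helper9) -/

set_option autoImplicit false

open MeasureTheory Set Filter Topology

namespace Pool.Agent.Work.MP_b5407d_pos_h13

open Pool.LBM Pool.Agent.Work.MP_b5407d_pos_h9.FV Pool.Agent.Work.MP_b5407d_pos_h47
open Pool.Agent.Work.MP_b5407d_pos_h9.LA (lamI)

section defs
variable (v w : ℝ) (a b : ℕ → ℝ) (m : ℕ)

/-- `T → P` -/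
noncomputable def Lam1 (P : ℝ) : ℝ := ∫ t in (m : ℝ)..P, lamI v w a b m P t

/-- `P → R` -/
noncomputable def Lam2 (P : ℝ) : ℝ := ∫ t in P..1, lamI v w a b m P t

/-- `∫_{T → P} dx / e` -/
noncomputable def X2 (P : ℝ) : ℝ := ∫ t in (m : ℝ)..P, dpl a t * (pe v w a b t)⁻¹

/-- `∫_{T → P} dy / e` -/
noncomputable def Y2 (P : ℝ) : ℝ := ∫ t in (m : ℝ)..P, dpl b t * (pe v w a b t)⁻¹

end defs

section
variable {v w : ℝ} {a b : ℕ → ℝ} {m : ℕ}

theorem dai_int (s t : ℝ) : IntervalIntegrable (fun t => dpl a t * (pe v w a b t)⁻¹) volume s t :=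
  (Rg.mulc peiAC.cont (plAC a).rg).int s t

theorem dbi_int (s t : ℝ) : IntervalIntegrable (fun t => dpl b t * (pe v w a b t)⁻¹) volume s t :=
  (Rg.mulc peiAC.cont (plAC b).rg).int s t

theorem lamI_eq (P : ℝ) : lamI v w a b m P = fun t =>
    ((pX v w a b P - pX v w a b t) * (pe v w a b t)⁻¹) * dpl b t -
      ((pY v w a b m P - pY v w a b m t) * (pe v w a b t)⁻¹) * dpl a t := by
  funext t
  unfold lamI
  ring

theorem lamI_rg (P : ℝ) : Rg (lamI v w a b m P) := by
  rw [lamI_eq]
  refine (Rg.cmul ?_ (plAC b).rg).sub (Rg.cmul ?_ (plAC a).rg)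
  · exact (continuous_const.sub XAC.cont).mul peiAC.cont
  · exact (continuous_const.sub (YAC m).cont).mul peiAC.cont

theorem lamI_int (P s t : ℝ) : IntervalIntegrable (lamI v w a b m P) volume s t :=
  (lamI_rg P).int s t

theorem w_lam (h0 : a 0 = 0) (P s t : ℝ) :
    w * ∫ u in s..t, lamI v w a b m P u =
      (pX v w a b P - pX v w a b t) * (pe v w a b t)⁻¹ -
        (pX v w a b P - pX v w a b s) * (pe v w a b s)⁻¹ +
        pe v w a b P * ∫ u in s..t, dpl a u * (pe v w a b u)⁻¹ := by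
  have h := (((AC.const (pX v w a b P)).sub (XAC (v := v) (w := w) (a := a) (b := b))).mul
    (peiAC (v := v) (w := w) (a := a) (b := b))).congr
    (g' := fun u => w * lamI v w a b m P u - pe v w a b P * (dpl a u * (pe v w a b u)⁻¹))
    (fun u => by
      have e1 := e_rel (v := v) (w := w) (b := b) h0 m P
      have e2 := e_rel (v := v) (w := w) (b := b) h0 m u
      have e3 : pe v w a b u * (pe v w a b u)⁻¹ = 1 := mul_inv_cancel₀ (pe_pos u).ne'
      unfold ef at e1 e2
      unfold lamI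
      linear_combination (dpl a u * (pe v w a b u)⁻¹) * e1 - (dpl a u * (pe v w a b u)⁻¹) * e2)
  have h2 := h.eq s t
  rw [intervalIntegral.integral_sub ((lamI_int P s t).const_mul w)
    ((dai_int s t).const_mul _), intervalIntegral.integral_const_mul,
    intervalIntegral.integral_const_mul] at h2
  linarith

theorem v_lam (h0 : a 0 = 0) (P s t : ℝ) :
    v * ∫ u in s..t, lamI v w a b m P u =
      -((pY v w a b m P - pY v w a b m t) * (pe v w a b t)⁻¹) +
        (pY v w a b m P - pY v w a b m s) * (pe v w a b s)⁻¹ -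
        pe v w a b P * ∫ u in s..t, dpl b u * (pe v w a b u)⁻¹ := by
  have h := (((AC.const (pY v w a b m P)).sub (YAC (v := v) (w := w) (a := a) (b := b) m)).mul
    (peiAC (v := v) (w := w) (a := a) (b := b))).congr
    (g' := fun u => (-v) * lamI v w a b m P u - pe v w a b P * (dpl b u * (pe v w a b u)⁻¹))
    (fun u => by
      have e1 := e_rel (v := v) (w := w) (b := b) h0 m P
      have e2 := e_rel (v := v) (w := w) (b := b) h0 m u
      have e3 : pe v w a b u * (pe v w a b u)⁻¹ = 1 := mul_inv_cancel₀ (pe_pos u).ne'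
      unfold ef at e1 e2
      unfold lamI
      linear_combination (dpl b u * (pe v w a b u)⁻¹) * e1 - (dpl b u * (pe v w a b u)⁻¹) * e2)
  have h2 := h.eq s t
  rw [intervalIntegral.integral_sub ((lamI_int P s t).const_mul (-v))
    ((dbi_int s t).const_mul _),
    intervalIntegral.integral_const_mul, intervalIntegral.integral_const_mul] at h2
  linarith

/-- (Xf) -/
theorem Xf (h : Std m 0 a b) (P : ℝ) : pe v w a b P * X2 v w a b m P =
    (pX v w a b P - w * pJ v w a b m) * (pe v w a b m)⁻¹ + w * Lam1 v w a b m P := by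
  have h1 := w_lam (v := v) (w := w) (b := b) (m := m) h.a0 P m P
  rw [sub_self, zero_mul, X_m h] at h1
  unfold X2 Lam1
  linarith

/-- (Yf) -/
theorem Yf_lam (h : Std m 0 a b) (P : ℝ) : pe v w a b P * Y2 v w a b m P =
    (pY v w a b m P - mE w (b m)) * (pe v w a b m)⁻¹ - v * Lam1 v w a b m P := by
  have h1 := v_lam (v := v) (w := w) (b := b) (m := m) h.a0 P m P
  rw [sub_self, zero_mul, Y_m h] at h1
  unfold Y2 Lam1
  linarith

/-- (Xf') -/
theorem Xf' (h : Std m 0 a b) (P : ℝ) :
    pe v w a b P * (∫ t in P..1, dpl a t * (pe v w a b t)⁻¹) =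
      -((pX v w a b P - mE v (a 1)) * (pe v w a b 1)⁻¹) + w * Lam2 v w a b m P := by
  have h1 := w_lam (v := v) (w := w) (b := b) (m := m) h.a0 P P 1
  rw [sub_self, zero_mul, X_1 h] at h1
  unfold Lam2
  linarith

/-- (Yf') -/
theorem Yf' (h : Std m 0 a b) (P : ℝ) :
    pe v w a b P * (∫ t in P..1, dpl b t * (pe v w a b t)⁻¹) =
      -((pY v w a b m P - v * pJ v w a b m) * (pe v w a b 1)⁻¹) - v * Lam2 v w a b m P := by
  have h1 := v_lam (v := v) (w := w) (b := b) (m := m) h.a0 P P 1
  rw [sub_self, zero_mul, Y_1 h] at h1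
  unfold Lam2
  linarith

theorem lamI_shift (P Q t : ℝ) : lamI v w a b m P t = lamI v w a b m Q t +
    ((pX v w a b P - pX v w a b Q) * (dpl b t * (pe v w a b t)⁻¹) -
      (pY v w a b m P - pY v w a b m Q) * (dpl a t * (pe v w a b t)⁻¹)) := by
  unfold lamI; ring

/-- integral of `lamI` with another base point -/
theorem lam_shift (P Q s t : ℝ) : ∫ u in s..t, lamI v w a b m P u =
    (∫ u in s..t, lamI v w a b m Q u) +
    ((pX v w a b P - pX v w a b Q) * (∫ u in s..t, dpl b u * (pe v w a b u)⁻¹) -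
      (pY v w a b m P - pY v w a b m Q) * ∫ u in s..t, dpl a u * (pe v w a b u)⁻¹) := by
  have e : lamI v w a b m P = fun t => lamI v w a b m Q t +
    ((pX v w a b P - pX v w a b Q) * (dpl b t * (pe v w a b t)⁻¹) -
      (pY v w a b m P - pY v w a b m Q) * (dpl a t * (pe v w a b t)⁻¹)) :=
    funext fun t => lamI_shift P Q t
  rw [e, intervalIntegral.integral_add (lamI_int Q s t)
    (((dbi_int s t).const_mul _).sub ((dai_int s t).const_mul _)),
    intervalIntegral.integral_sub ((dbi_int s t).const_mul _) ((dai_int s t).const_mul _),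
    intervalIntegral.integral_const_mul, intervalIntegral.integral_const_mul]

/-- (super) -/
theorem Lam1_super (P Q : ℝ) : Lam1 v w a b m P = Lam1 v w a b m Q +
    (pX v w a b P - pX v w a b Q) * Y2 v w a b m Q -
    (pY v w a b m P - pY v w a b m Q) * X2 v w a b m Q + ∫ t in Q..P, lamI v w a b m P t := by
  have h1 : Lam1 v w a b m P = (∫ t in (m : ℝ)..Q, lamI v w a b m P t) +
      ∫ t in Q..P, lamI v w a b m P t :=
    (intervalIntegral.integral_add_adjacent_intervals (lamI_int P m Q) (lamI_int P Q P)).symm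
  rw [h1, lam_shift P Q m Q]
  unfold Lam1 X2 Y2
  ring

/-- the total variation of `∫ dy / e` -/
theorem int_dbi (h : Std m 0 a b) : ∫ t in (1 : ℝ)..m, dpl b t * (pe v w a b t)⁻¹ =
    v * pd v w a b m + mE w (b m) * (pe v w a b m)⁻¹ := by
  have hb' : b 1 = b 0 := by rw [h.br]; simpa using h.br1
  have h1 := (mvAC (-w) b).eq 0 m
  have h2 : pl b 0 = 0 := by have := pl_nat b 0; simpa [h.br] using this
  rw [h2, mE_0, pl_nat, sub_zero] at h1
  have e1 : pd v w a b m = ∫ t in (0 : ℝ)..m, (mE v (pl a t) * (pe v w a b t)⁻¹) * dpl b t := by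
    unfold pd
    refine intervalIntegral.integral_congr fun t _ => ?_
    simp only [div_eq_mul_inv]
  have i1 : IntervalIntegrable (fun t => (mE v (pl a t) * (pe v w a b t)⁻¹) * dpl b t)
      volume 0 m := (Rg.cmul ((mvAC v a).cont.mul peiAC.cont) (plAC b).rg).int _ _
  have i2 : IntervalIntegrable (fun t => Real.exp (-(-w * pl b t)) * dpl b t) volume 0 m :=
    (mvAC (-w) b).rg.int 0 m
  have e2 : ∫ t in (0 : ℝ)..m, dpl b t * (pe v w a b t)⁻¹ =
      v * pd v w a b m + mE (-w) (b m) := by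
    rw [e1, ← h1, ← intervalIntegral.integral_const_mul,
      ← intervalIntegral.integral_add (i1.const_mul v) i2]
    refine intervalIntegral.integral_congr fun t _ => ?_
    have h3 := mE_r v (pl a t)
    have h5 : (pe v w a b t)⁻¹ = Real.exp (v * pl a t) * Real.exp (w * pl b t) := by
      rw [pe, ← Real.exp_neg, ← Real.exp_add]; congr 1; ring
    have h6 : Real.exp (-(v * pl a t)) * Real.exp (v * pl a t) = 1 := by
      rw [← Real.exp_add]; simp
    have h4 : Real.exp (-(-w * pl b t)) = Real.exp (w * pl b t) := by congr 1; ring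
    rw [h4, h5]
    linear_combination (-(Real.exp (v * pl a t) * Real.exp (w * pl b t)) * dpl b t) * h3 +
      (Real.exp (w * pl b t) * dpl b t) * h6
  have e3 : ∫ t in (0 : ℝ)..m, dpl b t * (pe v w a b t)⁻¹ =
      ∫ t in (1 : ℝ)..m, dpl b t * (pe v w a b t)⁻¹ := by
    have h7 := int_b0 (b := b) (f := fun t => (pe v w a b t)⁻¹) hb' m
      (fun s t => (Rg.cmul peiAC.cont (plAC b).rg).int s t)
    have c : ∀ t, (pe v w a b t)⁻¹ * dpl b t = dpl b t * (pe v w a b t)⁻¹ := fun t => mul_comm _ _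
    simp only [c] at h7
    exact h7
  have e4 : mE w (b m) * (pe v w a b m)⁻¹ = mE (-w) (b m) := by
    rw [← mE_flip w (b m), pe_split, pl_nat, pl_nat, h.am]
    have := Real.exp_ne_zero (-(w * b m))
    field_simp
    simp
  rw [← e3, e2, e4]

/-- the total variation of `∫ dx / e` -/
theorem int_dai (h : Std m 0 a b) : ∫ t in (1 : ℝ)..m, dpl a t * (pe v w a b t)⁻¹ =
    -(w * pd v w a b m + mE v (a 1) * (pe v w a b 1)⁻¹) := by
  have hb' : b 1 = b 0 := by rw [h.br]; simpa using h.br1
  have i1 : ∀ s t, IntervalIntegrable (fun t => (mE v (pl a t) * (pe v w a b t)⁻¹) * dpl b t)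
      volume s t := fun s t => (Rg.cmul ((mvAC v a).cont.mul peiAC.cont) (plAC b).rg).int _ _
  have e1 : pd v w a b m = ∫ t in (1 : ℝ)..m, (mE v (pl a t) * (pe v w a b t)⁻¹) * dpl b t := by
    rw [← int_b0 hb' m i1]
    unfold pd
    refine intervalIntegral.integral_congr fun t _ => ?_
    simp only [div_eq_mul_inv]
  have hAC := ((mvAC v a).mul (peiAC (v := v) (w := w) (a := a) (b := b))).congr
    (g' := fun t => dpl a t * (pe v w a b t)⁻¹ +
      w * ((mE v (pl a t) * (pe v w a b t)⁻¹) * dpl b t)) (fun t => by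
        have h1 := mE_r v (pl a t)
        linear_combination (dpl a t * (pe v w a b t)⁻¹) * h1)
  have h2 := hAC.eq 1 m
  have h3 : pl a 1 = a 1 := by have := pl_nat a 1; simpa using this
  rw [intervalIntegral.integral_add (dai_int 1 m) ((i1 1 m).const_mul w),
    intervalIntegral.integral_const_mul, ← e1, pl_nat, h.am, mE_0, h3] at h2
  linarith

/-- the moment `∫ (X dy - Y dx) / e` -/
theorem int_mom (h : Std m 0 a b) : ∫ t in (1 : ℝ)..m,
    (pX v w a b t * dpl b t - pY v w a b m t * dpl a t) * (pe v w a b t)⁻¹ =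
    pd v w a b m * (1 + v * w * pJ v w a b m) + pJ v w a b m * (pe v w a b m)⁻¹ +
      pJ v w a b m * (pe v w a b 1)⁻¹ - pJ v w a b m := by
  have hb' : b 1 = b 0 := by rw [h.br]; simpa using h.br1
  have i1 : ∀ s t, IntervalIntegrable (fun t => (mE v (pl a t) * (pe v w a b t)⁻¹) * dpl b t)
      volume s t := fun s t => (Rg.cmul ((mvAC v a).cont.mul peiAC.cont) (plAC b).rg).int _ _
  have e1 : pd v w a b m = ∫ t in (1 : ℝ)..m, (mE v (pl a t) * (pe v w a b t)⁻¹) * dpl b t := by
    rw [← int_b0 hb' m i1]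
    unfold pd
    refine intervalIntegral.integral_congr fun t _ => ?_
    simp only [div_eq_mul_inv]
  have hAC := (((LAC (v := v) (w := w) (a := a) (b := b))).mul
    (peiAC (v := v) (w := w) (a := a) (b := b)))
  have h2 := hAC.eq 1 m
  have i2 : IntervalIntegrable (fun t => v * pJ v w a b m * (dpl a t * (pe v w a b t)⁻¹))
      volume 1 m := (dai_int 1 m).const_mul _
  have e2 : ∫ t in (1 : ℝ)..m,
      (pX v w a b t * dpl b t - pY v w a b m t * dpl a t) * (pe v w a b t)⁻¹ =
      pd v w a b m - (pL v w a b m * (pe v w a b m)⁻¹ - pL v w a b 1 * (pe v w a b 1)⁻¹) -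
      v * pJ v w a b m * ∫ t in (1 : ℝ)..m, dpl a t * (pe v w a b t)⁻¹ := by
    rw [e1, ← h2, ← intervalIntegral.integral_const_mul,
      ← intervalIntegral.integral_sub (i1 1 m) (hAC.rg.int 1 m),
      ← intervalIntegral.integral_sub ((i1 1 m).sub (hAC.rg.int 1 m)) i2]
    refine intervalIntegral.integral_congr fun t _ => ?_
    rw [X_rel h.a0, pY]
    ring
  have e3 : pL v w a b 1 = 0 := L_flat h.br (by simpa using h.br1) zero_le_one le_rfl
  have e4 : pL v w a b m = -pJ v w a b m := by rw [pJ]; ring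
  have e5 : v * mE v (a 1) = 1 - pe v w a b 1 := by
    have h3 : pl a 1 = a 1 := by have := pl_nat a 1; simpa using this
    have h4 : pl b 1 = 0 := by
      have := pl_nat b 1
      have h5 := h.br1
      simp only [zero_add] at h5
      simpa [h5] using this
    rw [mE_r, pe_split, h3, h4]
    simp
  have e6 : pe v w a b 1 * (pe v w a b 1)⁻¹ = 1 := mul_inv_cancel₀ (pe_pos 1).ne'
  rw [e2, int_dai h, e3, e4]
  linear_combination (pJ v w a b m * (pe v w a b 1)⁻¹) * e5 - pJ v w a b m * e6

/-- **(L)** -/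
theorem LamId (h : Std m 0 a b) (P : ℝ) : pd v w a b m * pe v w a b P = pJ v w a b m +
    (mE w (b m) * pX v w a b P - pJ v w a b m) * (pe v w a b m)⁻¹ +
    (mE v (a 1) * pY v w a b m P - pJ v w a b m) * (pe v w a b 1)⁻¹ +
    Lam1 v w a b m P + Lam2 v w a b m P := by
  have h1 : Lam1 v w a b m P + Lam2 v w a b m P = ∫ t in (m : ℝ)..1, lamI v w a b m P t :=
    intervalIntegral.integral_add_adjacent_intervals (lamI_int P m P) (lamI_int P P 1)
  have h2 : ∫ t in (1 : ℝ)..m, lamI v w a b m P t =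
      pX v w a b P * (∫ t in (1 : ℝ)..m, dpl b t * (pe v w a b t)⁻¹) -
      pY v w a b m P * (∫ t in (1 : ℝ)..m, dpl a t * (pe v w a b t)⁻¹) -
      ∫ t in (1 : ℝ)..m,
        (pX v w a b t * dpl b t - pY v w a b m t * dpl a t) * (pe v w a b t)⁻¹ := by
    have i3 : IntervalIntegrable (fun t => (pX v w a b t * dpl b t - pY v w a b m t * dpl a t) *
        (pe v w a b t)⁻¹) volume 1 m := by
      have : (fun t => (pX v w a b t * dpl b t - pY v w a b m t * dpl a t) *
          (pe v w a b t)⁻¹) = fun t => (pX v w a b t * (pe v w a b t)⁻¹) * dpl b t -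
          (pY v w a b m t * (pe v w a b t)⁻¹) * dpl a t := by
        funext t; ring
      rw [this]
      exact ((Rg.cmul (XAC.cont.mul peiAC.cont) (plAC b).rg).sub
        (Rg.cmul ((YAC m).cont.mul peiAC.cont) (plAC a).rg)).int 1 m
    rw [← intervalIntegral.integral_const_mul, ← intervalIntegral.integral_const_mul,
      ← intervalIntegral.integral_sub ((dbi_int 1 m).const_mul _) ((dai_int 1 m).const_mul _),
      ← intervalIntegral.integral_sub (((dbi_int 1 m).const_mul _).sub
        ((dai_int 1 m).const_mul _)) i3]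
    refine intervalIntegral.integral_congr fun t _ => ?_
    simp only [lamI]
    ring
  rw [intervalIntegral.integral_symm, h2, int_dbi h, int_dai h, int_mom h] at h1
  have e1 := e_rel (v := v) (w := w) (b := b) h.a0 m P
  unfold ef at e1
  linear_combination pd v w a b m * e1 - h1

/-! ### the forms of helper9 -/

theorem inv_comm_int (c : ℕ → ℝ) (s t : ℝ) : ∫ u in s..t, (pe v w a b u)⁻¹ * dpl c u =
    ∫ u in s..t, dpl c u * (pe v w a b u)⁻¹ := by
  congr 1; funext u; ring

theorem Xf9 (h : Std m 0 a b) (P : ℝ) :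
    pe v w a b P * (∫ t in (m : ℝ)..P, (pe v w a b t)⁻¹ * dpl a t) =
      (pX v w a b P - w * pJ v w a b m) / pe v w a b m +
        w * ∫ t in (m : ℝ)..P, lamI v w a b m P t := by
  have := Xf (v := v) (w := w) h P
  unfold X2 Lam1 at this
  rw [inv_comm_int, this]; ring

theorem Yf9 (h : Std m 0 a b) (P : ℝ) :
    pe v w a b P * (∫ t in (m : ℝ)..P, (pe v w a b t)⁻¹ * dpl b t) =
      (pY v w a b m P - mE w (b m)) / pe v w a b m -
        v * ∫ t in (m : ℝ)..P, lamI v w a b m P t := by
  have := Yf_lam (v := v) (w := w) h P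
  unfold Y2 Lam1 at this
  rw [inv_comm_int, this]; ring

theorem Xf9' (h : Std m 0 a b) (P : ℝ) :
    pe v w a b P * (∫ t in P..1, (pe v w a b t)⁻¹ * dpl a t) =
      -(pX v w a b P - mE v (a 1)) / pe v w a b 1 +
        w * ∫ t in P..1, lamI v w a b m P t := by
  have := Xf' (v := v) (w := w) h P
  unfold Lam2 at this
  rw [inv_comm_int, this]; ring

theorem Bf9 (h : Std m 0 a b) : ∫ t in (m : ℝ)..1, (pe v w a b t)⁻¹ * dpl a t =
    w * pd v w a b m + mE v (a 1) / pe v w a b 1 := by
  rw [inv_comm_int, intervalIntegral.integral_symm, int_dai h]; ring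

theorem Af9 (h : Std m 0 a b) : ∫ t in (m : ℝ)..1, (pe v w a b t)⁻¹ * dpl b t =
    -(v * pd v w a b m + mE w (b m) / pe v w a b m) := by
  rw [inv_comm_int, intervalIntegral.integral_symm, int_dbi h]; ring

theorem L9 (h : Std m 0 a b) (P : ℝ) : pd v w a b m * pe v w a b P = pJ v w a b m +
    (mE w (b m) * pX v w a b P - pJ v w a b m) / pe v w a b m +
    (mE v (a 1) * pY v w a b m P - pJ v w a b m) / pe v w a b 1 +
    (∫ t in (m : ℝ)..P, lamI v w a b m P t) + ∫ t in P..1, lamI v w a b m P t := by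
  have := LamId (v := v) (w := w) h P
  unfold Lam1 Lam2 at this
  rw [this]; ring

theorem super9 (P Q : ℝ) : ∫ t in (m : ℝ)..P, lamI v w a b m P t =
    (∫ t in (m : ℝ)..Q, lamI v w a b m Q t) +
    (pX v w a b P - pX v w a b Q) * (∫ t in (m : ℝ)..Q, (pe v w a b t)⁻¹ * dpl b t) -
    (pY v w a b m P - pY v w a b m Q) * (∫ t in (m : ℝ)..Q, (pe v w a b t)⁻¹ * dpl a t) +
    ∫ t in Q..P, lamI v w a b m P t := by
  have := Lam1_super (v := v) (w := w) (a := a) (b := b) (m := m) P Q
  unfold Lam1 X2 Y2 at this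
  rw [inv_comm_int, inv_comm_int, this]

end

end Pool.Agent.Work.MP_b5407d_pos_h13
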