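import Pool.Agent.Work.MP_b5407d_pos_helper13.Corner1
import Pool.Agent.Work.MP_b5407d_pos_helper83.LIP
import Pool.Agent.Work.MP_b5407d_pos_helper29.GLUE

/-! # MP_b5407d_gt (POS): the corner case at a minimiser, general form (helper13) -/

set_option autoImplicit false

open MeasureTheory Set Filter Topology

namespace Pool.Agent.Work.MP_b5407d_pos_h13

open Pool.LBM Pool.LBM.Path
open Pool.Agent.Work.MP_b5407d_pos_h9.FV (cd cn cpp cm chh cp cr')

section
variable {m M r : ℕ} {a b a' b' X Y : ℕ → ℝ} {v w : ℝ}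

theorem exists_bd (m : ℕ) (c : ℕ → ℝ) : ∃ B : ℝ, 0 ≤ B ∧ ∀ k ≤ m, |c k| ≤ B := by
  refine ⟨∑ k ∈ Finset.range (m + 1), |c k|, Finset.sum_nonneg fun _ _ => abs_nonneg _,
    fun k hk => ?_⟩
  exact Finset.single_le_sum (f := fun k => |c k|) (fun k _ => abs_nonneg _)
    (Finset.mem_range.2 (by omega))

theorem dst_zero (ha : ∀ k ≤ m, a' k = a k) (hb : ∀ k ≤ m, b' k = b k) :
    dst m a b a' b' = 0 := by
  unfold dst
  apply Finset.sum_eq_zero
  intro k hk
  have hk' : k ≤ m := by have := Finset.mem_range.1 hk; omega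
  rw [ha k hk', hb k hk']; simp

/-- the functionals depend only on the vertices up to `m` -/
theorem cg4 (v w : ℝ) (r : ℕ) (ha : ∀ k ≤ m, a' k = a k) (hb : ∀ k ≤ m, b' k = b k) :
    pd v w a' b' m = pd v w a b m ∧ pP v w a' b' m = pP v w a b m ∧
    pN v w a' b' m r = pN v w a b m r ∧ pM v w a' b' m r = pM v w a b m r := by
  obtain ⟨B1, h1, h1'⟩ := exists_bd m a
  obtain ⟨B2, h2, h2'⟩ := exists_bd m b
  obtain ⟨Λ, -, hΛ⟩ := blk_LIP m r v w (B1 + B2)
  have h := hΛ a b a' b' (fun k hk => by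
    rw [ha k hk, hb k hk]
    have := h1' k hk
    have := h2' k hk
    refine ⟨by linarith, by linarith, by linarith, by linarith⟩)
  rw [dst_zero ha hb, mul_zero] at h
  obtain ⟨e1, e2, e3, e4⟩ := h
  refine ⟨?_, ?_, ?_, ?_⟩
  · have := abs_nonpos_iff.1 e1; linarith
  · have := abs_nonpos_iff.1 e2; linarith
  · have := abs_nonpos_iff.1 e3; linarith
  · have := abs_nonpos_iff.1 e4; linarith

theorem hK_def (v w : ℝ) (a b : ℕ → ℝ) (m r : ℕ) : hK v w a b m ((r : ℝ) + 1) =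
    pP v w a b m / pd v w a b m * pN v w a b m r - pM v w a b m r := rfl

theorem hK_cg (v w : ℝ) (r : ℕ) (ha : ∀ k ≤ m, a' k = a k) (hb : ∀ k ≤ m, b' k = b k) :
    hK v w a' b' m ((r : ℝ) + 1) = hK v w a b m ((r : ℝ) + 1) := by
  obtain ⟨e1, e2, e3, e4⟩ := cg4 v w r ha hb
  rw [hK_def, hK_def, e1, e2, e3, e4]

theorem std_cg (h : Std m r a b) (ha : ∀ k ≤ m, a' k = a k) (hb : ∀ k ≤ m, b' k = b k) :
    Std m r a' b' := by
  have h1 := h.lt
  refine ⟨h.lt, ?_, ?_, ?_, ?_, ?_, ?_, ?_⟩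
  · intro i j k hij hjk hk
    rw [ha i (by omega), ha j (by omega), ha k hk, hb i (by omega), hb j (by omega), hb k hk]
    exact h.conv i j k hij hjk hk
  · rw [ha 0 (Nat.zero_le _)]; exact h.a0
  · rw [ha m le_rfl]; exact h.am
  · rw [hb 0 (Nat.zero_le _), hb m le_rfl]; exact h.left
  · rw [hb r h1.le]; exact h.br
  · rw [hb (r + 1) h1]; exact h.br1
  · rw [ha r h1.le, ha (r + 1) h1]; exact h.bot

theorem glu_cg {X' o o' : ℕ → ℝ} (hX : ∀ k ≤ r, X' k = X k) (ho : ∀ k ≤ M, o' k = o k) :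
    ∀ k ≤ M + r, glu r X' o' k = glu r X o k := by
  intro k hk
  by_cases h : k ≤ r
  · rw [glu_le o' h, glu_le o h, hX k h]
  · obtain ⟨j, rfl⟩ : ∃ j, k = j + r := ⟨k - r, by omega⟩
    rw [glu_gt o' (by omega : 1 ≤ j), glu_gt o (by omega : 1 ≤ j), ho j (by omega)]

theorem CD_cg (D : CD M r a b X Y) (ha : ∀ k ≤ M, a' k = a k) (hb : ∀ k ≤ M, b' k = b k) :
    CD M r a' b' X Y :=
  ⟨std_cg D.K' ha hb, std_cg D.K (glu_cg (fun _ _ => rfl) ha) (glu_cg (fun _ _ => rfl) hb),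
    D.one⟩

/-- reversed near chain -/
def rv (r : ℕ) (X : ℕ → ℝ) : ℕ → ℝ := fun k => X (r - k)

theorem glu_mr (Y b : ℕ → ℝ) : ∀ k ≤ M + r, glu r (rv r Y) (mr M 0 b) k =
    mr (M + r) r (glu r Y b) k := by
  intro k hk
  by_cases h : k ≤ r
  · rw [glu_le _ h]
    unfold mr rv
    rw [if_pos h, glu_le _ (Nat.sub_le _ _)]
  · obtain ⟨j, rfl⟩ : ∃ j, k = j + r := ⟨k - r, by omega⟩
    rw [glu_gt _ (by omega : 1 ≤ j)]
    unfold mr
    rw [if_neg h, if_neg (by omega : ¬ j ≤ 0)]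
    have e : M + r + r + 1 - (j + r) = (M + 0 + 1 - j) + r := by omega
    rw [e, glu_gt _ (by omega : 1 ≤ M + 0 + 1 - j)]

theorem CD_mr (D : CD M r a b X Y) : CD M r (mr M 0 b) (mr M 0 a) (rv r Y) (rv r X) :=
  ⟨std_mr D.K', std_cg (std_mr D.K) (glu_mr Y b) (glu_mr X a), D.one⟩

theorem hK_CD_mr (D : CD M r a b X Y) (v w : ℝ) :
    hK w v (glu r (rv r Y) (mr M 0 b)) (glu r (rv r X) (mr M 0 a)) (M + r) ((r : ℝ) + 1) =
      hK v w (glu r X a) (glu r Y b) (M + r) ((r : ℝ) + 1) := by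
  rw [hK_cg w v r (glu_mr Y b) (glu_mr X a)]
  exact (hK_mr v w D.K).1

/-- global minimality among the polygons with the same `K'` and the same number of near edges -/
def LMin (v w : ℝ) (M r : ℕ) (a b X Y : ℕ → ℝ) : Prop :=
  ∀ X' Y' : ℕ → ℝ, CD M r a b X' Y' →
    hK v w (glu r X a) (glu r Y b) (M + r) ((r : ℝ) + 1) ≤
      hK v w (glu r X' a) (glu r Y' b) (M + r) ((r : ℝ) + 1)

theorem LMin_mr (D : CD M r a b X Y) (h : LMin v w M r a b X Y) :
    LMin w v M r (mr M 0 b) (mr M 0 a) (rv r Y) (rv r X) := by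
  intro X' Y' D'
  have D2 : CD M r a b (rv r Y') (rv r X') :=
    CD_cg (CD_mr D') (fun k hk => (mr_mr a hk).symm) (fun k hk => (mr_mr b hk).symm)
  have h1 := h _ _ D2
  rw [hK_CD_mr D]
  refine h1.trans (le_of_eq ?_)
  rw [← hK_CD_mr D' w v]
  exact (hK_cg v w r (glu_cg (fun _ _ => rfl) (fun k hk => mr_mr a hk))
    (glu_cg (fun _ _ => rfl) (fun k hk => mr_mr b hk))).symm

theorem ev_lt {f g : ℝ → ℝ} (hf : Continuous f) (hg : Continuous g) (h : f 0 < g 0) :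
    ∀ᶠ t in 𝓝 (0 : ℝ), f t < g t := by
  have := hf.tendsto 0
  have := hg.tendsto 0
  exact (hf.tendsto 0).eventually_lt (hg.tendsto 0) h

/-- openness of the admissible near chains -/
theorem CD_open (D : CD M r a b X Y) {al be : ℕ → ℝ} (hal : al 0 = 0) (hbe : be r = 0) :
    ∀ᶠ t in 𝓝 (0 : ℝ), CD M r a b (fun k => X k + t * al k) (fun k => Y k + t * be k) := by
  have h1 : ∀ᶠ t in 𝓝 (0 : ℝ), ∀ k ∈ Finset.range r, X k + t * al k < X (k + 1) + t * al (k + 1) :=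
    (Filter.eventually_all_finset _).2 fun k hk =>
      ev_lt (by fun_prop) (by fun_prop) (by simpa using (D.near (Finset.mem_range.1 hk)).1)
  have h2 : ∀ᶠ t in 𝓝 (0 : ℝ), ∀ k ∈ Finset.range r, Y (k + 1) + t * be (k + 1) < Y k + t * be k :=
    (Filter.eventually_all_finset _).2 fun k hk =>
      ev_lt (by fun_prop) (by fun_prop) (by simpa using (D.near (Finset.mem_range.1 hk)).2)
  have hs : ∀ i, i + 1 < r → (Y (i + 1) - Y (i + 2)) * (X (i + 1) - X i) <
      (Y i - Y (i + 1)) * (X (i + 2) - X (i + 1)) := by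
    intro i hi
    have h := D.K.conv i (i + 1) (i + 2) (by omega) (by omega) (by omega)
    rw [glu_le a (by omega : i ≤ r), glu_le a (by omega : i + 1 ≤ r),
      glu_le a (by omega : i + 2 ≤ r), glu_le b (by omega : i ≤ r),
      glu_le b (by omega : i + 1 ≤ r), glu_le b (by omega : i + 2 ≤ r)] at h
    linarith
  have h3 : ∀ᶠ t in 𝓝 (0 : ℝ), ∀ k ∈ Finset.range (r - 1),
      ((Y (k + 1) + t * be (k + 1)) - (Y (k + 2) + t * be (k + 2))) *
        ((X (k + 1) + t * al (k + 1)) - (X k + t * al k)) <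
      ((Y k + t * be k) - (Y (k + 1) + t * be (k + 1))) *
        ((X (k + 2) + t * al (k + 2)) - (X (k + 1) + t * al (k + 1))) :=
    (Filter.eventually_all_finset _).2 fun k hk =>
      ev_lt (by fun_prop) (by fun_prop) (by
        have := hs k (by have := Finset.mem_range.1 hk; omega)
        simpa using this)
  have h4 : ∀ᶠ t in 𝓝 (0 : ℝ), X r + t * al r < a 1 :=
    ev_lt (by fun_prop) (by fun_prop) (by simpa using D.Xr_lt)
  have h5 : ∀ᶠ t in 𝓝 (0 : ℝ), Y 0 + t * be 0 < b M :=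
    ev_lt (by fun_prop) (by fun_prop) (by simpa using D.Y0_lt)
  filter_upwards [h1, h2, h3, h4, h5] with t g1 g2 g3 g4 g5
  refine ⟨D.K', ?_, D.one⟩
  refine Pool.Agent.Work.MP_b5407d_pos_h29_glue.blk_GLUE M r a b _ _ D.K' ?_ ?_ ?_ ?_ D.one g4 g5
  · simp [D.X0, hal]
  · simp [D.Yr, hbe]
  · intro k hk
    exact ⟨g1 k (Finset.mem_range.2 hk), g2 k (Finset.mem_range.2 hk)⟩
  · intro k hk
    exact g3 k (Finset.mem_range.2 (by omega))

theorem LM_of_LMin (D : CD M r a b X Y) (h : LMin v w M r a b X Y) : LM v w M r a b X Y := by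
  intro al be hal hbe
  have h1 := CD_open D hal hbe
  filter_upwards [h1] with t ht
  have h2 := h _ _ ht
  rw [hK_glue D.gh D.dg_pos.ne', hK_glue ht.gh ht.dg_pos.ne'] at h2
  simpa using h2

/-- THE CORNER CASE at a minimiser -/
theorem corner_min (D : CD M r a b X Y)
    (hpos : ∀ q, q + 1 = r → ∀ (a' b' : ℕ → ℝ) (v' w' : ℝ), Std (M + r) q a' b' →
      pd v' w' a' b' (M + r) * pM v' w' a' b' (M + r) q ≤
        pP v' w' a' b' (M + r) * pN v' w' a' b' (M + r) q)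
    (hNC : ∀ (a' b' : ℕ → ℝ) (v' w' : ℝ), Std M 0 a' b' →
      pd v' w' a' b' M * pM v' w' a' b' M 0 ≤ pP v' w' a' b' M * pN v' w' a' b' M 0)
    (hmin : LMin v w M r a b X Y) :
    0 ≤ hK v w (glu r X a) (glu r Y b) (M + r) ((r : ℝ) + 1) := by
  -- the case `w Y 0 ≤ v X r`
  have key : ∀ (a b X Y : ℕ → ℝ) (v w : ℝ), CD M r a b X Y → LMin v w M r a b X Y →
      w * Y 0 ≤ v * X r →
      0 ≤ hK v w (glu r X a) (glu r Y b) (M + r) ((r : ℝ) + 1) := by
    intro a b X Y v w D hmin hle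
    have hLM := LM_of_LMin D hmin
    have hone := D.one
    rcases Nat.lt_or_ge 1 r with h1 | h1
    · obtain ⟨q, rfl⟩ : ∃ q, r = q + 1 := ⟨r - 1, by omega⟩
      exact corner_ge2 D (by omega) (hpos q rfl) (hNC a b v w D.K') hLM hle
    · have hr : r = 1 := by omega
      subst hr
      exact corner_one D (hpos 0 rfl) (hNC a b v w D.K') hLM hle
  rcases le_total (w * Y 0) (v * X r) with hle | hle
  · exact key a b X Y v w D hmin hle
  · have h1 := key _ _ _ _ w v (CD_mr D) (LMin_mr D hmin) (by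
      have e1 : rv r X 0 = X r := by simp [rv]
      have e2 : rv r Y r = Y 0 := by simp [rv]
      rw [e1, e2]; exact hle)
    rwa [hK_CD_mr D] at h1

end

end Pool.Agent.Work.MP_b5407d_pos_h13
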