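import Pool.Agent.Work.MP_b5407d_pos_helper13.Refl

/-! # MP_b5407d_gt (POS): symmetry `L ↔ B` (helper13) -/

set_option autoImplicit false

open MeasureTheory Set Filter Topology

namespace Pool.Agent.Work.MP_b5407d_pos_h13

open Pool.LBM Pool.LBM.Path

/-- mirrored sequence -/
def mr (m r : ℕ) (c : ℕ → ℝ) : ℕ → ℝ := fun k => if k ≤ r then c (r - k) else c (m + r + 1 - k)

theorem mr_mr {m r : ℕ} (c : ℕ → ℝ) {k : ℕ} (hk : k ≤ m) : mr m r (mr m r c) k = c k := by
  unfold mr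
  by_cases h : k ≤ r
  · have h1 : r - k ≤ r := Nat.sub_le _ _
    have h2 : r - (r - k) = k := by omega
    simp [h, h1, h2]
  · have h1 : ¬ (m + r + 1 - k ≤ r) := by omega
    have h2 : m + r + 1 - (m + r + 1 - k) = k := by omega
    simp [h, h1, h2]

theorem std_mr {m r : ℕ} {a b : ℕ → ℝ} (h : Std m r a b) :
    Std m r (mr m r b) (mr m r a) := by
  have hlt := h.lt
  have e1 : ∀ c : ℕ → ℝ, mr m r c 0 = c r := fun c => by simp [mr]
  have e2 : ∀ c : ℕ → ℝ, mr m r c m = c (r + 1) := fun c => by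
    have h1 : ¬ m ≤ r := by omega
    have h2 : m + r + 1 - m = r + 1 := by omega
    simp [mr, h1, h2]
  have e3 : ∀ c : ℕ → ℝ, mr m r c r = c 0 := fun c => by simp [mr]
  have e4 : ∀ c : ℕ → ℝ, mr m r c (r + 1) = c m := fun c => by
    have h2 : m + r + 1 - (r + 1) = m := by omega
    simp [mr, h2]
  refine ⟨h.lt, ?_, ?_, ?_, ?_, ?_, ?_, ?_⟩
  · intro i j k hij hjk hk
    unfold mr
    by_cases hi : i ≤ r
    · by_cases hj : j ≤ r
      · by_cases hk' : k ≤ r
        · have := h.conv (r - k) (r - j) (r - i) (by omega) (by omega) (by omega)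
          simp only [hi, hj, hk', if_true]
          linarith
        · have := h.conv (r - j) (r - i) (m + r + 1 - k) (by omega) (by omega) (by omega)
          simp only [hi, hj, hk', if_true, if_false]
          linarith
      · have hk' : ¬ k ≤ r := by omega
        have := h.conv (r - i) (m + r + 1 - k) (m + r + 1 - j) (by omega) (by omega) (by omega)
        simp only [hi, hj, hk', if_true, if_false]
        linarith
    · have hj : ¬ j ≤ r := by omega
      have hk' : ¬ k ≤ r := by omega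
      have := h.conv (m + r + 1 - k) (m + r + 1 - j) (m + r + 1 - i) (by omega) (by omega)
        (by omega)
      simp only [hi, hj, hk', if_false]
      linarith
  · rw [e1, h.br]
  · rw [e2, h.br1]
  · rw [e1, e2]; exact h.bot
  · rw [e3, h.a0]
  · rw [e4, h.am]
  · rw [e3, e4]; exact h.left

section
variable {m r : ℕ} {a b : ℕ → ℝ} (v w : ℝ)

theorem pl_mr1 (c : ℕ → ℝ) {s : ℝ} (hs : s ∈ Icc (0 : ℝ) r) :
    pl (mr m r c) s = pl c (r - s) :=
  pl_rev (p := 0) (q := r) le_rfl (fun k _ hk => by simp [mr, hk]) (by simpa using hs)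

theorem pl_mr2 (c : ℕ → ℝ) {s : ℝ} (hs : s ∈ Icc ((r : ℝ) + 1) m) :
    pl (mr m r c) s = pl c (((m + r + 1 : ℕ) : ℝ) - s) :=
  pl_rev (p := r + 1) (q := m) (by omega) (fun k hk _ => by
    have : ¬ k ≤ r := by omega
    simp [mr, this]) (by push_cast; exact hs)

theorem int_mr1 (c : ℕ → ℝ) (f : ℝ → ℝ) {s1 s2 : ℝ} (h1 : s1 ∈ Icc (0 : ℝ) r)
    (h2 : s2 ∈ Icc (0 : ℝ) r) :
    (∫ s in s1..s2, f (r - s) * dpl (mr m r c) s) = ∫ t in (r - s1)..(r - s2), f t * dpl c t :=
  int_rev (p := 0) (q := r) le_rfl (fun k _ hk => by simp [mr, hk]) f (by simpa using h1)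
    (by simpa using h2)

theorem int_mr2 (c : ℕ → ℝ) (f : ℝ → ℝ) {s1 s2 : ℝ} (h1 : s1 ∈ Icc ((r : ℝ) + 1) m)
    (h2 : s2 ∈ Icc ((r : ℝ) + 1) m) :
    (∫ s in s1..s2, f (((m + r + 1 : ℕ) : ℝ) - s) * dpl (mr m r c) s) =
      ∫ t in (((m + r + 1 : ℕ) : ℝ) - s1)..(((m + r + 1 : ℕ) : ℝ) - s2), f t * dpl c t :=
  int_rev (p := r + 1) (q := m) (by omega) (fun k hk _ => by
    have : ¬ k ≤ r := by omega
    simp [mr, this]) f (by push_cast; exact h1) (by push_cast; exact h2)

/-- the middle edge of the mirrored second coordinate -/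
theorem pl_mr_mid (ha0 : a 0 = 0) (ham : a m = 0) {s : ℝ}
    (hs : s ∈ Icc (r : ℝ) ((r : ℝ) + 1)) : pl (mr m r a) s = 0 := by
  rw [pl_aff _ r hs.1 hs.2]
  have e3 : mr m r a r = 0 := by simp [mr, ha0]
  have e4 : mr m r a (r + 1) = 0 := by
    have h2 : m + r + 1 - (r + 1) = m := by omega
    simp [mr, h2, ham]
  rw [e3, e4]; ring

variable (a b r) in
/-- `Q = e^{-w y} m_v(x)` -/
noncomputable def Qf (t : ℝ) : ℝ := Real.exp (-(w * pl b t)) * mE v (pl a t)

theorem Qf_cont : Continuous (Qf a b v w) := by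
  have h1 := cexp w b
  have h2 : Continuous fun t => mE v (pl a t) := (mE_cont v).comp (cont_pl a)
  unfold Qf; fun_prop

theorem Qf_deriv {t : ℝ} (ht : t ∉ Nt) : HasDerivAt (Qf a b v w)
    (pe v w a b t * dpl a t + (-(w * Qf a b v w t)) * dpl b t) t := by
  have h1 := ((deriv_pl b ht).const_mul w).fun_neg.exp
  have h2 := (mE_deriv v (pl a t)).comp t (deriv_pl a ht)
  refine HasDerivAt.congr_deriv (f := Qf a b v w) (h1.mul h2) ?_
  rw [pe_eq]
  simp only [Qf, Function.comp]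
  ring

variable (a b r) in
/-- `∫_r^t Q dy` -/
noncomputable def Rf (t : ℝ) : ℝ := ∫ s in (r : ℝ)..t, Qf a b v w s * dpl b s

theorem Rf_cont : Continuous (Rf r a b v w) := prim_cont b (Qf_cont v w) r

theorem Rf_deriv {t : ℝ} (ht : t ∉ Nt) : HasDerivAt (Rf r a b v w)
    (Qf a b v w t * dpl b t) t := prim_deriv b (Qf_cont v w) r ht

variable (a b r) in
/-- `∫_r^t e dy` -/
noncomputable def Yf (t : ℝ) : ℝ := ∫ s in (r : ℝ)..t, pe v w a b s * dpl b s

theorem Yf_cont : Continuous (Yf r a b v w) := prim_cont b (pe_cont v w a b) r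

/-- `Q + w R~ = m_v(a_r) - X(r) + X(t)` -/
theorem F_eq (hbr : b r = 0) (t : ℝ) :
    Qf a b v w t + w * Rf r a b v w t = mE v (a r) - pX v w a b r + pX v w a b t := by
  have hQ := Qf_cont (a := a) (b := b) v w
  have hR := Rf_cont (r := r) (a := a) (b := b) v w
  have hX := pX_cont v w a b
  have hF : Continuous fun t => Qf a b v w t + w * Rf r a b v w t - pX v w a b t := by fun_prop
  have h := ftc2 a b hF (f := fun _ => (0:ℝ)) (g := fun _ => (0:ℝ)) continuous_const
    continuous_const (fun t ht => by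
      have h1 := Qf_deriv (a := a) (b := b) v w ht
      have h2 := (Rf_deriv (r := r) (a := a) (b := b) v w ht).const_mul w
      have h3 := pX_deriv v w a b ht
      refine ((h1.add h2).sub h3).congr_deriv ?_
      ring) (r : ℝ) t
  simp only [zero_mul, intervalIntegral.integral_zero, add_zero] at h
  have e1 : Rf r a b v w r = 0 := by simp [Rf]
  have e2 : Qf a b v w r = mE v (a r) := by simp [Qf, pl_nat, hbr]
  rw [e1, e2] at h
  linarith

/-- `q + v L = m_w(b_0) + ∫_0^t e dy` -/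
theorem G_eq (ha0 : a 0 = 0) (t : ℝ) :
    pq v w a b t + v * pL v w a b t = mE w (b 0) + ∫ s in (0 : ℝ)..t, pe v w a b s * dpl b s := by
  have hq := pq_cont v w a b
  have hL := pL_cont v w a b
  have he := pe_cont v w a b
  have hF : Continuous fun t => pq v w a b t + v * pL v w a b t := by fun_prop
  have h := ftc2 a b hF (f := fun _ => (0:ℝ)) (g := pe v w a b) continuous_const
    he (fun t ht => by
      have h1 := pq_deriv v w a b ht
      have h2 := (pL_deriv v w a b ht).const_mul v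
      refine (h1.add h2).congr_deriv ?_
      ring) (0 : ℝ) t
  simp only [zero_mul, intervalIntegral.integral_zero, zero_add] at h
  have e1 : pL v w a b 0 = 0 := by simp [pL]
  have e2 : pq v w a b 0 = mE w (b 0) := by simp [pq, pl_zero, ha0]
  rw [e1, e2] at h
  linarith

/-- `u~` -/
theorem pe_mr1 {s : ℝ} (hs : s ∈ Icc (0 : ℝ) r) :
    pe w v (mr m r b) (mr m r a) s = pe v w a b (r - s) := by
  unfold pe
  rw [pl_mr1 b hs, pl_mr1 a hs]; congr 1; ring

theorem pe_mr2 {s : ℝ} (hs : s ∈ Icc ((r : ℝ) + 1) m) :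
    pe w v (mr m r b) (mr m r a) s = pe v w a b (((m + r + 1 : ℕ) : ℝ) - s) := by
  unfold pe
  rw [pl_mr2 b hs, pl_mr2 a hs]; congr 1; ring

theorem pq_mr1 {s : ℝ} (hs : s ∈ Icc (0 : ℝ) r) :
    pq w v (mr m r b) (mr m r a) s = Qf a b v w (r - s) := by
  unfold pq Qf
  rw [pl_mr1 b hs, pl_mr1 a hs]

theorem pq_mr2 {s : ℝ} (hs : s ∈ Icc ((r : ℝ) + 1) m) :
    pq w v (mr m r b) (mr m r a) s = Qf a b v w (((m + r + 1 : ℕ) : ℝ) - s) := by
  unfold pq Qf
  rw [pl_mr2 b hs, pl_mr2 a hs]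

theorem pL_mr1 {s : ℝ} (hs : s ∈ Icc (0 : ℝ) r) :
    pL w v (mr m r b) (mr m r a) s = Rf r a b v w (r - s) := by
  have h0 : (0 : ℝ) ∈ Icc (0 : ℝ) r := ⟨le_rfl, hs.1.trans hs.2⟩
  have e1 : pL w v (mr m r b) (mr m r a) s =
      ∫ u in (0 : ℝ)..s, Qf a b v w (r - u) * dpl (mr m r b) u := by
    unfold pL
    refine intervalIntegral.integral_congr fun u hu => ?_
    simp only [pq_mr1 v w ((ordConnected_Icc.uIcc_subset h0 hs) hu)]
  rw [e1, int_mr1 b (Qf a b v w) h0 hs, sub_zero]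
  rfl

theorem pX_mr1 {s : ℝ} (hs : s ∈ Icc (0 : ℝ) r) :
    pX w v (mr m r b) (mr m r a) s = Yf r a b v w (r - s) := by
  have h0 : (0 : ℝ) ∈ Icc (0 : ℝ) r := ⟨le_rfl, hs.1.trans hs.2⟩
  have e1 : pX w v (mr m r b) (mr m r a) s =
      ∫ u in (0 : ℝ)..s, pe v w a b (r - u) * dpl (mr m r b) u := by
    unfold pX
    refine intervalIntegral.integral_congr fun u hu => ?_
    simp only [pe_mr1 v w ((ordConnected_Icc.uIcc_subset h0 hs) hu)]
  rw [e1, int_mr1 b (pe v w a b) h0 hs, sub_zero]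
  rfl

theorem cast_mr : (((m + r + 1 : ℕ) : ℝ)) = (m : ℝ) + r + 1 := by push_cast; ring

theorem pL_mr2 (ha0 : a 0 = 0) (ham : a m = 0) (hrm : r < m) {s : ℝ}
    (hs : s ∈ Icc ((r : ℝ) + 1) m) :
    pL w v (mr m r b) (mr m r a) s = Rf r a b v w 0 +
      ∫ t in (m : ℝ)..(((m + r + 1 : ℕ) : ℝ) - s), Qf a b v w t * dpl b t := by
  have h0 : ((r : ℝ) + 1) ∈ Icc ((r : ℝ) + 1) m := ⟨le_rfl, hs.1.trans hs.2⟩
  have hq := pq_cont w v (mr m r b) (mr m r a)
  have i : ∀ x y : ℝ, IntervalIntegrable (fun u => pq w v (mr m r b) (mr m r a) u *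
    dpl (mr m r b) u) volume x y := fun x y => mul_ii _ hq x y
  have e0 : pL w v (mr m r b) (mr m r a) s = pL w v (mr m r b) (mr m r a) r +
      (∫ u in (r : ℝ)..((r : ℝ) + 1), pq w v (mr m r b) (mr m r a) u * dpl (mr m r b) u) +
      ∫ u in ((r : ℝ) + 1)..s, pq w v (mr m r b) (mr m r a) u * dpl (mr m r b) u := by
    unfold pL
    rw [intervalIntegral.integral_add_adjacent_intervals (i _ _) (i _ _),
      intervalIntegral.integral_add_adjacent_intervals (i _ _) (i _ _)]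
  have e1 : (∫ u in (r : ℝ)..((r : ℝ) + 1), pq w v (mr m r b) (mr m r a) u *
      dpl (mr m r b) u) = 0 := by
    have : (∫ u in (r : ℝ)..((r : ℝ) + 1), pq w v (mr m r b) (mr m r a) u *
      dpl (mr m r b) u) = ∫ u in (r : ℝ)..((r : ℝ) + 1), (0 : ℝ) := by
      refine intervalIntegral.integral_congr fun u hu => ?_
      rw [uIcc_of_le (by linarith)] at hu
      simp only [pq, pl_mr_mid ha0 ham hu, mE_zero, mul_zero, zero_mul]
    rw [this]; simp
  have e2 : (∫ u in ((r : ℝ) + 1)..s, pq w v (mr m r b) (mr m r a) u * dpl (mr m r b) u) =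
      ∫ t in (m : ℝ)..(((m + r + 1 : ℕ) : ℝ) - s), Qf a b v w t * dpl b t := by
    have e3 : (∫ u in ((r : ℝ) + 1)..s, pq w v (mr m r b) (mr m r a) u * dpl (mr m r b) u) =
        ∫ u in ((r : ℝ) + 1)..s, Qf a b v w (((m + r + 1 : ℕ) : ℝ) - u) * dpl (mr m r b) u := by
      refine intervalIntegral.integral_congr fun u hu => ?_
      simp only [pq_mr2 v w ((ordConnected_Icc.uIcc_subset h0 hs) hu)]
    rw [e3, int_mr2 b (Qf a b v w) h0 hs]
    have e4 : (((m + r + 1 : ℕ) : ℝ)) - ((r : ℝ) + 1) = m := by push_cast; ring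
    rw [e4]
  rw [e0, e1, e2, pL_mr1 v w ⟨Nat.cast_nonneg r, le_rfl⟩, sub_self, add_zero]

theorem pX_mr2 (ha0 : a 0 = 0) (ham : a m = 0) (hrm : r < m) {s : ℝ}
    (hs : s ∈ Icc ((r : ℝ) + 1) m) :
    pX w v (mr m r b) (mr m r a) s = Yf r a b v w 0 + (mE w (b m) - mE w (b 0)) +
      ∫ t in (m : ℝ)..(((m + r + 1 : ℕ) : ℝ) - s), pe v w a b t * dpl b t := by
  have h0 : ((r : ℝ) + 1) ∈ Icc ((r : ℝ) + 1) m := ⟨le_rfl, hs.1.trans hs.2⟩
  have hq := pe_cont w v (mr m r b) (mr m r a)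
  have i : ∀ x y : ℝ, IntervalIntegrable (fun u => pe w v (mr m r b) (mr m r a) u *
    dpl (mr m r b) u) volume x y := fun x y => mul_ii _ hq x y
  have e0 : pX w v (mr m r b) (mr m r a) s = pX w v (mr m r b) (mr m r a) r +
      (∫ u in (r : ℝ)..((r : ℝ) + 1), pe w v (mr m r b) (mr m r a) u * dpl (mr m r b) u) +
      ∫ u in ((r : ℝ) + 1)..s, pe w v (mr m r b) (mr m r a) u * dpl (mr m r b) u := by
    unfold pX
    rw [intervalIntegral.integral_add_adjacent_intervals (i _ _) (i _ _),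
      intervalIntegral.integral_add_adjacent_intervals (i _ _) (i _ _)]
  have e1 : (∫ u in (r : ℝ)..((r : ℝ) + 1), pe w v (mr m r b) (mr m r a) u *
      dpl (mr m r b) u) = mE w (b m) - mE w (b 0) := by
    have h1 : (∫ u in (r : ℝ)..((r : ℝ) + 1), pe w v (mr m r b) (mr m r a) u *
      dpl (mr m r b) u) = ∫ u in (r : ℝ)..((r : ℝ) + 1), Real.exp (-(w * pl (mr m r b) u)) *
      dpl (mr m r b) u := by
      refine intervalIntegral.integral_congr fun u hu => ?_
      rw [uIcc_of_le (by linarith)] at hu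
      simp only [pe, pl_mr_mid ha0 ham hu, mul_zero, sub_zero]
    rw [h1]
    have hE := cexp w (mr m r b)
    have hF : Continuous fun t => mE w (pl (mr m r b) t) := (mE_cont w).comp (cont_pl _)
    have h := ftc2 (mr m r b) (mr m r b) hF hE (g := fun _ => (0:ℝ)) continuous_const
      (fun t ht => by
        refine (mEx_deriv w (mr m r b) ht).congr_deriv ?_
        ring) (r : ℝ) ((r : ℝ) + 1)
    simp only [zero_mul, intervalIntegral.integral_zero, add_zero] at h
    rw [h]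
    have e5 : pl (mr m r b) ((r : ℝ) + 1) = b m := by
      have : ((r : ℝ) + 1) = ((r + 1 : ℕ) : ℝ) := by push_cast; ring
      rw [this, pl_nat]
      have h2 : m + r + 1 - (r + 1) = m := by omega
      simp [mr, h2]
    have e6 : pl (mr m r b) (r : ℝ) = b 0 := by rw [pl_nat]; simp [mr]
    rw [e5, e6]
  have e2 : (∫ u in ((r : ℝ) + 1)..s, pe w v (mr m r b) (mr m r a) u * dpl (mr m r b) u) =
      ∫ t in (m : ℝ)..(((m + r + 1 : ℕ) : ℝ) - s), pe v w a b t * dpl b t := by
    have e3 : (∫ u in ((r : ℝ) + 1)..s, pe w v (mr m r b) (mr m r a) u * dpl (mr m r b) u) =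
        ∫ u in ((r : ℝ) + 1)..s, pe v w a b (((m + r + 1 : ℕ) : ℝ) - u) * dpl (mr m r b) u := by
      refine intervalIntegral.integral_congr fun u hu => ?_
      simp only [pe_mr2 v w ((ordConnected_Icc.uIcc_subset h0 hs) hu)]
    rw [e3, int_mr2 b (pe v w a b) h0 hs]
    have e4 : (((m + r + 1 : ℕ) : ℝ)) - ((r : ℝ) + 1) = m := by push_cast; ring
    rw [e4]
  rw [e0, e1, e2, pX_mr1 v w ⟨Nat.cast_nonneg r, le_rfl⟩, sub_self]

/-- derivative of `k k~ / e` -/
theorem kk_deriv (cJ z1 z2 : ℝ) (hbr : b r = 0) {t : ℝ} (ht : t ∉ Nt) :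
    HasDerivAt (fun t => (z2 * mE v (pl a t) - (pL v w a b t + cJ)) *
      (z1 * mE w (pl b t) - Rf r a b v w t) / pe v w a b t)
      (((z2 - pq v w a b t - v * (pL v w a b t + cJ)) *
        (z1 * mE w (pl b t) - Rf r a b v w t) / pe v w a b t) * dpl a t +
      ((z2 * mE v (pl a t) - (pL v w a b t + cJ)) *
        (z1 + (pX v w a b r - mE v (a r)) - pX v w a b t) / pe v w a b t) * dpl b t) t := by
  have d1 := (((mEx_deriv v a ht).const_mul z2).sub
    ((pL_deriv v w a b ht).add_const cJ))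
  have d2 := (((mEx_deriv w b ht).const_mul z1).sub (Rf_deriv (r := r) (a := a) (b := b) v w ht))
  have d3 := (d1.mul d2).div (pe_deriv v w a b ht) (pe_ne v w a b t)
  refine d3.congr_deriv ?_
  have hF := F_eq (r := r) (a := a) (b := b) v w hbr t
  have hX : pX v w a b t = Qf a b v w t + w * Rf r a b v w t - (mE v (a r) - pX v w a b r) := by
    linarith
  rw [hX]
  have e1 := mul_mE v (pl a t)
  have e2 := mul_mE w (pl b t)
  have hne := pe_ne v w a b t
  have hEx : Real.exp (-(v * pl a t)) = 1 - v * mE v (pl a t) := by linarith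
  have hEy : Real.exp (-(w * pl b t)) = 1 - w * mE w (pl b t) := by linarith
  simp only [Qf, Pi.mul_apply, Pi.sub_apply]
  have hq : pq v w a b t = (1 - v * mE v (pl a t)) * mE w (pl b t) := by
    unfold pq; rw [hEx]
  rw [hq, hEx, hEy]
  field_simp
  ring

theorem kk_int (cJ z1 z2 : ℝ) (hbr : b r = 0) (p q : ℝ) :
    (∫ t in p..q, ((z2 - pq v w a b t - v * (pL v w a b t + cJ)) *
        (z1 * mE w (pl b t) - Rf r a b v w t) / pe v w a b t) * dpl a t) +
    (∫ t in p..q, ((z2 * mE v (pl a t) - (pL v w a b t + cJ)) *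
        (z1 + (pX v w a b r - mE v (a r)) - pX v w a b t) / pe v w a b t) * dpl b t) =
    (z2 * mE v (pl a q) - (pL v w a b q + cJ)) *
      (z1 * mE w (pl b q) - Rf r a b v w q) / pe v w a b q -
    (z2 * mE v (pl a p) - (pL v w a b p + cJ)) *
      (z1 * mE w (pl b p) - Rf r a b v w p) / pe v w a b p := by
  have c1 : Continuous fun t => mE v (pl a t) := (mE_cont v).comp (cont_pl a)
  have c2 : Continuous fun t => mE w (pl b t) := (mE_cont w).comp (cont_pl b)
  have c3 := pL_cont v w a b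
  have c4 := Rf_cont (r := r) (a := a) (b := b) v w
  have c5 := pq_cont v w a b
  have c6 := pX_cont v w a b
  have c7 := pe_cont v w a b
  have c8 := pe_ne v w a b
  exact ftc2 a b (Continuous.div (by fun_prop) c7 c8) (Continuous.div (by fun_prop) c7 c8)
    (Continuous.div (by fun_prop) c7 c8) (fun t ht => kk_deriv v w cJ z1 z2 hbr ht) p q

end

end Pool.Agent.Work.MP_b5407d_pos_h13
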