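import Pool.Agent.Work.MP_b5407d_pos_helper13.Mirror

/-! # MP_b5407d_gt (POS): symmetry `L ↔ B`, conclusion (helper13) -/

set_option autoImplicit false

open MeasureTheory Set Filter Topology

namespace Pool.Agent.Work.MP_b5407d_pos_h13

open Pool.LBM Pool.LBM.Path

section
variable {m r : ℕ} {a b : ℕ → ℝ} (v w : ℝ)

/-- bilinear form as an integral -/
theorem bil_int (z C : ℝ) {τ : ℝ} (h0 : 0 ≤ τ) (hτ : τ ≤ m) :
    z * (C * pd v w a b m - pP v w a b m) - Ht v w a b m C τ =
      (∫ t in (0 : ℝ)..m, ((z * mE v (pl a t) - pL v w a b t) * pu v w a b C t) * dpl b t) -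
        pJ v w a b m * ∫ t in τ..m, pu v w a b C t * dpl b t := by
  have hu := pu_cont v w a b C
  have hm : Continuous fun t => mE v (pl a t) := (mE_cont v).comp (cont_pl a)
  have hL := pL_cont v w a b
  have hG := pG_cont v w a b
  have hX := pX_cont v w a b
  have hXG : Continuous fun t => pX v w a b t * pG v w a b t := hX.mul hG
  have hmu : Continuous fun t => mE v (pl a t) * pu v w a b C t := hm.mul hu
  have hLu : Continuous fun t => pL v w a b t * pu v w a b C t := hL.mul hu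
  unfold Ht
  rw [CNM_eq, int_R v w a b m h0 hτ hu]
  have e4 : pP v w a b m = ∫ t in (0 : ℝ)..m, (pX v w a b t * pG v w a b t) * dpl b t := by
    unfold pP pG
    refine intervalIntegral.integral_congr fun t _ => ?_
    ring
  have e5 : pd v w a b m = ∫ t in (0 : ℝ)..m, pG v w a b t * dpl b t := rfl
  have e6 : C * pd v w a b m - pP v w a b m =
      ∫ t in (0 : ℝ)..m, (mE v (pl a t) * pu v w a b C t) * dpl b t := by
    rw [e4, e5, ← intervalIntegral.integral_const_mul, ← intervalIntegral.integral_sub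
      ((mul_ii b hG 0 m).const_mul _) (mul_ii b hXG 0 m)]
    refine intervalIntegral.integral_congr fun t _ => ?_
    simp only [pG, pu]; ring
  rw [e6]
  have e7 : (∫ t in (0 : ℝ)..m, ((z * mE v (pl a t) - pL v w a b t) * pu v w a b C t) *
      dpl b t) = z * (∫ t in (0 : ℝ)..m, (mE v (pl a t) * pu v w a b C t) * dpl b t) -
      ∫ t in (0 : ℝ)..m, (pL v w a b t * pu v w a b C t) * dpl b t := by
    rw [← intervalIntegral.integral_const_mul, ← intervalIntegral.integral_sub
      ((mul_ii b hmu 0 m).const_mul _) (mul_ii b hLu 0 m)]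
    refine intervalIntegral.integral_congr fun t _ => ?_
    ring
  rw [e7]; ring

/-- splitting at `r`, `r + 1` -/
theorem split3 {g : ℝ → ℝ} (hg : Continuous g) (c : ℕ → ℝ)
    (h0 : (∫ t in (r : ℝ)..((r : ℝ) + 1), g t * dpl c t) = 0) :
    (∫ t in (0 : ℝ)..m, g t * dpl c t) = (∫ t in (0 : ℝ)..r, g t * dpl c t) +
      ∫ t in ((r : ℝ) + 1)..m, g t * dpl c t := by
  rw [← intervalIntegral.integral_add_adjacent_intervals (mul_ii c hg 0 r) (mul_ii c hg r m),
    ← intervalIntegral.integral_add_adjacent_intervals (mul_ii c hg r ((r : ℝ) + 1))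
      (mul_ii c hg ((r : ℝ) + 1) m), h0, zero_add]

theorem ZA (z1 z2 : ℝ) (hbr : b r = 0) (hbr1 : b (r + 1) = 0) (hrm : r < m) :
    z2 * ((z1 + (pX v w a b r - mE v (a r))) * pd v w a b m - pP v w a b m) -
      Ht v w a b m (z1 + (pX v w a b r - mE v (a r))) ((r : ℝ) + 1) =
    (∫ t in (0 : ℝ)..r, ((z2 * mE v (pl a t) - (pL v w a b t + 0)) *
        (z1 + (pX v w a b r - mE v (a r)) - pX v w a b t) / pe v w a b t) * dpl b t) +
    ∫ t in ((r : ℝ) + 1)..m, ((z2 * mE v (pl a t) - (pL v w a b t + pJ v w a b m)) *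
        (z1 + (pX v w a b r - mE v (a r)) - pX v w a b t) / pe v w a b t) * dpl b t := by
  have hτ : (r : ℝ) + 1 ≤ m := by exact_mod_cast hrm
  set C := z1 + (pX v w a b r - mE v (a r)) with hC
  have hu := pu_cont v w a b C
  have hm : Continuous fun t => mE v (pl a t) := (mE_cont v).comp (cont_pl a)
  have hL := pL_cont v w a b
  have hg : Continuous fun t => (z2 * mE v (pl a t) - pL v w a b t) * pu v w a b C t := by
    fun_prop
  rw [bil_int v w z2 C (by positivity) hτ, split3 (r := r) hg b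
    (int_flat b _ (by rw [hbr, hbr1]))]
  have e1 : (∫ t in (0 : ℝ)..r, ((z2 * mE v (pl a t) - (pL v w a b t + 0)) *
        (C - pX v w a b t) / pe v w a b t) * dpl b t) =
      ∫ t in (0 : ℝ)..r, ((z2 * mE v (pl a t) - pL v w a b t) * pu v w a b C t) * dpl b t := by
    refine intervalIntegral.integral_congr fun t _ => ?_
    simp only [pu]; ring
  have e2 : (∫ t in ((r : ℝ) + 1)..m, ((z2 * mE v (pl a t) - (pL v w a b t + pJ v w a b m)) *
        (C - pX v w a b t) / pe v w a b t) * dpl b t) =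
      (∫ t in ((r : ℝ) + 1)..m, ((z2 * mE v (pl a t) - pL v w a b t) * pu v w a b C t) *
        dpl b t) - pJ v w a b m * ∫ t in ((r : ℝ) + 1)..m, pu v w a b C t * dpl b t := by
    rw [← intervalIntegral.integral_const_mul, ← intervalIntegral.integral_sub
      (mul_ii b hg _ _) ((mul_ii b hu _ _).const_mul _)]
    refine intervalIntegral.integral_congr fun t _ => ?_
    simp only [pu]; ring
  rw [e1, e2]; ring

theorem Rf_flat (hbr : b r = 0) (hbr1 : b (r + 1) = 0) (t : ℝ) :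
    Rf r a b v w t = ∫ s in ((r : ℝ) + 1)..t, Qf a b v w s * dpl b s := by
  have hQ := Qf_cont (a := a) (b := b) v w
  unfold Rf
  rw [← intervalIntegral.integral_add_adjacent_intervals (mul_ii b hQ r ((r : ℝ) + 1))
    (mul_ii b hQ ((r : ℝ) + 1) t), int_flat b _ (by rw [hbr, hbr1]), zero_add]

theorem ZB (z1 z2 : ℝ) (ha0 : a 0 = 0) (ham : a m = 0) (hbr : b r = 0) (hbr1 : b (r + 1) = 0)
    (hrm : r < m) :
    z1 * ((z2 - (mE w (b 0) + ∫ s in (0 : ℝ)..r, pe v w a b s * dpl b s)) *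
        pd w v (mr m r b) (mr m r a) m - pP w v (mr m r b) (mr m r a) m) -
      Ht w v (mr m r b) (mr m r a) m
        (z2 - (mE w (b 0) + ∫ s in (0 : ℝ)..r, pe v w a b s * dpl b s)) ((r : ℝ) + 1) =
    -((∫ t in (0 : ℝ)..r, ((z2 - pq v w a b t - v * (pL v w a b t + 0)) *
        (z1 * mE w (pl b t) - Rf r a b v w t) / pe v w a b t) * dpl a t) +
      ∫ t in ((r : ℝ) + 1)..m, ((z2 - pq v w a b t - v * (pL v w a b t + pJ v w a b m)) *
        (z1 * mE w (pl b t) - Rf r a b v w t) / pe v w a b t) * dpl a t) := by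
  have hτ : (r : ℝ) + 1 ≤ m := by exact_mod_cast hrm
  set C := z2 - (mE w (b 0) + ∫ s in (0 : ℝ)..r, pe v w a b s * dpl b s) with hC
  have hu := pu_cont w v (mr m r b) (mr m r a) C
  have hm : Continuous fun t => mE w (pl (mr m r b) t) := (mE_cont w).comp (cont_pl _)
  have hL := pL_cont w v (mr m r b) (mr m r a)
  have hg : Continuous fun t => (z1 * mE w (pl (mr m r b) t) -
    pL w v (mr m r b) (mr m r a) t) * pu w v (mr m r b) (mr m r a) C t := by
    fun_prop
  have hmid : mr m r a (r + 1) = mr m r a r := by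
    have h2 : m + r + 1 - (r + 1) = m := by omega
    simp [mr, h2, ha0, ham]
  rw [bil_int w v z1 C (by positivity) hτ, split3 (r := r) hg (mr m r a)
    (int_flat _ _ hmid)]
  have he := pe_cont v w a b
  have hQ := Qf_cont (a := a) (b := b) v w
  have hr0 : (0 : ℝ) ∈ Icc (0 : ℝ) r := ⟨le_rfl, Nat.cast_nonneg r⟩
  have hrr : (r : ℝ) ∈ Icc (0 : ℝ) r := ⟨Nat.cast_nonneg r, le_rfl⟩
  have hm0 : ((r : ℝ) + 1) ∈ Icc ((r : ℝ) + 1) m := ⟨le_rfl, hτ⟩
  have hmm : (m : ℝ) ∈ Icc ((r : ℝ) + 1) m := ⟨hτ, le_rfl⟩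
  -- first part
  have hu1 : ∀ s ∈ Icc (0 : ℝ) r, pu w v (mr m r b) (mr m r a) C s =
      (z2 - pq v w a b (r - s) - v * (pL v w a b (r - s) + 0)) / pe v w a b (r - s) := by
    intro s hs
    unfold pu
    rw [pX_mr1 v w hs, pe_mr1 v w hs]
    congr 1
    have h1 := G_eq (b := b) v w ha0 ((r : ℝ) - s)
    have h2 : (∫ s in (0 : ℝ)..r, pe v w a b s * dpl b s) + Yf r a b v w ((r : ℝ) - s) =
        ∫ u in (0 : ℝ)..((r : ℝ) - s), pe v w a b u * dpl b u := by
      unfold Yf
      rw [intervalIntegral.integral_add_adjacent_intervals (mul_ii b he _ _) (mul_ii b he _ _)]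
    rw [hC]
    linarith
  have e1 : (∫ s in (0 : ℝ)..r, ((z1 * mE w (pl (mr m r b) s) -
      pL w v (mr m r b) (mr m r a) s) * pu w v (mr m r b) (mr m r a) C s) *
      dpl (mr m r a) s) = -∫ t in (0 : ℝ)..r, ((z2 - pq v w a b t -
        v * (pL v w a b t + 0)) *
        (z1 * mE w (pl b t) - Rf r a b v w t) / pe v w a b t) * dpl a t := by
    have e3 : (∫ s in (0 : ℝ)..r, ((z1 * mE w (pl (mr m r b) s) -
      pL w v (mr m r b) (mr m r a) s) * pu w v (mr m r b) (mr m r a) C s) *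
      dpl (mr m r a) s) = ∫ s in (0 : ℝ)..r, (fun t => (z2 - pq v w a b t -
        v * (pL v w a b t + 0)) *
        (z1 * mE w (pl b t) - Rf r a b v w t) / pe v w a b t) (r - s) * dpl (mr m r a) s := by
      refine intervalIntegral.integral_congr fun s hs => ?_
      have hs2 := (ordConnected_Icc.uIcc_subset hr0 hrr) hs
      simp only [hu1 s hs2, pl_mr1 b hs2, pL_mr1 v w hs2]
      ring
    refine (e3.trans (int_mr1 a (fun t => (z2 - pq v w a b t -
        v * (pL v w a b t + 0)) *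
        (z1 * mE w (pl b t) - Rf r a b v w t) / pe v w a b t) hr0 hrr)).trans ?_
    rw [sub_zero, sub_self, intervalIntegral.integral_symm]
  -- second part
  have hE0 : Rf r a b v w 0 + (∫ t in (m : ℝ)..((r : ℝ) + 1), Qf a b v w t * dpl b t) =
      -pJ w v (mr m r b) (mr m r a) m := by
    unfold pJ
    rw [neg_neg, pL_mr2 v w ha0 ham hrm hmm]
    have e4 : (((m + r + 1 : ℕ) : ℝ)) - m = (r : ℝ) + 1 := by push_cast; ring
    rw [e4]
  have hR2 : ∀ s ∈ Icc ((r : ℝ) + 1) m, pL w v (mr m r b) (mr m r a) s +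
      pJ w v (mr m r b) (mr m r a) m = Rf r a b v w (((m + r + 1 : ℕ) : ℝ) - s) := by
    intro s hs
    rw [pL_mr2 v w ha0 ham hrm hs, Rf_flat v w hbr hbr1 (((m + r + 1 : ℕ) : ℝ) - s)]
    have h3 : (∫ t in (m : ℝ)..((r : ℝ) + 1), Qf a b v w t * dpl b t) +
        (∫ t in ((r : ℝ) + 1)..(((m + r + 1 : ℕ) : ℝ) - s), Qf a b v w t * dpl b t) =
        ∫ t in (m : ℝ)..(((m + r + 1 : ℕ) : ℝ) - s), Qf a b v w t * dpl b t := by
      rw [intervalIntegral.integral_add_adjacent_intervals (mul_ii b hQ _ _) (mul_ii b hQ _ _)]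
    linarith
  have hGm : pq v w a b m + v * (pL v w a b m + pJ v w a b m) = mE w (b m) := by
    have h1 : pL v w a b m + pJ v w a b m = 0 := by simp [pJ]
    rw [h1, pq, pl_nat, pl_nat, ham]; simp
  have hu2 : ∀ s ∈ Icc ((r : ℝ) + 1) m, pu w v (mr m r b) (mr m r a) C s =
      (z2 - pq v w a b (((m + r + 1 : ℕ) : ℝ) - s) -
        v * (pL v w a b (((m + r + 1 : ℕ) : ℝ) - s) + pJ v w a b m)) /
        pe v w a b (((m + r + 1 : ℕ) : ℝ) - s) := by
    intro s hs
    unfold pu
    rw [pX_mr2 v w ha0 ham hrm hs, pe_mr2 v w hs]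
    congr 1
    set T := (((m + r + 1 : ℕ) : ℝ)) - s with hT
    have h1 := G_eq (b := b) v w ha0 T
    have h2 := G_eq (b := b) v w ha0 (m : ℝ)
    have h3 : (∫ u in (0 : ℝ)..m, pe v w a b u * dpl b u) +
        (∫ t in (m : ℝ)..T, pe v w a b t * dpl b t) =
        ∫ u in (0 : ℝ)..T, pe v w a b u * dpl b u := by
      rw [intervalIntegral.integral_add_adjacent_intervals (mul_ii b he _ _) (mul_ii b he _ _)]
    have h4 : (∫ s in (0 : ℝ)..r, pe v w a b s * dpl b s) + Yf r a b v w 0 = 0 := by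
      unfold Yf
      rw [intervalIntegral.integral_add_adjacent_intervals (mul_ii b he _ _) (mul_ii b he _ _)]
      simp
    rw [hC]
    linarith
  have e2 : (∫ s in ((r : ℝ) + 1)..m, ((z1 * mE w (pl (mr m r b) s) -
      pL w v (mr m r b) (mr m r a) s) * pu w v (mr m r b) (mr m r a) C s) *
      dpl (mr m r a) s) - pJ w v (mr m r b) (mr m r a) m *
        (∫ s in ((r : ℝ) + 1)..m, pu w v (mr m r b) (mr m r a) C s * dpl (mr m r a) s) =
      -∫ t in ((r : ℝ) + 1)..m, ((z2 - pq v w a b t - v * (pL v w a b t + pJ v w a b m)) *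
        (z1 * mE w (pl b t) - Rf r a b v w t) / pe v w a b t) * dpl a t := by
    have e3 : (∫ s in ((r : ℝ) + 1)..m, ((z1 * mE w (pl (mr m r b) s) -
      pL w v (mr m r b) (mr m r a) s) * pu w v (mr m r b) (mr m r a) C s) *
      dpl (mr m r a) s) - pJ w v (mr m r b) (mr m r a) m *
        (∫ s in ((r : ℝ) + 1)..m, pu w v (mr m r b) (mr m r a) C s * dpl (mr m r a) s) =
      ∫ s in ((r : ℝ) + 1)..m, (fun t => (z2 - pq v w a b t -
        v * (pL v w a b t + pJ v w a b m)) *
        (z1 * mE w (pl b t) - Rf r a b v w t) / pe v w a b t) (((m + r + 1 : ℕ) : ℝ) - s) *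
        dpl (mr m r a) s := by
      rw [← intervalIntegral.integral_const_mul, ← intervalIntegral.integral_sub
        (mul_ii _ hg _ _) ((mul_ii _ hu _ _).const_mul _)]
      refine intervalIntegral.integral_congr fun s hs => ?_
      have hs2 := (ordConnected_Icc.uIcc_subset hm0 hmm) hs
      have h5 := hR2 s hs2
      simp only [hu2 s hs2, pl_mr2 b hs2, ← h5]
      ring
    refine (e3.trans (int_mr2 a (fun t => (z2 - pq v w a b t -
        v * (pL v w a b t + pJ v w a b m)) *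
        (z1 * mE w (pl b t) - Rf r a b v w t) / pe v w a b t) hm0 hmm)).trans ?_
    have e4 : (((m + r + 1 : ℕ) : ℝ)) - m = (r : ℝ) + 1 := by push_cast; ring
    have e5 : (((m + r + 1 : ℕ) : ℝ)) - ((r : ℝ) + 1) = m := by push_cast; ring
    rw [e4, e5, intervalIntegral.integral_symm]
  rw [e1]
  linarith

/-- the two bilinear forms agree -/
theorem bil_eq (z1 z2 : ℝ) (ha0 : a 0 = 0) (ham : a m = 0) (hbr : b r = 0)
    (hbr1 : b (r + 1) = 0) (hrm : r < m) :
    z2 * ((z1 + (pX v w a b r - mE v (a r))) * pd v w a b m - pP v w a b m) -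
      Ht v w a b m (z1 + (pX v w a b r - mE v (a r))) ((r : ℝ) + 1) =
    z1 * ((z2 - (mE w (b 0) + ∫ s in (0 : ℝ)..r, pe v w a b s * dpl b s)) *
        pd w v (mr m r b) (mr m r a) m - pP w v (mr m r b) (mr m r a) m) -
      Ht w v (mr m r b) (mr m r a) m
        (z2 - (mE w (b 0) + ∫ s in (0 : ℝ)..r, pe v w a b s * dpl b s)) ((r : ℝ) + 1) := by
  rw [ZA v w z1 z2 hbr hbr1 hrm, ZB v w z1 z2 ha0 ham hbr hbr1 hrm]
  have h1 := kk_int (r := r) (a := a) (b := b) v w 0 z1 z2 hbr 0 r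
  have h2 := kk_int (r := r) (a := a) (b := b) v w (pJ v w a b m) z1 z2 hbr ((r : ℝ) + 1) m
  have e1 : pL v w a b 0 = 0 := by simp [pL]
  have e2 : Rf r a b v w (r : ℝ) = 0 := by simp [Rf]
  have e3 : Rf r a b v w ((r : ℝ) + 1) = 0 := by
    rw [Rf_flat v w hbr hbr1]; simp
  have e4 : pL v w a b m + pJ v w a b m = 0 := by simp [pJ]
  have e5 : pl b ((r : ℝ) + 1) = 0 := by
    have : ((r : ℝ) + 1) = ((r + 1 : ℕ) : ℝ) := by push_cast; ring
    rw [this, pl_nat, hbr1]
  rw [pl_nat, pl_nat, pl_zero, ha0, hbr, e1, e2] at h1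
  rw [pl_nat, ham, e4, e3, e5] at h2
  simp only [mE_zero, mul_zero, sub_self, zero_div, zero_mul, sub_zero, add_zero] at h1 h2 ⊢
  linarith

/-- symmetry of `h` and relation of the data -/
theorem hK_mr (h : Std m r a b) :
    hK w v (mr m r b) (mr m r a) m ((r : ℝ) + 1) = hK v w a b m ((r : ℝ) + 1) ∧
    pd w v (mr m r b) (mr m r a) m = pd v w a b m ∧
    CC w v (mr m r b) (mr m r a) m = pN v w a b m r / pd v w a b m -
      (mE w (b 0) + ∫ s in (0 : ℝ)..r, pe v w a b s * dpl b s) := by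
  have hb := fun z1 z2 : ℝ => bil_eq (m := m) (r := r) (a := a) (b := b) v w z1 z2 h.a0 h.am
    h.br h.br1 h.lt
  set c1 := pX v w a b r - mE v (a r) with hc1
  set c2 := mE w (b 0) + ∫ s in (0 : ℝ)..r, pe v w a b s * dpl b s with hc2
  have hd := (pd_pos (v := v) (w := w) (CP_of_Std h)).ne'
  have hd' := (pd_pos (v := w) (w := v) (CP_of_Std (std_mr h))).ne'
  have hH : ∀ C, Ht v w a b m C ((r : ℝ) + 1) = C * pN v w a b m r - pM v w a b m r :=
    fun C => rfl
  have hH' : ∀ C, Ht w v (mr m r b) (mr m r a) m C ((r : ℝ) + 1) =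
      C * pN w v (mr m r b) (mr m r a) m r - pM w v (mr m r b) (mr m r a) m r := fun C => rfl
  simp only [hH, hH'] at hb
  have b00 := hb 0 0
  have b10 := hb 1 0
  have b01 := hb 0 1
  have b11 := hb 1 1
  unfold hK CC
  rw [hH, hH']
  set d := pd v w a b m
  set d' := pd w v (mr m r b) (mr m r a) m
  set P := pP v w a b m
  set P' := pP w v (mr m r b) (mr m r a) m
  set N := pN v w a b m r
  set N' := pN w v (mr m r b) (mr m r a) m r
  set M := pM v w a b m r
  set M' := pM w v (mr m r b) (mr m r a) m r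
  have q1 : d' = d := by linarith
  have q2 : P' = N - c2 * d := by rw [← q1]; linarith
  have q3 : N' = P - c1 * d := by linarith
  have q4 : M' = M - c1 * N - c2 * N' := by linarith
  refine ⟨?_, q1, ?_⟩
  · rw [q1, q2, q4, q3]
    field_simp
    ring
  · rw [q1, q2]
    field_simp

end

end Pool.Agent.Work.MP_b5407d_pos_h13
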