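import Pool.Agent.Work.MP_b5407d_pos_helper13.NC1

/-! # MP_b5407d_gt (POS), `r = 0`: the family of cut polygons (helper13) -/

set_option autoImplicit false

open MeasureTheory Set Filter Topology

namespace Pool.Agent.Work.MP_b5407d_pos_h13

open Pool.LBM Pool.LBM.Path

/-- abscissae of the cut polygon -/
def fA (m : ℕ) (a : ℕ → ℝ) (σ τ : ℝ) : ℕ → ℝ := fun k =>
  if k = 0 then 0 else if k = m then 0 else
  if k = 1 then a 1 + τ * (a 2 - a 1) - σ * a (m - 1) else a k - σ * a (m - 1)

/-- ordinates of the cut polygon -/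
def fB (m : ℕ) (b : ℕ → ℝ) (σ τ : ℝ) : ℕ → ℝ := fun k =>
  if k = 0 then 0 else if k = 1 then 0 else
  if k = m then b m + σ * (b (m - 1) - b m) - τ * b 2 else b k - τ * b 2

section
variable {m : ℕ} {a b : ℕ → ℝ} {σ τ : ℝ}

@[simp] theorem fA_0 : fA m a σ τ 0 = 0 := by simp [fA]
@[simp] theorem fA_m : fA m a σ τ m = 0 := by simp [fA]
theorem fA_1 (hm : 2 ≤ m) : fA m a σ τ 1 = a 1 + τ * (a 2 - a 1) - σ * a (m - 1) := by
  have : ¬ 1 = m := by omega
  simp [fA, this]
theorem fA_k {k : ℕ} (h1 : 2 ≤ k) (h2 : k < m) : fA m a σ τ k = a k - σ * a (m - 1) := by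
  have e1 : ¬ k = 0 := by omega
  have e2 : ¬ k = m := by omega
  have e3 : ¬ k = 1 := by omega
  simp [fA, e1, e2, e3]
@[simp] theorem fB_0 : fB m b σ τ 0 = 0 := by simp [fB]
@[simp] theorem fB_1 : fB m b σ τ 1 = 0 := by simp [fB]
theorem fB_m (hm : 2 ≤ m) : fB m b σ τ m = b m + σ * (b (m - 1) - b m) - τ * b 2 := by
  have e1 : ¬ m = 0 := by omega
  have e3 : ¬ m = 1 := by omega
  simp [fB, e1, e3]
theorem fB_k {k : ℕ} (h1 : 2 ≤ k) (h2 : k < m) : fB m b σ τ k = b k - τ * b 2 := by
  have e1 : ¬ k = 0 := by omega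
  have e2 : ¬ k = m := by omega
  have e3 : ¬ k = 1 := by omega
  simp [fB, e1, e2, e3]

/-- weak convexity -/
theorem conv_w (h : ∀ i j k, i < j → j < k → k ≤ m →
    0 < (a j - a i) * (b k - b i) - (b j - b i) * (a k - a i)) {i j k : ℕ} (hij : i ≤ j)
    (hjk : j ≤ k) (hk : k ≤ m) : 0 ≤ (a j - a i) * (b k - b i) - (b j - b i) * (a k - a i) := by
  rcases hij.eq_or_lt with h1 | h1
  · subst h1; simp
  · rcases hjk.eq_or_lt with h2 | h2
    · subst h2
      apply le_of_eq; ring
    · exact (h i j k h1 h2 hk).le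

/-- heights of the inner vertices -/
theorem fam_b_pos (h : Std m 0 a b) (hσ : 0 ≤ σ) (hσ1 : σ ≤ 1) (hτ : 0 ≤ τ) (hτ1 : τ ≤ 1)
    (hβ : 0 < b m + σ * (b (m - 1) - b m) - τ * b 2) {k : ℕ} (h2 : 2 ≤ k) (hk : k < m)
    (hs : τ < 1 ∨ 2 < k) : 0 < b k - τ * b 2 := by
  have hb2 : 0 < b 2 := std_b_pos h (by omega) (by omega) (by omega)
  have ht0 : 0 ≤ τ * b 2 := mul_nonneg hτ hb2.le
  have ht1 : τ * b 2 ≤ b 2 := by nlinarith
  by_contra hn
  push Not at hn
  have hk2 : 2 < k := by
    rcases hs with h1 | h1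
    · rcases h2.eq_or_lt with h3 | h3
      · exfalso
        rw [← h3] at hn
        nlinarith
      · exact h3
    · exact h1
  by_cases hbm : τ * b 2 ≤ b m
  · have := quad h.conv (i := 0) (j := 2) (k := k) (l := m) (by omega) (by omega) hk le_rfl
      0 1 (τ * b 2) (by rw [h.br]; linarith) (by linarith) (by linarith) (by linarith)
    have e1 := this.1
    rw [h.br] at e1
    linarith [this.2.1]
  · push Not at hbm
    have h5 : τ * b 2 < b (m - 1) := by
      by_contra hc
      push Not at hc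
      have h7 : (1 - σ) * (b m - τ * b 2) ≤ 0 :=
        mul_nonpos_of_nonneg_of_nonpos (by linarith) (by linarith)
      have h8 : σ * (b (m - 1) - τ * b 2) ≤ 0 :=
        mul_nonpos_of_nonneg_of_nonpos hσ (by linarith)
      linarith
    have hk3 : k ≠ m - 1 := by rintro rfl; linarith
    have := quad h.conv (i := 0) (j := 2) (k := k) (l := m - 1) (by omega) (by omega)
      (by omega) (by omega) 0 1 (τ * b 2) (by rw [h.br]; linarith) (by linarith)
      (by linarith) (by linarith)
    have e1 := this.1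
    rw [h.br] at e1
    linarith [this.2.1]

theorem mr_k (c : ℕ → ℝ) {k : ℕ} (hk : 1 ≤ k) : mr m 0 c k = c (m + 1 - k) := by
  have : ¬ k ≤ 0 := by omega
  simp [mr, this]

theorem mr_0 (c : ℕ → ℝ) : mr m 0 c 0 = c 0 := by simp [mr]

/-- abscissae of the inner vertices -/
theorem fam_a_pos (h : Std m 0 a b) (hσ : 0 ≤ σ) (hσ1 : σ ≤ 1) (hτ : 0 ≤ τ) (hτ1 : τ ≤ 1)
    (hα : 0 < a 1 + τ * (a 2 - a 1) - σ * a (m - 1)) {k : ℕ} (h2 : 2 ≤ k) (hk : k < m)
    (hs : σ < 1 ∨ k < m - 1) : 0 < a k - σ * a (m - 1) := by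
  have e0 : mr m 0 a m = a 1 := by
    rw [mr_k a (by omega)]; congr 1; omega
  have e1 : mr m 0 a (m - 1) = a 2 := by
    rw [mr_k a (by omega)]; congr 1; omega
  have e2 : mr m 0 a 2 = a (m - 1) := by
    rw [mr_k a (by omega)]; congr 1
  have e3 : mr m 0 a (m + 1 - k) = a k := by
    rw [mr_k a (by omega)]; congr 1; omega
  have := fam_b_pos (σ := τ) (τ := σ) (std_mr h) hτ hτ1 hσ hσ1 (by
    rw [e0, e1, e2]; exact hα) (k := m + 1 - k) (by omega) (by omega) (by
      rcases hs with h1 | h1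
      · exact Or.inl h1
      · right; omega)
  rw [e2, e3] at this
  exact this

/-- outer triples -/
theorem fam_outer (h : Std m 0 a b) (hm : 2 ≤ m) (hσ : 0 ≤ σ) (hσ1 : σ ≤ 1) (hτ : 0 ≤ τ)
    (hτ1 : τ ≤ 1) {i j k : ℕ} (hi : 1 ≤ i) (hij : i < j) (hjk : j < k) (hk : k ≤ m)
    (c1 : τ < 1 ∨ 1 < i ∨ 2 < j) (c2 : σ < 1 ∨ k < m ∨ j < m - 1) :
    0 < (fA m a σ τ j - fA m a σ τ i) * (fB m b σ τ k - fB m b σ τ i) -
      (fB m b σ τ j - fB m b σ τ i) * (fA m a σ τ k - fA m a σ τ i) := by
  have hb1 := h.br1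
  rw [zero_add] at hb1
  have ham := h.am
  have W : ∀ i j k : ℕ, i ≤ j → j ≤ k → k ≤ m →
      0 ≤ (a j - a i) * (b k - b i) - (b j - b i) * (a k - a i) :=
    fun i j k h1 h2 h3 => conv_w h.conv h1 h2 h3
  have sσ : 0 ≤ 1 - σ := by linarith
  have sτ : 0 ≤ 1 - τ := by linarith
  rw [fA_k (by omega : 2 ≤ j) (by omega : j < m), fB_k (by omega : 2 ≤ j) (by omega : j < m)]
  rcases hi.eq_or_lt with h1 | h1
  · subst h1
    rw [fA_1 hm, fB_1]
    rcases hk.eq_or_lt with h2 | h2
    · -- (1, j, m)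
      subst h2
      rw [fA_m, fB_m hm]
      have w1 := W 1 j k (by omega) (by omega) le_rfl
      have w2 := W 1 j (k - 1) (by omega) (by omega) (by omega)
      have w3 := W 2 j k (by omega) (by omega) le_rfl
      have w4 := W 2 j (k - 1) (by omega) (by omega) (by omega)
      have key : (a j - σ * a (k - 1) - (a 1 + τ * (a 2 - a 1) - σ * a (k - 1))) *
          (b k + σ * (b (k - 1) - b k) - τ * b 2 - 0) - (b j - τ * b 2 - 0) *
          (0 - (a 1 + τ * (a 2 - a 1) - σ * a (k - 1))) =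
          (1 - τ) * ((1 - σ) * ((a j - a 1) * (b k - b 1) - (b j - b 1) * (a k - a 1)) +
            σ * ((a j - a 1) * (b (k - 1) - b 1) - (b j - b 1) * (a (k - 1) - a 1))) +
          τ * ((1 - σ) * ((a j - a 2) * (b k - b 2) - (b j - b 2) * (a k - a 2)) +
            σ * ((a j - a 2) * (b (k - 1) - b 2) - (b j - b 2) * (a (k - 1) - a 2))) := by
        rw [hb1, ham]; ring
      rw [key]
      have p1 := mul_nonneg sτ (mul_nonneg sσ w1)
      have p2 := mul_nonneg sτ (mul_nonneg hσ w2)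
      have p3 := mul_nonneg hτ (mul_nonneg sσ w3)
      have p4 := mul_nonneg hτ (mul_nonneg hσ w4)
      have hj2 : τ < 1 ∨ 2 < j := by
        rcases c1 with h3 | h3 | h3
        · exact Or.inl h3
        · omega
        · exact Or.inr h3
      have hj3 : σ < 1 ∨ j < k - 1 := by
        rcases c2 with h3 | h3 | h3
        · exact Or.inl h3
        · omega
        · exact Or.inr h3
      rcases hj2 with h3 | h3
      · have t1 : 0 < 1 - τ := by linarith
        rcases hj3 with h4 | h4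
        · have t2 : 0 < 1 - σ := by linarith
          have := mul_pos t1 (mul_pos t2 (h.conv 1 j k (by omega) hjk le_rfl))
          linarith
        · rcases hσ1.eq_or_lt with h5 | h5
          · have t2 : 0 < σ := by linarith
            have := mul_pos t1 (mul_pos t2 (h.conv 1 j (k - 1) (by omega) h4 (by omega)))
            linarith
          · have t2 : 0 < 1 - σ := by linarith
            have := mul_pos t1 (mul_pos t2 (h.conv 1 j k (by omega) hjk le_rfl))
            linarith
      · rcases hτ1.eq_or_lt with h6 | h6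
        · have t1 : 0 < τ := by linarith
          rcases hj3 with h4 | h4
          · have t2 : 0 < 1 - σ := by linarith
            have := mul_pos t1 (mul_pos t2 (h.conv 2 j k h3 hjk le_rfl))
            linarith
          · rcases hσ1.eq_or_lt with h5 | h5
            · have t2 : 0 < σ := by linarith
              have := mul_pos t1 (mul_pos t2 (h.conv 2 j (k - 1) h3 h4 (by omega)))
              linarith
            · have t2 : 0 < 1 - σ := by linarith
              have := mul_pos t1 (mul_pos t2 (h.conv 2 j k h3 hjk le_rfl))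
              linarith
        · have t1 : 0 < 1 - τ := by linarith
          rcases hj3 with h4 | h4
          · have t2 : 0 < 1 - σ := by linarith
            have := mul_pos t1 (mul_pos t2 (h.conv 1 j k (by omega) hjk le_rfl))
            linarith
          · rcases hσ1.eq_or_lt with h5 | h5
            · have t2 : 0 < σ := by linarith
              have := mul_pos t1 (mul_pos t2 (h.conv 1 j (k - 1) (by omega) h4 (by omega)))
              linarith
            · have t2 : 0 < 1 - σ := by linarith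
              have := mul_pos t1 (mul_pos t2 (h.conv 1 j k (by omega) hjk le_rfl))
              linarith
    · -- (1, j, k), k < m
      rw [fA_k (by omega : 2 ≤ k) h2, fB_k (by omega : 2 ≤ k) h2]
      have w1 := W 1 j k (by omega) (by omega) hk
      have w3 := W 2 j k (by omega) (by omega) hk
      have key : (a j - σ * a (m - 1) - (a 1 + τ * (a 2 - a 1) - σ * a (m - 1))) *
          (b k - τ * b 2 - 0) - (b j - τ * b 2 - 0) *
          (a k - σ * a (m - 1) - (a 1 + τ * (a 2 - a 1) - σ * a (m - 1))) =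
          (1 - τ) * ((a j - a 1) * (b k - b 1) - (b j - b 1) * (a k - a 1)) +
          τ * ((a j - a 2) * (b k - b 2) - (b j - b 2) * (a k - a 2)) := by
        rw [hb1]; ring
      rw [key]
      have p1 := mul_nonneg sτ w1
      have p3 := mul_nonneg hτ w3
      rcases hτ1.eq_or_lt with h6 | h6
      · have t1 : 0 < τ := by linarith
        have h3 : 2 < j := by
          rcases c1 with h3 | h3 | h3
          · linarith
          · omega
          · exact h3
        have := mul_pos t1 (h.conv 2 j k h3 hjk hk)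
        linarith
      · have t1 : 0 < 1 - τ := by linarith
        have := mul_pos t1 (h.conv 1 j k (by omega) hjk hk)
        linarith
  · rw [fA_k (by omega : 2 ≤ i) (by omega : i < m), fB_k (by omega : 2 ≤ i) (by omega : i < m)]
    rcases hk.eq_or_lt with h2 | h2
    · subst h2
      rw [fA_m, fB_m hm]
      have w1 := W i j k (by omega) (by omega) le_rfl
      have w2 := W i j (k - 1) (by omega) (by omega) (by omega)
      have key : (a j - σ * a (k - 1) - (a i - σ * a (k - 1))) *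
          (b k + σ * (b (k - 1) - b k) - τ * b 2 - (b i - τ * b 2)) -
          (b j - τ * b 2 - (b i - τ * b 2)) * (0 - (a i - σ * a (k - 1))) =
          (1 - σ) * ((a j - a i) * (b k - b i) - (b j - b i) * (a k - a i)) +
            σ * ((a j - a i) * (b (k - 1) - b i) - (b j - b i) * (a (k - 1) - a i)) := by
        rw [ham]; ring
      rw [key]
      have p1 := mul_nonneg sσ w1
      have p2 := mul_nonneg hσ w2
      rcases hσ1.eq_or_lt with h5 | h5
      · have t2 : 0 < σ := by linarith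
        have h4 : j < k - 1 := by
          rcases c2 with h3 | h3 | h3
          · linarith
          · omega
          · exact h3
        have := mul_pos t2 (h.conv i j (k - 1) hij h4 (by omega))
        linarith
      · have t2 : 0 < 1 - σ := by linarith
        have := mul_pos t2 (h.conv i j k hij hjk le_rfl)
        linarith
    · rw [fA_k (by omega : 2 ≤ k) h2, fB_k (by omega : 2 ≤ k) h2]
      have := h.conv i j k hij hjk hk
      have e1 : a j - σ * a (m - 1) - (a i - σ * a (m - 1)) = a j - a i := by ring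
      have e2 : a k - σ * a (m - 1) - (a i - σ * a (m - 1)) = a k - a i := by ring
      have e3 : b j - τ * b 2 - (b i - τ * b 2) = b j - b i := by ring
      have e4 : b k - τ * b 2 - (b i - τ * b 2) = b k - b i := by ring
      rw [e1, e2, e3, e4]
      exact this

/-- all triples -/
theorem fam_conv (h : Std m 0 a b) (hm : 2 ≤ m) (hσ : 0 ≤ σ) (hσ1 : σ ≤ 1) (hτ : 0 ≤ τ)
    (hτ1 : τ ≤ 1) (hα : 0 < a 1 + τ * (a 2 - a 1) - σ * a (m - 1))
    (hβ : 0 < b m + σ * (b (m - 1) - b m) - τ * b 2)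
    {i j k : ℕ} (hij : i < j) (hjk : j < k) (hk : k ≤ m)
    (c1 : τ < 1 ∨ ¬ ((i = 1 ∧ j = 2) ∨ (j = 1 ∧ k = 2)))
    (c2 : σ < 1 ∨ ¬ (j = m - 1 ∧ k = m)) :
    0 < (fA m a σ τ j - fA m a σ τ i) * (fB m b σ τ k - fB m b σ τ i) -
      (fB m b σ τ j - fB m b σ τ i) * (fA m a σ τ k - fA m a σ τ i) := by
  rcases Nat.eq_zero_or_pos i with h0 | h0
  · subst h0
    rw [fA_0, fB_0]
    simp only [sub_zero]
    have hBk : ∀ k, 2 ≤ k → k ≤ m → (τ < 1 ∨ 2 < k ∨ k = m) → 0 < fB m b σ τ k := by
      intro k h2 hk hs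
      rcases hk.eq_or_lt with h3 | h3
      · subst h3; rw [fB_m hm]; exact hβ
      · rw [fB_k h2 h3]
        exact fam_b_pos h hσ hσ1 hτ hτ1 hβ h2 h3 (by
          rcases hs with h4 | h4 | h4
          · exact Or.inl h4
          · exact Or.inr h4
          · omega)
    rcases (show 1 ≤ j by omega).eq_or_lt with h1 | h1
    · subst h1
      rw [fA_1 hm, fB_1, zero_mul, sub_zero]
      refine mul_pos hα ?_
      rcases hk.eq_or_lt with h3 | h3
      · rw [h3, fB_m hm]; exact hβ
      · refine hBk k (by omega) hk ?_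
        rcases c1 with h4 | h4
        · exact Or.inl h4
        · right; left
          by_contra hc
          exact h4 (Or.inr ⟨rfl, by omega⟩)
    · have hjm : j < m := by omega
      rcases hk.eq_or_lt with h3 | h3
      · -- (0, j, m)
        subst h3
        rw [fA_m, mul_zero, sub_zero, fA_k (by omega) hjm, fB_m hm]
        refine mul_pos (fam_a_pos h hσ hσ1 hτ hτ1 hα (by omega) hjm ?_) hβ
        rcases c2 with h4 | h4
        · exact Or.inl h4
        · right
          by_contra hc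
          exact h4 ⟨by omega, rfl⟩
      · rw [fA_k (by omega) hjm, fB_k (by omega) hjm, fA_k (by omega : 2 ≤ k) h3,
          fB_k (by omega : 2 ≤ k) h3]
        have hb1 := h.br1
        rw [zero_add] at hb1
        have ham := h.am
        have hb2 : 0 < b 2 := std_b_pos h (by omega) (by omega) (by omega)
        have ham1 : 0 < a (m - 1) := std_a_pos h (by omega) (by omega)
        have cjk := h.conv 0 j k (by omega) hjk hk
        rw [h.a0, h.br] at cjk
        have W : ∀ i j k : ℕ, i ≤ j → j ≤ k → k ≤ m →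
            0 ≤ (a j - a i) * (b k - b i) - (b j - b i) * (a k - a i) :=
          fun i j k h1 h2 h3 => conv_w h.conv h1 h2 h3
        have w1 := W 1 j k (by omega) (by omega) hk
        have w2 := W 2 j k (by omega) (by omega) hk
        have w3 := W j k m (by omega) hk le_rfl
        have w4 := W j k (m - 1) (by omega) (by omega) (by omega)
        set α := a 1 + τ * (a 2 - a 1) - σ * a (m - 1) with eα
        set β := b m + σ * (b (m - 1) - b m) - τ * b 2 with eβ
        set s := σ * a (m - 1) with es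
        set t := τ * b 2 with et
        have hs0 : 0 ≤ s := mul_nonneg hσ ham1.le
        have ht0 : 0 ≤ t := mul_nonneg hτ hb2.le
        have e1 : (a j - (s + α)) * (b k - t) - (b j - t) * (a k - (s + α)) =
            (1 - τ) * ((a j - a 1) * (b k - b 1) - (b j - b 1) * (a k - a 1)) +
            τ * ((a j - a 2) * (b k - b 2) - (b j - b 2) * (a k - a 2)) := by
          rw [hb1, eα, et]; ring
        have e2 : (a j - s) * (b k - (t + β)) - (b j - (t + β)) * (a k - s) =
            (1 - σ) * ((a k - a j) * (b m - b j) - (b k - b j) * (a m - a j)) +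
            σ * ((a k - a j) * (b (m - 1) - b j) - (b k - b j) * (a (m - 1) - a j)) := by
          rw [ham, eβ, es]; ring
        have f1 : 0 ≤ (a j - (s + α)) * (b k - t) - (b j - t) * (a k - (s + α)) := by
          rw [e1]
          have := mul_nonneg (show 0 ≤ 1 - τ by linarith) w1
          have := mul_nonneg hτ w2
          linarith
        have f2 : 0 ≤ (a j - s) * (b k - (t + β)) - (b j - (t + β)) * (a k - s) := by
          rw [e2]
          have := mul_nonneg (show 0 ≤ 1 - σ by linarith) w3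
          have := mul_nonneg hσ w4
          linarith
        have key : (s * β + t * α + α * β) * ((a j - s) * (b k - t) - (b j - t) * (a k - s)) =
            α * β * (a j * b k - b j * a k) +
            s * β * ((a j - (s + α)) * (b k - t) - (b j - t) * (a k - (s + α))) +
            t * α * ((a j - s) * (b k - (t + β)) - (b j - (t + β)) * (a k - s)) := by ring
        have hD : 0 < s * β + t * α + α * β := by positivity
        have hR : 0 < (s * β + t * α + α * β) * ((a j - s) * (b k - t) -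
            (b j - t) * (a k - s)) := by
          rw [key]
          have g1 : 0 < α * β * (a j * b k - b j * a k) :=
            mul_pos (mul_pos hα hβ) (by linarith)
          have g2 := mul_nonneg (mul_nonneg hs0 hβ.le) f1
          have g3 := mul_nonneg (mul_nonneg ht0 hα.le) f2
          linarith
        exact (pos_iff_pos_of_mul_pos hR).1 hD
  · refine fam_outer h hm hσ hσ1 hτ hτ1 h0 hij hjk hk ?_ ?_
    · rcases c1 with h4 | h4
      · exact Or.inl h4
      · right
        by_contra hc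
        push Not at hc
        exact h4 (Or.inl ⟨by omega, by omega⟩)
    · rcases c2 with h4 | h4
      · exact Or.inl h4
      · right
        by_contra hc
        push Not at hc
        exact h4 ⟨by omega, by omega⟩

/-- cut polygons are in standard position -/
theorem std_fam (h : Std m 0 a b) (hm : 2 ≤ m) (hσ : 0 ≤ σ) (hσ1 : σ < 1) (hτ : 0 ≤ τ)
    (hτ1 : τ < 1) (hα : 0 < a 1 + τ * (a 2 - a 1) - σ * a (m - 1))
    (hβ : 0 < b m + σ * (b (m - 1) - b m) - τ * b 2) :
    Std m 0 (fA m a σ τ) (fB m b σ τ) := by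
  refine ⟨by omega, fun i j k hij hjk hk => fam_conv h hm hσ hσ1.le hτ hτ1.le hα hβ hij hjk hk
    (Or.inl hτ1) (Or.inl hσ1), fA_0, fA_m, ?_, fB_0, fB_1, ?_⟩
  · rw [fB_0, fB_m hm]; exact hβ
  · rw [fA_0, zero_add, fA_1 hm]; exact hα

/-- removal at `σ = 1` -/
theorem std_rem_s (h : Std m 0 a b) (hm : 3 ≤ m) (hτ : 0 ≤ τ)
    (hτ1 : τ < 1) (hα : 0 < a 1 + τ * (a 2 - a 1) - 1 * a (m - 1))
    (hβ : 0 < b m + 1 * (b (m - 1) - b m) - τ * b 2) :
    Std (m - 1) 0 (rem (m - 1) (fA m a 1 τ)) (rem (m - 1) (fB m b 1 τ)) := by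
  have r1 : ∀ c : ℕ → ℝ, ∀ j, rem (m - 1) c j = c (if j < m - 1 then j else j + 1) := by
    intro c j
    by_cases hj : j < m - 1 <;> simp [rem, hj]
  have r2 : ∀ c : ℕ → ℝ, rem (m - 1) c (m - 1) = c m := by
    intro c
    have e : m - 1 + 1 = m := by omega
    simp [rem, e]
  have r3 : ∀ c : ℕ → ℝ, ∀ j, j < m - 1 → rem (m - 1) c j = c j := by
    intro c j hj; simp [rem, hj]
  refine ⟨by omega, ?_, ?_, ?_, ?_, ?_, ?_, ?_⟩
  · intro i j k hij hjk hk
    rw [r1, r1, r1, r1, r1, r1]
    refine fam_conv h (by omega) zero_le_one le_rfl hτ hτ1.le hα hβ ?_ ?_ ?_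
      (Or.inl hτ1) (Or.inr ?_)
    · split_ifs <;> omega
    · split_ifs <;> omega
    · split_ifs <;> omega
    · rintro ⟨h1, h2⟩
      split_ifs at h1 h2 <;> omega
  · rw [r3 _ _ (by omega), fA_0]
  · rw [r2, fA_m]
  · rw [r3 _ _ (by omega), r2, fB_0, fB_m (by omega)]; exact hβ
  · rw [r3 _ _ (by omega), fB_0]
  · rw [r3 _ _ (by omega), zero_add, fB_1]
  · rw [r3 _ _ (by omega), r3 _ _ (by omega), zero_add, fA_0, fA_1 (by omega)]; exact hα

/-- removal at `τ = 1` -/
theorem std_rem_t (h : Std m 0 a b) (hm : 3 ≤ m) (hσ : 0 ≤ σ)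
    (hσ1 : σ < 1) (hα : 0 < a 1 + 1 * (a 2 - a 1) - σ * a (m - 1))
    (hβ : 0 < b m + σ * (b (m - 1) - b m) - 1 * b 2) :
    Std (m - 1) 0 (rem 2 (fA m a σ 1)) (rem 2 (fB m b σ 1)) := by
  have r1 : ∀ c : ℕ → ℝ, ∀ j, rem 2 c j = c (if j < 2 then j else j + 1) := by
    intro c j
    by_cases hj : j < 2 <;> simp [rem, hj]
  have r2 : ∀ c : ℕ → ℝ, rem 2 c (m - 1) = c m := by
    intro c
    have e : m - 1 + 1 = m := by omega
    have e2 : ¬ m - 1 < 2 := by omega
    simp [rem, e, e2]
  have r3 : ∀ c : ℕ → ℝ, ∀ j, j < 2 → rem 2 c j = c j := by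
    intro c j hj; simp [rem, hj]
  refine ⟨by omega, ?_, ?_, ?_, ?_, ?_, ?_, ?_⟩
  · intro i j k hij hjk hk
    rw [r1, r1, r1, r1, r1, r1]
    refine fam_conv h (by omega) hσ hσ1.le zero_le_one le_rfl hα hβ ?_ ?_ ?_
      (Or.inr ?_) (Or.inl hσ1)
    · split_ifs <;> omega
    · split_ifs <;> omega
    · split_ifs <;> omega
    · rintro (⟨h1, h2⟩ | ⟨h1, h2⟩) <;> split_ifs at h1 h2 <;> omega
  · rw [r3 _ _ (by omega), fA_0]
  · rw [r2, fA_m]
  · rw [r3 _ _ (by omega), r2, fB_0, fB_m (by omega)]; exact hβ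
  · rw [r3 _ _ (by omega), fB_0]
  · rw [r3 _ _ (by omega), zero_add, fB_1]
  · rw [r3 _ _ (by omega), r3 _ _ (by omega), zero_add, fA_0, fA_1 (by omega)]; exact hα

/-- removal of an outer vertex -/
theorem rem_outer (v w : ℝ) {n k : ℕ} {A B : ℕ → ℝ} {θ : ℝ} (hk1 : 1 ≤ k) (hk : k < n)
    (h0 : 0 ≤ θ) (h1 : θ ≤ 1) (hA : A (k + 1) = (1 - θ) * A k + θ * A (k + 2))
    (hB : B (k + 1) = (1 - θ) * B k + θ * B (k + 2)) :
    pd v w A B (n + 1) = pd v w (rem (k + 1) A) (rem (k + 1) B) n ∧
    pP v w A B (n + 1) = pP v w (rem (k + 1) A) (rem (k + 1) B) n ∧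
    pN v w A B (n + 1) 0 = pN v w (rem (k + 1) A) (rem (k + 1) B) n 0 ∧
    pM v w A B (n + 1) 0 = pM v w (rem (k + 1) A) (rem (k + 1) B) n 0 := by
  refine Pool.Agent.Work.MP_b5407d_pos_h19.rep_all
    (Pool.Agent.Work.MP_b5407d_pos_h19.rep_R k h0 h1)
    (Pool.Agent.Work.MP_b5407d_pos_h19.com_R k θ A hA)
    (Pool.Agent.Work.MP_b5407d_pos_h19.com_R k θ B hB) v w (m := n + 1) (m' := n)
    (r := 0) (r' := 0) ?_ ?_ (by omega) (by omega)
  · simp [Pool.Agent.Work.MP_b5407d_pos_h19.cR, show ¬ n + 1 ≤ k by omega,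
      show n ≠ k by omega]
  · simp [Pool.Agent.Work.MP_b5407d_pos_h19.cR, hk1]

/-- the inequality at `σ = 1` -/
theorem PI_s1 (v w : ℝ) (h : Std m 0 a b) (hm : 3 ≤ m) (hτ : 0 ≤ τ)
    (hτ1 : τ < 1) (hα : 0 < a 1 + τ * (a 2 - a 1) - 1 * a (m - 1))
    (hβ : 0 < b m + 1 * (b (m - 1) - b m) - τ * b 2)
    (IH : ∀ a b : ℕ → ℝ, Std (m - 1) 0 a b → PI v w (m - 1) 0 a b) :
    PI v w m 0 (fA m a 1 τ) (fB m b 1 τ) := by
  have h1 := IH _ _ (std_rem_s h hm hτ hτ1 hα hβ)
  obtain ⟨n, rfl⟩ : ∃ n, m = n + 1 := ⟨m - 1, by omega⟩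
  obtain ⟨k, rfl⟩ : ∃ k, n = k + 1 := ⟨n - 1, by omega⟩
  have e := rem_outer v w (n := k + 1) (k := k) (A := fA (k + 1 + 1) a 1 τ)
    (B := fB (k + 1 + 1) b 1 τ) (θ := 1) (by omega) (by omega) zero_le_one le_rfl (by
      have e1 : k + 2 = k + 1 + 1 := rfl
      rw [e1, fA_m, fA_k (by omega) (by omega)]
      have e2 : k + 1 + 1 - 1 = k + 1 := rfl
      rw [e2]; ring) (by
      have e1 : k + 2 = k + 1 + 1 := rfl
      rw [e1, fB_m (by omega), fB_k (by omega) (by omega)]
      have e2 : k + 1 + 1 - 1 = k + 1 := rfl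
      rw [e2]; ring)
  obtain ⟨e1, e2, e3, e4⟩ := e
  unfold PI at h1 ⊢
  rw [e1, e2, e3, e4]
  exact h1

/-- the inequality at `τ = 1` -/
theorem PI_t1 (v w : ℝ) (h : Std m 0 a b) (hm : 3 ≤ m) (hσ : 0 ≤ σ)
    (hσ1 : σ < 1) (hα : 0 < a 1 + 1 * (a 2 - a 1) - σ * a (m - 1))
    (hβ : 0 < b m + σ * (b (m - 1) - b m) - 1 * b 2)
    (IH : ∀ a b : ℕ → ℝ, Std (m - 1) 0 a b → PI v w (m - 1) 0 a b) :
    PI v w m 0 (fA m a σ 1) (fB m b σ 1) := by
  have h1 := IH _ _ (std_rem_t h hm hσ hσ1 hα hβ)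
  obtain ⟨n, rfl⟩ : ∃ n, m = n + 1 := ⟨m - 1, by omega⟩
  have e := rem_outer v w (n := n) (k := 1) (A := fA (n + 1) a σ 1)
    (B := fB (n + 1) b σ 1) (θ := 0) le_rfl (by omega) le_rfl zero_le_one (by
      rw [fA_1 (by omega), fA_k (by omega) (by omega)]; ring) (by
      rw [fB_1, fB_k (by omega) (by omega)]; ring)
  obtain ⟨e1, e2, e3, e4⟩ := e
  unfold PI at h1 ⊢
  rw [e1, e2, e3, e4]
  exact h1

end

end Pool.Agent.Work.MP_b5407d_pos_h13
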