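import Pool.Agent.Work.MP_b5407d_pos_helper13.NC2

/-! # MP_b5407d_gt (POS), `r = 0`: the horizontal cut (helper13) -/

set_option autoImplicit false

open MeasureTheory Set Filter Topology

namespace Pool.Agent.Work.MP_b5407d_pos_h13

open Pool.LBM Pool.LBM.Path

/-- uniqueness of primitives on `[1, ∞)` -/
theorem eq_of_d {F G F' : ℝ → ℝ} (hF : Continuous F) (hG : Continuous G) (h1 : F 1 = G 1)
    (hd : ∀ s : ℝ, 1 < s → s ∉ Nt → HasDerivAt F (F' s) s ∧ HasDerivAt G (F' s) s)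
    {s : ℝ} (hs : 1 ≤ s) : F s = G s := by
  have h := MeasureTheory.integral_eq_of_hasDerivAt_off_countable (fun s => F s - G s)
    (fun _ => (0 : ℝ)) (a := 1) (b := s) Nt_countable (hF.sub hG).continuousOn (by
      intro x hx
      rw [min_eq_left hs] at hx
      obtain ⟨h2, h3⟩ := hd x hx.1.1 hx.2
      exact (h2.sub h3).congr_deriv (sub_self _)) intervalIntegrable_const
  simp only [intervalIntegral.integral_zero] at h
  linarith

/-- horizontal cut -/
def tA (δ : ℝ) (A : ℕ → ℝ) : ℕ → ℝ := fun k => if k = 1 then A 1 + δ * (A 2 - A 1) else A k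

/-- horizontal cut -/
def tB (δ : ℝ) (B : ℕ → ℝ) : ℕ → ℝ := fun k => if k ≤ 1 then 0 else B k - δ * B 2

/-- time change -/
noncomputable def tc (δ : ℝ) : ℕ → ℝ := fun k => if k ≤ 1 then 1 + δ else k

section
variable {m : ℕ} {A B : ℕ → ℝ} {δ : ℝ} (v w : ℝ)

theorem tA_0 : tA δ A 0 = A 0 := by simp [tA]
theorem tA_1 : tA δ A 1 = A 1 + δ * (A 2 - A 1) := by simp [tA]
theorem tA_k {k : ℕ} (hk : 2 ≤ k) : tA δ A k = A k := by
  have : k ≠ 1 := by omega
  simp [tA, this]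
theorem tB_0 : tB δ B 0 = 0 := by simp [tB]
theorem tB_1 : tB δ B 1 = 0 := by simp [tB]
theorem tB_k {k : ℕ} (hk : 2 ≤ k) : tB δ B k = B k - δ * B 2 := by
  have : ¬ k ≤ 1 := by omega
  simp [tB, this]
theorem tc_1 : tc δ 1 = 1 + δ := by simp [tc]
theorem tc_k {k : ℕ} (hk : 2 ≤ k) : tc δ k = k := by
  have : ¬ k ≤ 1 := by omega
  simp [tc, this]

/-- floor of `s > 1` off the integers -/
theorem fl1 {s : ℝ} (hs : 1 < s) (hN : s ∉ Nt) : ∃ k : ℕ, 1 ≤ k ∧ (k : ℝ) < s ∧ s < k + 1 ∧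
    ∀ c : ℕ → ℝ, dpl c s = c (k + 1) - c k ∧ pl c s = c k + (s - k) * (c (k + 1) - c k) := by
  have h0 : 0 ≤ s := by linarith
  refine ⟨⌊s⌋₊, Nat.le_floor (by simpa using hs.le), ?_, Nat.lt_floor_add_one s,
    fun c => ⟨rfl, rfl⟩⟩
  exact lt_of_le_of_ne (Nat.floor_le h0) (fun h' => hN ⟨⌊s⌋₊, h'⟩)

theorem tc_facts (h0 : 0 ≤ δ) (h1 : δ < 1) (hB1 : B 1 = 0) {s : ℝ} (hs : 1 < s)
    (hN : s ∉ Nt) : pl (tc δ) s ∉ Nt ∧ dpl (tA δ A) s = dpl A (pl (tc δ) s) * dpl (tc δ) s ∧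
      dpl (tB δ B) s = dpl B (pl (tc δ) s) * dpl (tc δ) s ∧
      pl (tA δ A) s = pl A (pl (tc δ) s) ∧
      pl (tB δ B) s = pl B (pl (tc δ) s) - δ * B 2 := by
  obtain ⟨k, hk, hk1, hk2, hc⟩ := fl1 hs hN
  rcases hk.eq_or_lt with h3 | h3
  · subst h3
    have e1 := hc (tc δ)
    have e2 := hc (tA δ A)
    have e3 := hc (tB δ B)
    simp only [Nat.cast_one] at e1 e2 e3 hk1 hk2
    have c2 : tc δ (1 + 1) = 2 := by rw [tc_k (by omega)]; norm_num
    rw [tc_1, c2] at e1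
    rw [tA_1, tA_k (by omega : 2 ≤ 1 + 1)] at e2
    rw [tB_1, tB_k (by omega : 2 ≤ 1 + 1)] at e3
    have p1 : 1 < pl (tc δ) s := by rw [e1.2]; nlinarith
    have p2 : pl (tc δ) s < 2 := by rw [e1.2]; nlinarith
    have hNt : pl (tc δ) s ∉ Nt := by
      rintro ⟨n, hn⟩
      rw [← hn] at p1 p2
      have q1 : 1 < n := by exact_mod_cast p1
      have q2 : n < 2 := by exact_mod_cast p2
      omega
    have hfl : ⌊pl (tc δ) s⌋₊ = 1 :=
      Nat.floor_eq_on_Ico 1 _ ⟨by simpa using p1.le, by push_cast; linarith⟩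
    have d1 : ∀ c : ℕ → ℝ, dpl c (pl (tc δ) s) = c 2 - c 1 := by
      intro c; simp only [dpl, hfl]
    have d2 : ∀ c : ℕ → ℝ, pl c (pl (tc δ) s) = c 1 + (pl (tc δ) s - 1) * (c 2 - c 1) := by
      intro c
      have : pl c (pl (tc δ) s) = c ⌊pl (tc δ) s⌋₊ + (pl (tc δ) s - ⌊pl (tc δ) s⌋₊) *
        (c (⌊pl (tc δ) s⌋₊ + 1) - c ⌊pl (tc δ) s⌋₊) := rfl
      rw [this, hfl]; norm_num
    refine ⟨hNt, ?_, ?_, ?_, ?_⟩
    · rw [e2.1, d1, e1.1]; ring
    · rw [e3.1, d1, e1.1, hB1]; ring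
    · rw [e2.2, d2, e1.2]; ring
    · rw [e3.2, d2, e1.2, hB1]; ring
  · have e1 := hc (tc δ)
    have e2 := hc (tA δ A)
    have e3 := hc (tB δ B)
    rw [tc_k (by omega : 2 ≤ k), tc_k (by omega : 2 ≤ k + 1)] at e1
    rw [tA_k (by omega : 2 ≤ k), tA_k (by omega : 2 ≤ k + 1)] at e2
    rw [tB_k (by omega : 2 ≤ k), tB_k (by omega : 2 ≤ k + 1)] at e3
    push_cast at e1
    have p1 : pl (tc δ) s = s := by rw [e1.2]; ring
    rw [p1]
    refine ⟨hN, ?_, ?_, ?_, ?_⟩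
    · rw [e2.1, (hc A).1, e1.1]; ring
    · rw [e3.1, (hc B).1, e1.1]; ring
    · rw [e2.2, (hc A).2]
    · rw [e3.2, (hc B).2]; ring

theorem tc_pl1 : pl (tc δ) 1 = 1 + δ := by
  have := pl_nat (tc δ) 1
  rw [Nat.cast_one] at this
  rw [this, tc_1]

theorem pl_one (c : ℕ → ℝ) : pl c 1 = c 1 := by
  have := pl_nat c 1
  rwa [Nat.cast_one] at this

theorem pl_12 (c : ℕ → ℝ) {t : ℝ} (h1 : 1 ≤ t) (h2 : t ≤ 2) :
    pl c t = c 1 + (t - 1) * (c 2 - c 1) := by
  have := pl_aff c 1 (t := t) (by simpa using h1) (by push_cast; linarith)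
  simpa using this

theorem pl_01 (c : ℕ → ℝ) {t : ℝ} (h2 : t ≤ 1) :
    pl c t = c 0 + t * (c 1 - c 0) := by
  have := pl_aff0 c (t := t) h2
  simpa using this

theorem tA_pl (h0 : 0 ≤ δ) (h1 : δ < 1) (hB1 : B 1 = 0) {s : ℝ} (hs : 1 ≤ s) :
    pl (tA δ A) s = pl A (pl (tc δ) s) ∧ pl (tB δ B) s = pl B (pl (tc δ) s) - δ * B 2 := by
  have hc := cont_pl (tc δ)
  constructor
  · refine eq_of_d (F := pl (tA δ A)) (G := fun s => pl A (pl (tc δ) s))
      (F' := fun s => dpl A (pl (tc δ) s) * dpl (tc δ) s) (cont_pl _)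
      ((cont_pl A).comp hc) ?_ (fun s hs hN => ?_) hs
    · show pl (tA δ A) 1 = pl A (pl (tc δ) 1)
      rw [tc_pl1, pl_one, tA_1, pl_12 A (by linarith) (by linarith)]; ring
    · obtain ⟨f1, f2, f3, f4, f5⟩ := tc_facts (A := A) (B := B) h0 h1 hB1 hs hN
      refine ⟨(deriv_pl (tA δ A) hN).congr_deriv f2, ?_⟩
      exact (deriv_pl A f1).comp s (deriv_pl (tc δ) hN)
  · refine eq_of_d (F := pl (tB δ B)) (G := fun s => pl B (pl (tc δ) s) - δ * B 2)
      (F' := fun s => dpl B (pl (tc δ) s) * dpl (tc δ) s) (cont_pl _)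
      (((cont_pl B).comp hc).sub continuous_const) ?_ (fun s hs hN => ?_) hs
    · show pl (tB δ B) 1 = pl B (pl (tc δ) 1) - δ * B 2
      rw [tc_pl1, pl_one, tB_1, pl_12 B (by linarith) (by linarith), hB1]; ring
    · obtain ⟨f1, f2, f3, f4, f5⟩ := tc_facts (A := A) (B := B) h0 h1 hB1 hs hN
      refine ⟨(deriv_pl (tB δ B) hN).congr_deriv f3, ?_⟩
      exact ((deriv_pl B f1).comp s (deriv_pl (tc δ) hN)).sub_const _

/-- substitution -/
theorem tc_subst (h0 : 0 ≤ δ) (h1 : δ < 1) (hB1 : B 1 = 0) {G' Γ : ℝ → ℝ}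
    (hG : Continuous G') (hΓ : Continuous Γ) (h : ∀ s : ℝ, 1 ≤ s → G' s = Γ (pl (tc δ) s))
    {T : ℝ} (hT : 1 ≤ T) :
    (∫ s in (1 : ℝ)..T, G' s * dpl (tB δ B) s) =
      ∫ s in (1 + δ)..(pl (tc δ) T), Γ s * dpl B s := by
  refine eq_of_d (F := fun T => ∫ s in (1 : ℝ)..T, G' s * dpl (tB δ B) s)
    (G := fun T => ∫ s in (1 + δ)..(pl (tc δ) T), Γ s * dpl B s)
    (F' := fun s => Γ (pl (tc δ) s) * dpl B (pl (tc δ) s) * dpl (tc δ) s)
    (prim_cont _ hG 1) ((prim_cont B hΓ (1 + δ)).comp (cont_pl (tc δ))) ?_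
    (fun s hs hN => ?_) hT
  · simp only [intervalIntegral.integral_same]
    rw [tc_pl1, intervalIntegral.integral_same]
  · obtain ⟨f1, f2, f3, f4, f5⟩ := tc_facts (A := B) (B := B) h0 h1 hB1 hs hN
    refine ⟨(prim_deriv (tB δ B) hG 1 hN).congr_deriv ?_, ?_⟩
    · rw [f3, h s hs.le]; ring
    · exact (prim_deriv B hΓ (1 + δ) f1).comp s (deriv_pl (tc δ) hN)

theorem pe_cut (h0 : 0 ≤ δ) (h1 : δ < 1) (hB1 : B 1 = 0) {s : ℝ} (hs : 1 ≤ s) :
    pe v w (tA δ A) (tB δ B) s = Real.exp (w * (δ * B 2)) * pe v w A B (pl (tc δ) s) := by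
  obtain ⟨e1, e2⟩ := tA_pl (A := A) (B := B) h0 h1 hB1 hs
  unfold pe
  rw [e1, e2, ← Real.exp_add]
  congr 1; ring

theorem mE_sub (w y t : ℝ) : mE w (y - t) = Real.exp (w * t) * (mE w y - mE w t) := by
  have h1 := mE_add w (-t) y
  have h2 := mE_add w (-t) t
  have e : Real.exp (-(w * -t)) = Real.exp (w * t) := by congr 1; ring
  rw [e] at h1 h2
  rw [add_neg_cancel, mE_zero] at h2
  rw [sub_eq_add_neg, h1]
  linarith

theorem pX_cut (h0 : 0 ≤ δ) (h1 : δ < 1) (hB1 : B 1 = 0) {s : ℝ} (hs : 1 ≤ s) :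
    pX v w (tA δ A) (tB δ B) s = pX v w (tA δ A) (tB δ B) 1 +
      Real.exp (w * (δ * B 2)) * (pX v w A B (pl (tc δ) s) - pX v w A B (1 + δ)) := by
  refine eq_of_d (F := pX v w (tA δ A) (tB δ B)) (G := fun s => pX v w (tA δ A) (tB δ B) 1 +
      Real.exp (w * (δ * B 2)) * (pX v w A B (pl (tc δ) s) - pX v w A B (1 + δ)))
      (F' := fun s => Real.exp (w * (δ * B 2)) *
      (pe v w A B (pl (tc δ) s) * dpl A (pl (tc δ) s) * dpl (tc δ) s)) (pX_cont _ _ _ _)
    (continuous_const.add (continuous_const.mul (((pX_cont v w A B).comp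
      (cont_pl (tc δ))).sub continuous_const))) ?_ (fun s hs hN => ?_) hs
  · show _ = pX v w (tA δ A) (tB δ B) 1 +
      Real.exp (w * (δ * B 2)) * (pX v w A B (pl (tc δ) 1) - pX v w A B (1 + δ))
    rw [tc_pl1]; ring
  · obtain ⟨f1, f2, f3, f4, f5⟩ := tc_facts (A := A) (B := B) h0 h1 hB1 hs hN
    refine ⟨(pX_deriv v w (tA δ A) (tB δ B) hN).congr_deriv ?_, ?_⟩
    · rw [f2, pe_cut v w h0 h1 hB1 hs.le]; ring
    · exact ((((pX_deriv v w A B f1).comp s (deriv_pl (tc δ) hN)).sub_const _).const_mul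
        _).const_add _

theorem pL_one (hB0 : B 0 = 0) (hB1 : B 1 = 0) : pL v w A B 1 = 0 := by
  unfold pL
  have e : (∫ s in (0 : ℝ)..1, pq v w A B s * dpl A s) = ∫ s in (0 : ℝ)..1, (0 : ℝ) := by
    refine intervalIntegral.integral_congr fun s hs => ?_
    rw [uIcc_of_le zero_le_one] at hs
    show pq v w A B s * dpl A s = 0
    unfold pq
    rw [pl_01 B hs.2, hB0, hB1]
    simp
  rw [e]; simp

theorem pX_one (hA0 : A 0 = 0) (hB0 : B 0 = 0) (hB1 : B 1 = 0) :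
    pX v w A B 1 = mE v (A 1) := by
  unfold pX
  have e : (∫ s in (0 : ℝ)..1, pe v w A B s * dpl A s) =
      ∫ s in (0 : ℝ)..1, Real.exp (-(v * pl A s)) * dpl A s := by
    refine intervalIntegral.integral_congr fun s hs => ?_
    rw [uIcc_of_le zero_le_one] at hs
    show pe v w A B s * dpl A s = _
    unfold pe
    rw [pl_01 B hs.2, hB0, hB1]
    simp
  rw [e, Pool.Agent.Work.MP_b5407d_pos_h64.Thin.chv A
    (F := fun x => Real.exp (-(v * x))) (by fun_prop), pl_zero, hA0, pl_one]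
  rfl

theorem pL_cut (h0 : 0 ≤ δ) (h1 : δ < 1) (hB1 : B 1 = 0) {s : ℝ}
    (hs : 1 ≤ s) :
    pL v w (tA δ A) (tB δ B) s = Real.exp (w * (δ * B 2)) *
      ((pL v w A B (pl (tc δ) s) - mE w (δ * B 2) * mE v (pl A (pl (tc δ) s))) -
        (pL v w A B (1 + δ) - mE w (δ * B 2) * mE v (pl A (1 + δ)))) := by
  have hcc := cont_pl (tc δ)
  have hmc : Continuous fun s => mE v (pl A s) := (mE_cont v).comp (cont_pl A)
  have hK : Continuous fun s => pL v w A B s - mE w (δ * B 2) * mE v (pl A s) :=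
    (pL_cont v w A B).sub (continuous_const.mul hmc)
  refine eq_of_d (F := pL v w (tA δ A) (tB δ B)) (G := fun s => Real.exp (w * (δ * B 2)) *
      ((pL v w A B (pl (tc δ) s) - mE w (δ * B 2) * mE v (pl A (pl (tc δ) s))) -
        (pL v w A B (1 + δ) - mE w (δ * B 2) * mE v (pl A (1 + δ)))))
      (F' := fun s => Real.exp (w * (δ * B 2)) *
      ((pq v w A B (pl (tc δ) s) * dpl A (pl (tc δ) s) - mE w (δ * B 2) *
        (Real.exp (-(v * pl A (pl (tc δ) s))) * dpl A (pl (tc δ) s))) * dpl (tc δ) s))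
    (pL_cont _ _ _ _) (continuous_const.mul ((hK.comp hcc).sub continuous_const)) ?_
    (fun s hs hN => ?_) hs
  · show pL v w (tA δ A) (tB δ B) 1 = Real.exp (w * (δ * B 2)) *
      ((pL v w A B (pl (tc δ) 1) - mE w (δ * B 2) * mE v (pl A (pl (tc δ) 1))) -
        (pL v w A B (1 + δ) - mE w (δ * B 2) * mE v (pl A (1 + δ))))
    rw [tc_pl1, sub_self, mul_zero, pL_one v w tB_0 tB_1]
  · obtain ⟨f1, f2, f3, f4, f5⟩ := tc_facts (A := A) (B := B) h0 h1 hB1 hs hN
    refine ⟨(pL_deriv v w (tA δ A) (tB δ B) hN).congr_deriv ?_, ?_⟩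
    · rw [f2]
      unfold pq
      rw [f4, f5, mE_sub]
      ring
    · have d1 : HasDerivAt (fun s => pL v w A B s - mE w (δ * B 2) * mE v (pl A s))
          (pq v w A B (pl (tc δ) s) * dpl A (pl (tc δ) s) - mE w (δ * B 2) *
          (Real.exp (-(v * pl A (pl (tc δ) s))) * dpl A (pl (tc δ) s))) (pl (tc δ) s) :=
        (pL_deriv v w A B f1).sub (((mE_deriv v _).comp _ (deriv_pl A f1)).const_mul _)
      exact ((d1.comp s (deriv_pl (tc δ) hN)).sub_const _).const_mul _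

theorem tc_m {m : ℕ} (hm : 2 ≤ m) : pl (tc δ) m = m := by rw [pl_nat, tc_k hm]

/-- `R = L + J` on the outer chain of the cut polygon -/
theorem pR_cut (hm : 2 ≤ m) (h0 : 0 ≤ δ) (h1 : δ < 1) (hAm : A m = 0)
    (hB1 : B 1 = 0) {s : ℝ} (hs : 1 ≤ s) :
    pL v w (tA δ A) (tB δ B) s + pJ v w (tA δ A) (tB δ B) m =
      Real.exp (w * (δ * B 2)) * ((pL v w A B (pl (tc δ) s) + pJ v w A B m) -
        mE w (δ * B 2) * mE v (pl A (pl (tc δ) s))) := by
  have hm1 : (1 : ℝ) ≤ m := by exact_mod_cast (by omega : 1 ≤ m)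
  unfold pJ
  rw [pL_cut v w h0 h1 hB1 hs, pL_cut v w h0 h1 hB1 hm1, tc_m hm, pl_nat, hAm,
    mE_zero]
  ring

/-- integrals over the outer chain -/
theorem split1 {g : ℝ → ℝ} (hg : Continuous g) (hB : B 1 = B 0) :
    (∫ t in (0 : ℝ)..m, g t * dpl B t) = ∫ t in (1 : ℝ)..m, g t * dpl B t := by
  have h := intervalIntegral.integral_add_adjacent_intervals (mul_ii B hg 0 1)
    (mul_ii B hg 1 m)
  have h2 := int_flat B g (k := 0) (by simpa using hB)
  simp only [Nat.cast_zero, zero_add] at h2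
  rw [h2, zero_add] at h
  exact h.symm

theorem split2 {g : ℝ → ℝ} (hg : Continuous g) (hB : B 1 = B 0) (hB1 : B 1 = 0)
    (h0 : 0 ≤ δ) (h1 : δ < 1) :
    (∫ t in (1 + δ)..m, g t * dpl B t) = (∫ t in (0 : ℝ)..m, g t * dpl B t) -
      B 2 * ∫ t in (1 : ℝ)..(1 + δ), g t := by
  have h := intervalIntegral.integral_add_adjacent_intervals (mul_ii B hg 1 (1 + δ))
    (mul_ii B hg (1 + δ) m)
  have e : (∫ t in (1 : ℝ)..(1 + δ), g t * dpl B t) = B 2 * ∫ t in (1 : ℝ)..(1 + δ), g t := by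
    rw [← intervalIntegral.integral_const_mul]
    refine intervalIntegral.integral_congr_ae ?_
    refine Eventually.of_forall fun s hsI => ?_
    rw [uIoc_of_le (by linarith)] at hsI
    have hfl : ⌊s⌋₊ = 1 :=
      Nat.floor_eq_on_Ico 1 _ ⟨by simpa using hsI.1.le, by push_cast; linarith [hsI.2]⟩
    simp only [dpl, hfl, hB1]
    ring
  rw [split1 hg hB, ← h, e]; ring

theorem pN_one (hB : B 1 = B 0) (hm : 1 ≤ m) :
    pN v w A B m 0 = ∫ t in (1 : ℝ)..m, ((pL v w A B t + pJ v w A B m) * (pe v w A B t)⁻¹) *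
      dpl B t := by
  have hc : Continuous fun t => (pe v w A B t)⁻¹ := (pe_cont v w A B).inv₀ (pe_ne v w A B)
  rw [Pool.Agent.Work.MP_b5407d_pos_h19.pN_split v w A B (by omega : 0 < m)]
  have c1 : Continuous fun t => pL v w A B t * (pe v w A B t)⁻¹ := (pL_cont v w A B).mul hc
  rw [split1 c1 hB]
  simp only [Nat.cast_zero, zero_add]
  rw [← intervalIntegral.integral_const_mul, ← intervalIntegral.integral_add
    (mul_ii B c1 1 m) ((mul_ii B hc 1 m).const_mul _)]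
  refine intervalIntegral.integral_congr fun t _ => ?_
  try simp only
  ring

theorem pM_one (hB : B 1 = B 0) (hm : 1 ≤ m) :
    pM v w A B m 0 = ∫ t in (1 : ℝ)..m, (pX v w A B t * ((pL v w A B t + pJ v w A B m) *
      (pe v w A B t)⁻¹)) * dpl B t := by
  have hc : Continuous fun t => (pe v w A B t)⁻¹ := (pe_cont v w A B).inv₀ (pe_ne v w A B)
  rw [Pool.Agent.Work.MP_b5407d_pos_h19.pM_split v w A B (by omega : 0 < m)]
  have c1 : Continuous fun t => pL v w A B t * (pX v w A B t * (pe v w A B t)⁻¹) :=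
    (pL_cont v w A B).mul ((pX_cont v w A B).mul hc)
  have c2 : Continuous fun t => pX v w A B t * (pe v w A B t)⁻¹ := (pX_cont v w A B).mul hc
  rw [split1 c1 hB]
  simp only [Nat.cast_zero, zero_add]
  rw [← intervalIntegral.integral_const_mul, ← intervalIntegral.integral_add
    (mul_ii B c1 1 m) ((mul_ii B c2 1 m).const_mul _)]
  refine intervalIntegral.integral_congr fun t _ => ?_
  try simp only
  ring

/-- the integrands -/
noncomputable def qD (v w : ℝ) (A B : ℕ → ℝ) (t : ℝ) : ℝ :=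
  mE v (pl A t) * (pe v w A B t)⁻¹
/-- the integrands -/
noncomputable def qN (v w : ℝ) (A B : ℕ → ℝ) (m : ℕ) (t : ℝ) : ℝ :=
  (pL v w A B t + pJ v w A B m) * (pe v w A B t)⁻¹

theorem qD_cont : Continuous (qD v w A B) :=
  ((mE_cont v).comp (cont_pl A)).mul ((pe_cont v w A B).inv₀ (pe_ne v w A B))
theorem qN_cont : Continuous (qN v w A B m) :=
  ((pL_cont v w A B).add continuous_const).mul ((pe_cont v w A B).inv₀ (pe_ne v w A B))

/-- remaining integrals -/
noncomputable def FD (v w : ℝ) (A B : ℕ → ℝ) (m : ℕ) (δ : ℝ) : ℝ :=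
  pd v w A B m - B 2 * ∫ t in (1 : ℝ)..(1 + δ), qD v w A B t
/-- remaining integrals -/
noncomputable def FP (v w : ℝ) (A B : ℕ → ℝ) (m : ℕ) (δ : ℝ) : ℝ :=
  pP v w A B m - B 2 * ∫ t in (1 : ℝ)..(1 + δ), pX v w A B t * qD v w A B t
/-- remaining integrals -/
noncomputable def FN (v w : ℝ) (A B : ℕ → ℝ) (m : ℕ) (δ : ℝ) : ℝ :=
  pN v w A B m 0 - B 2 * ∫ t in (1 : ℝ)..(1 + δ), qN v w A B m t
/-- remaining integrals -/
noncomputable def FM (v w : ℝ) (A B : ℕ → ℝ) (m : ℕ) (δ : ℝ) : ℝ :=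
  pM v w A B m 0 - B 2 * ∫ t in (1 : ℝ)..(1 + δ), pX v w A B t * qN v w A B m t

theorem tot (hB : B 1 = B 0) (hB1 : B 1 = 0) (hm : 1 ≤ m) (h0 : 0 ≤ δ) (h1 : δ < 1) :
    (∫ t in (1 + δ)..m, qD v w A B t * dpl B t) = FD v w A B m δ ∧
    (∫ t in (1 + δ)..m, (pX v w A B t * qD v w A B t) * dpl B t) = FP v w A B m δ ∧
    (∫ t in (1 + δ)..m, qN v w A B m t * dpl B t) = FN v w A B m δ ∧
    (∫ t in (1 + δ)..m, (pX v w A B t * qN v w A B m t) * dpl B t) = FM v w A B m δ := by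
  have c1 := qD_cont v w (A := A) (B := B)
  have c2 := qN_cont v w (A := A) (B := B) (m := m)
  have cX := pX_cont v w A B
  have cXD : Continuous fun t => pX v w A B t * qD v w A B t := cX.mul c1
  have cXN : Continuous fun t => pX v w A B t * qN v w A B m t := cX.mul c2
  refine ⟨?_, ?_, ?_, ?_⟩
  · rw [split2 c1 hB hB1 h0 h1]
    unfold FD pd qD
    simp only [div_eq_mul_inv]
  · rw [split2 cXD hB hB1 h0 h1]
    unfold FP pP qD
    simp only [div_eq_mul_inv]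
    congr 1
    refine intervalIntegral.integral_congr fun t _ => ?_
    try simp only
    ring
  · rw [split2 c2 hB hB1 h0 h1, split1 c2 hB]
    unfold FN
    rw [pN_one v w hB hm]
    rfl
  · rw [split2 cXN hB hB1 h0 h1, split1 cXN hB]
    unfold FM
    rw [pM_one v w hB hm]
    rfl

/-- THE CUT FORMULA -/
theorem cut_formula (hm : 2 ≤ m) (h0 : 0 ≤ δ) (h1 : δ < 1) (hAm : A m = 0)
    (hB0 : B 0 = 0) (hB1 : B 1 = 0) :
    ∃ ξ μ : ℝ,
    pd v w (tA δ A) (tB δ B) m = Real.exp (-(w * (δ * B 2))) * FD v w A B m δ ∧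
    pP v w (tA δ A) (tB δ B) m = Real.exp (-(w * (δ * B 2))) * (ξ * FD v w A B m δ) +
      FP v w A B m δ ∧
    pN v w (tA δ A) (tB δ B) m 0 = FN v w A B m δ - μ * FD v w A B m δ ∧
    pM v w (tA δ A) (tB δ B) m 0 = ξ * (FN v w A B m δ - μ * FD v w A B m δ) +
      Real.exp (w * (δ * B 2)) * (FM v w A B m δ - μ * FP v w A B m δ) := by
  set A' := tA δ A with hA'
  set B' := tB δ B with hB'
  set E := Real.exp (w * (δ * B 2)) with hE
  have hE0 : E ≠ 0 := (Real.exp_pos _).ne'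
  have hEi : Real.exp (-(w * (δ * B 2))) = E⁻¹ := by rw [hE, Real.exp_neg]
  rw [hEi]
  set μ := mE w (δ * B 2) with hμ
  set ξ := pX v w A' B' 1 - E * pX v w A B (1 + δ) with hξ
  have hm1 : 1 ≤ m := by omega
  have hmr : (1 : ℝ) ≤ m := by exact_mod_cast hm1
  have hBe : B 1 = B 0 := by rw [hB0, hB1]
  have hBe' : B' 1 = B' 0 := by rw [hB', tB_0, tB_1]
  obtain ⟨t1, t2, t3, t4⟩ := tot v w (A := A) (B := B) (m := m) hBe hB1 hm1 h0 h1
  have cD := qD_cont v w (A := A) (B := B)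
  have cN := qN_cont v w (A := A) (B := B) (m := m)
  have cX := pX_cont v w A B
  have cD' := qD_cont v w (A := A') (B := B')
  have cN' := qN_cont v w (A := A') (B := B') (m := m)
  have cX' := pX_cont v w A' B'
  have cXD : Continuous fun t => pX v w A B t * qD v w A B t := cX.mul cD
  have cXN : Continuous fun t => pX v w A B t * qN v w A B m t := cX.mul cN
  have cXD' : Continuous fun t => pX v w A' B' t * qD v w A' B' t := cX'.mul cD'
  have cXN' : Continuous fun t => pX v w A' B' t * qN v w A' B' m t := cX'.mul cN'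
  -- pointwise
  have pD : ∀ s : ℝ, 1 ≤ s → qD v w A' B' s = E⁻¹ * qD v w A B (pl (tc δ) s) := by
    intro s hs
    unfold qD
    rw [(tA_pl (A := A) (B := B) h0 h1 hB1 hs).1, pe_cut v w h0 h1 hB1 hs, mul_inv]
    ring
  have pX' : ∀ s : ℝ, 1 ≤ s → pX v w A' B' s = ξ + E * pX v w A B (pl (tc δ) s) := by
    intro s hs
    rw [pX_cut v w h0 h1 hB1 hs, hξ]; ring
  have pN' : ∀ s : ℝ, 1 ≤ s → qN v w A' B' m s =
      qN v w A B m (pl (tc δ) s) - μ * qD v w A B (pl (tc δ) s) := by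
    intro s hs
    unfold qN qD
    rw [pR_cut v w hm h0 h1 hAm hB1 hs, pe_cut v w h0 h1 hB1 hs, mul_inv, ← hμ, ← hE]
    field_simp
  have i1 := fun g : ℝ → ℝ => fun hg : Continuous g => mul_ii B hg (1 + δ) m
  refine ⟨ξ, μ, ?_, ?_, ?_, ?_⟩
  · have e1 : pd v w A' B' m = ∫ t in (1 : ℝ)..m, qD v w A' B' t * dpl B' t := by
      rw [← split1 cD' hBe']
      unfold pd qD
      simp only [div_eq_mul_inv]
    rw [e1, tc_subst (Γ := fun t => E⁻¹ * qD v w A B t) h0 h1 hB1 cD'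
      (continuous_const.mul cD) pD hmr, tc_m hm, ← t1,
      ← intervalIntegral.integral_const_mul]
    refine intervalIntegral.integral_congr fun t _ => ?_
    try simp only
    ring
  · have e1 : pP v w A' B' m = ∫ t in (1 : ℝ)..m, (pX v w A' B' t * qD v w A' B' t) *
        dpl B' t := by
      rw [← split1 cXD' hBe']
      unfold pP qD
      refine intervalIntegral.integral_congr fun t _ => ?_
      simp only [div_eq_mul_inv]; ring
    rw [e1, tc_subst (Γ := fun t => (ξ + E * pX v w A B t) * (E⁻¹ * qD v w A B t))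
      h0 h1 hB1 cXD'
      ((continuous_const.add (continuous_const.mul cX)).mul (continuous_const.mul cD))
      (fun s hs => by rw [pX' s hs, pD s hs]) hmr, tc_m hm, ← t1, ← t2, ← mul_assoc,
      ← intervalIntegral.integral_const_mul, ← intervalIntegral.integral_add
        ((i1 _ cD).const_mul _) (i1 _ cXD)]
    refine intervalIntegral.integral_congr fun t _ => ?_
    try simp only
    field_simp
  · rw [pN_one v w hBe' hm1]
    have e1 : (∫ t in (1 : ℝ)..m, ((pL v w A' B' t + pJ v w A' B' m) * (pe v w A' B' t)⁻¹) *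
        dpl B' t) = ∫ t in (1 : ℝ)..m, qN v w A' B' m t * dpl B' t := rfl
    rw [e1, tc_subst (Γ := fun t => qN v w A B m t - μ * qD v w A B t)
      h0 h1 hB1 cN' (cN.sub (continuous_const.mul cD)) pN' hmr, tc_m hm, ← t1, ← t3,
      ← intervalIntegral.integral_const_mul, ← intervalIntegral.integral_sub
        (i1 _ cN) ((i1 _ cD).const_mul _)]
    refine intervalIntegral.integral_congr fun t _ => ?_
    try simp only
    ring
  · rw [pM_one v w hBe' hm1]
    have e1 : (∫ t in (1 : ℝ)..m, (pX v w A' B' t * ((pL v w A' B' t + pJ v w A' B' m) *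
        (pe v w A' B' t)⁻¹)) * dpl B' t) =
        ∫ t in (1 : ℝ)..m, (pX v w A' B' t * qN v w A' B' m t) * dpl B' t := rfl
    rw [e1, tc_subst (Γ := fun t => (ξ + E * pX v w A B t) *
      (qN v w A B m t - μ * qD v w A B t))
      h0 h1 hB1 cXN' ((continuous_const.add (continuous_const.mul cX)).mul
        (cN.sub (continuous_const.mul cD)))
      (fun s hs => by rw [pX' s hs, pN' s hs]) hmr, tc_m hm, ← t1, ← t2, ← t3, ← t4]
    have j1 := i1 _ cN
    have j2 := i1 _ cD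
    have j3 := i1 _ cXN
    have j4 := i1 _ cXD
    rw [← intervalIntegral.integral_const_mul, ← intervalIntegral.integral_sub j1
      (j2.const_mul μ), ← intervalIntegral.integral_const_mul,
      ← intervalIntegral.integral_const_mul, ← intervalIntegral.integral_sub j3
      (j4.const_mul μ), ← intervalIntegral.integral_const_mul,
      ← intervalIntegral.integral_add ((j1.sub (j2.const_mul μ)).const_mul ξ)
      ((j3.sub (j4.const_mul μ)).const_mul E)]
    refine intervalIntegral.integral_congr fun t _ => ?_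
    try simp only
    ring

/-- `h` for `r = 0` -/
noncomputable def hz (v w : ℝ) (A B : ℕ → ℝ) (m : ℕ) : ℝ :=
  pP v w A B m / pd v w A B m * pN v w A B m 0 - pM v w A B m 0

/-- `h` of the cut polygon -/
theorem hz_cut (hm : 2 ≤ m) (h0 : 0 ≤ δ) (h1 : δ < 1) (hAm : A m = 0)
    (hB0 : B 0 = 0) (hB1 : B 1 = 0) (hD : FD v w A B m δ ≠ 0) :
    Real.exp (-(w * (δ * B 2))) * hz v w (tA δ A) (tB δ B) m =
      FP v w A B m δ / FD v w A B m δ * FN v w A B m δ - FM v w A B m δ := by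
  obtain ⟨ξ, μ, e1, e2, e3, e4⟩ := cut_formula v w (A := A) (B := B) hm h0 h1 hAm hB0 hB1
  unfold hz
  rw [e1, e2, e3, e4]
  have hEi : Real.exp (-(w * (δ * B 2))) = (Real.exp (w * (δ * B 2)))⁻¹ := by
    rw [Real.exp_neg]
  rw [hEi]
  have hE0 : Real.exp (w * (δ * B 2)) ≠ 0 := (Real.exp_pos _).ne'
  set E := Real.exp (w * (δ * B 2))
  field_simp
  ring

end

end Pool.Agent.Work.MP_b5407d_pos_h13
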