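import Pool.Agent.Work.MP_b5407d_pos_helper13.NC3

/-! # MP_b5407d_gt (POS), `r = 0`: first order condition (helper13) -/

set_option autoImplicit false

open MeasureTheory Set Filter Topology

namespace Pool.Agent.Work.MP_b5407d_pos_h13

open Pool.LBM Pool.LBM.Path

/-- one-sided first order condition -/
theorem deriv_right_nonneg {f : ℝ → ℝ} {f' : ℝ} (hf : HasDerivAt f f' 0)
    (h : ∀ᶠ δ in 𝓝[>] (0 : ℝ), f 0 ≤ f δ) : 0 ≤ f' := by
  have h1 := hf.tendsto_slope_zero_right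
  refine ge_of_tendsto h1 ?_
  filter_upwards [h, self_mem_nhdsWithin] with δ h2 h3
  have h3' : 0 < δ := h3
  rw [zero_add, smul_eq_mul]
  exact mul_nonneg (inv_pos.2 h3').le (by linarith)

section
variable {m : ℕ} {A B : ℕ → ℝ} (v w : ℝ)

theorem prim1 {g : ℝ → ℝ} (hg : Continuous g) (c0 c1 : ℝ) :
    HasDerivAt (fun δ : ℝ => c0 - c1 * ∫ t in (1 : ℝ)..(1 + δ), g t) (-(c1 * g 1)) 0 := by
  have h1 : HasDerivAt (fun x : ℝ => ∫ t in (1 : ℝ)..x, g t) (g (1 + 0)) (1 + 0) :=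
    intervalIntegral.integral_hasDerivAt_right (hg.intervalIntegrable _ _)
      (hg.stronglyMeasurable.stronglyMeasurableAtFilter) hg.continuousAt
  have h2 : HasDerivAt (fun δ : ℝ => 1 + δ) 1 0 := (hasDerivAt_id (0:ℝ)).const_add 1
  refine (((h1.comp (0:ℝ) h2).const_mul c1).const_sub c0).congr_deriv ?_
  rw [add_zero]; ring

/-- `h~` of the horizontal cut -/
noncomputable def HC (v w : ℝ) (A B : ℕ → ℝ) (m : ℕ) (δ : ℝ) : ℝ :=
  FP v w A B m δ / FD v w A B m δ * FN v w A B m δ - FM v w A B m δ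

theorem HC_zero : HC v w A B m 0 = hz v w A B m := by
  unfold HC FP FD FN FM hz
  simp

theorem HC_deriv (hA0 : A 0 = 0) (hB0 : B 0 = 0) (hB1 : B 1 = 0)
    (hd : pd v w A B m ≠ 0) :
    HasDerivAt (HC v w A B m) (B 2 * (pe v w A B 1)⁻¹ *
      ((pP v w A B m / pd v w A B m - mE v (A 1)) *
        (mE v (A 1) * (pN v w A B m 0 / pd v w A B m) - pJ v w A B m))) 0 := by
  have cD := qD_cont v w (A := A) (B := B)
  have cN := qN_cont v w (A := A) (B := B) (m := m)
  have cX := pX_cont v w A B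
  have cXD : Continuous fun t => pX v w A B t * qD v w A B t := cX.mul cD
  have cXN : Continuous fun t => pX v w A B t * qN v w A B m t := cX.mul cN
  have d1 := prim1 cD (pd v w A B m) (B 2)
  have d2 := prim1 cXD (pP v w A B m) (B 2)
  have d3 := prim1 cN (pN v w A B m 0) (B 2)
  have d4 := prim1 cXN (pM v w A B m 0) (B 2)
  have eX := pX_one v w (A := A) (B := B) hA0 hB0 hB1
  have eL := pL_one v w (A := A) (B := B) hB0 hB1
  have eD : qD v w A B 1 = mE v (A 1) * (pe v w A B 1)⁻¹ := by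
    unfold qD; rw [pl_one]
  have eN : qN v w A B m 1 = pJ v w A B m * (pe v w A B 1)⁻¹ := by
    unfold qN; rw [eL, zero_add]
  have hd0 : pd v w A B m - B 2 * ∫ t in (1 : ℝ)..(1 + 0), qD v w A B t ≠ 0 := by
    simpa using hd
  have h := ((d2.div d1 hd0).mul d3).sub d4
  refine h.congr_deriv ?_
  simp only [eX, eD, eN, Pi.div_apply, add_zero, intervalIntegral.integral_same, mul_zero,
    sub_zero]
  field_simp
  ring

/-- FIRST ORDER CONDITION for the horizontal cut -/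
theorem cut_sign (hm : 2 ≤ m) (hA0 : A 0 = 0) (hAm : A m = 0)
    (hB0 : B 0 = 0) (hB1 : B 1 = 0) (hB2 : 0 < B 2) (hd : pd v w A B m ≠ 0)
    (hmin : ∀ᶠ δ in 𝓝[>] (0 : ℝ), hz v w A B m ≤
      Real.exp (-(w * (δ * B 2))) * hz v w (tA δ A) (tB δ B) m) :
    0 ≤ (pP v w A B m / pd v w A B m - mE v (A 1)) *
      (mE v (A 1) * (pN v w A B m 0 / pd v w A B m) - pJ v w A B m) := by
  have hder := HC_deriv v w (m := m) hA0 hB0 hB1 hd
  have hD : HasDerivAt (FD v w A B m) (-(B 2 * qD v w A B 1)) 0 :=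
    prim1 (qD_cont v w (A := A) (B := B)) (pd v w A B m) (B 2)
  have hD0 : FD v w A B m 0 = pd v w A B m := by simp [FD]
  have hev : ∀ᶠ δ in 𝓝 (0 : ℝ), FD v w A B m δ ≠ 0 :=
    hD.continuousAt.eventually_ne (by rw [hD0]; exact hd)
  have h1 := deriv_right_nonneg hder (by
    filter_upwards [hmin, hev.filter_mono nhdsWithin_le_nhds, ev_Ioo] with δ h2 h3 h4
    rw [hz_cut v w hm h4.1.le h4.2 hAm hB0 hB1 h3] at h2
    rw [HC_zero]
    exact h2)
  have h2 : 0 < B 2 * (pe v w A B 1)⁻¹ := mul_pos hB2 (inv_pos.2 (pe_pos v w A B 1))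
  exact nonneg_of_mul_nonneg_right h1 h2

end

end Pool.Agent.Work.MP_b5407d_pos_h13
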