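import Pool.Agent.Work.MP_b5407d_pos_helper13.NC4

/-! # MP_b5407d_gt (POS), `r = 0`: the minimiser among the cuts (helper13) -/

set_option autoImplicit false

open MeasureTheory Set Filter Topology

namespace Pool.Agent.Work.MP_b5407d_pos_h13

open Pool.LBM Pool.LBM.Path

section
variable {m : ℕ} {a b : ℕ → ℝ}

/-- bottom length -/
def al (m : ℕ) (a : ℕ → ℝ) (z : ℝ × ℝ) : ℝ := a 1 + z.2 * (a 2 - a 1) - z.1 * a (m - 1)
/-- left length -/
def be (m : ℕ) (b : ℕ → ℝ) (z : ℝ × ℝ) : ℝ := b m + z.1 * (b (m - 1) - b m) - z.2 * b 2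

theorem al_cont : Continuous (al m a) := by unfold al; fun_prop
theorem be_cont : Continuous (be m b) := by unfold be; fun_prop

/-- admissible parameters -/
def Rg (m : ℕ) (a b : ℕ → ℝ) : Set (ℝ × ℝ) :=
  {z | 0 ≤ z.1 ∧ z.1 < 1 ∧ 0 ≤ z.2 ∧ z.2 < 1 ∧ 0 < al m a z ∧ 0 < be m b z}

/-- the family as a map -/
def fam (m : ℕ) (a b : ℕ → ℝ) (z : ℝ × ℝ) : PP := (fA m a z.1 z.2, fB m b z.1 z.2)

theorem fam_cn : Continuous (fam m a b) := by
  unfold fam
  refine Continuous.prodMk (continuous_pi fun k => ?_) (continuous_pi fun k => ?_)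
  · unfold fA
    by_cases h0 : k = 0
    · simp only [h0, if_true]; exact continuous_const
    · by_cases hm : k = m
      · simp only [hm, if_true]
        split_ifs <;> exact continuous_const
      · by_cases h1 : k = 1
        · simp only [h1, if_true]
          split_ifs <;> fun_prop
        · simp only [h0, hm, h1, if_false]; fun_prop
  · unfold fB
    by_cases h0 : k = 0
    · simp only [h0, if_true]; exact continuous_const
    · by_cases h1 : k = 1
      · simp only [h1, if_true]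
        split_ifs <;> exact continuous_const
      · by_cases hm : k = m
        · simp only [hm, if_true]
          split_ifs <;> fun_prop
        · simp only [h0, hm, h1, if_false]; fun_prop

theorem std_of_Rg (h : Std m 0 a b) (hm : 2 ≤ m) {z : ℝ × ℝ} (hz : z ∈ Rg m a b) :
    Std m 0 (fA m a z.1 z.2) (fB m b z.1 z.2) := by
  obtain ⟨h1, h2, h3, h4, h5, h6⟩ := hz
  exact std_fam h hm h1 h2 h3 h4 h5 h6

/-- box -/
theorem cl_box {z : ℝ × ℝ} (hz : z ∈ closure (Rg m a b)) :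
    0 ≤ z.1 ∧ z.1 ≤ 1 ∧ 0 ≤ z.2 ∧ z.2 ≤ 1 ∧ 0 ≤ al m a z ∧ 0 ≤ be m b z := by
  have hc : IsClosed {z : ℝ × ℝ | 0 ≤ z.1 ∧ z.1 ≤ 1 ∧ 0 ≤ z.2 ∧ z.2 ≤ 1 ∧ 0 ≤ al m a z ∧
      0 ≤ be m b z} := by
    have e : {z : ℝ × ℝ | 0 ≤ z.1 ∧ z.1 ≤ 1 ∧ 0 ≤ z.2 ∧ z.2 ≤ 1 ∧ 0 ≤ al m a z ∧
      0 ≤ be m b z} = {z : ℝ × ℝ | 0 ≤ z.1} ∩ ({z : ℝ × ℝ | z.1 ≤ 1} ∩ ({z : ℝ × ℝ | 0 ≤ z.2} ∩
      ({z : ℝ × ℝ | z.2 ≤ 1} ∩ ({z : ℝ × ℝ | 0 ≤ al m a z} ∩ {z : ℝ × ℝ | 0 ≤ be m b z})))) := by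
      ext z; rfl
    rw [e]
    exact (isClosed_le continuous_const continuous_fst).inter
      ((isClosed_le continuous_fst continuous_const).inter
      ((isClosed_le continuous_const continuous_snd).inter
      ((isClosed_le continuous_snd continuous_const).inter
      ((isClosed_le continuous_const al_cont).inter
      (isClosed_le continuous_const be_cont)))))
  have hsub : Rg m a b ⊆ {z : ℝ × ℝ | 0 ≤ z.1 ∧ z.1 ≤ 1 ∧ 0 ≤ z.2 ∧ z.2 ≤ 1 ∧
      0 ≤ al m a z ∧ 0 ≤ be m b z} := by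
    rintro z ⟨h1, h2, h3, h4, h5, h6⟩
    exact ⟨h1, h2.le, h3, h4.le, h5.le, h6.le⟩
  exact closure_minimal hsub hc hz

theorem cl_compact : IsCompact (closure (Rg m a b)) := by
  refine ((isCompact_Icc (a := (0:ℝ)) (b := 1)).prod
    (isCompact_Icc (a := (0:ℝ)) (b := 1))).of_isClosed_subset isClosed_closure ?_
  intro z hz
  obtain ⟨h1, h2, h3, h4, -, -⟩ := cl_box hz
  exact ⟨⟨h1, h2⟩, ⟨h3, h4⟩⟩

section fz
variable (v w : ℝ) (m : ℕ) (a b : ℕ → ℝ)
/-- `d` -/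
noncomputable def zd (z : ℝ × ℝ) : ℝ := pd v w (fam m a b z).1 (fam m a b z).2 m
/-- `P` -/
noncomputable def zP (z : ℝ × ℝ) : ℝ := pP v w (fam m a b z).1 (fam m a b z).2 m
/-- `N` -/
noncomputable def zN (z : ℝ × ℝ) : ℝ := pN v w (fam m a b z).1 (fam m a b z).2 m 0
/-- `M` -/
noncomputable def zM (z : ℝ × ℝ) : ℝ := pM v w (fam m a b z).1 (fam m a b z).2 m 0
/-- the weight -/
noncomputable def zE (z : ℝ × ℝ) : ℝ :=
  Real.exp (-(v * (z.1 * a (m - 1))) - w * (z.2 * b 2))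
/-- `h~` -/
noncomputable def zh (z : ℝ × ℝ) : ℝ :=
  zE v w m a b z * (zP v w m a b z / zd v w m a b z * zN v w m a b z - zM v w m a b z)

theorem zd_cn : Continuous (zd v w m a b) := (pd_cn v w m).comp fam_cn
theorem zP_cn : Continuous (zP v w m a b) := (pP_cn v w m).comp fam_cn
theorem zN_cn : Continuous (zN v w m a b) := (pN_cn v w m 0).comp fam_cn
theorem zM_cn : Continuous (zM v w m a b) := (pM_cn v w m 0).comp fam_cn
theorem zE_cn : Continuous (zE v w m a b) := by unfold zE; fun_prop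
theorem zE_pos (z : ℝ × ℝ) : 0 < zE v w m a b z := Real.exp_pos _
end fz

/-- triples of the closure -/
theorem cl_conv (h : Std m 0 a b) (hm : 2 ≤ m) {z : ℝ × ℝ} (hz : z ∈ closure (Rg m a b)) :
    ∀ i j k, i < j → j < k → k ≤ m →
      0 ≤ ((fam m a b z).1 j - (fam m a b z).1 i) * ((fam m a b z).2 k - (fam m a b z).2 i) -
        ((fam m a b z).2 j - (fam m a b z).2 i) * ((fam m a b z).1 k - (fam m a b z).1 i) := by
  intro i j k hij hjk hk
  have hc1 : ∀ l : ℕ, Continuous fun z : ℝ × ℝ => (fam m a b z).1 l := fun l =>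
    (continuous_apply l).comp (continuous_fst.comp fam_cn)
  have hc2 : ∀ l : ℕ, Continuous fun z : ℝ × ℝ => (fam m a b z).2 l := fun l =>
    (continuous_apply l).comp (continuous_snd.comp fam_cn)
  have hcl : IsClosed {z : ℝ × ℝ | 0 ≤ ((fam m a b z).1 j - (fam m a b z).1 i) *
      ((fam m a b z).2 k - (fam m a b z).2 i) -
      ((fam m a b z).2 j - (fam m a b z).2 i) * ((fam m a b z).1 k - (fam m a b z).1 i)} :=
    isClosed_le continuous_const ((((hc1 j).sub (hc1 i)).mul ((hc2 k).sub (hc2 i))).sub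
      (((hc2 j).sub (hc2 i)).mul ((hc1 k).sub (hc1 i))))
  exact closure_minimal (fun z hz => ((std_of_Rg h hm hz).conv i j k hij hjk hk).le) hcl hz

theorem fA_le (h : Std m 0 a b) (hm : 2 ≤ m) {B : ℝ} (hB : ∀ k ≤ m, a k ≤ B) {z : ℝ × ℝ}
    (h1 : 0 ≤ z.1) (h3 : 0 ≤ z.2) (h4 : z.2 ≤ 1) : ∀ k ≤ m, fA m a z.1 z.2 k ≤ B := by
  intro k hk
  have hB0 : 0 ≤ B := by
    have := hB 0 (by omega); rw [h.a0] at this; exact this
  have hp : 0 ≤ z.1 * a (m - 1) := mul_nonneg h1 (std_a_nonneg h (by omega))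
  rcases Nat.eq_zero_or_pos k with e0 | e0
  · subst e0; rw [fA_0]; exact hB0
  · rcases hk.eq_or_lt with e1 | e1
    · subst e1; rw [fA_m]; exact hB0
    · rcases (show 1 ≤ k by omega).eq_or_lt with e2 | e2
      · subst e2
        rw [fA_1 hm]
        have g1 := mul_le_mul_of_nonneg_left (hB 2 hm) h3
        have g2 := mul_le_mul_of_nonneg_left (hB 1 (by omega)) (show 0 ≤ 1 - z.2 by linarith)
        linarith
      · rw [fA_k (by omega) e1]
        have := hB k hk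
        linarith

theorem fB_le (h : Std m 0 a b) (hm : 2 ≤ m) {B : ℝ} (hB : ∀ k ≤ m, b k ≤ B) {z : ℝ × ℝ}
    (h1 : 0 ≤ z.1) (h2 : z.1 ≤ 1) (h3 : 0 ≤ z.2) : ∀ k ≤ m, fB m b z.1 z.2 k ≤ B := by
  intro k hk
  have hB0 : 0 ≤ B := by
    have := hB 0 (by omega); rw [h.br] at this; exact this
  have hp : 0 ≤ z.2 * b 2 := mul_nonneg h3 (std_b_nonneg h hm)
  rcases Nat.eq_zero_or_pos k with e0 | e0
  · subst e0; rw [fB_0]; exact hB0
  · rcases (show 1 ≤ k by omega).eq_or_lt with e2 | e2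
    · subst e2; rw [fB_1]; exact hB0
    · rcases hk.eq_or_lt with e1 | e1
      · subst e1
        rw [fB_m hm]
        have g1 := mul_le_mul_of_nonneg_left (hB (k - 1) (by omega)) h1
        have g2 := mul_le_mul_of_nonneg_left (hB k le_rfl) (show 0 ≤ 1 - z.1 by linarith)
        linarith
      · rw [fB_k (by omega) e1]
        have := hB k hk
        linarith

/-- on the closure `d = 0` implies `M = 0` -/
theorem cl_dM (v w : ℝ) (h : Std m 0 a b) (hm : 2 ≤ m) {z : ℝ × ℝ}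
    (hz : z ∈ closure (Rg m a b)) : 0 ≤ zd v w m a b z ∧
      (zd v w m a b z = 0 → zM v w m a b z = 0) := by
  obtain ⟨B1, h1, h1'⟩ := exists_bd m a
  obtain ⟨B2, h2, h2'⟩ := exists_bd m b
  have ha : ∀ k ≤ m, a k ≤ B1 + B2 := fun k hk => by
    have := h1' k hk; have := le_abs_self (a k); linarith
  have hb : ∀ k ≤ m, b k ≤ B1 + B2 := fun k hk => by
    have := h2' k hk; have := le_abs_self (b k); linarith
  set c := Real.exp (-((|v| + |w|) * (B1 + B2))) with hc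
  have hc0 : 0 < c := Real.exp_pos _
  have hcl : IsClosed {z : ℝ × ℝ | 0 ≤ zd v w m a b z ∧ 0 ≤ zd 0 0 m a b z ∧
      c * zd 0 0 m a b z ≤ zd v w m a b z} :=
    (isClosed_le continuous_const (zd_cn v w m a b)).inter
      ((isClosed_le continuous_const (zd_cn 0 0 m a b)).inter
      (isClosed_le (continuous_const.mul (zd_cn 0 0 m a b)) (zd_cn v w m a b)))
  have hsub : Rg m a b ⊆ {z : ℝ × ℝ | 0 ≤ zd v w m a b z ∧ 0 ≤ zd 0 0 m a b z ∧
      c * zd 0 0 m a b z ≤ zd v w m a b z} := by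
    intro z hz
    have hS := std_of_Rg h hm hz
    refine ⟨(pd_pos (CP_of_Std hS)).le, (pd_pos (CP_of_Std hS)).le, ?_⟩
    exact pd_ge_area v w hS (fA_le h hm ha hz.1 hz.2.2.1 hz.2.2.2.1.le)
      (fB_le h hm hb hz.1 hz.2.1.le hz.2.2.1)
  obtain ⟨g1, g2, g3⟩ := closure_minimal hsub hcl hz
  refine ⟨g1, fun h0 => ?_⟩
  have h5 : zd 0 0 m a b z = 0 := by
    rw [h0] at g3
    have := nonpos_of_mul_nonpos_right g3 hc0
    exact le_antisymm this g2
  have e1 : (fam m a b z).1 0 = 0 := by simp [fam]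
  have e2 : (fam m a b z).1 m = 0 := by simp [fam]
  have e3 : (fam m a b z).2 0 = 0 := by simp [fam]
  exact collapse v w (a := (fam m a b z).1) (b := (fam m a b z).2) e1 e2 e3
    (cl_conv h hm hz) h5

/-- the minimiser -/
structure Mini (v w : ℝ) (m : ℕ) (a b : ℕ → ℝ) (z : ℝ × ℝ) : Prop where
  cl : z ∈ closure (Rg m a b)
  d : 0 < zd v w m a b z
  neg : zh v w m a b z < 0
  min : ∀ z' ∈ Rg m a b, zh v w m a b z ≤ zh v w m a b z'

theorem std_two (h : Std m 0 a b) : 2 ≤ m := (CP_of_Std h).two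

theorem zero_mem (h : Std m 0 a b) : ((0 : ℝ), (0 : ℝ)) ∈ Rg m a b := by
  have hm := std_two h
  refine ⟨le_rfl, zero_lt_one, le_rfl, zero_lt_one, ?_, ?_⟩
  · have := std_a_pos h (k := 1) (by omega) (by omega)
    simp [al, this]
  · have := std_b_pos h (k := m) le_rfl (by omega) (by omega)
    simp [be, this]

/-- EXISTENCE -/
theorem exists_mini (v w : ℝ) (h : Std m 0 a b) (hneg : zh v w m a b (0, 0) < 0) :
    ∃ z, Mini v w m a b z := by
  have hm := std_two h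
  set h0 := zh v w m a b (0, 0) with hh0
  -- bound of the weight
  have hne : (closure (Rg m a b)).Nonempty := ⟨_, subset_closure (zero_mem h)⟩
  obtain ⟨zm, -, hzm⟩ := cl_compact.exists_isMaxOn hne (zE_cn v w m a b).continuousOn
  rw [isMaxOn_iff] at hzm
  set Em := zE v w m a b zm with hEm
  have hEm0 : 0 < Em := zE_pos v w m a b zm
  set c0 := -h0 / Em with hc0
  have hc0p : 0 < c0 := div_pos (by linarith) hEm0
  have hM : ∀ z ∈ Rg m a b, zh v w m a b z ≤ h0 → c0 ≤ zM v w m a b z := by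
    intro z hz hle
    have hS := std_of_Rg h hm hz
    have hd : 0 < zd v w m a b z := pd_pos (CP_of_Std hS)
    have hP : 0 < zP v w m a b z := P_pos_std v w hS
    have hN : 0 < zN v w m a b z := N_pos_std v w hS
    have h1 : 0 ≤ zP v w m a b z / zd v w m a b z * zN v w m a b z :=
      mul_nonneg (div_nonneg hP.le hd.le) hN.le
    have hE := zE_pos v w m a b z
    have hEle : zE v w m a b z ≤ Em := hzm z (subset_closure hz)
    have h2 : zE v w m a b z * (-zM v w m a b z) ≤ h0 := by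
      refine le_trans ?_ hle
      unfold zh
      exact mul_le_mul_of_nonneg_left (by linarith) hE.le
    have h3 : 0 < zM v w m a b z := by
      by_contra hn
      push Not at hn
      have := mul_nonneg hE.le (show 0 ≤ -zM v w m a b z by linarith)
      linarith
    have h4 : -h0 ≤ Em * zM v w m a b z := by
      have := mul_le_mul_of_nonneg_right hEle h3.le
      linarith
    rw [hc0, div_le_iff₀ hEm0]
    linarith
  -- lower bound of `d`
  have hδ : ∃ δ : ℝ, 0 < δ ∧ ∀ z ∈ Rg m a b, zh v w m a b z ≤ h0 → δ ≤ zd v w m a b z := by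
    set S := closure (Rg m a b) ∩ {z | c0 ≤ zM v w m a b z} with hSd
    have hSc : IsCompact S := cl_compact.inter_right
      (isClosed_le continuous_const (zM_cn v w m a b))
    have hSn : S.Nonempty := ⟨(0, 0), subset_closure (zero_mem h), hM _ (zero_mem h) le_rfl⟩
    obtain ⟨zd0, hzd, hmin⟩ := hSc.exists_isMinOn hSn (zd_cn v w m a b).continuousOn
    rw [isMinOn_iff] at hmin
    refine ⟨zd v w m a b zd0, ?_, fun z hz hle => hmin z ⟨subset_closure hz, hM z hz hle⟩⟩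
    obtain ⟨g1, g2⟩ := cl_dM v w h hm hzd.1
    refine lt_of_le_of_ne g1 fun he => ?_
    have h5 := g2 he.symm
    have h6 : c0 ≤ zM v w m a b zd0 := hzd.2
    rw [h5] at h6
    linarith
  obtain ⟨δ, hδ0, hδ⟩ := hδ
  set Z := closure (Rg m a b) ∩ {z | δ ≤ zd v w m a b z} with hZ
  have hZc : IsCompact Z := cl_compact.inter_right
    (isClosed_le continuous_const (zd_cn v w m a b))
  have hZ0 : ((0 : ℝ), (0 : ℝ)) ∈ Z :=
    ⟨subset_closure (zero_mem h), hδ _ (zero_mem h) le_rfl⟩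
  have hcont : ContinuousOn (zh v w m a b) Z := by
    have hne : ∀ z ∈ Z, zd v w m a b z ≠ 0 := fun z hz => (lt_of_lt_of_le hδ0 hz.2).ne'
    exact (zE_cn v w m a b).continuousOn.mul
      ((((zP_cn v w m a b).continuousOn.div (zd_cn v w m a b).continuousOn hne).mul
        (zN_cn v w m a b).continuousOn).sub (zM_cn v w m a b).continuousOn)
  obtain ⟨z, hzZ, hmin⟩ := hZc.exists_isMinOn ⟨_, hZ0⟩ hcont
  rw [isMinOn_iff] at hmin
  have hz0 : zh v w m a b z ≤ h0 := hmin _ hZ0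
  refine ⟨z, hzZ.1, lt_of_lt_of_le hδ0 hzZ.2, lt_of_le_of_lt hz0 hneg, fun z' hz' => ?_⟩
  rcases le_or_gt δ (zd v w m a b z') with h1 | h1
  · exact hmin z' ⟨subset_closure hz', h1⟩
  · by_contra hn
    push Not at hn
    exact absurd (hδ z' hz' (hn.le.trans hz0)) (not_le.2 h1)

/-! ### mirror -/

theorem mr_vals (hm : 2 ≤ m) (c : ℕ → ℝ) : mr m 0 c 1 = c m ∧ mr m 0 c 2 = c (m - 1) ∧
    mr m 0 c (m - 1) = c 2 ∧ mr m 0 c m = c 1 := by
  refine ⟨?_, ?_, ?_, ?_⟩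
  · rw [mr_k c (by omega)]; congr 1
  · rw [mr_k c (by omega)]; congr 1
  · rw [mr_k c (by omega)]; congr 1; omega
  · rw [mr_k c (by omega)]; congr 1; omega

theorem al_mr (hm : 2 ≤ m) (z : ℝ × ℝ) : al m (mr m 0 b) z.swap = be m b z := by
  obtain ⟨e1, e2, e3, e4⟩ := mr_vals hm b
  simp only [al, be, Prod.fst_swap, Prod.snd_swap, e1, e2, e3]

theorem be_mr (hm : 2 ≤ m) (z : ℝ × ℝ) : be m (mr m 0 a) z.swap = al m a z := by
  obtain ⟨e1, e2, e3, e4⟩ := mr_vals hm a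
  simp only [al, be, Prod.fst_swap, Prod.snd_swap, e2, e3, e4]

theorem Rg_mr (hm : 2 ≤ m) (z : ℝ × ℝ) :
    z.swap ∈ Rg m (mr m 0 b) (mr m 0 a) ↔ z ∈ Rg m a b := by
  simp only [Rg, Set.mem_ofPred_eq, al_mr hm, be_mr hm, Prod.fst_swap, Prod.snd_swap]
  constructor
  · rintro ⟨h1, h2, h3, h4, h5, h6⟩; exact ⟨h3, h4, h1, h2, h6, h5⟩
  · rintro ⟨h1, h2, h3, h4, h5, h6⟩; exact ⟨h3, h4, h1, h2, h6, h5⟩

theorem cl_mr (hm : 2 ≤ m) (z : ℝ × ℝ) :
    z.swap ∈ closure (Rg m (mr m 0 b) (mr m 0 a)) ↔ z ∈ closure (Rg m a b) := by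
  have h1 : (Homeomorph.prodComm ℝ ℝ) ⁻¹' (Rg m (mr m 0 b) (mr m 0 a)) = Rg m a b := by
    ext z; exact Rg_mr hm z
  have h2 := (Homeomorph.prodComm ℝ ℝ).preimage_closure (Rg m (mr m 0 b) (mr m 0 a))
  rw [h1] at h2
  rw [← h2]
  rfl

theorem fam_mr (hm : 2 ≤ m) (z : ℝ × ℝ) :
    (∀ k ≤ m, (fam m (mr m 0 b) (mr m 0 a) z.swap).1 k = mr m 0 (fB m b z.1 z.2) k) ∧
    (∀ k ≤ m, (fam m (mr m 0 b) (mr m 0 a) z.swap).2 k = mr m 0 (fA m a z.1 z.2) k) := by
  obtain ⟨e1, e2, e3, e4⟩ := mr_vals hm b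
  obtain ⟨f1, f2, f3, f4⟩ := mr_vals hm a
  constructor
  · intro k hk
    show fA m (mr m 0 b) z.2 z.1 k = _
    rcases Nat.eq_zero_or_pos k with h0 | h0
    · subst h0; rw [fA_0, mr_0, fB_0]
    · rw [mr_k _ h0]
      rcases hk.eq_or_lt with h1 | h1
      · subst h1
        have e : k + 1 - k = 1 := by omega
        rw [fA_m, e, fB_1]
      · rcases (show 1 ≤ k by omega).eq_or_lt with h2 | h2
        · subst h2
          have e : m + 1 - 1 = m := by omega
          rw [fA_1 hm, e, fB_m hm, e1, e2, e3]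
        · rw [fA_k h2 h1, fB_k (by omega) (by omega), e3, mr_k b (by omega)]
  · intro k hk
    show fB m (mr m 0 a) z.2 z.1 k = _
    rcases Nat.eq_zero_or_pos k with h0 | h0
    · subst h0; rw [fB_0, mr_0, fA_0]
    · rw [mr_k _ h0]
      rcases (show 1 ≤ k by omega).eq_or_lt with h2 | h2
      · subst h2
        have e : m + 1 - 1 = m := by omega
        rw [fB_1, e, fA_m]
      · rcases hk.eq_or_lt with h1 | h1
        · subst h1
          have e : k + 1 - k = 1 := by omega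
          rw [fB_m hm, e, fA_1 hm, f2, f3, f4]
        · rw [fB_k h2 h1, fA_k (by omega) (by omega), f2, mr_k a (by omega)]

theorem z4_mr (v w : ℝ) (hm : 2 ≤ m) (z : ℝ × ℝ) :
    zd w v m (mr m 0 b) (mr m 0 a) z.swap = zd v w m a b z ∧
    zP w v m (mr m 0 b) (mr m 0 a) z.swap = zN v w m a b z ∧
    zN w v m (mr m 0 b) (mr m 0 a) z.swap = zP v w m a b z ∧
    zM w v m (mr m 0 b) (mr m 0 a) z.swap = zM v w m a b z := by
  obtain ⟨g1, g2⟩ := fam_mr (a := a) (b := b) hm z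
  obtain ⟨c1, c2, c3, c4⟩ := cg4 w v 0 g1 g2
  obtain ⟨d1, d2, d3, d4⟩ := mr4 v w (m := m) (a := fA m a z.1 z.2) (b := fB m b z.1 z.2)
    fA_0 fA_m fB_0 fB_1 (by omega)
  exact ⟨c1.trans d1, c2.trans d2, c3.trans d3, c4.trans d4⟩

theorem zE_mr (v w : ℝ) (hm : 2 ≤ m) (z : ℝ × ℝ) :
    zE w v m (mr m 0 b) (mr m 0 a) z.swap = zE v w m a b z := by
  obtain ⟨e1, e2, e3, e4⟩ := mr_vals hm b
  obtain ⟨f1, f2, f3, f4⟩ := mr_vals hm a
  simp only [zE, Prod.fst_swap, Prod.snd_swap, e3, f2]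
  congr 1; ring

theorem zh_mr (v w : ℝ) (hm : 2 ≤ m) (z : ℝ × ℝ) :
    zh w v m (mr m 0 b) (mr m 0 a) z.swap = zh v w m a b z := by
  obtain ⟨e1, e2, e3, e4⟩ := z4_mr (a := a) (b := b) v w hm z
  unfold zh
  rw [zE_mr v w hm, e1, e2, e3, e4]
  ring

theorem mini_mr {v w : ℝ} (hm : 2 ≤ m) {z : ℝ × ℝ} (h : Mini v w m a b z) :
    Mini w v m (mr m 0 b) (mr m 0 a) z.swap := by
  refine ⟨(cl_mr hm z).2 h.cl, ?_, ?_, ?_⟩
  · rw [(z4_mr v w hm z).1]; exact h.d
  · rw [zh_mr v w hm]; exact h.neg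
  · intro z' hz'
    have h1 : z'.swap ∈ Rg m a b := by
      rw [← Rg_mr hm]
      rwa [Prod.swap_swap]
    have h2 := h.min _ h1
    rw [← zh_mr v w hm z, ← zh_mr v w hm z'.swap, Prod.swap_swap] at h2
    exact h2

end

end Pool.Agent.Work.MP_b5407d_pos_h13
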