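import Pool.Agent.Work.MP_b5407d_pos_helper13.NCmin
import Pool.Agent.Work.MP_b5407d_pos_helper13.Final

/-! # MP_b5407d_gt (POS), `r = 0`: assembly of the three cases (helper13) -/

set_option autoImplicit false

open MeasureTheory Set Filter Topology

namespace Pool.Agent.Work.MP_b5407d_pos_h13

open Pool.LBM Pool.LBM.Path

theorem mE_pos (v : ℝ) {x : ℝ} (hx : 0 < x) : 0 < mE v x :=
  intervalIntegral.intervalIntegral_pos_of_pos
    ((by fun_prop : Continuous fun s : ℝ => Real.exp (-(v * s))).intervalIntegrable 0 x)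
    (fun _ => Real.exp_pos _) hx

/-- case `W1` -/
def CaseW1 (v w : ℝ) : Prop := ∀ (m : ℕ) (a b : ℕ → ℝ), Std m 0 a b →
  pP v w a b m / pd v w a b m ≤ mE v (a 1) →
  mE v (a 1) * (pN v w a b m 0 / pd v w a b m) ≤ pJ v w a b m →
  pd v w a b m * pM v w a b m 0 ≤ pP v w a b m * pN v w a b m 0

/-- case `W3` -/
def CaseW3 (v w : ℝ) : Prop := ∀ (m : ℕ) (a b : ℕ → ℝ), Std m 0 a b →
  pJ v w a b m ≤ mE v (a 1) * mE w (b m) →
  mE v (a 1) ≤ pP v w a b m / pd v w a b m →
  pJ v w a b m ≤ mE v (a 1) * (pN v w a b m 0 / pd v w a b m) →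
  pd v w a b m * pM v w a b m 0 ≤ pP v w a b m * pN v w a b m 0

/-- the last case -/
def CaseLast (v w : ℝ) : Prop := ∀ (m : ℕ) (a b : ℕ → ℝ), Std m 0 a b →
  mE v (a 1) * mE w (b m) < pJ v w a b m →
  pJ v w a b m ≤ mE w (b m) * (pP v w a b m / pd v w a b m) →
  pJ v w a b m ≤ mE v (a 1) * (pN v w a b m 0 / pd v w a b m) →
  pd v w a b m * pM v w a b m 0 ≤ pP v w a b m * pN v w a b m 0

theorem NC_glue (v w : ℝ) (h1 : CaseW1 v w) (h3 : CaseW3 v w) (hL : CaseLast v w) :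
    ∀ (m : ℕ) (a b : ℕ → ℝ), Std m 0 a b →
      pd v w a b m * pM v w a b m 0 ≤ pP v w a b m * pN v w a b m 0 := by
  refine NC_of_case v w fun m a b h c1 c2 => ?_
  have hm := std_two h
  have ha1 : 0 < a 1 := std_a_pos h (by omega) (by omega)
  have hU : 0 < mE v (a 1) := mE_pos v ha1
  rcases mul_nonneg_iff.1 c2 with ⟨p1, p2⟩ | ⟨p1, p2⟩
  · rcases le_or_gt (pJ v w a b m) (mE v (a 1) * mE w (b m)) with h4 | h4
    · exact h3 m a b h h4 (by linarith) (by linarith)
    · rcases mul_nonneg_iff.1 c1 with ⟨q1, q2⟩ | ⟨q1, q2⟩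
      · exact hL m a b h h4 (by linarith) (by linarith)
      · exfalso
        have : mE v (a 1) * (pN v w a b m 0 / pd v w a b m) ≤ mE v (a 1) * mE w (b m) :=
          mul_le_mul_of_nonneg_left (by linarith) hU.le
        linarith
  · exact h1 m a b h (by linarith) (by linarith)

end Pool.Agent.Work.MP_b5407d_pos_h13
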