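import Pool.Agent.Work.MP_b5407d_pos_helper13.NC5

/-! # MP_b5407d_gt (POS), `r = 0`: reduction to polygons which satisfy the two first order
conditions (helper13) -/

set_option autoImplicit false

open MeasureTheory Set Filter Topology

namespace Pool.Agent.Work.MP_b5407d_pos_h13

open Pool.LBM Pool.LBM.Path

section
variable {m : ℕ} {a b : ℕ → ℝ} {v w : ℝ} {z : ℝ × ℝ}

theorem mini_not_PI (M : Mini v w m a b z) : ¬ PI v w m 0 (fA m a z.1 z.2) (fB m b z.1 z.2) := by
  intro hPI
  have h1 := M.neg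
  have hd := M.d
  have hE := zE_pos v w m a b z
  have h2 : zd v w m a b z * zM v w m a b z ≤ zP v w m a b z * zN v w m a b z := hPI
  have h3 : 0 ≤ zP v w m a b z / zd v w m a b z * zN v w m a b z - zM v w m a b z := by
    have e : zP v w m a b z / zd v w m a b z * zN v w m a b z - zM v w m a b z =
        (zP v w m a b z * zN v w m a b z - zd v w m a b z * zM v w m a b z) /
          zd v w m a b z := by
      field_simp
    rw [e]
    exact div_nonneg (by linarith) hd.le
  have h4 := mul_nonneg hE.le h3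
  unfold zh at h1
  linarith

theorem PI_lim_z {γ : ℝ → ℝ × ℝ} (hγ : Continuous γ)
    (h : ∀ᶠ t in 𝓝[>] (0 : ℝ), PI v w m 0 (fA m a (γ t).1 (γ t).2) (fB m b (γ t).1 (γ t).2)) :
    PI v w m 0 (fA m a (γ 0).1 (γ 0).2) (fB m b (γ 0).1 (γ 0).2) :=
  PI_lim v w m 0 (γ := fun t => fam m a b (γ t)) (fam_cn.comp hγ) h

theorem ev_pos {f : ℝ → ℝ} (hf : Continuous f) (h : 0 < f 0) : ∀ᶠ t in 𝓝[>] (0 : ℝ), 0 < f t :=
  ((continuousAt_const (y := (0 : ℝ))).eventually_lt hf.continuousAt h).filter_mono
    nhdsWithin_le_nhds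

/-- the family and the horizontal cut -/
theorem fam_cut (h : Std m 0 a b) {δ : ℝ} :
    (∀ k ≤ m, fA m a z.1 (z.2 + δ * (fB m b z.1 z.2 2 / b 2)) k =
      tA δ (fA m a z.1 z.2) k) ∧
    (∀ k ≤ m, fB m b z.1 (z.2 + δ * (fB m b z.1 z.2 2 / b 2)) k =
      tB δ (fB m b z.1 z.2) k) := by
  have hm := std_two h
  have hb2 : 0 < b 2 := std_b_pos h hm (by omega) (by omega)
  have hb1 := h.br1
  rw [zero_add] at hb1
  have ham := h.am
  rcases hm.eq_or_lt with h2 | h2
  · subst h2
    have eB2 : fB 2 b z.1 z.2 2 = b 2 + z.1 * (b (2 - 1) - b 2) - z.2 * b 2 := fB_m le_rfl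
    have e21 : (2 : ℕ) - 1 = 1 := rfl
    rw [e21, hb1] at eB2
    have hq : fB 2 b z.1 z.2 2 / b 2 = 1 - z.1 - z.2 := by
      rw [eB2]; field_simp; ring
    constructor
    · intro k hk
      rw [hq]
      interval_cases k
      · rw [fA_0, tA_0, fA_0]
      · rw [fA_1 le_rfl, tA_1, fA_1 le_rfl, fA_m, ham, e21]; ring
      · rw [fA_m, tA_k le_rfl, fA_m]
    · intro k hk
      interval_cases k
      · rw [fB_0, tB_0]
      · rw [fB_1, tB_1]
      · rw [tB_k le_rfl, eB2, fB_m le_rfl, e21, hb1]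
        field_simp
        ring
  · have eB2 : fB m b z.1 z.2 2 = b 2 - z.2 * b 2 := fB_k le_rfl h2
    have hq : fB m b z.1 z.2 2 / b 2 = 1 - z.2 := by
      rw [eB2]; field_simp
    rw [hq]
    constructor
    · intro k hk
      rcases Nat.eq_zero_or_pos k with e0 | e0
      · subst e0; rw [fA_0, tA_0, fA_0]
      · rcases (show 1 ≤ k by omega).eq_or_lt with e1 | e1
        · subst e1
          rw [fA_1 hm, tA_1, fA_1 hm, fA_k le_rfl h2]; ring
        · rw [tA_k e1]
          rcases hk.eq_or_lt with e2 | e2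
          · subst e2; rw [fA_m, fA_m]
          · rw [fA_k e1 e2, fA_k e1 e2]
    · intro k hk
      rcases Nat.eq_zero_or_pos k with e0 | e0
      · subst e0; rw [fB_0, tB_0]
      · rcases (show 1 ≤ k by omega).eq_or_lt with e1 | e1
        · subst e1
          rw [fB_1, tB_1]
        · rw [tB_k e1, eB2]
          rcases hk.eq_or_lt with e2 | e2
          · subst e2; rw [fB_m hm, fB_m hm]; ring
          · rw [fB_k e1 e2, fB_k e1 e2]; ring

/-- first order condition at the minimiser -/
theorem mini_cut (h : Std m 0 a b) (M : Mini v w m a b z) (hσ : z.1 < 1) (hτ : z.2 < 1)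
    (hbe : 0 < be m b z) (hal : 0 < al m a z ∨ a 1 < a 2) :
    0 ≤ (zP v w m a b z / zd v w m a b z - mE v (fA m a z.1 z.2 1)) *
      (mE v (fA m a z.1 z.2 1) * (zN v w m a b z / zd v w m a b z) -
        pJ v w (fA m a z.1 z.2) (fB m b z.1 z.2) m) := by
  obtain ⟨s0, s1, t0, t1, hal0, -⟩ := cl_box M.cl
  have hm := std_two h
  have hb2 : 0 < b 2 := std_b_pos h hm (by omega) (by omega)
  have hB2 : 0 < fB m b z.1 z.2 2 := by
    rcases hm.eq_or_lt with h2 | h2
    · subst h2
      have : fB 2 b z.1 z.2 2 = be 2 b z := fB_m le_rfl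
      rw [this]; exact hbe
    · rw [fB_k le_rfl h2]; nlinarith
  set q := fB m b z.1 z.2 2 / b 2 with hq
  have hq0 : 0 < q := div_pos hB2 hb2
  refine cut_sign v w (m := m) (A := fA m a z.1 z.2) (B := fB m b z.1 z.2) hm fA_0 fA_m fB_0
    fB_1 hB2 M.d.ne' ?_
  have c1 : Continuous fun δ : ℝ => (1 : ℝ) - (z.2 + δ * q) := by fun_prop
  have c2 : Continuous fun δ : ℝ => be m b (z.1, z.2 + δ * q) := be_cont.comp (by fun_prop)
  have c3 : Continuous fun δ : ℝ => al m a (z.1, z.2 + δ * q) := al_cont.comp (by fun_prop)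
  have v1 := ev_pos c1 (by simp only [zero_mul, add_zero]; linarith)
  have v2 := ev_pos c2 (by simp only [zero_mul, add_zero]; exact hbe)
  have v3 : ∀ᶠ δ in 𝓝[>] (0 : ℝ), 0 < al m a (z.1, z.2 + δ * q) := by
    rcases hal with h1 | h1
    · exact ev_pos c3 (by simp only [zero_mul, add_zero]; exact h1)
    · filter_upwards [ev_Ioo] with δ hδ
      have e : al m a (z.1, z.2 + δ * q) = al m a z + δ * q * (a 2 - a 1) := by
        simp only [al]; ring
      rw [e]
      have := mul_pos (mul_pos hδ.1 hq0) (show 0 < a 2 - a 1 by linarith)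
      linarith
  filter_upwards [v1, v2, v3, ev_Ioo] with δ h1 h2 h3 h4
  have hR : ((z.1, z.2 + δ * q) : ℝ × ℝ) ∈ Rg m a b :=
    ⟨s0, hσ, add_nonneg t0 (mul_pos h4.1 hq0).le, by linarith, h3, h2⟩
  have h5 := M.min _ hR
  obtain ⟨f1, f2⟩ := fam_cut (m := m) (a := a) (b := b) (z := z) h (δ := δ)
  obtain ⟨g1, g2, g3, g4⟩ := cg4 v w 0 f1 f2
  have hE := zE_pos v w m a b z
  have eE : zE v w m a b (z.1, z.2 + δ * q) =
      zE v w m a b z * Real.exp (-(w * (δ * fB m b z.1 z.2 2))) := by
    unfold zE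
    rw [← Real.exp_add]
    congr 1
    have : q * b 2 = fB m b z.1 z.2 2 := by rw [hq]; field_simp
    simp only
    linear_combination (-w * δ) * this
  have e1 : zh v w m a b z = zE v w m a b z * hz v w (fA m a z.1 z.2) (fB m b z.1 z.2) m := rfl
  have e2 : zh v w m a b (z.1, z.2 + δ * q) = zE v w m a b (z.1, z.2 + δ * q) *
      hz v w (tA δ (fA m a z.1 z.2)) (tB δ (fB m b z.1 z.2)) m := by
    unfold hz
    rw [← g1, ← g2, ← g3, ← g4]
    rfl
  rw [e1, e2, eE, mul_assoc] at h5
  exact le_of_mul_le_mul_left h5 hE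

theorem pJ_rem0 {n : ℕ} {A B : ℕ → ℝ} (v w : ℝ) (h0 : A 0 = 0) (h1 : A 1 = 0) :
    pJ v w A B (n + 1) = pJ v w (rem 0 A) (rem 0 B) n := by
  have hm1 : (1 : ℝ) ≤ ((n + 1 : ℕ) : ℝ) := by
    push_cast; linarith [(Nat.cast_nonneg n : (0 : ℝ) ≤ n)]
  have em : ((n + 1 : ℕ) : ℝ) - 1 = n := by push_cast; ring
  have hL : pL v w A B ((n + 1 : ℕ) : ℝ) = pL v w (rem 0 A) (rem 0 B) (((n + 1 : ℕ) : ℝ) - 1) :=
    Pool.Agent.Work.MP_b5407d_pos_h19.sh_tot A (pq_cont v w A B) (fun s hs => by
      unfold pq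
      rw [Pool.Agent.Work.MP_b5407d_pos_h19.sh_pl A hs,
        Pool.Agent.Work.MP_b5407d_pos_h19.sh_pl B hs])
      (Pool.Agent.Work.MP_b5407d_pos_h19.first1 A _ h0 h1 zero_le_one le_rfl) hm1
  unfold pJ
  rw [hL, em]

/-- bottom length zero is impossible at the minimiser -/
theorem mini_al (IH : ∀ a b : ℕ → ℝ, Std (m - 1) 0 a b → PI v w (m - 1) 0 a b)
    (h : Std m 0 a b) (M : Mini v w m a b z) : 0 < al m a z := by
  obtain ⟨s0, s1, t0, t1, hal, hbe⟩ := cl_box M.cl
  rcases hal.eq_or_lt with h0 | h0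
  swap
  · exact h0
  exfalso
  have hm := std_two h
  have hcol : (∀ k ≤ m, fA m a z.1 z.2 k = 0) → False := by
    intro hz
    have h1 := pd_a0 v w (b := fB m b z.1 z.2) hz
    have h2 : 0 < pd v w (fA m a z.1 z.2) (fB m b z.1 z.2) m := M.d
    linarith
  have e1 : fA m a z.1 z.2 1 = 0 := by
    rw [fA_1 hm, h0]; rfl
  rcases hm.eq_or_lt with h2 | h2
  · subst h2
    refine hcol fun k hk => ?_
    interval_cases k
    · exact fA_0
    · exact e1
    · exact fA_m
  have ha1 : 0 < a 1 := std_a_pos h (by omega) (by omega)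
  have ha2 : 0 < a 2 := std_a_pos h (by omega) h2
  have ham1 : 0 < a (m - 1) := std_a_pos h (by omega) (by omega)
  have hb2 : 0 < b 2 := std_b_pos h hm (by omega) (by omega)
  have hb1 := h.br1
  rw [zero_add] at hb1
  have ham := h.am
  have hcol3 : m = 3 → z.1 = 1 → False := by
    intro h3 hz1
    subst h3
    refine hcol fun k hk => ?_
    interval_cases k
    · exact fA_0
    · exact e1
    · rw [fA_k le_rfl h2, hz1]
      have : (3 : ℕ) - 1 = 2 := rfl
      rw [this]; ring
    · exact fA_m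
  have hal' : a 1 + z.2 * (a 2 - a 1) = z.1 * a (m - 1) := by
    have : al m a z = 0 := h0.symm
    unfold al at this
    linarith
  -- `be > 0`
  have hbe' : 0 < be m b z := by
    rcases hbe.eq_or_lt with h3 | h3
    swap
    · exact h3
    exfalso
    have hbe0 : b m + z.1 * (b (m - 1) - b m) = z.2 * b 2 := by
      have : be m b z = 0 := h3.symm
      unfold be at this
      linarith
    have d1 := h.conv 1 2 m (by omega) h2 le_rfl
    have d2 := conv_w h.conv (i := 1) (j := 2) (k := m - 1) (by omega) (by omega) (by omega)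
    rw [hb1] at d1 d2
    have key : (1 - z.1) * ((a 2 - a 1) * (b m - 0) - (b 2 - 0) * (a m - a 1)) +
        z.1 * ((a 2 - a 1) * (b (m - 1) - 0) - (b 2 - 0) * (a (m - 1) - a 1)) = 0 := by
      rw [ham]
      linear_combination (a 2 - a 1) * hbe0 + (b 2) * hal'
    have p1 := mul_nonneg (show 0 ≤ 1 - z.1 by linarith) d1.le
    have p2 := mul_nonneg s0 d2
    have q1 : (1 - z.1) * ((a 2 - a 1) * (b m - 0) - (b 2 - 0) * (a m - a 1)) = 0 := by linarith
    have q2 : z.1 * ((a 2 - a 1) * (b (m - 1) - 0) - (b 2 - 0) * (a (m - 1) - a 1)) = 0 := by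
      linarith
    have q3 := (mul_eq_zero.1 q1).resolve_right d1.ne'
    have hz1 : z.1 = 1 := by linarith
    rw [hz1, one_mul] at q2
    by_cases h4 : 2 < m - 1
    · have d3 := h.conv 1 2 (m - 1) (by omega) h4 (by omega)
      rw [hb1] at d3
      linarith
    · exact hcol3 (by omega) hz1
  rcases t1.eq_or_lt with h3 | h3
  · -- `τ = 1`
    have hs : 0 < z.1 := by
      rcases s0.eq_or_lt with h4 | h4
      · exfalso
        rw [h3, ← h4] at hal'
        linarith
      · exact h4
    have hPI := PI_lim_z (v := v) (w := w) (m := m) (a := a) (b := b)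
      (γ := fun t => (z.1 - t, 1)) (by fun_prop) (by
        have c1 : Continuous fun t : ℝ => be m b (z.1 - t, 1) := be_cont.comp (by fun_prop)
        have v1 := ev_pos c1 (by
          have : ((z.1 - 0, 1) : ℝ × ℝ) = z := by rw [sub_zero]; ext <;> simp [h3]
          rw [this]; exact hbe')
        have c2 : Continuous fun t : ℝ => z.1 - t := by fun_prop
        have v2 := ev_pos c2 (by simpa using hs)
        filter_upwards [v1, v2, ev_Ioo] with t g1 g2 g3
        refine PI_t1 v w h h2 g2.le (by linarith [g3.1]) ?_ ?_ IH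
        · rw [h3] at hal'
          have := mul_pos g3.1 ham1
          linarith
        · have : be m b (z.1 - t, 1) = b m + (z.1 - t) * (b (m - 1) - b m) - 1 * b 2 := rfl
          rw [this] at g1; exact g1)
    refine mini_not_PI M ?_
    rw [h3]
    simpa only [sub_zero] using hPI
  -- `a 1 < a 2`
  have h12 : a 1 < a 2 := by
    by_contra hn
    push Not at hn
    have g1 : a 2 ≤ z.1 * a (m - 1) := by
      rw [← hal']; nlinarith
    have g2 : z.1 * a (m - 1) ≤ a 1 := by
      rw [← hal']; nlinarith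
    have g3 : z.1 * a (m - 1) ≤ a (m - 1) := by nlinarith
    by_cases h4 : 2 < m - 1
    · have q := quad h.conv (i := 1) (j := 2) (k := m - 1) (l := m) (by omega) h4 (by omega)
        le_rfl (-1) 0 (-(z.1 * a (m - 1))) (by linarith) (by linarith) (by linarith)
        (by rw [ham]; have := mul_nonneg s0 ham1.le; linarith)
      obtain ⟨q1, -, -, q4⟩ := q
      rw [ham] at q4
      linarith
    · have h5 : m = 3 := by omega
      subst h5
      have e2 : (3 : ℕ) - 1 = 2 := rfl
      rw [e2] at g1 g3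
      refine hcol3 rfl ?_
      have : z.1 * a 2 = 1 * a 2 := by linarith
      exact mul_right_cancel₀ ha2.ne' this
  rcases s1.eq_or_lt with h4 | h4
  · -- `σ = 1`
    have hPI := PI_lim_z (v := v) (w := w) (m := m) (a := a) (b := b)
      (γ := fun t => (1, z.2 + t)) (by fun_prop) (by
        have c1 : Continuous fun t : ℝ => be m b (1, z.2 + t) := be_cont.comp (by fun_prop)
        have v1 := ev_pos c1 (by
          have : ((1, z.2 + 0) : ℝ × ℝ) = z := by rw [add_zero]; ext <;> simp [h4]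
          rw [this]; exact hbe')
        have c2 : Continuous fun t : ℝ => 1 - (z.2 + t) := by fun_prop
        have v2 := ev_pos c2 (by linarith)
        filter_upwards [v1, v2, ev_Ioo] with t g1 g2 g3
        refine PI_s1 v w h h2 (add_nonneg t0 g3.1.le) (by linarith) ?_ ?_ IH
        · rw [h4] at hal'
          have := mul_pos g3.1 (show 0 < a 2 - a 1 by linarith)
          linarith
        · have : be m b (1, z.2 + t) = b m + 1 * (b (m - 1) - b m) - (z.2 + t) * b 2 := rfl
          rw [this] at g1; exact g1)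
    refine mini_not_PI M ?_
    rw [h4]
    simpa only [add_zero] using hPI
  · -- derivative
    have h5 := mini_cut h M h4 h3 hbe' (Or.inr h12)
    rw [e1, mE_zero, sub_zero, zero_mul, zero_sub] at h5
    obtain ⟨n, rfl⟩ : ∃ n, m = n + 1 := ⟨m - 1, by omega⟩
    set A := fA (n + 1) a z.1 z.2 with hA
    set B := fB (n + 1) b z.1 z.2 with hB
    have hr : ∀ (c : ℕ → ℝ) (k : ℕ), rem 0 c k = c (k + 1) := fun c k => by simp [rem]
    have hbe2 : 0 < b (n + 1) + z.1 * (b (n + 1 - 1) - b (n + 1)) - z.2 * b 2 := hbe'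
    have hCP : CP n (rem 0 A) (rem 0 B) := by
      refine ⟨by omega, ?_, ?_, ?_, ?_⟩
      · intro i j k hij hjk hk
        rw [hr, hr, hr, hr, hr, hr]
        exact fam_outer h hm s0 s1 t0 t1 (by omega) (by omega) (by omega) (by omega)
          (Or.inl h3) (Or.inl h4)
      · rw [hr]; exact e1
      · rw [hr, hA, fA_m]
      · rw [hr, hr, hB, fB_m hm, zero_add, fB_1]; exact hbe2
    have hBn : ∀ k ≤ n, 0 ≤ rem 0 B k := by
      intro k hk
      rw [hr, hB]
      rcases Nat.eq_zero_or_pos k with k0 | k0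
      · subst k0; rw [zero_add, fB_1]
      · rcases hk.eq_or_lt with k1 | k1
        · subst k1; rw [fB_m hm]; exact hbe2.le
        · rw [fB_k (by omega) (by omega)]
          exact (fam_b_pos h s0 s1 t0 t1 hbe2 (by omega) (by omega) (Or.inl h3)).le
    have hP := P_pos (v := v) (w := w) hCP hBn
    have hJ := pJ_pos (v := v) (w := w) hCP
    have hA0 : A 0 = 0 := by rw [hA, fA_0]
    obtain ⟨r1, r2, -, -⟩ := Pool.Agent.Work.MP_b5407d_pos_h19.stmt_REM0 n 0 A B v w
      (by omega) hA0 e1
    rw [← r2] at hP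
    rw [← pJ_rem0 v w hA0 e1] at hJ
    have hd : 0 < zd v w (n + 1) a b z := M.d
    have hP' : 0 < zP v w (n + 1) a b z := hP
    have h6 : 0 < zP v w (n + 1) a b z / zd v w (n + 1) a b z := div_pos hP' hd
    have h7 := mul_pos h6 hJ
    linarith

/-- `τ < 1` at the minimiser -/
theorem mini_t (IH : ∀ a b : ℕ → ℝ, Std (m - 1) 0 a b → PI v w (m - 1) 0 a b)
    (h : Std m 0 a b) (M : Mini v w m a b z) (hal : 0 < al m a z) (hbe : 0 < be m b z) :
    z.2 < 1 := by
  obtain ⟨s0, s1, t0, t1, -, -⟩ := cl_box M.cl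
  rcases t1.eq_or_lt with h3 | h3
  swap
  · exact h3
  exfalso
  have hm := std_two h
  rcases hm.eq_or_lt with h2 | h2
  · subst h2
    have ha1 : 0 < a 1 := std_a_pos h (by omega) (by omega)
    have ham := h.am
    unfold al at hal
    have e2 : (2 : ℕ) - 1 = 1 := rfl
    rw [h3, ham, e2] at hal
    have := mul_nonneg s0 ha1.le
    linarith
  rcases s1.eq_or_lt with h4 | h4
  · have hPI := PI_lim_z (v := v) (w := w) (m := m) (a := a) (b := b)
      (γ := fun t => (1 - t, 1)) (by fun_prop) (by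
        have e : ((1 - 0, 1) : ℝ × ℝ) = z := by rw [sub_zero]; ext <;> simp [h3, h4]
        have c1 : Continuous fun t : ℝ => be m b (1 - t, 1) := be_cont.comp (by fun_prop)
        have v1 := ev_pos c1 (by rw [e]; exact hbe)
        have c2 : Continuous fun t : ℝ => al m a (1 - t, 1) := al_cont.comp (by fun_prop)
        have v2 := ev_pos c2 (by rw [e]; exact hal)
        filter_upwards [v1, v2, ev_Ioo] with t g1 g2 g3
        refine PI_t1 v w h h2 (by linarith [g3.2]) (by linarith [g3.1])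
          ?_ ?_ IH
        · have : al m a (1 - t, 1) = a 1 + 1 * (a 2 - a 1) - (1 - t) * a (m - 1) := rfl
          rw [this] at g2; exact g2
        · have : be m b (1 - t, 1) = b m + (1 - t) * (b (m - 1) - b m) - 1 * b 2 := rfl
          rw [this] at g1; exact g1)
    refine mini_not_PI M ?_
    rw [h3, h4]
    simpa only [sub_zero] using hPI
  · have hPI := PI_t1 v w h h2 s0 h4 (by
      unfold al at hal; rw [h3] at hal; exact hal) (by
      unfold be at hbe; rw [h3] at hbe; exact hbe) IH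
    have := mini_not_PI M
    rw [h3] at this
    exact this hPI

/-- mirror of the inequality -/
theorem PI_of_mr (h : Std m 0 a b) (hP : PI w v m 0 (mr m 0 b) (mr m 0 a)) :
    PI v w m 0 a b := by
  obtain ⟨e1, e2, e3, e4⟩ := mr4 v w h.a0 h.am h.br h.br1 h.lt
  unfold PI at hP ⊢
  rw [e1, e2, e3, e4] at hP
  linarith

theorem fam_zero (h : Std m 0 a b) : (∀ k ≤ m, fA m a 0 0 k = a k) ∧
    (∀ k ≤ m, fB m b 0 0 k = b k) := by
  have hm := std_two h
  have hb1 := h.br1
  rw [zero_add] at hb1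
  constructor
  · intro k hk
    rcases Nat.eq_zero_or_pos k with e0 | e0
    · subst e0; rw [fA_0, h.a0]
    · rcases hk.eq_or_lt with e2 | e2
      · subst e2; rw [fA_m, h.am]
      · rcases (show 1 ≤ k by omega).eq_or_lt with e1 | e1
        · subst e1; rw [fA_1 hm]; ring
        · rw [fA_k e1 e2]; ring
  · intro k hk
    rcases Nat.eq_zero_or_pos k with e0 | e0
    · subst e0; rw [fB_0, h.br]
    · rcases (show 1 ≤ k by omega).eq_or_lt with e1 | e1
      · subst e1; rw [fB_1, hb1]
      · rcases hk.eq_or_lt with e2 | e2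
        · subst e2; rw [fB_m hm]; ring
        · rw [fB_k e1 e2]; ring

/-- THE REDUCTION (`r = 0`): it suffices to treat polygons which satisfy the two first order
conditions of the vertical and the horizontal cut -/
theorem NC_of_case (v w : ℝ) (hcase : ∀ (m : ℕ) (a b : ℕ → ℝ), Std m 0 a b →
      0 ≤ (pN v w a b m 0 / pd v w a b m - mE w (b m)) *
        (mE w (b m) * (pP v w a b m / pd v w a b m) - pJ v w a b m) →
      0 ≤ (pP v w a b m / pd v w a b m - mE v (a 1)) *
        (mE v (a 1) * (pN v w a b m 0 / pd v w a b m) - pJ v w a b m) →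
      pd v w a b m * pM v w a b m 0 ≤ pP v w a b m * pN v w a b m 0) :
    ∀ (m : ℕ) (a b : ℕ → ℝ), Std m 0 a b →
      pd v w a b m * pM v w a b m 0 ≤ pP v w a b m * pN v w a b m 0 := by
  intro m
  induction m using Nat.strong_induction_on with
  | _ m IH =>
    intro a b h
    by_contra hn
    have hm := std_two h
    have IH1 : ∀ a b : ℕ → ℝ, Std (m - 1) 0 a b → PI v w (m - 1) 0 a b :=
      fun a b h => IH (m - 1) (by omega) a b h
    have IH2 : ∀ a b : ℕ → ℝ, Std (m - 1) 0 a b → PI w v (m - 1) 0 a b :=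
      fun a b h => PI_of_mr h (IH1 _ _ (std_mr h))
    -- the family starts at the polygon
    obtain ⟨f1, f2⟩ := fam_zero h
    obtain ⟨g1, g2, g3, g4⟩ := cg4 v w 0 f1 f2
    have hd := pd_pos (v := v) (w := w) (CP_of_Std h)
    have hneg : zh v w m a b (0, 0) < 0 := by
      have e : zh v w m a b (0, 0) = zE v w m a b (0, 0) *
          (pP v w a b m / pd v w a b m * pN v w a b m 0 - pM v w a b m 0) := by
        rw [← g1, ← g2, ← g3, ← g4]; rfl
      rw [e]
      refine mul_neg_of_pos_of_neg (zE_pos v w m a b _) ?_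
      have e2 : pP v w a b m / pd v w a b m * pN v w a b m 0 - pM v w a b m 0 =
          (pP v w a b m * pN v w a b m 0 - pd v w a b m * pM v w a b m 0) / pd v w a b m := by
        field_simp
      rw [e2]
      exact div_neg_of_neg_of_pos (by linarith) hd
    obtain ⟨z, M⟩ := exists_mini v w h hneg
    have hmr := std_mr h
    have M' := mini_mr hm M
    have hal := mini_al IH1 h M
    have hbe : 0 < be m b z := by
      have := mini_al IH2 hmr M'
      rwa [al_mr hm] at this
    have ht := mini_t IH1 h M hal hbe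
    have hs : z.1 < 1 := by
      have := mini_t IH2 hmr M' (by rw [al_mr hm]; exact hbe) (by rw [be_mr hm]; exact hal)
      simpa using this
    obtain ⟨s0, s1, t0, t1, -, -⟩ := cl_box M.cl
    have hR : z ∈ Rg m a b := ⟨s0, hs, t0, ht, hal, hbe⟩
    have hS := std_of_Rg h hm hR
    have c2 := mini_cut h M hs ht hbe (Or.inl hal)
    have c1 := mini_cut hmr M' (by simpa using ht) (by simpa using hs)
      (by rw [be_mr hm]; exact hal) (Or.inl (by rw [al_mr hm]; exact hbe))
    obtain ⟨k1, k2, k3, k4⟩ := z4_mr (a := a) (b := b) v w hm z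
    obtain ⟨F1, F2⟩ := fam_mr (a := a) (b := b) hm z
    have eB : fA m (mr m 0 b) z.swap.1 z.swap.2 1 = fB m b z.1 z.2 m := by
      have := F1 1 (by omega)
      have e3 : (fam m (mr m 0 b) (mr m 0 a) z.swap).1 1 =
        fA m (mr m 0 b) z.swap.1 z.swap.2 1 := rfl
      rw [e3] at this
      rw [this, (mr_vals hm _).1]
    have hS' : Std m 0 (fA m (mr m 0 b) z.swap.1 z.swap.2) (fB m (mr m 0 a) z.swap.1 z.swap.2) :=
      std_of_Rg hmr hm ((Rg_mr hm z).2 hR)
    have eJ : pJ w v (fA m (mr m 0 b) z.swap.1 z.swap.2) (fB m (mr m 0 a) z.swap.1 z.swap.2) m =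
        pJ v w (fA m a z.1 z.2) (fB m b z.1 z.2) m := by
      rw [← pJ_mr hS, ← pJ_area (CP_of_Std hS'), ← pJ_area (CP_of_Std (std_mr hS))]
      have : KK m (fA m (mr m 0 b) z.swap.1 z.swap.2) (fB m (mr m 0 a) z.swap.1 z.swap.2) =
          KK m (mr m 0 (fB m b z.1 z.2)) (mr m 0 (fA m a z.1 z.2)) := by
        have G1 : ∀ k ≤ m, fA m (mr m 0 b) z.swap.1 z.swap.2 k =
          mr m 0 (fB m b z.1 z.2) k := F1
        have G2 : ∀ k ≤ m, fB m (mr m 0 a) z.swap.1 z.swap.2 k =
          mr m 0 (fA m a z.1 z.2) k := F2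
        ext x
        simp only [KK, Set.mem_ofPred_eq]
        refine and_congr Iff.rfl (forall_congr' fun k => forall_congr' fun hk => ?_)
        rw [G1 k hk.le, G1 (k + 1) (by omega), G2 k hk.le, G2 (k + 1) (by omega)]
      rw [this]
    rw [k1, k2, k3, eB, eJ] at c1
    exact mini_not_PI M (hcase m _ _ hS c1 c2)

end

end Pool.Agent.Work.MP_b5407d_pos_h13
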