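import Pool.Agent.Work.MP_b5407d_nc_helper97.QSlice
import Pool.Agent.Work.MP_b5407d_pos_helper13.NCglue
import Pool.Agent.Work.MP_b5407d_pos_helper47.W13

/-! # MP_b5407d_gt (POS), `r = 0`: (Q2), its mirror, mirror of the last case (helper13) -/

set_option autoImplicit false

open MeasureTheory Set Filter Topology

namespace Pool.Agent.Work.MP_b5407d_pos_h13

open Pool.LBM Pool.LBM.Path
open Pool.Agent.Work.MP_b5407d_nc_h97 (el fu mu Jh hh yu slice_core mu_cont el_cont fu_cont el_pos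
  fu_pos J_slice d_slice P_slice X_upper hh_nonneg hh_zero hh_min const_case icongr)

section
variable {m : ℕ} {a b : ℕ → ℝ} (v w : ℝ)

/-- the abscissa of the right-most vertices in the hat plane -/
theorem X_max_slice (h : CP m a b) {K : ℕ} (hK : K ≤ m) (hinc : ∀ j < K, a j ≤ a (j + 1))
    (hdec : ∀ j, K ≤ j → j < m → a (j + 1) ≤ a j) {t : ℝ} (h0 : 0 ≤ t) (h1 : t ≤ m)
    (he : pl a t = a K) : pX v w a b t = ∫ x in (0 : ℝ)..(a K), el v w m a b x := by
  have e0 : Psi v w m a b (a K) = ∫ x in (0 : ℝ)..(a K), el v w m a b x := rfl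
  rw [← e0]
  rcases le_total t K with h2 | h2
  · have := Df_zero (v := v) (w := w) h hK hinc h0 h2
    unfold Df at this
    rw [he] at this
    linarith
  · rw [X_upper v w h hK hinc hdec h2 h1, he]
    have : Jh v w m a b (a K) (a K) = 0 := by simp [Jh]
    rw [this]; ring

theorem le_top {K : ℕ} (hKm : K ≤ m) (hinc : ∀ j < K, a j ≤ a (j + 1))
    (hdec : ∀ j, K ≤ j → j < m → a (j + 1) ≤ a j) {j : ℕ} (hj : j ≤ m) : a j ≤ a K := by
  rcases le_total j K with h | h
  · induction h using Nat.decreasingInduction with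
    | self => exact le_rfl
    | of_succ k hk ih => exact (hinc k hk).trans (ih (by omega))
  · induction j, h using Nat.le_induction with
    | base => exact le_rfl
    | succ n hn ih => exact (hdec n hn (by omega)).trans (ih (by omega))

/-- the properties of the height needed for `slice_core` -/
theorem mu_props (h : CP m a b) (hb0 : b 0 = 0) (hb1 : b 1 = 0) {K : ℕ} (hK0 : 0 < K)
    (hK : K < m) (hinc : ∀ j < K, a j ≤ a (j + 1))
    (hdec : ∀ j, K ≤ j → j < m → a (j + 1) ≤ a j)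
    (hρ : mE v (a 1) * mE w (b m) < pJ v w a b m) :
    (∀ x ∈ Icc 0 (a K), 0 ≤ mu w m a b x) ∧ 0 < mu w m a b 0 ∧
    (∀ x ∈ Icc 0 (a K), mu w m a b 0 ≤ mu w m a b x → ∀ s ∈ Icc 0 x,
      mu w m a b 0 ≤ mu w m a b s) ∧
    (∀ x ∈ Icc 0 (a K), mu w m a b x < mu w m a b 0 → ∀ s ∈ Icc x (a K),
      mu w m a b s ≤ mu w m a b x) ∧
    ∃ x ∈ Icc 0 (a K), mu w m a b x ≠ mu w m a b 0 := by
  have haK : 0 < a K := cp_a_pos h hK0 hK
  have hbm : 0 < b m := by have := h.left; rw [hb0] at this; exact this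
  have hmu0 : mu w m a b 0 = mE w (b m) := by unfold mu; rw [hh_zero h hb0]
  have hmE0 : mE w 0 = 0 := mE_zero w
  have mono := Pool.Agent.Work.MP_b5407d_nc_h97.mE_mono w
  refine ⟨?_, ?_, ?_, ?_, ?_⟩
  · intro x hx
    have := mono.monotone (hh_nonneg h hK.le hx.1 hx.2)
    rw [hmE0] at this
    exact this
  · rw [hmu0]
    have := mono hbm
    rw [hmE0] at this
    exact this
  · intro x hx h1 s hs
    have h2 : hh m a b 0 ≤ hh m a b x := mono.le_iff_le.1 h1
    exact mono.monotone (hh_min h hs.1 hs.2 _ le_rfl h2)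
  · intro x hx h1 s hs
    have h2 : hh m a b x < hh m a b 0 := mono.lt_iff_lt.1 h1
    refine mono.monotone ?_
    by_contra hn
    push Not at hn
    rcases hx.1.eq_or_lt with h3 | h3
    · rw [← h3] at h2; exact lt_irrefl _ h2
    · have h4 : hh m a b x < hh m a b x := by
        set cc := min (hh m a b 0) (hh m a b s) with hcc
        have h5 : hh m a b x < cc := lt_min h2 hn
        exact lt_of_lt_of_le h5 (hh_min h h3.le hs.1 cc (min_le_left _ _) (min_le_right _ _))
      exact lt_irrefl _ h4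
  · by_contra hn
    push Not at hn
    have := const_case v w h hb0 hb1 hK0 hK.le hinc hdec hn
    linarith

/-- **(Q2)**: `X_E ≤ M_1` implies `U_L P < J d` -/
theorem Q2_slice (h : CP m a b) (hb0 : b 0 = 0) (hb1 : b 1 = 0) {K : ℕ} (hK0 : 0 < K)
    (hK : K < m) (hinc : ∀ j < K, a j ≤ a (j + 1))
    (hdec : ∀ j, K ≤ j → j < m → a (j + 1) ≤ a j)
    (hρ : mE v (a 1) * mE w (b m) < pJ v w a b m)
    (hE : mE w (b m) * (∫ x in (0 : ℝ)..(a K), el v w m a b x) ≤ pJ v w a b m) :
    mE w (b m) * pP v w a b m < pJ v w a b m * pd v w a b m := by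
  have haK : 0 < a K := cp_a_pos h hK0 hK
  have hmu0 : mu w m a b 0 = mE w (b m) := by unfold mu; rw [hh_zero h hb0]
  obtain ⟨p1, p2, p3, p4, p5⟩ := mu_props v w h hb0 hb1 hK0 hK hinc hdec hρ
  have eJ : pJ v w a b m = ∫ x in (0 : ℝ)..(a K), mu w m a b x * el v w m a b x := by
    rw [J_slice v w h hK.le hinc hdec]
    exact icongr 0 (a K) fun x => mul_comm _ _
  have ed : pd v w a b m = ∫ x in (0 : ℝ)..(a K), fu v w m a b x * mu w m a b x := by
    rw [d_slice v w h hK.le hinc hdec]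
    exact icongr 0 (a K) fun x => mul_comm _ _
  have eP : pP v w a b m = ∫ x in (0 : ℝ)..(a K),
      (fu v w m a b x * (∫ s in x..(a K), mu w m a b s * el v w m a b s) +
        (∫ s in x..(a K), fu v w m a b s * mu w m a b s) * el v w m a b x) := by
    rw [P_slice v w h hK.le hinc hdec]
    refine icongr 0 (a K) fun x => ?_
    have f1 : ∫ s in x..(a K), mu w m a b s * el v w m a b s =
        ∫ s in x..(a K), el v w m a b s * mu w m a b s := icongr x (a K) fun s => mul_comm _ _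
    have f2 : ∫ s in x..(a K), fu v w m a b s * mu w m a b s =
        ∫ s in x..(a K), mu w m a b s * fu v w m a b s := icongr x (a K) fun s => mul_comm _ _
    rw [f1, f2]; ring
  rw [← hmu0, eJ] at hE
  have hcore := slice_core haK (mu_cont (m := m) (a := a) (b := b) w) (fu_cont (m := m) (a := a) (b := b) v w)
    (el_cont (m := m) (a := a) (b := b) v w) (fu_pos v w) (el_pos v w)
    p1 p2 p3 p4 hE p5
  rw [← eP, ← ed, ← eJ, hmu0] at hcore
  linarith

/-- **(Q2)** for the path -/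
theorem Q2 (h : CP m a b) (hb0 : b 0 = 0) (hb1 : b 1 = 0)
    (hρ : mE v (a 1) * mE w (b m) < pJ v w a b m)
    (hD : pJ v w a b m * pd v w a b m ≤ mE w (b m) * pP v w a b m)
    {k : ℕ} (hk : k ≤ m) (hmax : ∀ j ≤ m, a j ≤ a k) :
    pJ v w a b m < mE w (b m) * pX v w a b k := by
  by_contra hn
  push Not at hn
  obtain ⟨K, hK0, hK, hinc, hdec⟩ := uni h
  have e : pl a k = a K := by
    rw [pl_nat]
    exact le_antisymm (le_top hK.le hinc hdec hk) (hmax K hK.le)
  rw [X_max_slice v w h hK.le hinc hdec (Nat.cast_nonneg k) (by exact_mod_cast hk) e] at hn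
  have := Q2_slice v w h hb0 hb1 hK0 hK hinc hdec hρ hn
  linarith

/-- hat ordinate of the mirrored polygon -/
theorem pX_mir (h : Std m 0 a b) {s : ℝ} (hs : s ∈ Icc (1 : ℝ) m) :
    pX w v (mr m 0 b) (mr m 0 a) s =
      Pool.Agent.Work.MP_b5407d_pos_h47.pY v w a b m ((m : ℝ) + 1 - s) := by
  have h1 := pX_mr2 (r := 0) (a := a) (b := b) v w h.a0 h.am h.lt (s := s) (by
    simpa using hs)
  rw [h1]
  have e1 : (((m + 0 + 1 : ℕ) : ℝ)) - s = (m : ℝ) + 1 - s := by push_cast; ring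
  have e2 : Yf 0 a b v w 0 = 0 := by unfold Yf; simp
  have e3 := (Pool.Agent.Work.MP_b5407d_pos_h47.YAC (v := v) (w := w) (a := a) (b := b) m).eq
    (m : ℝ) ((m : ℝ) + 1 - s)
  rw [e1, e2, e3, Pool.Agent.Work.MP_b5407d_pos_h47.Y_m h, h.br, mE_zero]
  ring

/-- **mirror of (Q2)** -/
theorem mQ2 (h : Std m 0 a b)
    (hρ : mE v (a 1) * mE w (b m) < pJ v w a b m)
    (hD : pJ v w a b m * pd v w a b m ≤ mE v (a 1) * pN v w a b m 0)
    {k : ℕ} (hk : k ≤ m) (hmax : ∀ j ≤ m, b j ≤ b k) :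
    pJ v w a b m < mE v (a 1) * Pool.Agent.Work.MP_b5407d_pos_h47.pY v w a b m k := by
  have hm := std_two h
  have hb1 := h.br1
  rw [zero_add] at hb1
  have hbm : 0 < b m := by have := h.left; rwa [h.br] at this
  have hk2 : 1 ≤ k := by
    rcases Nat.eq_zero_or_pos k with h0 | h0
    · exfalso
      have := hmax m le_rfl
      rw [h0, h.br] at this
      linarith
    · exact h0
  have hS := std_mr h
  have hC := CP_of_Std hS
  obtain ⟨e1, e2, e3, e4⟩ := mr4 v w h.a0 h.am h.br h.br1 h.lt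
  have a1 : mr m 0 b 1 = b m := (mr_vals hm b).1
  have a2 : mr m 0 a m = a 1 := (mr_vals hm a).2.2.2
  have hk' : m + 1 - k ≤ m := by omega
  have ek : mr m 0 b (m + 1 - k) = b k := by
    rw [mr_k b (by omega)]; congr 1; omega
  have := Q2 w v hC hS.br (by simpa using hS.br1) (by rw [a1, a2, pJ_mr h, mul_comm]; exact hρ)
    (by rw [a2, pJ_mr h, e1, e2]; exact hD) hk' (by
      intro j hj
      rw [ek]
      rcases Nat.eq_zero_or_pos j with h0 | h0
      · rw [h0, mr_0]; exact hmax 0 (by omega)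
      · rw [mr_k b h0]; exact hmax _ (by omega))
  rw [a2, pJ_mr h, pX_mir v w h (s := ((m + 1 - k : ℕ) : ℝ)) ⟨by
    exact_mod_cast (show 1 ≤ m + 1 - k by omega), by exact_mod_cast hk'⟩] at this
  have e5 : (m : ℝ) + 1 - ((m + 1 - k : ℕ) : ℝ) = k := by
    rw [Nat.cast_sub (by omega)]; push_cast; ring
  rw [e5] at this
  exact this

/-- mirror of the last case -/
theorem last_mirror (hL : CaseLast w v) : CaseLast v w := by
  intro m a b h h1 h2 h3
  have hm := std_two h
  obtain ⟨e1, e2, e3, e4⟩ := mr4 v w h.a0 h.am h.br h.br1 h.lt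
  have a1 : mr m 0 b 1 = b m := (mr_vals hm b).1
  have a2 : mr m 0 a m = a 1 := (mr_vals hm a).2.2.2
  refine PI_of_mr h (hL m _ _ (std_mr h) ?_ ?_ ?_)
  · rw [a1, a2, pJ_mr h, mul_comm]; exact h1
  · rw [a2, pJ_mr h, e1, e2]; exact h3
  · rw [a1, pJ_mr h, e1, e3]; exact h2

end

end Pool.Agent.Work.MP_b5407d_pos_h13
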