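import Pool.Agent.Work.MP_b5407d_pos_helper13.POSLast
import Pool.Agent.Work.MP_b5407d_pos_helper9.LastNeg
import Pool.Agent.Work.MP_b5407d_pos_helper57.LastPP2

/-! # MP_b5407d_gt: POS from the comparison at `P2` (helper13) -/

set_option autoImplicit false

open MeasureTheory Set Filter Topology

namespace Pool.Agent.Work.MP_b5407d_pos_h13

open Pool.LBM Pool.Agent.Work.MP_b5407d_pos_h47

theorem inQ1 {v w : ℝ} (hw : w ≠ 0) : Pool.Agent.Work.MP_b5407d_pos_h57.InQ1 v w := by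
  intro m a b p q h S hρ hD
  by_contra hn
  push Not at hn
  have h1 := Pool.Agent.Work.MP_b5407d_pos_h9.LA.step_i h S
    (Pool.Agent.Work.MP_b5407d_pos_h9.LA.idn hw h) hn
  have h2 := Pool.Agent.Work.MP_b5407d_pos_h9.LA.Q1s h S hρ h1
  linarith

theorem inQ2 (v w : ℝ) : Pool.Agent.Work.MP_b5407d_pos_h57.InQ2 v w := by
  intro m a b p q h S hρ hD
  rw [X_pq S]
  by_contra hn
  push Not at hn
  have := Pool.Agent.Work.MP_b5407d_nc_h97.Q2 h S hρ hn
  linarith

theorem inZa (hZa : Pool.Agent.Work.MP_b5407d_pos_h9.LA.SZa) {v w : ℝ} (hw : w ≠ 0) :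
    Pool.Agent.Work.MP_b5407d_pos_h57.InZa v w := by
  intro m a b p q h S hρ z2 t2 hz ht hY hX hall
  have hX0 := X0_pos v h
  have htm : t2 < m := by
    rcases ht.2.eq_or_lt with h1 | h1
    · exfalso
      rw [h1, Y_m h] at hY
      rw [← hY, mul_comm] at hz
      linarith
    · exact h1
  have h2 := (Pool.Agent.Work.MP_b5407d_pos_h57.X_strictAnti (v := v) (w := w) S)
    ht ⟨ht.1.trans ht.2, le_rfl⟩ htm
  rw [X_m h] at h2
  exact hZa v w m p q a b z2 t2 hw h S (by linarith) hz ht.1 ht.2 hY hX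
    (fun t g1 g2 g3 => hall t ⟨g1, g2⟩ g3)

/-- **POS from the comparison at `P2`** -/
theorem POS_of_Za (hZa : Pool.Agent.Work.MP_b5407d_pos_h9.LA.SZa) : POS :=
  POS_of_last_signs
    (fun _ _ _ hw => Pool.Agent.Work.MP_b5407d_pos_h9.LA.caseLast_neg hZa hw)
    (fun _ _ hv hw => Pool.Agent.Work.MP_b5407d_pos_h57.lastPP_of
      (fun _ _ _ hw => inQ1 hw.ne') (fun v w _ _ => inQ2 v w) (fun _ _ _ hw => inZa hZa hw.ne')
      hv hw)

end Pool.Agent.Work.MP_b5407d_pos_h13
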