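import Pool.Agent.Work.MP_b5407d_pos_helper13.Close
import Pool.Agent.Work.MP_b5407d_pos_helper13.QM

/-! # MP_b5407d_gt: POS from the last case (helper13) -/

set_option autoImplicit false

namespace Pool.Agent.Work.MP_b5407d_pos_h13

open Pool.LBM

theorem caseW1 (v w : ℝ) (hw : w ≠ 0) : CaseW1 v w := fun _ _ _ h h1 h2 =>
  Pool.Agent.Work.MP_b5407d_pos_h47.W1q hw h h1 h2

theorem caseW3 (v w : ℝ) (hw : w ≠ 0) : CaseW3 v w := fun _ _ _ h h1 h2 h3 =>
  Pool.Agent.Work.MP_b5407d_pos_h47.W3q hw h h1 h2 h3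

/-- **POS from the last case** -/
theorem POS_of_last (hL : ∀ v w : ℝ, v ≠ 0 → w ≠ 0 → CaseLast v w) : POS :=
  POS_of_cases (fun v w _ hw => caseW1 v w hw) (fun v w _ hw => caseW3 v w hw) hL

/-- **POS from the last case**, two sign classes -/
theorem POS_of_last_signs (h1 : ∀ v w : ℝ, v ≠ 0 → w < 0 → CaseLast v w)
    (h2 : ∀ v w : ℝ, 0 < v → 0 < w → CaseLast v w) : POS := by
  refine POS_of_last fun v w hv hw => ?_
  rcases lt_or_gt_of_ne hw with h | h
  · exact h1 v w hv h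
  · rcases lt_or_gt_of_ne hv with h' | h'
    · exact last_mirror v w (h1 w v hw h')
    · exact h2 v w h' h

end Pool.Agent.Work.MP_b5407d_pos_h13
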