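import Pool.Agent.Work.MP_b5407d_pos_helper13.Quad

/-! # MP_b5407d_gt (POS), `r = 0`: `P > 0` (helper13) -/

set_option autoImplicit false

open MeasureTheory Set Filter Topology

namespace Pool.Agent.Work.MP_b5407d_pos_h13

open Pool.LBM Pool.LBM.Path

section
variable {m : ℕ} {a b : ℕ → ℝ} (v w : ℝ)

/-- `X` along the lower boundary -/
noncomputable def Psi (v w : ℝ) (m : ℕ) (a b : ℕ → ℝ) (x : ℝ) : ℝ :=
  ∫ s in (0 : ℝ)..x, Real.exp (-(v * s) - w * yl m a b s)

theorem Psi_int_cont : Continuous (fun s => Real.exp (-(v * s) - w * yl m a b s)) := by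
  have := yl_cont (m := m) (a := a) (b := b)
  fun_prop

theorem Psi_deriv (x : ℝ) : HasDerivAt (Psi v w m a b)
    (Real.exp (-(v * x) - w * yl m a b x)) x :=
  intervalIntegral.integral_hasDerivAt_right
    ((Psi_int_cont v w).intervalIntegrable 0 x)
    ((Psi_int_cont v w).stronglyMeasurable.stronglyMeasurableAtFilter)
    (Psi_int_cont v w).continuousAt

theorem Psi_cont : Continuous (Psi v w m a b) :=
  continuous_iff_continuousAt.2 fun x => (Psi_deriv v w x).continuousAt

theorem Psi_contDiff : ContDiff ℝ 1 (Psi v w m a b) := by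
  rw [contDiff_one_iff_deriv]
  refine ⟨fun x => (Psi_deriv v w x).differentiableAt, ?_⟩
  have : deriv (Psi v w m a b) = fun x => Real.exp (-(v * x) - w * yl m a b x) := by
    funext x; exact (Psi_deriv v w x).deriv
  rw [this]; exact Psi_int_cont v w

theorem Psi_nonneg {x : ℝ} (hx : 0 ≤ x) : 0 ≤ Psi v w m a b x :=
  intervalIntegral.integral_nonneg hx fun _ _ => (Real.exp_pos _).le

theorem Psi_pos {x : ℝ} (hx : 0 < x) : 0 < Psi v w m a b x :=
  intervalIntegral.intervalIntegral_pos_of_pos ((Psi_int_cont v w).intervalIntegrable 0 x)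
    (fun _ => Real.exp_pos _) hx

/-- `X - Psi` -/
noncomputable def Df (v w : ℝ) (m : ℕ) (a b : ℕ → ℝ) (t : ℝ) : ℝ :=
  pX v w a b t - Psi v w m a b (pl a t)

theorem Df_cont : Continuous (Df v w m a b) :=
  (pX_cont v w a b).sub ((Psi_cont v w).comp (cont_pl a))

/-- integrand of `Df` -/
noncomputable def dg (v w : ℝ) (m : ℕ) (a b : ℕ → ℝ) (t : ℝ) : ℝ :=
  pe v w a b t - Real.exp (-(v * pl a t) - w * yl m a b (pl a t))

theorem dg_cont : Continuous (dg v w m a b) :=
  (pe_cont v w a b).sub ((Psi_int_cont v w).comp (cont_pl a))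

theorem Df_eq (h : CP m a b) (t : ℝ) :
    Df v w m a b t = ∫ s in (0 : ℝ)..t, dg v w m a b s * dpl a s := by
  have h1 := ftc (F := Df v w m a b) (F' := fun s => dg v w m a b s * dpl a s)
    (Df_cont v w) (fun s hs => by
      refine ((pX_deriv v w a b hs).sub ((Psi_deriv v w (pl a s)).comp s
        (deriv_pl a hs))).congr_deriv ?_
      unfold dg
      ring) (s := 0) (t := t) (mul_ii a (dg_cont v w) 0 t)
  rw [h1]
  have e : Df v w m a b 0 = 0 := by
    simp [Df, pX, Psi, h.a0]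
  rw [e, sub_zero]

/-- pointwise description off the integers -/
theorem edge_cases {t : ℝ} (h0 : 0 < t) (hm : t < m) (ht : t ∉ Nt) :
    ∃ k, k < m ∧ (k : ℝ) < t ∧ t < k + 1 ∧ ∀ c : ℕ → ℝ, dpl c t = c (k + 1) - c k := by
  refine ⟨⌊t⌋₊, ?_, ?_, Nat.lt_floor_add_one t, fun c => rfl⟩
  · exact (Nat.floor_lt h0.le).2 hm
  · exact lt_of_le_of_ne (Nat.floor_le h0.le) (fun h' => ht ⟨⌊t⌋₊, h'⟩)

theorem ae_Nt : ∀ᵐ t : ℝ, t ∉ Nt := by
  have : volume Nt = 0 := Nt_countable.measure_zero volume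
  exact measure_eq_zero_iff_ae_notMem.1 this

variable {v w}

theorem dg_zero (h : CP m a b) {k : ℕ} (hk : k < m) (hak : a k < a (k + 1)) {t : ℝ}
    (h1 : (k : ℝ) ≤ t) (h2 : t ≤ k + 1) : dg v w m a b t = 0 := by
  unfold dg pe
  rw [yl_path_eq h hk hak h1 h2, sub_self]

/-- `X - Psi = 0` before the turning point -/
theorem Df_zero (h : CP m a b) {K : ℕ} (hK : K ≤ m) (hmon : ∀ j < K, a j ≤ a (j + 1)) {t : ℝ}
    (h0 : 0 ≤ t) (ht : t ≤ K) : Df v w m a b t = 0 := by
  rw [Df_eq v w h]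
  have hKm : (K : ℝ) ≤ m := by exact_mod_cast hK
  have e : (∫ s in (0 : ℝ)..t, dg v w m a b s * dpl a s) = ∫ s in (0 : ℝ)..t, (0 : ℝ) := by
    refine intervalIntegral.integral_congr_ae ?_
    have hne : ∀ᵐ s : ℝ, s ≠ t := by rw [ae_iff]; simp
    filter_upwards [ae_Nt, hne] with s hs hst hsI
    rw [uIoc_of_le h0] at hsI
    have hlt : s < t := lt_of_le_of_ne hsI.2 hst
    obtain ⟨k, hk, hk1, hk2, hd⟩ := edge_cases (m := m) hsI.1 (by linarith) hs
    have hkK : k < K := by
      have : (k : ℝ) < K := by linarith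
      exact_mod_cast this
    rw [hd a]
    rcases (hmon k hkK).eq_or_lt with h3 | h3
    · rw [h3, sub_self, mul_zero]
    · rw [dg_zero h hk h3 hk1.le hk2.le, zero_mul]
  rw [e]; simp

theorem dgd_nonpos (h : CP m a b) (hw : w ≤ 0) {s : ℝ} (h0 : 0 < s) (hm : s < m)
    (hs : s ∉ Nt) : dg v w m a b s * dpl a s ≤ 0 := by
  obtain ⟨k, hk, hk1, hk2, hd⟩ := edge_cases (m := m) h0 hm hs
  rw [hd a]
  rcases lt_or_ge (a k) (a (k + 1)) with h3 | h3
  · rw [dg_zero h hk h3 hk1.le hk2.le, zero_mul]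
  · refine mul_nonpos_of_nonneg_of_nonpos ?_ (by linarith)
    unfold dg pe
    have := yl_path_le h h0.le hm.le
    have h4 : w * pl b s ≤ w * yl m a b (pl a s) := mul_le_mul_of_nonpos_left this hw
    have h5 : Real.exp (-(v * pl a s) - w * yl m a b (pl a s)) ≤
        Real.exp (-(v * pl a s) - w * pl b s) := Real.exp_le_exp.2 (by linarith)
    linarith

theorem dgd_nonneg (h : CP m a b) (hw : 0 ≤ w) {s : ℝ} (h0 : 0 < s) (hm : s < m)
    (hs : s ∉ Nt) : 0 ≤ dg v w m a b s * dpl a s := by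
  obtain ⟨k, hk, hk1, hk2, hd⟩ := edge_cases (m := m) h0 hm hs
  rw [hd a]
  rcases lt_or_ge (a k) (a (k + 1)) with h3 | h3
  · rw [dg_zero h hk h3 hk1.le hk2.le, zero_mul]
  · refine mul_nonneg_of_nonpos_of_nonpos ?_ (by linarith)
    unfold dg pe
    have := yl_path_le h h0.le hm.le
    have h4 : w * yl m a b (pl a s) ≤ w * pl b s := mul_le_mul_of_nonneg_left this hw
    have h5 : Real.exp (-(v * pl a s) - w * pl b s) ≤
        Real.exp (-(v * pl a s) - w * yl m a b (pl a s)) := Real.exp_le_exp.2 (by linarith)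
    linarith

theorem Df_nonpos (h : CP m a b) (hw : w ≤ 0) {t : ℝ} (h0 : 0 ≤ t) (hm : t ≤ m) :
    Df v w m a b t ≤ 0 := by
  rw [Df_eq v w h]
  have e : (∫ s in (0 : ℝ)..t, dg v w m a b s * dpl a s) ≤ ∫ s in (0 : ℝ)..t, (0 : ℝ) := by
    refine intervalIntegral.integral_mono_ae_restrict h0 (mul_ii a (dg_cont v w) 0 t)
      intervalIntegrable_const ?_
    rw [EventuallyLE, ae_restrict_iff' measurableSet_Icc]
    have hne : ∀ᵐ s : ℝ, s ≠ t := by rw [ae_iff]; simp
    have hne0 : ∀ᵐ s : ℝ, s ≠ 0 := by rw [ae_iff]; simp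
    filter_upwards [ae_Nt, hne, hne0] with s hs hst hs0 hsI
    have hlt : s < t := lt_of_le_of_ne hsI.2 hst
    exact dgd_nonpos h hw (lt_of_le_of_ne hsI.1 (Ne.symm hs0)) (by linarith) hs
  simpa using e

theorem Df_nonneg (h : CP m a b) (hw : 0 ≤ w) {t : ℝ} (h0 : 0 ≤ t) (hm : t ≤ m) :
    0 ≤ Df v w m a b t := by
  rw [Df_eq v w h]
  have e : (∫ s in (0 : ℝ)..t, (0 : ℝ)) ≤ ∫ s in (0 : ℝ)..t, dg v w m a b s * dpl a s := by
    refine intervalIntegral.integral_mono_ae_restrict h0 intervalIntegrable_const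
      (mul_ii a (dg_cont v w) 0 t) ?_
    rw [EventuallyLE, ae_restrict_iff' measurableSet_Icc]
    have hne : ∀ᵐ s : ℝ, s ≠ t := by rw [ae_iff]; simp
    have hne0 : ∀ᵐ s : ℝ, s ≠ 0 := by rw [ae_iff]; simp
    filter_upwards [ae_Nt, hne, hne0] with s hs hst hs0 hsI
    have hlt : s < t := lt_of_le_of_ne hsI.2 hst
    exact dgd_nonneg h hw (lt_of_le_of_ne hsI.1 (Ne.symm hs0)) (by linarith) hs
  simpa using e

/-- sign of `∫ (X - Psi) f dx`, `w ≤ 0` -/
theorem intD_nonneg (h : CP m a b) (hw : w ≤ 0) {f : ℝ → ℝ} (hf : Continuous f)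
    (hf0 : ∀ t : ℝ, 0 ≤ t → t ≤ m → 0 ≤ f t) :
    0 ≤ ∫ t in (0 : ℝ)..m, (Df v w m a b t * f t) * dpl a t := by
  obtain ⟨K, hK0, hKm, hinc, hdec⟩ := uni h
  have hc : Continuous fun t => Df v w m a b t * f t := (Df_cont v w).mul hf
  have e : (∫ s in (0 : ℝ)..m, (0 : ℝ)) ≤ ∫ t in (0 : ℝ)..m, (Df v w m a b t * f t) *
      dpl a t := by
    refine intervalIntegral.integral_mono_ae_restrict (Nat.cast_nonneg m)
      intervalIntegrable_const (mul_ii a hc 0 m) ?_
    rw [EventuallyLE, ae_restrict_iff' measurableSet_Icc]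
    have hne : ∀ᵐ s : ℝ, s ≠ (m : ℝ) := by rw [ae_iff]; simp
    have hne0 : ∀ᵐ s : ℝ, s ≠ 0 := by rw [ae_iff]; simp
    filter_upwards [ae_Nt, hne, hne0] with s hs hst hs0 hsI
    have hlt : s < m := lt_of_le_of_ne hsI.2 hst
    obtain ⟨k, hk, hk1, hk2, hd⟩ := edge_cases (m := m)
      (lt_of_le_of_ne hsI.1 (Ne.symm hs0)) hlt hs
    rcases Nat.lt_or_ge k K with h3 | h3
    · rw [Df_zero h hKm.le hinc hsI.1 (by
        have : (k : ℝ) + 1 ≤ K := by exact_mod_cast h3
        linarith)]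
      simp
    · rw [hd a]
      have h4 := hdec k h3 hk
      have h5 := Df_nonpos (v := v) h hw hsI.1 hsI.2
      exact mul_nonneg_of_nonpos_of_nonpos
        (mul_nonpos_of_nonpos_of_nonneg h5 (hf0 s hsI.1 hsI.2)) (by linarith)
  simpa using e

/-- sign of `∫ (X - Psi) f dx`, `0 ≤ w` -/
theorem intD_nonpos (h : CP m a b) (hw : 0 ≤ w) {f : ℝ → ℝ} (hf : Continuous f)
    (hf0 : ∀ t : ℝ, 0 ≤ t → t ≤ m → 0 ≤ f t) :
    (∫ t in (0 : ℝ)..m, (Df v w m a b t * f t) * dpl a t) ≤ 0 := by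
  obtain ⟨K, hK0, hKm, hinc, hdec⟩ := uni h
  have hc : Continuous fun t => Df v w m a b t * f t := (Df_cont v w).mul hf
  have e : (∫ t in (0 : ℝ)..m, (Df v w m a b t * f t) *
      dpl a t) ≤ ∫ s in (0 : ℝ)..m, (0 : ℝ) := by
    refine intervalIntegral.integral_mono_ae_restrict (Nat.cast_nonneg m)
      (mul_ii a hc 0 m) intervalIntegrable_const ?_
    rw [EventuallyLE, ae_restrict_iff' measurableSet_Icc]
    have hne : ∀ᵐ s : ℝ, s ≠ (m : ℝ) := by rw [ae_iff]; simp
    have hne0 : ∀ᵐ s : ℝ, s ≠ 0 := by rw [ae_iff]; simp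
    filter_upwards [ae_Nt, hne, hne0] with s hs hst hs0 hsI
    have hlt : s < m := lt_of_le_of_ne hsI.2 hst
    obtain ⟨k, hk, hk1, hk2, hd⟩ := edge_cases (m := m)
      (lt_of_le_of_ne hsI.1 (Ne.symm hs0)) hlt hs
    rcases Nat.lt_or_ge k K with h3 | h3
    · rw [Df_zero h hKm.le hinc hsI.1 (by
        have : (k : ℝ) + 1 ≤ K := by exact_mod_cast h3
        linarith)]
      simp
    · rw [hd a]
      have h4 := hdec k h3 hk
      have h5 := Df_nonneg (v := v) h hw hsI.1 hsI.2
      exact mul_nonpos_of_nonneg_of_nonpos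
        (mul_nonneg h5 (hf0 s hsI.1 hsI.2)) (by linarith)
  simpa using e

/-- positivity of area integrals -/
theorem area_pos (h : CP m a b) {f : R2 → ℝ} (hf : Continuous f)
    (h0 : ∀ z ∈ KK m a b, 0 ≤ f z) (h1 : ∀ z ∈ KK m a b, 0 < z.1 → 0 < f z) :
    0 < ∫ z in KK m a b, f z := by
  have hm := h.two
  have hi : IntegrableOn f (KK m a b) volume :=
    hf.continuousOn.integrableOn_compact (KK_compact h)
  have hmeas : MeasurableSet (KK m a b) := (KK_closed m a b).measurableSet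
  rw [setIntegral_pos_iff_support_of_nonneg_ae
    ((ae_restrict_iff' hmeas).2 (Eventually.of_forall fun z hz => h0 z hz)) hi]
  set p1 : R2 := (a 0, b 0)
  set p2 : R2 := (a 1, b 1)
  set p3 : R2 := (a m, b m)
  have hpos : 0 < cr (p2 - p1) (p3 - p1) := by
    have := h.conv 0 1 m (by omega) (by omega) le_rfl
    simp only [cr, Prod.fst_sub, Prod.snd_sub, p1, p2, p3]
    exact this
  have hsub : UT p1 p2 p3 ⊆ KK m a b := UT_sub hpos (KK_vertex h (by omega))
    (KK_vertex h (by omega)) (KK_vertex h le_rfl)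
  refine lt_of_lt_of_le ((UT_open p1 p2 p3).measure_pos volume (UT_nonempty hpos))
    (measure_mono fun z hz => ⟨?_, hsub hz⟩)
  have hz1 : 0 < z.1 := by
    have h3 := hz.2.2
    simp only [cr, Prod.fst_sub, Prod.snd_sub, p1, p3, h.a0, h.am] at h3
    have h4 := h.left
    have h5 : 0 < z.1 * (b m - b 0) := by linarith
    exact pos_left h5 (by linarith)
  exact (h1 z (hsub hz) hz1).ne'

/-- `P > 0`, `w < 0` -/
theorem P_pos_neg (h : CP m a b) (hw : w < 0) : 0 < pP v w a b m := by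
  have h1 := Pool.LBM.PC.part1 v w a b m 0 h.a0 h.am
  have hec := pe_cont v w a b
  have hen := pe_ne v w a b
  -- Green
  have hΦ : ContDiff ℝ 1 (fun z : R2 => Psi v w m a b z.1 * Real.exp (v * z.1 + w * z.2)) :=
    ((Psi_contDiff v w).comp cd_fst).mul (Real.contDiff_exp.comp
      ((contDiff_const.mul cd_fst).add (contDiff_const.mul cd_snd)))
  have g1 := green_y h hΦ
  have g2 : ∀ z : R2, fderiv ℝ (fun z : R2 => Psi v w m a b z.1 *
      Real.exp (v * z.1 + w * z.2)) z (0, 1) =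
      w * (Psi v w m a b z.1 * Real.exp (v * z.1 + w * z.2)) := by
    intro z
    apply fderiv_dir hΦ
    have h5 : HasDerivAt (fun s : ℝ => Psi v w m a b z.1 *
        Real.exp (v * z.1 + w * (z.2 + s)))
        (Psi v w m a b z.1 * (Real.exp (v * z.1 + w * (z.2 + 0)) * (w * 1))) 0 :=
      (((((hasDerivAt_id (0:ℝ)).const_add z.2).const_mul w).const_add (v * z.1)).exp).const_mul _
    have h4 : (fun s : ℝ => Psi v w m a b (z + s • ((0:ℝ), (1:ℝ))).1 *
        Real.exp (v * (z + s • ((0:ℝ), (1:ℝ))).1 + w * (z + s • ((0:ℝ), (1:ℝ))).2)) =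
        fun s : ℝ => Psi v w m a b z.1 * Real.exp (v * z.1 + w * (z.2 + s)) := by
      funext s; simp
    rw [h4]
    refine h5.congr_deriv ?_
    rw [add_zero]; ring
  simp only [g2] at g1
  rw [integral_const_mul] at g1
  have hΨc : Continuous (fun z : R2 => Psi v w m a b z.1 * Real.exp (v * z.1 + w * z.2)) :=
    hΦ.continuous
  have g3 : 0 < ∫ z in KK m a b, Psi v w m a b z.1 * Real.exp (v * z.1 + w * z.2) :=
    area_pos h hΨc (fun z hz => mul_nonneg (Psi_nonneg v w hz.1) (Real.exp_pos _).le)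
      (fun z hz h0 => mul_pos (Psi_pos v w h0) (Real.exp_pos _))
  -- decomposition
  have hD := intD_nonneg (v := v) h hw.le (f := fun t => (pe v w a b t)⁻¹)
    (hec.inv₀ hen) (fun t _ _ => (inv_pos.2 (pe_pos v w a b t)).le)
  have c1 : Continuous fun t => Df v w m a b t * (pe v w a b t)⁻¹ :=
    (Df_cont v w).mul (hec.inv₀ hen)
  have c2 : Continuous fun t => Psi v w m a b (pl a t) *
      Real.exp (v * pl a t + w * pl b t) :=
    hΨc.comp ((cont_pl a).prodMk (cont_pl b))
  have e1 : (∫ t in (0 : ℝ)..m, pu v w a b 0 t * dpl a t) =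
      -((∫ t in (0 : ℝ)..m, (Df v w m a b t * (pe v w a b t)⁻¹) * dpl a t) +
        ∫ t in (0 : ℝ)..m, (Psi v w m a b (pl a t) *
          Real.exp (v * pl a t + w * pl b t)) * dpl a t) := by
    rw [← intervalIntegral.integral_add (mul_ii a c1 0 m) (mul_ii a c2 0 m),
      ← intervalIntegral.integral_neg]
    refine intervalIntegral.integral_congr fun t _ => ?_
    have e2 : Real.exp (v * pl a t + w * pl b t) = (pe v w a b t)⁻¹ := by
      unfold pe; rw [← Real.exp_neg]; congr 1; ring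
    simp only [pu, Df, e2, div_eq_mul_inv]
    ring
  rw [e1] at h1
  have e3 : (∫ t in (0 : ℝ)..m, (Psi v w m a b (pl a t) *
          Real.exp (v * pl a t + w * pl b t)) * dpl a t) =
      -(w * ∫ z in KK m a b, Psi v w m a b z.1 * Real.exp (v * z.1 + w * z.2)) := by
    rw [g1]; simp
  rw [e3] at h1
  have h5 : 0 < (-w) * ∫ z in KK m a b, Psi v w m a b z.1 * Real.exp (v * z.1 + w * z.2) :=
    mul_pos (by linarith) g3
  have h6 : w * pP v w a b m < 0 := by
    have : w * (pP v w a b m - 0 * pd v w a b m) = w * pP v w a b m := by ring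
    linarith
  by_contra hn
  push Not at hn
  have := mul_nonneg_of_nonpos_of_nonpos hw.le hn
  linarith

theorem mEneg (v x : ℝ) : mE (-v) x = Real.exp (v * x) * mE v x := by
  have := exp_mE_neg v x
  rw [← this, ← mul_assoc, ← Real.exp_add]
  simp

/-- `P > 0`, `0 ≤ w` -/
theorem P_pos_nonneg (h : CP m a b) (hw : 0 ≤ w) (hb : ∀ k ≤ m, 0 ≤ b k) :
    0 < pP v w a b m := by
  have hec := pe_cont v w a b
  have hen := pe_ne v w a b
  have hXc := pX_cont v w a b
  have ha := cont_pl a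
  have hbc := cont_pl b
  have cv : Continuous fun t => mE (-v) (pl a t) := (mE_cont _).comp ha
  have cw : Continuous fun t => mE (-w) (pl b t) := (mE_cont _).comp hbc
  have cv' : Continuous fun t => mE v (pl a t) := (mE_cont _).comp ha
  have cw' : Continuous fun t => mE w (pl b t) := (mE_cont _).comp hbc
  have cex : Continuous fun t => Real.exp (v * pl a t) := by fun_prop
  -- integration by parts
  have hF : Continuous fun t => pX v w a b t * (mE (-v) (pl a t) * mE (-w) (pl b t)) :=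
    hXc.mul (cv.mul cw)
  have hf : Continuous fun t => mE v (pl a t) * mE w (pl b t) +
      pX v w a b t * (Real.exp (v * pl a t) * mE (-w) (pl b t)) :=
    (cv'.mul cw').add (hXc.mul (cex.mul cw))
  have hg : Continuous fun t => pX v w a b t * mE v (pl a t) / pe v w a b t :=
    (hXc.mul cv').div hec hen
  have h1 := ftc2 a b hF hf hg (fun t ht => by
    have d1 : HasDerivAt (fun t => mE (-v) (pl a t))
        (Real.exp (-(-v * pl a t)) * dpl a t) t :=
      (mE_deriv (-v) (pl a t)).comp t (deriv_pl a ht)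
    have d2 : HasDerivAt (fun t => mE (-w) (pl b t))
        (Real.exp (-(-w * pl b t)) * dpl b t) t :=
      (mE_deriv (-w) (pl b t)).comp t (deriv_pl b ht)
    refine ((pX_deriv v w a b ht).mul (d1.mul d2)).congr_deriv ?_
    have e1 := mEneg v (pl a t)
    have e2 := exp_mE_neg w (pl b t)
    have e3 : Real.exp (-(-v * pl a t)) = Real.exp (v * pl a t) := by congr 1; ring
    have e4 : Real.exp (-(-w * pl b t)) = Real.exp (w * pl b t) := by congr 1; ring
    have e5 : (pe v w a b t)⁻¹ = Real.exp (v * pl a t) * Real.exp (w * pl b t) := by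
      unfold pe; rw [← Real.exp_neg, ← Real.exp_add]; congr 1; ring
    have e6 : pe v w a b t = Real.exp (-(v * pl a t)) * Real.exp (-(w * pl b t)) := by
      unfold pe; rw [← Real.exp_add]; congr 1
    have e7 : Real.exp (-(v * pl a t)) * Real.exp (v * pl a t) = 1 := by
      rw [← Real.exp_add]; simp
    simp only [Pi.mul_apply]
    rw [e3, e4, div_eq_mul_inv, e5, e1, e6, ← e2]
    linear_combination (Real.exp (-(w * pl b t)) * mE v (pl a t) * mE (-w) (pl b t) *
      dpl a t) * e7) 0 m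
  simp only [pl_nat, pl_zero, h.a0, h.am, mE_zero, zero_mul, mul_zero, sub_zero] at h1
  have hP : pP v w a b m = ∫ t in (0 : ℝ)..m, (pX v w a b t * mE v (pl a t) / pe v w a b t) *
      dpl b t := rfl
  rw [← hP] at h1
  -- Green 1
  have hΦ1 : ContDiff ℝ 1 (fun z : R2 => mE v z.1 * mE w z.2) :=
    ((mE_contDiff v).comp cd_fst).mul ((mE_contDiff w).comp cd_snd)
  have g1 := green_y h hΦ1
  have g1' : ∀ z : R2, fderiv ℝ (fun z : R2 => mE v z.1 * mE w z.2) z (0, 1) =
      mE v z.1 * Real.exp (-(w * z.2)) := by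
    intro z
    apply fderiv_dir hΦ1
    have h3 : HasDerivAt (fun s : ℝ => mE v z.1 * mE w (z.2 + s))
        (mE v z.1 * (Real.exp (-(w * (z.2 + 0))) * 1)) 0 :=
      ((mE_deriv w (z.2 + 0)).comp 0 ((hasDerivAt_id (0:ℝ)).const_add z.2)).const_mul _
    have h4 : (fun s : ℝ => mE v (z + s • ((0:ℝ), (1:ℝ))).1 *
        mE w (z + s • ((0:ℝ), (1:ℝ))).2) = fun s : ℝ => mE v z.1 * mE w (z.2 + s) := by
      funext s; simp
    rw [h4]
    refine h3.congr_deriv ?_
    rw [add_zero, mul_one]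
  simp only [g1'] at g1
  have mEpos : ∀ {x : ℝ}, 0 < x → 0 < mE v x := fun {x} hx =>
    intervalIntegral.intervalIntegral_pos_of_pos
      ((by fun_prop : Continuous fun s : ℝ => Real.exp (-(v * s))).intervalIntegrable 0 x)
      (fun _ => Real.exp_pos _) hx
  have mEnn : ∀ {x : ℝ}, 0 ≤ x → 0 ≤ mE v x := fun {x} hx =>
    intervalIntegral.integral_nonneg hx fun _ _ => (Real.exp_pos _).le
  have p1 : 0 < ∫ z in KK m a b, mE v z.1 * Real.exp (-(w * z.2)) := by
    have hc : Continuous fun z : R2 => mE v z.1 * Real.exp (-(w * z.2)) := by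
      have := (mE_cont v).comp continuous_fst (X := ℝ × ℝ)
      exact (this).mul (by fun_prop)
    exact area_pos h hc (fun z hz => mul_nonneg (mEnn hz.1) (Real.exp_pos _).le)
      (fun z hz h0 => mul_pos (mEpos h0) (Real.exp_pos _))
  -- Green 2
  have hE1 : ContDiff ℝ 1 (fun z : R2 => Real.exp (v * z.1)) :=
    Real.contDiff_exp.comp (contDiff_const.mul cd_fst)
  have hΦ2 : ContDiff ℝ 1 (fun z : R2 => Psi v w m a b z.1 *
      (Real.exp (v * z.1) * mE (-w) z.2)) :=
    ((Psi_contDiff v w).comp cd_fst).mul (hE1.mul ((mE_contDiff (-w)).comp cd_snd))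
  have g2 := green_y h hΦ2
  have g2' : ∀ z : R2, fderiv ℝ (fun z : R2 => Psi v w m a b z.1 *
      (Real.exp (v * z.1) * mE (-w) z.2)) z (0, 1) =
      Psi v w m a b z.1 * (Real.exp (v * z.1) * Real.exp (w * z.2)) := by
    intro z
    apply fderiv_dir hΦ2
    have h3 : HasDerivAt (fun s : ℝ => Psi v w m a b z.1 * (Real.exp (v * z.1) *
        mE (-w) (z.2 + s)))
        (Psi v w m a b z.1 * (Real.exp (v * z.1) *
          (Real.exp (-(-w * (z.2 + 0))) * 1))) 0 :=
      (((mE_deriv (-w) (z.2 + 0)).comp 0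
        ((hasDerivAt_id (0:ℝ)).const_add z.2)).const_mul _).const_mul _
    have h4 : (fun s : ℝ => Psi v w m a b (z + s • ((0:ℝ), (1:ℝ))).1 *
        (Real.exp (v * (z + s • ((0:ℝ), (1:ℝ))).1) *
        mE (-w) (z + s • ((0:ℝ), (1:ℝ))).2)) = fun s : ℝ => Psi v w m a b z.1 *
        (Real.exp (v * z.1) * mE (-w) (z.2 + s)) := by
      funext s; simp
    rw [h4]
    refine h3.congr_deriv ?_
    rw [add_zero, mul_one]
    congr 3; ring
  simp only [g2'] at g2
  have p2 : 0 < ∫ z in KK m a b, Psi v w m a b z.1 * (Real.exp (v * z.1) *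
      Real.exp (w * z.2)) := by
    have hc : Continuous fun z : R2 => Psi v w m a b z.1 * (Real.exp (v * z.1) *
        Real.exp (w * z.2)) := by
      have := (Psi_cont v w (m := m) (a := a) (b := b)).comp continuous_fst (X := ℝ × ℝ)
      exact (this).mul (by fun_prop)
    exact area_pos h hc (fun z hz => mul_nonneg (Psi_nonneg v w hz.1)
      (mul_pos (Real.exp_pos _) (Real.exp_pos _)).le)
      (fun z hz h0 => mul_pos (Psi_pos v w h0) (mul_pos (Real.exp_pos _) (Real.exp_pos _)))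
  -- remainder
  have hy : ∀ t : ℝ, 0 ≤ t → t ≤ m → 0 ≤ pl b t := by
    intro t h0 hm
    rcases hm.eq_or_lt with h3 | h3
    · rw [h3, pl_nat]; exact hb m le_rfl
    · set k := ⌊t⌋₊
      have hk1 : (k : ℝ) ≤ t := Nat.floor_le h0
      have hk2 : t < k + 1 := Nat.lt_floor_add_one t
      have hkm : k < m := (Nat.floor_lt h0).2 h3
      rw [pl_aff b k hk1 hk2.le]
      have := hb k hkm.le
      have := hb (k + 1) (by omega)
      have h5 : 0 ≤ (1 - (t - k)) * b k := mul_nonneg (by linarith) (by assumption)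
      have h6 : 0 ≤ (t - k) * b (k + 1) := mul_nonneg (by linarith) (by assumption)
      linarith
  have hD := intD_nonpos (v := v) h hw (f := fun t => Real.exp (v * pl a t) *
    mE (-w) (pl b t)) (cex.mul cw) (fun t h0 hm => mul_nonneg (Real.exp_pos _).le
      (intervalIntegral.integral_nonneg (hy t h0 hm) fun _ _ => (Real.exp_pos _).le))
  have c1 : Continuous fun t => mE v (pl a t) * mE w (pl b t) := cv'.mul cw'
  have c2 : Continuous fun t => Psi v w m a b (pl a t) * (Real.exp (v * pl a t) *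
      mE (-w) (pl b t)) := ((Psi_cont v w).comp ha).mul (cex.mul cw)
  have c3 : Continuous fun t => Df v w m a b t * (Real.exp (v * pl a t) *
      mE (-w) (pl b t)) := (Df_cont v w).mul (cex.mul cw)
  have e1 : (∫ t in (0 : ℝ)..m, (mE v (pl a t) * mE w (pl b t) +
      pX v w a b t * (Real.exp (v * pl a t) * mE (-w) (pl b t))) * dpl a t) =
      (∫ t in (0 : ℝ)..m, (mE v (pl a t) * mE w (pl b t)) * dpl a t) +
      (∫ t in (0 : ℝ)..m, (Psi v w m a b (pl a t) * (Real.exp (v * pl a t) *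
        mE (-w) (pl b t))) * dpl a t) +
      ∫ t in (0 : ℝ)..m, (Df v w m a b t * (Real.exp (v * pl a t) *
        mE (-w) (pl b t))) * dpl a t := by
    rw [← intervalIntegral.integral_add (mul_ii a c1 0 m) (mul_ii a c2 0 m),
      ← intervalIntegral.integral_add ((mul_ii a c1 0 m).add (mul_ii a c2 0 m))
        (mul_ii a c3 0 m)]
    refine intervalIntegral.integral_congr fun t _ => ?_
    simp only [Df]
    ring
  rw [e1] at h1

  linarith

/-- `P > 0` -/
theorem P_pos (h : CP m a b) (hb : ∀ k ≤ m, 0 ≤ b k) : 0 < pP v w a b m := by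
  rcases lt_or_ge w 0 with hw | hw
  · exact P_pos_neg h hw
  · exact P_pos_nonneg h hw hb

end

end Pool.Agent.Work.MP_b5407d_pos_h13
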