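import Pool.Agent.Work.MP_b5407d_pos_helper13.Final

/-! # MP_b5407d_gt (POS), `r = 0`: convexity, unimodality, the lower boundary (helper13) -/

set_option autoImplicit false

open MeasureTheory Set Filter Topology

namespace Pool.Agent.Work.MP_b5407d_pos_h13

open Pool.LBM Pool.LBM.Path

section
variable {m : ℕ} {a b : ℕ → ℝ}

/-- four vertices of a convex polygon -/
theorem quad (h : ∀ i j k, i < j → j < k → k ≤ m →
    0 < (a j - a i) * (b k - b i) - (b j - b i) * (a k - a i))
    {i j k l : ℕ} (hij : i < j) (hjk : j < k) (hkl : k < l) (hl : l ≤ m) (α β c : ℝ)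
    (h1 : α * a i + β * b i ≤ c) (h2 : c ≤ α * a j + β * b j) (h3 : α * a k + β * b k ≤ c)
    (h4 : c ≤ α * a l + β * b l) :
    α * a i + β * b i = c ∧ α * a j + β * b j = c ∧ α * a k + β * b k = c ∧
      α * a l + β * b l = c := by
  have d1 := h j k l hjk hkl hl
  have d2 := h i k l (by omega) hkl hl
  have d3 := h i j l hij (by omega) hl
  have d4 := h i j k hij hjk (by omega)
  set D1 := (a k - a j) * (b l - b j) - (b k - b j) * (a l - a j) with e1
  set D2 := (a k - a i) * (b l - b i) - (b k - b i) * (a l - a i) with e2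
  set D3 := (a j - a i) * (b l - b i) - (b j - b i) * (a l - a i) with e3
  set D4 := (a j - a i) * (b k - b i) - (b j - b i) * (a k - a i) with e4
  have key : D1 * (c - (α * a i + β * b i)) + D3 * (c - (α * a k + β * b k)) +
      D2 * ((α * a j + β * b j) - c) + D4 * ((α * a l + β * b l) - c) = 0 := by
    rw [e1, e2, e3, e4]; ring
  have p1 := mul_nonneg d1.le (sub_nonneg.2 h1)
  have p2 := mul_nonneg d2.le (sub_nonneg.2 h2)
  have p3 := mul_nonneg d3.le (sub_nonneg.2 h3)
  have p4 := mul_nonneg d4.le (sub_nonneg.2 h4)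
  have z1 : D1 * (c - (α * a i + β * b i)) = 0 := by linarith
  have z2 : D2 * ((α * a j + β * b j) - c) = 0 := by linarith
  have z3 : D3 * (c - (α * a k + β * b k)) = 0 := by linarith
  have z4 : D4 * ((α * a l + β * b l) - c) = 0 := by linarith
  have y1 := (mul_eq_zero.1 z1).resolve_left d1.ne'
  have y2 := (mul_eq_zero.1 z2).resolve_left d2.ne'
  have y3 := (mul_eq_zero.1 z3).resolve_left d3.ne'
  have y4 := (mul_eq_zero.1 z4).resolve_left d4.ne'
  exact ⟨by linarith, by linarith, by linarith, by linarith⟩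

theorem cp_a_pos (h : CP m a b) {k : ℕ} (h0 : 0 < k) (hk : k < m) : 0 < a k := by
  have h1 := h.conv 0 k m h0 hk le_rfl
  rw [h.a0, h.am] at h1
  have h2 := h.left
  have h3 : 0 < a k * (b m - b 0) := by linarith
  exact pos_left h3 (by linarith)

theorem cp_a_nonneg (h : CP m a b) {k : ℕ} (hk : k ≤ m) : 0 ≤ a k := by
  rcases Nat.eq_zero_or_pos k with h1 | h1
  · rw [h1, h.a0]
  · rcases hk.eq_or_lt with h2 | h2
    · rw [h2, h.am]
    · exact (cp_a_pos h h1 h2).le

/-- unimodality of the abscissae -/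
theorem uni (h : CP m a b) : ∃ K, 0 < K ∧ K < m ∧ (∀ j < K, a j ≤ a (j + 1)) ∧
    (∀ j, K ≤ j → j < m → a (j + 1) ≤ a j) := by
  classical
  have h2 := h.two
  have hex : ∃ j, j < m ∧ a (j + 1) < a j := by
    refine ⟨m - 1, by omega, ?_⟩
    have e : m - 1 + 1 = m := by omega
    rw [e, h.am]
    exact cp_a_pos h (by omega) (by omega)
  obtain ⟨hK1, hK2⟩ := Nat.find_spec hex
  set K := Nat.find hex with hK
  have hmin : ∀ j < K, a j ≤ a (j + 1) := by
    intro j hj
    have := Nat.find_min hex hj
    push Not at this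
    exact this (by omega)
  have hK0 : 0 < K := by
    rcases Nat.eq_zero_or_pos K with h0 | h0
    · exfalso
      rw [h0, h.a0] at hK2
      have := cp_a_nonneg h (k := 0 + 1) (by omega)
      linarith
    · exact h0
  refine ⟨K, hK0, hK1, hmin, ?_⟩
  intro j hj hjm
  by_contra hn
  push Not at hn
  rcases hj.eq_or_lt with h3 | h3
  · rw [← h3] at hn; linarith
  rcases le_or_gt (a (K + 1)) (a j) with h4 | h4
  · have hne : K + 1 < j + 1 := by omega
    have := quad h.conv (i := 0) (j := K) (k := K + 1) (l := j + 1) hK0 (by omega) hne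
      (by omega) 1 0 (a (K + 1)) (by
        rw [h.a0]; have := cp_a_nonneg h (k := K + 1) (by omega); linarith)
      (by linarith) (by linarith) (by linarith)
    linarith [this.2.1]
  · have := quad h.conv (i := 0) (j := K) (k := j) (l := j + 1) hK0 h3 (by omega)
      (by omega) 1 0 (a j) (by
        rw [h.a0]; have := cp_a_nonneg h (k := j) (by omega); linarith)
      (by linarith) (by linarith) (by linarith)
    linarith [this.2.1]

/-- points of the path belong to the polygon -/
theorem KK_pl (h : CP m a b) {t : ℝ} (h0 : 0 ≤ t) (hm : t ≤ m) : (pl a t, pl b t) ∈ KK m a b := by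
  rcases hm.eq_or_lt with h1 | h1
  · rw [h1, pl_nat, pl_nat]; exact KK_vertex h le_rfl
  · set k := ⌊t⌋₊ with hk
    have hk1 : (k : ℝ) ≤ t := Nat.floor_le h0
    have hk2 : t < k + 1 := Nat.lt_floor_add_one t
    have hkm : k < m := by
      by_contra hn
      push Not at hn
      have : (m : ℝ) ≤ k := by exact_mod_cast hn
      linarith
    rw [pl_aff a k hk1 hk2.le, pl_aff b k hk1 hk2.le]
    have h5 := KK_convex m a b (KK_vertex h hkm.le) (KK_vertex h (by omega : k + 1 ≤ m))
      (show 0 ≤ 1 - (t - k) by linarith) (show 0 ≤ t - k by linarith) (by ring)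
    convert h5 using 1
    ext
    · simp only [Prod.fst_add, Prod.smul_fst, smul_eq_mul]; ring
    · simp only [Prod.snd_add, Prod.smul_snd, smul_eq_mul]; ring

/-- line of the edge `j` -/
noncomputable def lin (a b : ℕ → ℝ) (j : ℕ) (x : ℝ) : ℝ :=
  b j + (b (j + 1) - b j) / (a (j + 1) - a j) * (x - a j)

open Classical in
/-- lower edges -/
noncomputable def asc (m : ℕ) (a : ℕ → ℝ) : Finset ℕ :=
  (Finset.range m).filter (fun j => a j < a (j + 1))

open Classical in
/-- lower boundary -/
noncomputable def yl (m : ℕ) (a b : ℕ → ℝ) (x : ℝ) : ℝ :=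
  if h : (asc m a).Nonempty then (asc m a).sup' h (fun j => lin a b j x) else 0

theorem lin_cont (j : ℕ) : Continuous (lin a b j) := by
  unfold lin; fun_prop

theorem yl_cont : Continuous (yl m a b) := by
  unfold yl
  by_cases h : (asc m a).Nonempty
  · simp only [h, dif_pos]
    exact Continuous.finset_sup'_apply h (fun j _ => lin_cont j)
  · simp only [h, dif_neg, not_false_iff]
    exact continuous_const

theorem lin_le (h : CP m a b) {j : ℕ} (hj : j < m) (haj : a j < a (j + 1)) {z : R2}
    (hz : z ∈ KK m a b) : lin a b j z.1 ≤ z.2 := by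
  have h1 := hz.2 j hj
  have h2 : 0 < a (j + 1) - a j := by linarith
  have h3 : (a (j + 1) - a j) * lin a b j z.1 =
      (a (j + 1) - a j) * b j + (b (j + 1) - b j) * (z.1 - a j) := by
    unfold lin; field_simp
  have h4 : (a (j + 1) - a j) * lin a b j z.1 ≤ (a (j + 1) - a j) * z.2 := by
    rw [h3]; linarith
  exact le_of_mul_le_mul_left h4 h2

theorem asc_nonempty (h : CP m a b) : (asc m a).Nonempty := by
  classical
  refine ⟨0, ?_⟩
  have h2 := h.two
  have := cp_a_pos h (k := 1) (by omega) (by omega)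
  simp only [asc, Finset.mem_filter, Finset.mem_range]
  refine ⟨by omega, ?_⟩
  rw [h.a0]; exact this

theorem yl_le (h : CP m a b) {z : R2} (hz : z ∈ KK m a b) : yl m a b z.1 ≤ z.2 := by
  classical
  unfold yl
  rw [dif_pos (asc_nonempty h)]
  refine Finset.sup'_le _ _ fun j hj => ?_
  simp only [asc, Finset.mem_filter, Finset.mem_range] at hj
  exact lin_le h hj.1 hj.2 hz

theorem yl_path_le (h : CP m a b) {t : ℝ} (h0 : 0 ≤ t) (hm : t ≤ m) :
    yl m a b (pl a t) ≤ pl b t := yl_le h (KK_pl h h0 hm)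

theorem yl_path_eq (h : CP m a b) {k : ℕ} (hk : k < m) (hak : a k < a (k + 1)) {t : ℝ}
    (h1 : (k : ℝ) ≤ t) (h2 : t ≤ k + 1) : yl m a b (pl a t) = pl b t := by
  classical
  have hkm : (k : ℝ) + 1 ≤ m := by exact_mod_cast hk
  refine le_antisymm (yl_path_le h (le_trans (Nat.cast_nonneg k) h1) (h2.trans hkm)) ?_
  unfold yl
  rw [dif_pos (asc_nonempty h)]
  have hmem : k ∈ asc m a := by
    simp only [asc, Finset.mem_filter, Finset.mem_range]; exact ⟨hk, hak⟩
  refine le_trans (le_of_eq ?_) (Finset.le_sup' (fun j => lin a b j (pl a t)) hmem)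
  rw [pl_aff a k h1 h2, pl_aff b k h1 h2]
  unfold lin
  have : a (k + 1) - a k ≠ 0 := by linarith
  field_simp
  ring

end

end Pool.Agent.Work.MP_b5407d_pos_h13
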