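import Pool.Agent.Work.MP_b5407d_pos_helper13.StdFacts

/-! # MP_b5407d_gt (POS): reversed paths, reflection `y → -y` (helper13) -/

set_option autoImplicit false

open MeasureTheory Set Filter Topology

namespace Pool.Agent.Work.MP_b5407d_pos_h13

open Pool.LBM Pool.LBM.Path

section
variable {N p q : ℕ} {c c' : ℕ → ℝ}

theorem pl_rev (hq : q ≤ N) (hc : ∀ k, p ≤ k → k ≤ q → c' k = c (N - k)) {s : ℝ}
    (hs : s ∈ Icc (p : ℝ) q) : pl c' s = pl c (N - s) := by
  have hs0 : 0 ≤ s := le_trans (Nat.cast_nonneg p) hs.1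
  rcases hs.2.eq_or_lt with h | h
  · have e : (N : ℝ) - s = ((N - q : ℕ) : ℝ) := by rw [h, Nat.cast_sub hq]
    rw [e, h, pl_nat, pl_nat]
    exact hc q (by exact_mod_cast (h ▸ hs.1)) le_rfl
  · set k := ⌊s⌋₊ with hk
    have hk1 : (k : ℝ) ≤ s := Nat.floor_le hs0
    have hk2 : s < k + 1 := Nat.lt_floor_add_one s
    have hkq : k < q := by
      have : (k : ℝ) < q := lt_of_le_of_lt hk1 h
      exact_mod_cast this
    have hpk : p ≤ k := Nat.le_floor hs.1
    have e1 : ((N - k - 1 : ℕ) : ℝ) = (N : ℝ) - k - 1 := by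
      rw [Nat.cast_sub (by omega), Nat.cast_sub (by omega)]; simp
    rw [pl_aff c' k hk1 hk2.le, pl_aff c (N - k - 1) (by rw [e1]; linarith)
      (by rw [e1]; linarith), hc k hpk hkq.le, hc (k + 1) (by omega) hkq]
    have e2 : N - (k + 1) = N - k - 1 := by omega
    have e3 : N - k - 1 + 1 = N - k := by omega
    rw [e2, e3, e1]; ring

theorem dpl_rev (hq : q ≤ N) (hc : ∀ k, p ≤ k → k ≤ q → c' k = c (N - k)) {s : ℝ}
    (hs : s ∈ Icc (p : ℝ) q) (hsN : s ∉ Nt) : dpl c' s = -dpl c (N - s) := by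
  have hs0 : 0 ≤ s := le_trans (Nat.cast_nonneg p) hs.1
  have h : s < q := lt_of_le_of_ne hs.2 (fun h => hsN ⟨q, h.symm⟩)
  set k := ⌊s⌋₊ with hk
  have hk1 : (k : ℝ) < s := lt_of_le_of_ne (Nat.floor_le hs0) (fun h => hsN ⟨k, h⟩)
  have hk2 : s < k + 1 := Nat.lt_floor_add_one s
  have hkq : k < q := by
    have : (k : ℝ) < q := lt_trans hk1 h
    exact_mod_cast this
  have hpk : p ≤ k := Nat.le_floor hs.1
  have e1 : ((N - k - 1 : ℕ) : ℝ) = (N : ℝ) - k - 1 := by
    rw [Nat.cast_sub (by omega), Nat.cast_sub (by omega)]; simp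
  have hfl : ⌊(N : ℝ) - s⌋₊ = N - k - 1 := by
    rw [Nat.floor_eq_iff (by
      have : (q : ℝ) ≤ N := by exact_mod_cast hq
      linarith)]
    rw [e1]
    constructor <;> linarith
  have e2 : N - (k + 1) = N - k - 1 := by omega
  have e3 : N - k - 1 + 1 = N - k := by omega
  simp only [dpl]
  rw [hfl, ← hk, hc k hpk hkq.le, hc (k + 1) (by omega) hkq, e2, e3]
  ring

theorem int_rev (hq : q ≤ N) (hc : ∀ k, p ≤ k → k ≤ q → c' k = c (N - k)) (f : ℝ → ℝ)
    {s1 s2 : ℝ} (h1 : s1 ∈ Icc (p : ℝ) q) (h2 : s2 ∈ Icc (p : ℝ) q) :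
    (∫ s in s1..s2, f (N - s) * dpl c' s) = ∫ t in (N - s1)..(N - s2), f t * dpl c t := by
  have e1 : (∫ s in s1..s2, f (N - s) * dpl c' s) =
      ∫ s in s1..s2, -(f (N - s) * dpl c (N - s)) := by
    refine intervalIntegral.integral_congr_ae ?_
    have hne : ∀ᵐ u : ℝ, u ∉ Nt := by
      have := Nt_countable.ae_notMem (volume : Measure ℝ)
      exact this
    filter_upwards [hne] with s hs hsI
    have hs2 : s ∈ Icc (p : ℝ) q :=
      (ordConnected_Icc.uIcc_subset h1 h2) (uIoc_subset_uIcc hsI)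
    rw [dpl_rev hq hc hs2 hs]; ring
  rw [e1, intervalIntegral.integral_neg,
    intervalIntegral.integral_comp_sub_left (fun t => f t * dpl c t) (N : ℝ),
    intervalIntegral.integral_symm]
  ring

end

/-! ### reflection `y → c0 - y` -/

section
variable {v w : ℝ} {a b : ℕ → ℝ} {m : ℕ}

/-- reversed first coordinate -/
def ra (m : ℕ) (a : ℕ → ℝ) : ℕ → ℝ := fun k => a (m - k)

/-- reversed and reflected second coordinate -/
def rb (m : ℕ) (c0 : ℝ) (b : ℕ → ℝ) : ℕ → ℝ := fun k => c0 - b (m - k)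

variable (v w a b m) (c0 : ℝ)

theorem pl_ra {s : ℝ} (hs : s ∈ Icc (0 : ℝ) m) : pl (ra m a) s = pl a (m - s) :=
  pl_rev (p := 0) (q := m) le_rfl (fun k _ _ => rfl) (by simpa using hs)

theorem pl_rb {s : ℝ} (hs : s ∈ Icc (0 : ℝ) m) : pl (rb m c0 b) s = c0 - pl b (m - s) := by
  have h : pl (rb m c0 b) s = pl (fun k => (fun j => c0 - b j) (m - k)) s := rfl
  rw [h, pl_rev (c := fun j => c0 - b j) (p := 0) (q := m) le_rfl (fun k _ _ => rfl)
    (by simpa using hs)]
  simp only [pl]; ring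

theorem int_ra (f : ℝ → ℝ) {s1 s2 : ℝ} (h1 : s1 ∈ Icc (0 : ℝ) m) (h2 : s2 ∈ Icc (0 : ℝ) m) :
    (∫ s in s1..s2, f (m - s) * dpl (ra m a) s) = ∫ t in (m - s1)..(m - s2), f t * dpl a t :=
  int_rev (p := 0) (q := m) le_rfl (fun k _ _ => rfl) f (by simpa using h1) (by simpa using h2)

theorem int_rb (f : ℝ → ℝ) {s1 s2 : ℝ} (h1 : s1 ∈ Icc (0 : ℝ) m) (h2 : s2 ∈ Icc (0 : ℝ) m) :
    (∫ s in s1..s2, f (m - s) * dpl (rb m c0 b) s) =
      -∫ t in (m - s1)..(m - s2), f t * dpl b t := by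
  have h := int_rev (c := fun j => c0 - b j) (c' := rb m c0 b) (p := 0) (q := m) le_rfl
    (fun k _ _ => rfl) f (by simpa using h1) (by simpa using h2)
  rw [h, ← intervalIntegral.integral_neg]
  refine intervalIntegral.integral_congr fun t _ => ?_
  simp only [dpl]; ring

theorem pe_r {s : ℝ} (hs : s ∈ Icc (0 : ℝ) m) : pe v (-w) (ra m a) (rb m c0 b) s =
    Real.exp (w * c0) * pe v w a b (m - s) := by
  unfold pe
  rw [pl_ra a m hs, pl_rb b m c0 hs, ← Real.exp_add]; congr 1; ring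

theorem mE_neg_neg (y : ℝ) : mE (-w) (-y) = -mE w y := by
  refine eq_of_deriv (f := fun y => mE (-w) (-y)) (g := fun y => -mE w y)
    (f' := fun y => -Real.exp (-(w * y))) ?_ ?_ ?_ y
  · intro x
    refine ((mE_deriv (-w) (-x)).comp x (hasDerivAt_neg x)).congr_deriv ?_
    have : -(-w * -x) = -(w * x) := by ring
    rw [this]; ring
  · intro x
    exact (mE_deriv w x).fun_neg
  · simp

theorem pq_r {s : ℝ} (hs : s ∈ Icc (0 : ℝ) m) : pq v (-w) (ra m a) (rb m c0 b) s =
    -(Real.exp (w * c0) * pq v w a b (m - s)) +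
      mE (-w) c0 * Real.exp (-(v * pl a (m - s))) := by
  unfold pq
  rw [pl_ra a m hs, pl_rb b m c0 hs]
  have h : c0 - pl b (m - s) = -pl b (m - s) + c0 := by ring
  rw [h, mE_add, mE_neg_neg]
  have h2 : Real.exp (-(-w * c0)) = Real.exp (w * c0) := by congr 1; ring
  rw [h2]; ring

theorem pX_r {s : ℝ} (hs : s ∈ Icc (0 : ℝ) m) : pX v (-w) (ra m a) (rb m c0 b) s =
    Real.exp (w * c0) * (pX v w a b (m - s) - pX v w a b m) := by
  have h0 : (0 : ℝ) ∈ Icc (0 : ℝ) m := ⟨le_rfl, hs.1.trans hs.2⟩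
  have e1 : pX v (-w) (ra m a) (rb m c0 b) s =
      ∫ u in (0 : ℝ)..s, (fun t => Real.exp (w * c0) * pe v w a b t) (m - u) *
        dpl (ra m a) u := by
    unfold pX
    refine intervalIntegral.integral_congr fun u hu => ?_
    have hu2 : u ∈ Icc (0 : ℝ) m := (ordConnected_Icc.uIcc_subset h0 hs) hu
    simp only [pe_r v w a b m c0 hu2]
  refine (e1.trans (int_ra a m (fun t => Real.exp (w * c0) * pe v w a b t) h0 hs)).trans ?_
  beta_reduce
  rw [sub_zero]
  have hec := pe_cont v w a b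
  have e2 : (∫ t in (m : ℝ)..(m - s), Real.exp (w * c0) * pe v w a b t * dpl a t) =
      Real.exp (w * c0) * ∫ t in (m : ℝ)..(m - s), pe v w a b t * dpl a t := by
    rw [← intervalIntegral.integral_const_mul]
    refine intervalIntegral.integral_congr fun t _ => ?_
    ring
  rw [e2]
  congr 1
  unfold pX
  rw [intervalIntegral.integral_interval_sub_left (mul_ii a hec _ _) (mul_ii a hec _ _)]

theorem pL_r (ham : a m = 0) {s : ℝ} (hs : s ∈ Icc (0 : ℝ) m) :
    pL v (-w) (ra m a) (rb m c0 b) s =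
    -(Real.exp (w * c0) * (pL v w a b (m - s) + pJ v w a b m)) +
      mE (-w) c0 * mE v (pl a (m - s)) := by
  have h0 : (0 : ℝ) ∈ Icc (0 : ℝ) m := ⟨le_rfl, hs.1.trans hs.2⟩
  have e1 : pL v (-w) (ra m a) (rb m c0 b) s =
      ∫ u in (0 : ℝ)..s, (fun t => -(Real.exp (w * c0) * pq v w a b t) +
        mE (-w) c0 * Real.exp (-(v * pl a t))) (m - u) * dpl (ra m a) u := by
    unfold pL
    refine intervalIntegral.integral_congr fun u hu => ?_
    have hu2 : u ∈ Icc (0 : ℝ) m := (ordConnected_Icc.uIcc_subset h0 hs) hu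
    simp only [pq_r v w a b m c0 hu2]
  refine (e1.trans (int_ra a m (fun t => -(Real.exp (w * c0) * pq v w a b t) +
        mE (-w) c0 * Real.exp (-(v * pl a t))) h0 hs)).trans ?_
  beta_reduce
  rw [sub_zero]
  have hqc := pq_cont v w a b
  have hE := cexp v a
  have i1 := mul_ii a hqc (m : ℝ) (m - s)
  have i2 := mul_ii a hE (m : ℝ) (m - s)
  have e2 : (∫ t in (m : ℝ)..(m - s), (-(Real.exp (w * c0) * pq v w a b t) +
      mE (-w) c0 * Real.exp (-(v * pl a t))) * dpl a t) =
      -Real.exp (w * c0) * (∫ t in (m : ℝ)..(m - s), pq v w a b t * dpl a t) +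
      mE (-w) c0 * ∫ t in (m : ℝ)..(m - s), Real.exp (-(v * pl a t)) * dpl a t := by
    rw [← intervalIntegral.integral_const_mul, ← intervalIntegral.integral_const_mul,
      ← intervalIntegral.integral_add (i1.const_mul _) (i2.const_mul _)]
    refine intervalIntegral.integral_congr fun t _ => ?_
    ring
  have e3 : (∫ t in (m : ℝ)..(m - s), pq v w a b t * dpl a t) =
      pL v w a b (m - s) + pJ v w a b m := by
    unfold pJ pL
    rw [← sub_eq_add_neg,
      intervalIntegral.integral_interval_sub_left (mul_ii a hqc _ _) (mul_ii a hqc _ _)]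
  have e4 : (∫ t in (m : ℝ)..(m - s), Real.exp (-(v * pl a t)) * dpl a t) =
      mE v (pl a (m - s)) := by
    have hF : Continuous fun t => mE v (pl a t) := (mE_cont v).comp (cont_pl a)
    have h := ftc2 a a hF hE (g := fun _ => (0:ℝ)) continuous_const (fun t ht => by
      refine (mEx_deriv v a ht).congr_deriv ?_
      ring) (m : ℝ) (m - s)
    simp only [zero_mul, intervalIntegral.integral_zero, add_zero, pl_nat, ham, mE_zero,
      sub_zero] at h
    exact h
  rw [e2, e3, e4]; ring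

theorem pJ_r (ha0 : a 0 = 0) (ham : a m = 0) :
    pJ v (-w) (ra m a) (rb m c0 b) m = Real.exp (w * c0) * pJ v w a b m := by
  unfold pJ
  rw [pL_r v w a b m c0 ham ⟨Nat.cast_nonneg m, le_rfl⟩, sub_self, pl_zero, ha0]
  have : pL v w a b 0 = 0 := by simp [pL]
  rw [this]
  simp [pJ]

theorem pd_r : Real.exp (w * c0) * pd v (-w) (ra m a) (rb m c0 b) m = pd v w a b m := by
  have h0 : (0 : ℝ) ∈ Icc (0 : ℝ) m := ⟨le_rfl, Nat.cast_nonneg m⟩
  have hm : (m : ℝ) ∈ Icc (0 : ℝ) m := ⟨Nat.cast_nonneg m, le_rfl⟩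
  have hl : Real.exp (w * c0) ≠ 0 := (Real.exp_pos _).ne'
  have e1 : Real.exp (w * c0) * pd v (-w) (ra m a) (rb m c0 b) m =
      ∫ u in (0 : ℝ)..m, (fun t => mE v (pl a t) / pe v w a b t) (m - u) *
        dpl (rb m c0 b) u := by
    unfold pd
    rw [← intervalIntegral.integral_const_mul]
    refine intervalIntegral.integral_congr fun u hu => ?_
    have hu2 : u ∈ Icc (0 : ℝ) m := (ordConnected_Icc.uIcc_subset h0 hm) hu
    have hne := pe_ne v w a b (m - u)
    simp only [pe_r v w a b m c0 hu2, pl_ra a m hu2]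
    field_simp
  refine (e1.trans (int_rb b m c0 (fun t => mE v (pl a t) / pe v w a b t) h0 hm)).trans ?_
  beta_reduce
  rw [sub_zero, sub_self, intervalIntegral.integral_symm, neg_neg]
  rfl

theorem pP_r : pP v (-w) (ra m a) (rb m c0 b) m = pP v w a b m - pX v w a b m * pd v w a b m := by
  have h0 : (0 : ℝ) ∈ Icc (0 : ℝ) m := ⟨le_rfl, Nat.cast_nonneg m⟩
  have hm : (m : ℝ) ∈ Icc (0 : ℝ) m := ⟨Nat.cast_nonneg m, le_rfl⟩
  have hl : Real.exp (w * c0) ≠ 0 := (Real.exp_pos _).ne'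
  have e1 : pP v (-w) (ra m a) (rb m c0 b) m =
      ∫ u in (0 : ℝ)..m, (fun t => (pX v w a b t - pX v w a b m) *
        (mE v (pl a t) / pe v w a b t)) (m - u) * dpl (rb m c0 b) u := by
    unfold pP
    refine intervalIntegral.integral_congr fun u hu => ?_
    have hu2 : u ∈ Icc (0 : ℝ) m := (ordConnected_Icc.uIcc_subset h0 hm) hu
    have hne := pe_ne v w a b (m - u)
    simp only [pe_r v w a b m c0 hu2, pl_ra a m hu2, pX_r v w a b m c0 hu2]
    field_simp
  refine (e1.trans (int_rb b m c0 (fun t => (pX v w a b t - pX v w a b m) *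
        (mE v (pl a t) / pe v w a b t)) h0 hm)).trans ?_
  beta_reduce
  rw [sub_zero, sub_self, intervalIntegral.integral_symm, neg_neg]
  have hG := pG_cont v w a b
  have hX := pX_cont v w a b
  have hXG : Continuous fun t => pX v w a b t * pG v w a b t := hX.mul hG
  have e2 : pP v w a b m = ∫ t in (0 : ℝ)..m, (pX v w a b t * pG v w a b t) * dpl b t := by
    unfold pP pG
    refine intervalIntegral.integral_congr fun t _ => ?_
    ring
  have e3 : pd v w a b m = ∫ t in (0 : ℝ)..m, pG v w a b t * dpl b t := rfl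
  rw [e2, e3, ← intervalIntegral.integral_const_mul, ← intervalIntegral.integral_sub
    (mul_ii b hXG 0 m) ((mul_ii b hG 0 m).const_mul _)]
  refine intervalIntegral.integral_congr fun t _ => ?_
  simp only [pG]; ring

variable {v w a b m}

/-- reflection formula -/
theorem hK_refl (ha0 : a 0 = 0) (ham : a m = 0) (hd : pd v w a b m ≠ 0) {τ : ℝ}
    (hτ0 : 0 ≤ τ) (hτ : τ ≤ m) :
    hK v (-w) (ra m a) (rb m c0 b) m (m - τ) = -(Real.exp (w * c0) * hK v w a b m τ) := by
  have h0 : (0 : ℝ) ∈ Icc (0 : ℝ) m := ⟨le_rfl, Nat.cast_nonneg m⟩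
  have hm : (m : ℝ) ∈ Icc (0 : ℝ) m := ⟨Nat.cast_nonneg m, le_rfl⟩
  have hl : Real.exp (w * c0) ≠ 0 := (Real.exp_pos _).ne'
  set l := Real.exp (w * c0) with hl'
  have hd' : pd v (-w) (ra m a) (rb m c0 b) m ≠ 0 := by
    intro h
    have := pd_r v w a b m c0
    rw [h, mul_zero] at this
    exact hd this.symm
  have hC : CC v (-w) (ra m a) (rb m c0 b) m = l * (CC v w a b m - pX v w a b m) := by
    have h1 := pd_r v w a b m c0
    unfold CC
    rw [pP_r, ← h1, ← hl']
    field_simp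
  have hP : pP v w a b m = CC v w a b m * pd v w a b m := by
    unfold CC; field_simp
  have hu : ∀ s ∈ Icc (0 : ℝ) m, pu v (-w) (ra m a) (rb m c0 b)
      (CC v (-w) (ra m a) (rb m c0 b) m) s = pu v w a b (CC v w a b m) (m - s) := by
    intro s hs
    unfold pu
    rw [hC, pX_r v w a b m c0 hs, pe_r v w a b m c0 hs, ← hl']
    have := pe_ne v w a b (m - s)
    field_simp
    ring
  unfold hK Ht
  rw [CNM_eq, CNM_eq]
  have huc := pu_cont v w a b (CC v w a b m)
  have hm' : Continuous fun t => mE v (pl a t) := (mE_cont v).comp (cont_pl a)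
  have e1 : (∫ s in (0 : ℝ)..m, pRt v (-w) (ra m a) (rb m c0 b) m (m - τ) s *
      pu v (-w) (ra m a) (rb m c0 b) (CC v (-w) (ra m a) (rb m c0 b) m) s *
      dpl (rb m c0 b) s) =
      ∫ s in (0 : ℝ)..m, (fun t => -(l * (pRt v w a b m τ t * pu v w a b (CC v w a b m) t)) +
        mE (-w) c0 * (mE v (pl a t) * pu v w a b (CC v w a b m) t)) (m - s) *
        dpl (rb m c0 b) s := by
    refine intervalIntegral.integral_congr_ae ?_
    have hne : ∀ᵐ u : ℝ, u ≠ m - τ := by rw [ae_iff]; simp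
    filter_upwards [hne] with s hs hsI
    have hs2 : s ∈ Icc (0 : ℝ) m := (ordConnected_Icc.uIcc_subset h0 hm) (uIoc_subset_uIcc hsI)
    rw [hu s hs2]
    have hR : pRt v (-w) (ra m a) (rb m c0 b) m (m - τ) s =
        -(l * pRt v w a b m τ (m - s)) + mE (-w) c0 * mE v (pl a (m - s)) := by
      unfold pRt
      rw [pL_r v w a b m c0 ham hs2, pJ_r v w a b m c0 ha0 ham, ← hl']
      rcases lt_or_gt_of_ne hs with h | h
      · have h1 : ¬ ((m : ℝ) - τ ≤ s) := not_le.mpr h
        have h2 : τ ≤ (m : ℝ) - s := by linarith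
        simp only [h1, h2, if_true, if_false]
        ring
      · have h1 : (m : ℝ) - τ ≤ s := h.le
        have h2 : ¬ (τ ≤ (m : ℝ) - s) := not_le.mpr (by linarith)
        simp only [h1, h2, if_true, if_false]
        ring
    rw [hR]; ring
  refine (e1.trans (int_rb b m c0 (fun t => -(l * (pRt v w a b m τ t * pu v w a b (CC v w a b m) t)) +
        mE (-w) c0 * (mE v (pl a t) * pu v w a b (CC v w a b m) t)) h0 hm)).trans ?_
  beta_reduce
  rw [sub_zero, sub_self, intervalIntegral.integral_symm, neg_neg]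
  have i1 := ii_R v w a b m τ huc b
  have hmu : Continuous fun t => mE v (pl a t) * pu v w a b (CC v w a b m) t := hm'.mul huc
  have i2 := mul_ii b hmu 0 m
  have e2 : (∫ t in (0 : ℝ)..m, (-(l * (pRt v w a b m τ t * pu v w a b (CC v w a b m) t)) +
        mE (-w) c0 * (mE v (pl a t) * pu v w a b (CC v w a b m) t)) * dpl b t) =
      -l * (∫ t in (0 : ℝ)..m, pRt v w a b m τ t * pu v w a b (CC v w a b m) t * dpl b t) +
      mE (-w) c0 * ∫ t in (0 : ℝ)..m, (mE v (pl a t) * pu v w a b (CC v w a b m) t) *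
        dpl b t := by
    rw [← intervalIntegral.integral_const_mul, ← intervalIntegral.integral_const_mul,
      ← intervalIntegral.integral_add (i1.const_mul _) (i2.const_mul _)]
    refine intervalIntegral.integral_congr fun t _ => ?_
    ring
  have e3 : (∫ t in (0 : ℝ)..m, (mE v (pl a t) * pu v w a b (CC v w a b m) t) *
        dpl b t) = 0 := by
    have hG := pG_cont v w a b
    have hX := pX_cont v w a b
    have hXG : Continuous fun t => pX v w a b t * pG v w a b t := hX.mul hG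
    have e4 : pP v w a b m = ∫ t in (0 : ℝ)..m, (pX v w a b t * pG v w a b t) * dpl b t := by
      unfold pP pG
      refine intervalIntegral.integral_congr fun t _ => ?_
      ring
    have e5 : pd v w a b m = ∫ t in (0 : ℝ)..m, pG v w a b t * dpl b t := rfl
    have e6 : (∫ t in (0 : ℝ)..m, (mE v (pl a t) * pu v w a b (CC v w a b m) t) *
        dpl b t) = CC v w a b m * pd v w a b m - pP v w a b m := by
      rw [e4, e5, ← intervalIntegral.integral_const_mul, ← intervalIntegral.integral_sub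
        ((mul_ii b hG 0 m).const_mul _) (mul_ii b hXG 0 m)]
      refine intervalIntegral.integral_congr fun t _ => ?_
      simp only [pG, pu]; ring
    rw [e6, hP]; ring
  rw [e2, e3]; ring

end

end Pool.Agent.Work.MP_b5407d_pos_h13
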