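import Pool.Agent.Work.MP_b5407d_gt.Section5

/-! # MP_b5407d_gt (POS): strict forms of the one variable inequalities (helper13) -/

set_option autoImplicit false

namespace Pool.Agent.Work.MP_b5407d_pos_h13

open Pool.Agent.MPb5407d MeasureTheory Set

/-- strict form of `mu_ge_one` -/
theorem mu_gt_one {η M S : ℝ} (hη : |η| ≤ 5 / 2) (hS : 0 < S) (h : SigRel η S)
    (hT : 0 ≤ Tf η M S) : 2 + η ^ 2 * (PsiE η + OmE η) / 4 < M * S := by
  have h1 := Tf_use hS hT
  have p1 := PsiE_pos η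
  have p2 := PsiE_le η
  have p3 := OmE_pos η
  have p4 := OmE_le η
  have p5 := OmE_lt_PsiE η
  have hη2 : η ^ 2 ≤ 25 / 4 := by
    rw [← sq_abs]; nlinarith [abs_nonneg η]
  unfold SigRel at h
  have hq : (PsiE η + OmE η) ^ 2 ≤ (4 / 15) ^ 2 := by
    apply pow_le_pow_left₀ (by positivity); linarith
  have hS2 : S ^ 2 ≤ 7 / 9 := by
    have : η ^ 2 * (PsiE η + OmE η) ^ 2 ≤ 25 / 4 * (4 / 15) ^ 2 :=
      mul_le_mul hη2 hq (by positivity) (by norm_num)
    nlinarith
  have hS3 : S ≤ 9 / 10 := by nlinarith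
  have hS4 : η ^ 2 * S < 8 := by
    have : η ^ 2 * S ≤ 25 / 4 * (9 / 10) := mul_le_mul hη2 hS3 hS.le (by norm_num)
    linarith
  have key : (S + PsiE η + OmE η) * (2 + η ^ 2 * (PsiE η + OmE η) / 4)
      < S * (4 + 2 * S + η ^ 2 * OmE η) / 2 := by
    have e : S * (4 + 2 * S + η ^ 2 * OmE η) / 2
        - (S + PsiE η + OmE η) * (2 + η ^ 2 * (PsiE η + OmE η) / 4)
        = (PsiE η - OmE η) * (2 - η ^ 2 * S / 4) := by
      linear_combination h
    have : 0 < (PsiE η - OmE η) * (2 - η ^ 2 * S / 4) :=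
      mul_pos (by linarith) (by linarith)
    linarith
  have hpos : 0 < S + PsiE η + OmE η := by linarith
  have h3 : (S + PsiE η + OmE η) * (2 + η ^ 2 * (PsiE η + OmE η) / 4)
      < (S + PsiE η + OmE η) * (M * S) := by
    nlinarith [mul_le_mul_of_nonneg_left h1 hS.le]
  exact lt_of_mul_lt_mul_left h3 hpos.le

/-- strict form of `mu_ge_two` -/
theorem mu_gt_two {η M S : ℝ} (hη : 5 / 2 ≤ |η|) (hS : 0 < S) (h : SigRel η S)
    (hT : 0 ≤ Tf η M S) : 4 - |η| + η ^ 2 * (PsiE η + OmE η) / 4 < M * S := by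
  have h1 := Tf_use hS hT
  have p1 := PsiE_pos η
  have p3 := OmE_pos η
  have p5 := OmE_lt_PsiE η
  have p6 := LamE_pos η
  unfold LamE at p6
  unfold SigRel at h
  have key : (S + PsiE η + OmE η) * (4 - |η| + η ^ 2 * (PsiE η + OmE η) / 4)
      < S * (4 + 2 * S + η ^ 2 * OmE η) / 2 := by
    have e : S * (4 + 2 * S + η ^ 2 * OmE η) / 2
        - (S + PsiE η + OmE η) * (4 - |η| + η ^ 2 * (PsiE η + OmE η) / 4)
        = (4 * PsiE η - (PsiE η + OmE η) * (4 - |η|))
          + S * (|η| - 2 - η ^ 2 * (PsiE η - OmE η) / 4) := by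
      linear_combination h
    have a1 : 0 < 4 * PsiE η - (PsiE η + OmE η) * (4 - |η|) := by nlinarith
    have a2 : 0 ≤ S * (|η| - 2 - η ^ 2 * (PsiE η - OmE η) / 4) := by
      apply mul_nonneg hS.le; linarith
    linarith
  have hpos : 0 < S + PsiE η + OmE η := by linarith
  have h3 : (S + PsiE η + OmE η) * (4 - |η| + η ^ 2 * (PsiE η + OmE η) / 4)
      < (S + PsiE η + OmE η) * (M * S) := by
    nlinarith [mul_le_mul_of_nonneg_left h1 hS.le]
  exact lt_of_mul_lt_mul_left h3 hpos.le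

/-- `C1` without the hypothesis `1 < μ` -/
theorem C1' {K : Set (ℝ × ℝ)} {al be μ : ℝ} (hKc : IsCompact K) (hKv : Convex ℝ K)
    (hS : ((0:ℝ), be) ∈ K)
    (hmean : 0 ≤ ∫ z in K, (z.1 + z.2 - (al + be) / 2 - μ) * Real.exp (-(z.1 + z.2)))
    (hJ : 0 < ∫ z in K, Real.exp (-(z.1 + z.2))) : al - be + 2 * μ ≤ 4 := by
  have h1 := scaling_ineq hKc hKv hS 1 1
  simp only [one_mul, zero_add] at h1
  have hcont : Continuous fun z : ℝ × ℝ => Real.exp (-(z.1 + z.2)) := by fun_prop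
  have hi1 : IntegrableOn (fun z : ℝ × ℝ => Real.exp (-(z.1 + z.2))) K :=
    hcont.continuousOn.integrableOn_compact hKc
  have hi2 : IntegrableOn (fun z : ℝ × ℝ => (z.1 + z.2 - be) * Real.exp (-(z.1 + z.2))) K :=
    (by fun_prop : Continuous fun z : ℝ × ℝ =>
      (z.1 + z.2 - be) * Real.exp (-(z.1 + z.2))).continuousOn.integrableOn_compact hKc
  have h2 := hmean
  have e : ∫ z in K, (z.1 + z.2 - (al + be) / 2 - μ) * Real.exp (-(z.1 + z.2))
      = (∫ z in K, (z.1 + z.2 - be) * Real.exp (-(z.1 + z.2)))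
        - ((al - be) / 2 + μ) * ∫ z in K, Real.exp (-(z.1 + z.2)) := by
    rw [← integral_const_mul, ← integral_sub hi2 (hi1.const_mul _)]
    congr 1
    funext z
    ring
  rw [e] at h2
  set J := ∫ z in K, Real.exp (-(z.1 + z.2))
  have h3 : ((al - be) / 2 + μ) * J ≤ 2 * J := by linarith
  have := le_of_mul_le_mul_right h3 hJ
  linarith

end Pool.Agent.Work.MP_b5407d_pos_h13
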