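import Pool.Agent.Work.MP_b5407d_pos_helper13.Split2
import Pool.Agent.Work.MP_b5407d_pos_helper13.Strict
import Pool.Agent.Work.MP_b5407d_pos_helper13.IdD

/-! # MP_b5407d_gt (POS): scaled sets (helper13) -/

set_option autoImplicit false

open MeasureTheory Set Filter Topology

namespace Pool.Agent.Work.MP_b5407d_pos_h13

open Pool.LBM Pool.LBM.Path

/-- scaled set -/
def SK (v w : ℝ) (K : Set R2) : Set R2 := {z | (z.1 / v, z.2 / w) ∈ K}

section
variable {v w : ℝ} {K : Set R2}

theorem SK_mem (hv : v ≠ 0) (hw : w ≠ 0) {x y : ℝ} (h : (x, y) ∈ K) :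
    (v * x, w * y) ∈ SK v w K := by
  show ((v * x) / v, (w * y) / w) ∈ K
  rw [mul_div_cancel_left₀ _ hv, mul_div_cancel_left₀ _ hw]; exact h

theorem SK_image (hv : v ≠ 0) (hw : w ≠ 0) :
    SK v w K = (fun z : R2 => (v * z.1, w * z.2)) '' K := by
  ext z
  constructor
  · intro hz
    refine ⟨(z.1 / v, z.2 / w), hz, ?_⟩
    ext
    · simp only; field_simp
    · simp only; field_simp
  · rintro ⟨u, hu, rfl⟩
    exact SK_mem hv hw hu

theorem SK_compact (hv : v ≠ 0) (hw : w ≠ 0) (h : IsCompact K) : IsCompact (SK v w K) := by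
  rw [SK_image hv hw]
  exact h.image (by fun_prop)

theorem SK_convex (h : Convex ℝ K) : Convex ℝ (SK v w K) := by
  intro z hz z' hz' s t hs ht hst
  have := h hz hz' hs ht hst
  show ((s • z + t • z').1 / v, (s • z + t • z').2 / w) ∈ K
  have e : ((s • z + t • z').1 / v, (s • z + t • z').2 / w) =
      s • (z.1 / v, z.2 / w) + t • (z'.1 / v, z'.2 / w) := by
    ext
    · simp only [Prod.fst_add, Prod.smul_fst, smul_eq_mul]; ring
    · simp only [Prod.snd_add, Prod.smul_snd, smul_eq_mul]; ring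
  rw [e]; exact this

theorem SK_meas (hv : v ≠ 0) (hw : w ≠ 0) (h : IsCompact K) : MeasurableSet (SK v w K) :=
  (SK_compact hv hw h).measurableSet

/-- integrals over the scaled set -/
theorem int_SK (hv : 0 < v) (hw : 0 < w) (K : Set R2) (f : R2 → ℝ) :
    ∫ z in SK v w K, f z = v * w * ∫ z in K, f (v * z.1, w * z.2) := by
  have e1 : Measure.map (fun x : ℝ => v * x) volume = ENNReal.ofReal |v⁻¹| • (volume : Measure ℝ) :=
    Real.map_volume_mul_left hv.ne'
  have e2 : Measure.map (fun x : ℝ => w * x) volume = ENNReal.ofReal |w⁻¹| • (volume : Measure ℝ) :=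
    Real.map_volume_mul_left hw.ne'
  have m1 : Measurable (fun x : ℝ => v * x) := by fun_prop
  have m2 : Measurable (fun x : ℝ => w * x) := by fun_prop
  have hmap : Measure.map (fun z : R2 => (v * z.1, w * z.2)) (volume : Measure R2) =
      (ENNReal.ofReal |v⁻¹| * ENNReal.ofReal |w⁻¹|) • (volume : Measure R2) := by
    have h1 := Measure.map_prod_map (volume : Measure ℝ) (volume : Measure ℝ) m1 m2
    rw [e1, e2] at h1
    have h2 : (fun z : R2 => (v * z.1, w * z.2)) = Prod.map (fun x : ℝ => v * x)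
        (fun x : ℝ => w * x) := rfl
    rw [h2, Measure.volume_eq_prod, ← h1, Measure.prod_smul_left, Measure.prod_smul_right,
      smul_smul]
  have hemb : MeasurableEmbedding (fun z : R2 => (v * z.1, w * z.2)) := by
    have h1 : MeasurableEmbedding (Prod.map (fun x : ℝ => v * x) (fun x : ℝ => w * x)) :=
      (measurableEmbedding_mulLeft₀ hv.ne').prodMap (measurableEmbedding_mulLeft₀ hw.ne')
    exact h1
  have h3 := hemb.setIntegral_map (μ := (volume : Measure R2)) f (SK v w K)
  rw [hmap, Measure.restrict_smul, integral_smul_measure] at h3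
  have h4 : (fun z : R2 => (v * z.1, w * z.2)) ⁻¹' SK v w K = K := by
    ext z
    show ((v * z.1) / v, (w * z.2) / w) ∈ K ↔ z ∈ K
    rw [mul_div_cancel_left₀ _ hv.ne', mul_div_cancel_left₀ _ hw.ne']
  rw [h4] at h3
  rw [← h3, ENNReal.toReal_mul, ENNReal.toReal_ofReal (abs_nonneg _),
    ENNReal.toReal_ofReal (abs_nonneg _), abs_of_pos (inv_pos.2 hv), abs_of_pos (inv_pos.2 hw),
    smul_eq_mul]
  field_simp

end

end Pool.Agent.Work.MP_b5407d_pos_h13
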