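import Pool.Agent.Work.MP_b5407d_pos_helper13.Scale

/-! # MP_b5407d_gt (POS): section 5 for the glued polygon (helper13) -/

set_option autoImplicit false

open MeasureTheory Set Filter Topology

namespace Pool.Agent.Work.MP_b5407d_pos_h13

open Pool.LBM Pool.LBM.Path
open Pool.Agent.MPb5407d (S5Hyp shc five_d Tri)

section
variable {M r : ℕ} {a b X Y : ℕ → ℝ}

/-- data of the corner case: `K'` in standard position, near chain glued to it -/
structure CD (M r : ℕ) (a b X Y : ℕ → ℝ) : Prop where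
  K' : Std M 0 a b
  K : Std (M + r) r (glu r X a) (glu r Y b)
  one : 1 ≤ r

namespace CD
variable (D : CD M r a b X Y)
include D

theorem b0 : b 0 = 0 := D.K'.br
theorem b1 : b 1 = 0 := D.K'.br1
theorem M1 : 1 ≤ M := D.K'.lt
theorem X0 : X 0 = 0 := by
  have := D.K.a0
  rwa [glu_le a (Nat.zero_le r)] at this
theorem Yr : Y r = 0 := by
  have := D.K.br
  rwa [glu_le b le_rfl] at this

theorem a1_pos : 0 < a 1 := by
  have h1 := D.K'.bot
  have h2 := D.K'.a0
  rw [h2, zero_add] at h1
  exact h1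

theorem near {k : ℕ} (hk : k < r) : X k < X (k + 1) ∧ Y (k + 1) < Y k := by
  have h := std_near D.K hk
  rw [glu_le a hk.le, glu_le a (by omega : k + 1 ≤ r), glu_le b hk.le,
    glu_le b (by omega : k + 1 ≤ r)] at h
  exact h

theorem Xr_lt : X r < a 1 := by
  have h := D.K.bot
  rw [glu_le a le_rfl, add_comm, glu_gt a le_rfl] at h
  exact h

theorem Y0_lt : Y 0 < b M := by
  have h := D.K.left
  have h1 := D.M1
  rw [glu_le b (Nat.zero_le r), glu_gt b h1] at h
  exact h

theorem Y_nonneg {k : ℕ} (hk : k ≤ r) : 0 ≤ Y k := by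
  have h := std_b_nonneg D.K (k := k) (by omega)
  rwa [glu_le b hk] at h

theorem X_nonneg {k : ℕ} (hk : k ≤ r) : 0 ≤ X k := by
  have h := std_a_nonneg D.K (k := k) (by omega)
  rwa [glu_le a hk] at h

theorem Y0_pos : 0 < Y 0 := by
  have h := D.one
  have h1 := (D.near (k := 0) (by omega)).2
  have h2 := D.Y_nonneg (k := 0 + 1) (by omega)
  linarith

theorem Xr_pos : 0 < X r := by
  have h := D.one
  obtain ⟨q, rfl⟩ : ∃ q, r = q + 1 := ⟨r - 1, by omega⟩
  have h1 := (D.near (k := q) (by omega)).1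
  have h2 := D.X_nonneg (k := q) (by omega)
  linarith

/-- `K ⊆ K'` -/
theorem sub : KK (M + r) (glu r X a) (glu r Y b) ⊆ KK M a b := by
  rintro z ⟨h1, h2⟩
  refine ⟨h1, fun k hk => ?_⟩
  rcases Nat.eq_zero_or_pos k with h0 | h0
  · subst h0
    have hM := D.M1
    have h3 := h2 r (by omega)
    rw [glu_le a le_rfl, glu_le b le_rfl, add_comm r 1, glu_gt a le_rfl, glu_gt b le_rfl,
      D.Yr, D.b1] at h3
    simp only [sub_zero, sub_self, zero_mul] at h3
    have h4 := D.Xr_lt
    have h5 : 0 ≤ z.2 := nonneg_of_mul_nonneg_right h3 (by linarith)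
    rw [zero_add, D.K'.a0, D.b0, D.b1]
    have := mul_nonneg D.a1_pos.le h5
    linarith
  · have h3 := h2 (k + r) (by omega)
    have e : k + r + 1 = (k + 1) + r := by ring
    rw [e, glu_gt a (by omega : 1 ≤ k), glu_gt b (by omega : 1 ≤ k),
      glu_gt a (by omega : 1 ≤ k + 1), glu_gt b (by omega : 1 ≤ k + 1)] at h3
    exact h3

theorem quad {z : R2} (hz : z ∈ KK M a b) : 0 ≤ z.1 ∧ 0 ≤ z.2 := by
  refine ⟨hz.1, ?_⟩
  have h3 := hz.2 0 (by have := D.M1; omega)
  rw [zero_add, D.K'.a0, D.b0, D.b1] at h3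
  simp only [sub_zero, sub_self, zero_mul] at h3
  exact nonneg_of_mul_nonneg_right h3 D.a1_pos

/-- `K' \ K` lies in the triangle -/
theorem diff {z : R2} (hz : z ∈ KK M a b) (hz' : z ∉ KK (M + r) (glu r X a) (glu r Y b)) :
    Y 0 * z.1 + X r * z.2 ≤ X r * Y 0 := by
  obtain ⟨hz1, hz2⟩ := D.quad hz
  have hC := CP_of_Std D.K
  have hex : ∃ k < M + r, ¬ 0 ≤ (glu r X a (k + 1) - glu r X a k) * (z.2 - glu r Y b k) -
      (glu r Y b (k + 1) - glu r Y b k) * (z.1 - glu r X a k) := by
    by_contra hn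
    push Not at hn
    exact hz' ⟨hz1, hn⟩
  obtain ⟨k, hk, hneg⟩ := hex
  rcases lt_trichotomy k r with hkr | hkr | hkr
  · have vT := KK_vertex hC (j := r) (by omega)
    have vS := KK_vertex hC (j := 0) (by omega)
    rw [glu_le a le_rfl, glu_le b le_rfl, D.Yr] at vT
    rw [glu_le a (Nat.zero_le r), glu_le b (Nat.zero_le r), D.X0] at vS
    have fT := vT.2 k hk
    have fS := vS.2 k hk
    rw [glu_le a hkr.le, glu_le a (by omega : k + 1 ≤ r), glu_le b hkr.le,
      glu_le b (by omega : k + 1 ≤ r)] at hneg fT fS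
    simp only at fT fS
    obtain ⟨hx, hy⟩ := D.near hkr
    have hYk1 := D.Y_nonneg (k := k + 1) (by omega)
    have hXk := D.X_nonneg (k := k) hkr.le
    set p := Y k - Y (k + 1) with hp
    set q := X (k + 1) - X k with hq
    set c := q * Y k + p * X k with hc
    have hp0 : 0 < p := by linarith
    have hq0 : 0 < q := by linarith
    have hc0 : 0 < c := by
      have h1 : 0 < q * Y k := mul_pos hq0 (by linarith)
      have h2 : 0 ≤ p * X k := mul_nonneg hp0.le hXk
      linarith
    have f1 : p * z.1 + q * z.2 < c := by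
      push Not at hneg
      rw [hc, hp, hq]; linarith
    have f2 : c ≤ p * X r := by rw [hc, hp, hq]; linarith
    have f3 : c ≤ q * Y 0 := by rw [hc, hp, hq]; linarith
    have hY0 := D.Y0_pos
    have hXr := D.Xr_pos
    have g1 : c * (Y 0 * z.1) ≤ (p * X r) * (Y 0 * z.1) :=
      mul_le_mul_of_nonneg_right f2 (mul_nonneg hY0.le hz1)
    have g2 : c * (X r * z.2) ≤ (q * Y 0) * (X r * z.2) :=
      mul_le_mul_of_nonneg_right f3 (mul_nonneg hXr.le hz2)
    have g3 : (X r * Y 0) * (p * z.1 + q * z.2) ≤ (X r * Y 0) * c :=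
      mul_le_mul_of_nonneg_left f1.le (mul_pos hXr hY0).le
    have g4 : c * (Y 0 * z.1 + X r * z.2) ≤ c * (X r * Y 0) := by nlinarith
    exact le_of_mul_le_mul_left g4 hc0
  · exfalso
    apply hneg
    subst hkr
    rw [glu_le a le_rfl, glu_le b le_rfl, add_comm k 1, glu_gt a le_rfl, glu_gt b le_rfl,
      D.Yr, D.b1]
    have h4 := D.Xr_lt
    have : 0 ≤ (a 1 - X k) * z.2 := mul_nonneg (by linarith) hz2
    linarith
  · exfalso
    apply hneg
    obtain ⟨j, rfl⟩ : ∃ j, k = j + r := ⟨k - r, by omega⟩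
    have e : j + r + 1 = (j + 1) + r := by ring
    rw [e, glu_gt a (by omega : 1 ≤ j), glu_gt b (by omega : 1 ≤ j),
      glu_gt a (by omega : 1 ≤ j + 1), glu_gt b (by omega : 1 ≤ j + 1)]
    exact hz.2 j (by omega)

variable {v w : ℝ}

/-- mean condition -/
theorem mean {μ : ℝ} (hv : 0 < v) (hw : 0 < w)
    (h : v * X r + w * Y 0 + 2 * μ ≤
      2 * (v * (Ix v w (glu r X a) (glu r Y b) (M + r) / pJ v w (glu r X a) (glu r Y b) (M + r)) +
        w * (Iy v w (glu r X a) (glu r Y b) (M + r) /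
          pJ v w (glu r X a) (glu r Y b) (M + r)))) :
    0 ≤ ∫ z in SK v w (KK (M + r) (glu r X a) (glu r Y b)),
      (z.1 + z.2 - (v * X r + w * Y 0) / 2 - μ) * Real.exp (-(z.1 + z.2)) := by
  have hC := CP_of_Std D.K
  have hJ := pJ_pos (v := v) (w := w) hC
  rw [int_SK hv hw]
  apply mul_nonneg (mul_pos hv hw).le
  set K := KK (M + r) (glu r X a) (glu r Y b) with hK
  set J := pJ v w (glu r X a) (glu r Y b) (M + r) with hJd
  set c := (v * X r + w * Y 0) / 2 + μ with hc
  have hc1 : Continuous fun z : R2 => Real.exp (-(v * z.1) - w * z.2) := by fun_prop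
  have hc2 : Continuous fun z : R2 => z.1 * Real.exp (-(v * z.1) - w * z.2) := by fun_prop
  have hc3 : Continuous fun z : R2 => z.2 * Real.exp (-(v * z.1) - w * z.2) := by fun_prop
  have i1 := hc1.continuousOn.integrableOn_compact (μ := volume) (KK_compact hC)
  have i2 := hc2.continuousOn.integrableOn_compact (μ := volume) (KK_compact hC)
  have i3 := hc3.continuousOn.integrableOn_compact (μ := volume) (KK_compact hC)
  have e : (∫ z in K, (v * z.1 + w * z.2 - (v * X r + w * Y 0) / 2 - μ) *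
      Real.exp (-(v * z.1 + w * z.2))) =
      v * Ix v w (glu r X a) (glu r Y b) (M + r) + w * Iy v w (glu r X a) (glu r Y b) (M + r) -
        c * J := by
    rw [hJd, ← pJ_area hC]
    unfold Ix Iy
    rw [← hK] at i1 i2 i3 ⊢
    have i5 : IntegrableOn (fun z : R2 => v * (z.1 * Real.exp (-(v * z.1) - w * z.2)) +
        w * (z.2 * Real.exp (-(v * z.1) - w * z.2))) K volume :=
      (i2.const_mul _).add (i3.const_mul _)
    rw [← integral_const_mul, ← integral_const_mul, ← integral_const_mul, ← integral_add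
      (i2.const_mul _) (i3.const_mul _), ← integral_sub i5 (i1.const_mul _)]
    congr 1
    funext z
    have e1 : -(v * z.1 + w * z.2) = -(v * z.1) - w * z.2 := by ring
    rw [e1, hc]
    ring
  rw [e]
  set I1 := Ix v w (glu r X a) (glu r Y b) (M + r)
  set I2 := Iy v w (glu r X a) (glu r Y b) (M + r)
  have h1 : 2 * (v * (I1 / J) + w * (I2 / J)) * J = 2 * (v * I1 + w * I2) := by
    field_simp
  have h2 := mul_le_mul_of_nonneg_right h hJ.le
  rw [h1] at h2
  rw [hc]
  linarith

theorem intJ (hv : 0 < v) (hw : 0 < w) :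
    ∫ z in SK v w (KK (M + r) (glu r X a) (glu r Y b)), Real.exp (-(z.1 + z.2)) =
      v * w * pJ v w (glu r X a) (glu r Y b) (M + r) := by
  rw [int_SK hv hw, ← pJ_area (CP_of_Std D.K)]
  congr 2
  funext z
  congr 1
  ring

theorem intJ' (hv : 0 < v) (hw : 0 < w) :
    ∫ z in SK v w (KK M a b), Real.exp (-(z.1 + z.2)) = v * w * pJ v w a b M := by
  rw [int_SK hv hw, ← pJ_area (CP_of_Std D.K')]
  congr 2
  funext z
  congr 1
  ring

theorem intd (hv : 0 < v) (hw : 0 < w) :
    ∫ z in SK v w (KK (M + r) (glu r X a) (glu r Y b)), Real.exp (z.1 + z.2) =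
      v * w * pd v w (glu r X a) (glu r Y b) (M + r) := by
  rw [int_SK hv hw, ← pd_area (CP_of_Std D.K)]

/-- `d ≤ d'` -/
theorem d_le : pd v w (glu r X a) (glu r Y b) (M + r) ≤ pd v w a b M := by
  rw [← pd_area (CP_of_Std D.K), ← pd_area (CP_of_Std D.K')]
  have hc : Continuous fun z : R2 => Real.exp (v * z.1 + w * z.2) := by fun_prop
  apply setIntegral_mono_set (hc.continuousOn.integrableOn_compact (KK_compact
    (CP_of_Std D.K')))
  · exact Eventually.of_forall fun z => (Real.exp_pos _).le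
  · exact (HasSubset.Subset.eventuallyLE D.sub)

/-- the S5 hypotheses -/
theorem s5 {μ : ℝ} (hv : 0 < v) (hw : 0 < w) (hle : w * Y 0 ≤ v * X r) (hμ : 1 < μ)
    (h : v * X r + w * Y 0 + 2 * μ ≤
      2 * (v * (Ix v w (glu r X a) (glu r Y b) (M + r) / pJ v w (glu r X a) (glu r Y b) (M + r)) +
        w * (Iy v w (glu r X a) (glu r Y b) (M + r) /
          pJ v w (glu r X a) (glu r Y b) (M + r)))) :
    S5Hyp (SK v w (KK (M + r) (glu r X a) (glu r Y b))) (SK v w (KK M a b)) (v * X r) (w * Y 0)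
      μ where
  hK'c := SK_compact hv.ne' hw.ne' (KK_compact (CP_of_Std D.K'))
  hK'v := SK_convex (KK_convex _ _ _)
  hquad := by
    intro z hz
    obtain ⟨h1, h2⟩ := D.quad (z := (z.1 / v, z.2 / w)) hz
    simp only at h1 h2
    constructor
    · have := mul_nonneg h1 hv.le
      rwa [div_mul_cancel₀ _ hv.ne'] at this
    · have := mul_nonneg h2 hw.le
      rwa [div_mul_cancel₀ _ hw.ne'] at this
  hO := by
    have h1 := KK_vertex (CP_of_Std D.K') (j := 0) (Nat.zero_le _)
    rw [D.K'.a0, D.b0] at h1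
    have h2 := SK_mem hv.ne' hw.ne' h1
    simpa using h2
  hKc := SK_compact hv.ne' hw.ne' (KK_compact (CP_of_Std D.K))
  hKv := SK_convex (KK_convex _ _ _)
  hsub := fun z hz => D.sub hz
  hdiff := by
    rintro z ⟨h1, h2⟩
    have h3 := D.diff (z := (z.1 / v, z.2 / w)) h1 h2
    obtain ⟨h4, h5⟩ := D.quad (z := (z.1 / v, z.2 / w)) h1
    simp only at h3 h4 h5
    refine ⟨?_, ?_, ?_⟩
    · have := mul_nonneg h4 hv.le
      rwa [div_mul_cancel₀ _ hv.ne'] at this
    · have := mul_nonneg h5 hw.le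
      rwa [div_mul_cancel₀ _ hw.ne'] at this
    · have h6 := mul_le_mul_of_nonneg_left h3 (mul_pos hv hw).le
      have e1 : v * w * (Y 0 * (z.1 / v) + X r * (z.2 / w)) = w * Y 0 * z.1 + v * X r * z.2 := by
        field_simp
      rw [e1] at h6
      linarith
  hT := by
    have h1 := KK_vertex (CP_of_Std D.K) (j := r) (by omega)
    rw [glu_le a le_rfl, glu_le b le_rfl, D.Yr] at h1
    have h2 := SK_mem hv.ne' hw.ne' h1
    simpa using h2
  hS := by
    have h1 := KK_vertex (CP_of_Std D.K) (j := 0) (by omega)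
    rw [glu_le a (Nat.zero_le r), glu_le b (Nat.zero_le r), D.X0] at h1
    have h2 := SK_mem hv.ne' hw.ne' h1
    simpa using h2
  hbe := mul_pos hw D.Y0_pos
  hle := hle
  hmu := hμ
  hmean := D.mean hv hw h
  hJ := by
    rw [D.intJ hv hw]
    exact mul_pos (mul_pos hv hw) (pJ_pos (CP_of_Std D.K))

/-- conclusion of section 5 -/
theorem five {μ : ℝ} (hv : 0 < v) (hw : 0 < w) (hle : w * Y 0 ≤ v * X r) (hμ : 1 < μ)
    (h : v * X r + w * Y 0 + 2 * μ ≤
      2 * (v * (Ix v w (glu r X a) (glu r Y b) (M + r) / pJ v w (glu r X a) (glu r Y b) (M + r)) +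
        w * (Iy v w (glu r X a) (glu r Y b) (M + r) /
          pJ v w (glu r X a) (glu r Y b) (M + r))))
    (hc : Real.exp ((v * X r - w * Y 0) / 2) ≤
      w * Y 0 * Real.exp 2 * shc ((v * X r - w * Y 0) / 2)) :
    mE v (X r) ≤ pP v w a b M / pd v w a b M ∨ mE w (Y 0) ≤ pN v w a b M 0 / pd v w a b M := by
  have S := D.s5 hv hw hle hμ h
  have hvw : 0 < v * w := mul_pos hv hw
  have c5 := S.C5
  have c2 := S.C2
  have c4 := S.C4 hc
  rw [D.intJ' hv hw] at c5 c2
  rw [D.intd hv hw] at c4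
  have hd' := pd_pos (v := v) (w := w) (CP_of_Std D.K')
  have c4' : Real.exp (v * X r) ≤ v * w * pd v w a b M :=
    c4.trans (mul_le_mul_of_nonneg_left D.d_le hvw.le)
  have hid : v * w * pd v w a b M * (1 + v * w * pJ v w a b M -
      v * (pP v w a b M / pd v w a b M) - w * (pN v w a b M 0 / pd v w a b M)) =
      v * w * pJ v w a b M := by
    have h1 := idD (v := v) D.K' hw.ne'
    have h2 : v * w * pd v w a b M * (1 + v * w * pJ v w a b M -
      v * (pP v w a b M / pd v w a b M) - w * (pN v w a b M 0 / pd v w a b M)) =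
      v * w * (pd v w a b M * (1 + v * w * pJ v w a b M) - v * pP v w a b M -
        w * pN v w a b M 0) := by
      field_simp
    rw [h2, h1]
  rcases five_d c5 c4' c2 hid with h1 | h1
  · left
    have h2 := mul_mE v (X r)
    have h3 : v * mE v (X r) ≤ v * (pP v w a b M / pd v w a b M) := by rw [h2]; exact h1
    exact le_of_mul_le_mul_left h3 hv
  · right
    have h2 := mul_mE w (Y 0)
    have h3 : w * mE w (Y 0) ≤ w * (pN v w a b M 0 / pd v w a b M) := by rw [h2]; exact h1
    exact le_of_mul_le_mul_left h3 hw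

end CD

end

end Pool.Agent.Work.MP_b5407d_pos_h13
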