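import Pool.Agent.Work.MP_b5407d_lbm_helper35.PC

/-! # MP_b5407d_gt (POS), vertical shears of a path: covariance of `pd pP pN pM` (helper13) -/

set_option autoImplicit false

open MeasureTheory Set Filter Topology

namespace Pool.Agent.Work.MP_b5407d_pos_h13

open Pool.LBM Pool.LBM.Path

/-! ### one variable -/

theorem eq_of_deriv {f g f' : ℝ → ℝ} (hf : ∀ x, HasDerivAt f (f' x) x)
    (hg : ∀ x, HasDerivAt g (f' x) x) (h0 : f 0 = g 0) (x : ℝ) : f x = g x := by
  have hd : ∀ y, HasDerivAt (fun y => f y - g y) 0 y := fun y =>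
    ((hf y).fun_sub (hg y)).congr_deriv (by ring)
  have h := is_const_of_deriv_eq_zero (fun y => (hd y).differentiableAt)
    (fun y => (hd y).deriv) x 0
  linarith

/-- primitive of a continuous function -/
noncomputable def pr (f : ℝ → ℝ) (x : ℝ) : ℝ := ∫ s in (0 : ℝ)..x, f s

theorem pr_deriv {f : ℝ → ℝ} (hf : Continuous f) (x : ℝ) : HasDerivAt (pr f) (f x) x :=
  intervalIntegral.integral_hasDerivAt_right (hf.intervalIntegrable 0 x)
    (hf.stronglyMeasurable.stronglyMeasurableAtFilter) hf.continuousAt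

theorem pr_cont {f : ℝ → ℝ} (hf : Continuous f) : Continuous (pr f) :=
  continuous_iff_continuousAt.mpr fun x => (pr_deriv hf x).continuousAt

@[simp] theorem pr_zero (f : ℝ → ℝ) : pr f 0 = 0 := by simp [pr]

theorem exp_lin_deriv (c x : ℝ) :
    HasDerivAt (fun x => Real.exp (-(c * x))) (-(c * Real.exp (-(c * x)))) x := by
  have h := ((hasDerivAt_id x).const_mul c).fun_neg.exp
  refine h.congr_deriv ?_
  simp only [id]; ring

theorem mE_add (w g y : ℝ) : mE w (y + g) = mE w g + Real.exp (-(w * g)) * mE w y := by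
  refine eq_of_deriv (f := fun y => mE w (y + g))
    (g := fun y => mE w g + Real.exp (-(w * g)) * mE w y)
    (f' := fun y => Real.exp (-(w * g)) * Real.exp (-(w * y))) ?_ ?_ ?_ y
  · intro x
    have h := (mE_deriv w (x + g)).comp x ((hasDerivAt_id x).add_const g)
    refine h.congr_deriv ?_
    rw [← Real.exp_add, mul_one]
    congr 1; ring
  · intro x
    exact ((mE_deriv w x).const_mul _).const_add _
  · simp

section onevar
variable (v w σ : ℝ)

/-- `S(x) = ∫_0^x e^{-v' s} mE w (σ s)`, `v' = v - σ w` -/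
noncomputable def fS : ℝ → ℝ := pr fun s => Real.exp (-((v - σ * w) * s)) * mE w (σ * s)

/-- `g(x) = ∫_0^x e^{-v' s} mL w (σ s)` -/
noncomputable def fG : ℝ → ℝ := pr fun s => Real.exp (-((v - σ * w) * s)) * mL w (σ * s)

theorem cS : Continuous fun s => Real.exp (-((v - σ * w) * s)) * mE w (σ * s) := by
  have := mE_cont w
  fun_prop

theorem cG : Continuous fun s => Real.exp (-((v - σ * w) * s)) * mL w (σ * s) := by
  have := mL_cont w
  fun_prop

theorem fS_deriv (x : ℝ) :
    HasDerivAt (fS v w σ) (Real.exp (-((v - σ * w) * x)) * mE w (σ * x)) x :=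
  pr_deriv (cS v w σ) x

theorem fG_deriv (x : ℝ) :
    HasDerivAt (fG v w σ) (Real.exp (-((v - σ * w) * x)) * mL w (σ * x)) x :=
  pr_deriv (cG v w σ) x

theorem fS_cont : Continuous (fS v w σ) := pr_cont (cS v w σ)
theorem fG_cont : Continuous (fG v w σ) := pr_cont (cG v w σ)

@[simp] theorem fS_zero : fS v w σ 0 = 0 := pr_zero _
@[simp] theorem fG_zero : fG v w σ 0 = 0 := pr_zero _

theorem exp_split (x : ℝ) : Real.exp (-((v - σ * w) * x)) * Real.exp (-(w * (σ * x))) =
    Real.exp (-(v * x)) := by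
  rw [← Real.exp_add]; congr 1; ring

theorem w_fS (x : ℝ) : w * fS v w σ x = mE (v - σ * w) x - mE v x := by
  refine eq_of_deriv (f := fun x => w * fS v w σ x) (g := fun x => mE (v - σ * w) x - mE v x)
    (f' := fun x => Real.exp (-((v - σ * w) * x)) - Real.exp (-(v * x))) ?_ ?_ ?_ x
  · intro x
    refine ((fS_deriv v w σ x).const_mul w).congr_deriv ?_
    have h := mul_mE w (σ * x)
    have h2 := exp_split v w σ x
    linear_combination Real.exp (-((v - σ * w) * x)) * h - h2
  · intro x
    exact (mE_deriv _ x).sub (mE_deriv v x)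
  · simp

theorem S3 (x : ℝ) : Real.exp (-((v - σ * w) * x)) * mE w (σ * x) + (v - σ * w) * fS v w σ x =
    σ * mE v x := by
  refine eq_of_deriv (f := fun x => Real.exp (-((v - σ * w) * x)) * mE w (σ * x) +
      (v - σ * w) * fS v w σ x) (g := fun x => σ * mE v x)
    (f' := fun x => σ * Real.exp (-(v * x))) ?_ ?_ ?_ x
  · intro x
    have h1 := (mE_deriv w (σ * x)).comp x ((hasDerivAt_id x).const_mul σ)
    have h2 := ((exp_lin_deriv (v - σ * w) x).mul h1).add
      ((fS_deriv v w σ x).const_mul (v - σ * w))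
    refine h2.congr_deriv ?_
    have h3 := exp_split v w σ x
    simp only [Function.comp, id]
    linear_combination σ * h3
  · intro x
    exact (mE_deriv v x).const_mul σ
  · simp

theorem w_fG (x : ℝ) : w * fG v w σ x = fS v w σ x - σ * mL v x := by
  refine eq_of_deriv (f := fun x => w * fG v w σ x) (g := fun x => fS v w σ x - σ * mL v x)
    (f' := fun x => Real.exp (-((v - σ * w) * x)) * mE w (σ * x) -
      σ * (x * Real.exp (-(v * x)))) ?_ ?_ ?_ x
  · intro x
    refine ((fG_deriv v w σ x).const_mul w).congr_deriv ?_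
    have h := mul_mL w (σ * x)
    have h2 := exp_split v w σ x
    linear_combination Real.exp (-((v - σ * w) * x)) * h - σ * x * h2
  · intro x
    exact (fS_deriv v w σ x).sub ((mL_deriv v x).const_mul σ)
  · simp

theorem G3 (x : ℝ) : Real.exp (-((v - σ * w) * x)) * mL w (σ * x) + (v - σ * w) * fG v w σ x =
    σ ^ 2 * mL v x := by
  refine eq_of_deriv (f := fun x => Real.exp (-((v - σ * w) * x)) * mL w (σ * x) +
      (v - σ * w) * fG v w σ x) (g := fun x => σ ^ 2 * mL v x)
    (f' := fun x => σ ^ 2 * (x * Real.exp (-(v * x)))) ?_ ?_ ?_ x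
  · intro x
    have h1 := (mL_deriv w (σ * x)).comp x ((hasDerivAt_id x).const_mul σ)
    have h2 := ((exp_lin_deriv (v - σ * w) x).mul h1).add
      ((fG_deriv v w σ x).const_mul (v - σ * w))
    refine h2.congr_deriv ?_
    have h3 := exp_split v w σ x
    simp only [Function.comp, id]
    linear_combination σ ^ 2 * x * h3
  · intro x
    exact (mL_deriv v x).const_mul _
  · simp

end onevar

/-! ### integration with a jump -/

theorem int_ind {g : ℝ → ℝ} {τ M : ℝ} (h0 : 0 ≤ τ) (hM : τ ≤ M)
    (hg : IntervalIntegrable g volume 0 M) :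
    (∫ t in (0 : ℝ)..M, (if τ ≤ t then g t else 0)) = ∫ t in τ..M, g t := by
  have hgτ : IntervalIntegrable g volume τ M := by
    refine hg.mono_set ?_
    rw [uIcc_of_le (h0.trans hM), uIcc_of_le hM]
    exact Icc_subset_Icc_left h0
  have e2 : (∫ t in τ..M, (if τ ≤ t then g t else 0)) = ∫ t in τ..M, g t := by
    refine intervalIntegral.integral_congr fun t ht => ?_
    rw [uIcc_of_le hM] at ht
    simp [ht.1]
  have hne : ∀ᵐ t : ℝ, t ≠ τ := by rw [ae_iff]; simp
  have e1 : (∫ t in (0 : ℝ)..τ, (if τ ≤ t then g t else 0)) = ∫ t in (0 : ℝ)..τ, (0 : ℝ) := by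
    refine intervalIntegral.integral_congr_ae ?_
    filter_upwards [hne] with t ht htI
    rw [uIoc_of_le h0] at htI
    have : ¬ τ ≤ t := fun h => ht (le_antisymm htI.2 h)
    simp [this]
  have i1 : IntervalIntegrable (fun t => if τ ≤ t then g t else 0) volume 0 τ := by
    refine (intervalIntegrable_const (c := (0 : ℝ))).congr_ae ?_
    rw [Filter.EventuallyEq, ae_restrict_iff' measurableSet_uIoc]
    filter_upwards [hne] with t ht htI
    rw [uIoc_of_le h0] at htI
    have : ¬ τ ≤ t := fun h => ht (le_antisymm htI.2 h)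
    simp [this]
  have i2 : IntervalIntegrable (fun t => if τ ≤ t then g t else 0) volume τ M := by
    refine hgτ.congr_ae ?_
    rw [Filter.EventuallyEq, ae_restrict_iff' measurableSet_uIoc]
    refine Eventually.of_forall fun t ht => ?_
    rw [uIoc_of_le hM] at ht
    simp [ht.1.le]
  rw [← intervalIntegral.integral_add_adjacent_intervals i1 i2, e1, e2]
  simp

theorem ii_ind {g : ℝ → ℝ} {τ M : ℝ} (hg : IntervalIntegrable g volume 0 M) :
    IntervalIntegrable (fun t => if τ ≤ t then g t else 0) volume 0 M := by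
  have : (fun t => if τ ≤ t then g t else 0) = (Ici τ).indicator g := by
    funext t
    simp [indicator, mem_Ici]
  rw [this]
  constructor
  · exact hg.1.indicator measurableSet_Ici
  · exact hg.2.indicator measurableSet_Ici

section path
variable (v w : ℝ) (a b : ℕ → ℝ) (m : ℕ)

/-- `L + J 1[t ≥ τ]` -/
noncomputable def pRt (τ t : ℝ) : ℝ :=
  pL v w a b t + (if τ ≤ t then pJ v w a b m else 0)

theorem pR_eq (r : ℕ) (t : ℝ) : pR v w a b m r t = pRt v w a b m ((r : ℝ) + 1) t := rfl

theorem int_R {τ : ℝ} (h0 : 0 ≤ τ) (hM : τ ≤ m) {g : ℝ → ℝ} (hg : Continuous g)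
    (c : ℕ → ℝ) :
    (∫ t in (0 : ℝ)..m, pRt v w a b m τ t * g t * dpl c t) =
      (∫ t in (0 : ℝ)..m, (pL v w a b t * g t) * dpl c t) +
        pJ v w a b m * ∫ t in τ..m, g t * dpl c t := by
  have hL := pL_cont v w a b
  have e : ∀ t, pRt v w a b m τ t * g t * dpl c t = (pL v w a b t * g t) * dpl c t +
      (if τ ≤ t then pJ v w a b m * (g t * dpl c t) else 0) := by
    intro t
    unfold pRt
    split_ifs <;> ring
  have hLg : Continuous fun t => pL v w a b t * g t := hL.mul hg
  simp only [e]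
  rw [intervalIntegral.integral_add (mul_ii c hLg 0 m)
    (ii_ind ((mul_ii c hg 0 m).const_mul _)), int_ind h0 hM ((mul_ii c hg 0 m).const_mul _),
    intervalIntegral.integral_const_mul]

theorem ii_R (τ : ℝ) {g : ℝ → ℝ} (hg : Continuous g) (c : ℕ → ℝ) :
    IntervalIntegrable (fun t => pRt v w a b m τ t * g t * dpl c t) volume 0 m := by
  have hL := pL_cont v w a b
  have e : (fun t => pRt v w a b m τ t * g t * dpl c t) = fun t =>
      (pL v w a b t * g t) * dpl c t +
      (if τ ≤ t then pJ v w a b m * (g t * dpl c t) else 0) := by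
    funext t
    unfold pRt
    split_ifs <;> ring
  rw [e]
  exact (mul_ii c (hL.mul hg) 0 m).add (ii_ind ((mul_ii c hg 0 m).const_mul _))

/-- `C N - M = ∫ u R dy` -/
theorem CNM_eq {τ : ℝ} (C : ℝ) :
    C * (∫ t in (0 : ℝ)..m, pRt v w a b m τ t / pe v w a b t * dpl b t) -
      (∫ t in (0 : ℝ)..m, pX v w a b t * pRt v w a b m τ t / pe v w a b t * dpl b t) =
    ∫ t in (0 : ℝ)..m, pRt v w a b m τ t * pu v w a b C t * dpl b t := by
  have hec := pe_cont v w a b
  have hXc := pX_cont v w a b
  have hei : Continuous fun t => (pe v w a b t)⁻¹ := hec.inv₀ (pe_ne v w a b)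
  have i1 := ii_R v w a b m τ hei b
  have hXe : Continuous fun t => pX v w a b t * (pe v w a b t)⁻¹ := hXc.mul hei
  have i2 := ii_R v w a b m τ hXe b
  have e1 : (∫ t in (0 : ℝ)..m, pRt v w a b m τ t / pe v w a b t * dpl b t) =
      ∫ t in (0 : ℝ)..m, pRt v w a b m τ t * (pe v w a b t)⁻¹ * dpl b t := by
    refine intervalIntegral.integral_congr fun t _ => ?_
    simp only [div_eq_mul_inv]
  have e2 : (∫ t in (0 : ℝ)..m, pX v w a b t * pRt v w a b m τ t / pe v w a b t * dpl b t) =
      ∫ t in (0 : ℝ)..m, pRt v w a b m τ t * (pX v w a b t * (pe v w a b t)⁻¹) * dpl b t := by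
    refine intervalIntegral.integral_congr fun t _ => ?_
    simp only [div_eq_mul_inv]; ring
  rw [e1, e2, ← intervalIntegral.integral_const_mul, ← intervalIntegral.integral_sub
    (i1.const_mul C) i2]
  refine intervalIntegral.integral_congr fun t _ => ?_
  simp only [pu, div_eq_mul_inv]; ring

end path

/-! ### shear -/

/-- shear of the second coordinate -/
def shr (σ c0 : ℝ) (a b : ℕ → ℝ) : ℕ → ℝ := fun k => b k + σ * a k + c0

section shear
variable (v w σ c0 : ℝ) (a b : ℕ → ℝ) (m : ℕ)

theorem pl_shr (t : ℝ) : pl (shr σ c0 a b) t = pl b t + σ * pl a t + c0 := by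
  simp only [pl, shr]; ring

theorem dpl_shr (t : ℝ) : dpl (shr σ c0 a b) t = dpl b t + σ * dpl a t := by
  simp only [dpl, shr]; ring

theorem pe_shr (t : ℝ) : pe (v - σ * w) w a (shr σ c0 a b) t =
    Real.exp (-(w * c0)) * pe v w a b t := by
  unfold pe
  rw [pl_shr, ← Real.exp_add]; congr 1; ring

theorem pX_shr (t : ℝ) : pX (v - σ * w) w a (shr σ c0 a b) t =
    Real.exp (-(w * c0)) * pX v w a b t := by
  unfold pX
  rw [← intervalIntegral.integral_const_mul]
  refine intervalIntegral.integral_congr fun s _ => ?_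
  simp only [pe_shr]; ring

theorem pq_shr (t : ℝ) : pq (v - σ * w) w a (shr σ c0 a b) t =
    Real.exp (-(w * c0)) * pq v w a b t +
      Real.exp (-((v - σ * w) * pl a t)) * mE w (σ * pl a t + c0) := by
  unfold pq
  rw [pl_shr]
  have h : pl b t + σ * pl a t + c0 = pl b t + (σ * pl a t + c0) := by ring
  rw [h, mE_add]
  have h2 : Real.exp (-((v - σ * w) * pl a t)) * Real.exp (-(w * (σ * pl a t + c0))) =
      Real.exp (-(w * c0)) * Real.exp (-(v * pl a t)) := by
    rw [← Real.exp_add, ← Real.exp_add]; congr 1; ring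
  linear_combination mE w (pl b t) * h2

/-- integrals of functions of `x` along the path -/
theorem int_pr {f : ℝ → ℝ} (hf : Continuous f) (ha0 : a 0 = 0) (t : ℝ) :
    (∫ s in (0 : ℝ)..t, f (pl a s) * dpl a s) = pr f (pl a t) := by
  have hc : Continuous fun t => pr f (pl a t) := (pr_cont hf).comp (cont_pl a)
  have hc2 : Continuous fun t => f (pl a t) := hf.comp (cont_pl a)
  have h := ftc2 a a hc hc2 (g := fun _ => (0:ℝ)) continuous_const (fun t ht => by
    refine ((pr_deriv hf (pl a t)).comp t (deriv_pl a ht)).congr_deriv ?_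
    ring) 0 t
  simp only [zero_mul, intervalIntegral.integral_zero, add_zero, pl_zero, ha0, pr_zero,
    sub_zero] at h
  exact h

noncomputable def fPhi : ℝ → ℝ :=
  pr fun s => Real.exp (-((v - σ * w) * s)) * mE w (σ * s + c0)

theorem fPhi_eq (x : ℝ) : fPhi v w σ c0 x =
    Real.exp (-(w * c0)) * fS v w σ x + mE w c0 * mE (v - σ * w) x := by
  have hc : Continuous fun s => Real.exp (-((v - σ * w) * s)) * mE w (σ * s + c0) := by
    have := mE_cont w
    fun_prop
  refine eq_of_deriv (f := fPhi v w σ c0) (g := fun x => Real.exp (-(w * c0)) * fS v w σ x +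
      mE w c0 * mE (v - σ * w) x)
    (f' := fun s => Real.exp (-((v - σ * w) * s)) * mE w (σ * s + c0)) ?_ ?_ ?_ x
  · intro x
    exact pr_deriv hc x
  · intro x
    refine (((fS_deriv v w σ x).const_mul _).add ((mE_deriv _ x).const_mul _)).congr_deriv ?_
    rw [mE_add w c0 (σ * x)]; ring
  · simp [fPhi]

theorem pL_shr (ha0 : a 0 = 0) (t : ℝ) : pL (v - σ * w) w a (shr σ c0 a b) t =
    Real.exp (-(w * c0)) * pL v w a b t + fPhi v w σ c0 (pl a t) := by
  have hc : Continuous fun s => Real.exp (-((v - σ * w) * s)) * mE w (σ * s + c0) := by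
    have := mE_cont w
    fun_prop
  have hc2 : Continuous fun s => Real.exp (-((v - σ * w) * pl a s)) *
      mE w (σ * pl a s + c0) := hc.comp (cont_pl a)
  have h := int_pr a hc ha0 t
  have hq := pq_cont v w a b
  have e : pL (v - σ * w) w a (shr σ c0 a b) t = ∫ s in (0 : ℝ)..t,
      (Real.exp (-(w * c0)) * (pq v w a b s * dpl a s) +
        (Real.exp (-((v - σ * w) * pl a s)) * mE w (σ * pl a s + c0)) * dpl a s) := by
    unfold pL
    refine intervalIntegral.integral_congr fun s _ => ?_
    simp only [pq_shr]; ring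
  rw [e, intervalIntegral.integral_add ((mul_ii a hq 0 t).const_mul _) (mul_ii a hc2 0 t), h,
    intervalIntegral.integral_const_mul]
  rfl

theorem pJ_shr (ha0 : a 0 = 0) (ham : a m = 0) : pJ (v - σ * w) w a (shr σ c0 a b) m =
    Real.exp (-(w * c0)) * pJ v w a b m := by
  unfold pJ
  rw [pL_shr v w σ c0 a b ha0, pl_nat, ham]
  simp [fPhi]

theorem ii_shr {g : ℝ → ℝ} (hg : Continuous g) (s t : ℝ) :
    IntervalIntegrable (fun x => g x * dpl (shr σ c0 a b) x) volume s t :=
  mul_ii _ hg s t

theorem int_shr {g : ℝ → ℝ} (hg : Continuous g) (s t : ℝ) :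
    (∫ x in s..t, g x * dpl (shr σ c0 a b) x) =
      (∫ x in s..t, g x * dpl b x) + σ * ∫ x in s..t, g x * dpl a x := by
  rw [← intervalIntegral.integral_const_mul, ← intervalIntegral.integral_add
    (mul_ii b hg s t) ((mul_ii a hg s t).const_mul σ)]
  refine intervalIntegral.integral_congr fun x _ => ?_
  simp only [dpl_shr]; ring

/-- `(S(x)/e)' = σ m_{v'}/e x' + w S/e y'` -/
theorem SE_deriv {t : ℝ} (ht : t ∉ Nt) :
    HasDerivAt (fun t => fS v w σ (pl a t) / pe v w a b t)
      ((σ * mE (v - σ * w) (pl a t) / pe v w a b t) * dpl a t +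
        (w * fS v w σ (pl a t) / pe v w a b t) * dpl b t) t := by
  have h1 := (fS_deriv v w σ (pl a t)).comp t (deriv_pl a ht)
  have h2 := h1.div (pe_deriv v w a b ht) (pe_ne v w a b t)
  refine h2.congr_deriv ?_
  have h3 := S3 v w σ (pl a t)
  have h4 := w_fS v w σ (pl a t)
  have hne := pe_ne v w a b t
  simp only [Function.comp]
  field_simp
  linear_combination (dpl a t) * h3 + σ * (dpl a t) * h4

theorem fSe_cont : Continuous fun t => fS v w σ (pl a t) / pe v w a b t :=
  ((fS_cont v w σ).comp (cont_pl a)).div (pe_cont v w a b) (pe_ne v w a b)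

theorem pd_shr (ha0 : a 0 = 0) (ham : a m = 0) :
    Real.exp (-(w * c0)) * pd (v - σ * w) w a (shr σ c0 a b) m = pd v w a b m := by
  have hl : Real.exp (-(w * c0)) ≠ 0 := (Real.exp_pos _).ne'
  have hc1 : Continuous fun t => σ * mE (v - σ * w) (pl a t) / pe v w a b t :=
    (continuous_const.mul ((mE_cont _).comp (cont_pl a))).div (pe_cont v w a b) (pe_ne v w a b)
  have hc2 : Continuous fun t => w * fS v w σ (pl a t) / pe v w a b t :=
    (continuous_const.mul ((fS_cont v w σ).comp (cont_pl a))).div (pe_cont v w a b)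
      (pe_ne v w a b)
  have hc3 : Continuous fun t => mE (v - σ * w) (pl a t) / pe v w a b t :=
    ((mE_cont _).comp (cont_pl a)).div (pe_cont v w a b) (pe_ne v w a b)
  have hc4 := pG_cont v w a b
  have h := ftc2 a b (fSe_cont v w σ a b) hc1 hc2 (fun t ht => SE_deriv v w σ a b ht) 0 m
  rw [pl_nat, pl_zero, ha0, ham] at h
  simp only [fS_zero, zero_div, sub_self] at h
  have e1 : Real.exp (-(w * c0)) * pd (v - σ * w) w a (shr σ c0 a b) m =
      ∫ t in (0 : ℝ)..m, (mE (v - σ * w) (pl a t) / pe v w a b t) * dpl (shr σ c0 a b) t := by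
    unfold pd
    rw [← intervalIntegral.integral_const_mul]
    refine intervalIntegral.integral_congr fun t _ => ?_
    simp only [pe_shr]
    have := pe_ne v w a b t
    field_simp
  rw [e1, int_shr σ c0 a b hc3]
  have e2 : (∫ t in (0 : ℝ)..m, (w * fS v w σ (pl a t) / pe v w a b t) * dpl b t) =
      (∫ t in (0 : ℝ)..m, (mE (v - σ * w) (pl a t) / pe v w a b t) * dpl b t) -
        ∫ t in (0 : ℝ)..m, pG v w a b t * dpl b t := by
    rw [← intervalIntegral.integral_sub (mul_ii b hc3 0 m) (mul_ii b hc4 0 m)]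
    refine intervalIntegral.integral_congr fun t _ => ?_
    simp only [w_fS, pG]; ring
  have e3 : (∫ t in (0 : ℝ)..m, (σ * mE (v - σ * w) (pl a t) / pe v w a b t) * dpl a t) =
      σ * ∫ t in (0 : ℝ)..m, (mE (v - σ * w) (pl a t) / pe v w a b t) * dpl a t := by
    rw [← intervalIntegral.integral_const_mul]
    refine intervalIntegral.integral_congr fun t _ => ?_
    ring
  rw [e2, e3] at h
  have e4 : pd v w a b m = ∫ t in (0 : ℝ)..m, pG v w a b t * dpl b t := rfl
  rw [e4]
  linarith

theorem pP_shr (ha0 : a 0 = 0) (ham : a m = 0) :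
    pP (v - σ * w) w a (shr σ c0 a b) m = pP v w a b m := by
  have hl : Real.exp (-(w * c0)) ≠ 0 := (Real.exp_pos _).ne'
  have hX := pX_cont v w a b
  have hc1 : Continuous fun t => pX v w a b t * (σ * mE (v - σ * w) (pl a t) / pe v w a b t) :=
    hX.mul ((continuous_const.mul ((mE_cont _).comp (cont_pl a))).div (pe_cont v w a b)
      (pe_ne v w a b))
  have hc2 : Continuous fun t => pX v w a b t * (w * fS v w σ (pl a t) / pe v w a b t) :=
    hX.mul ((continuous_const.mul ((fS_cont v w σ).comp (cont_pl a))).div (pe_cont v w a b)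
      (pe_ne v w a b))
  have hc3 : Continuous fun t => pX v w a b t * (mE (v - σ * w) (pl a t) / pe v w a b t) :=
    hX.mul (((mE_cont _).comp (cont_pl a)).div (pe_cont v w a b) (pe_ne v w a b))
  have hc4 : Continuous fun t => pX v w a b t * pG v w a b t := hX.mul (pG_cont v w a b)
  have hF : Continuous fun t => pX v w a b t * (fS v w σ (pl a t) / pe v w a b t) -
      pr (fS v w σ) (pl a t) :=
    (hX.mul (fSe_cont v w σ a b)).sub ((pr_cont (fS_cont v w σ)).comp (cont_pl a))
  have h := ftc2 a b hF hc1 hc2 (fun t ht => by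
    have h1 := (pX_deriv v w a b ht).mul (SE_deriv v w σ a b ht)
    have h2 := (pr_deriv (fS_cont v w σ) (pl a t)).comp t (deriv_pl a ht)
    refine (h1.sub h2).congr_deriv ?_
    have hne := pe_ne v w a b t
    field_simp
    ring) 0 m
  rw [pl_nat, pl_zero, ha0, ham] at h
  simp only [fS_zero, zero_div, mul_zero, pr_zero, sub_self] at h
  have e1 : pP (v - σ * w) w a (shr σ c0 a b) m =
      ∫ t in (0 : ℝ)..m, (pX v w a b t * (mE (v - σ * w) (pl a t) / pe v w a b t)) *
        dpl (shr σ c0 a b) t := by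
    unfold pP
    refine intervalIntegral.integral_congr fun t _ => ?_
    simp only [pe_shr, pX_shr]
    have := pe_ne v w a b t
    field_simp
  rw [e1, int_shr σ c0 a b hc3]
  have e2 : (∫ t in (0 : ℝ)..m, (pX v w a b t * (w * fS v w σ (pl a t) / pe v w a b t)) *
      dpl b t) =
      (∫ t in (0 : ℝ)..m, (pX v w a b t * (mE (v - σ * w) (pl a t) / pe v w a b t)) * dpl b t) -
        ∫ t in (0 : ℝ)..m, (pX v w a b t * pG v w a b t) * dpl b t := by
    rw [← intervalIntegral.integral_sub (mul_ii b hc3 0 m) (mul_ii b hc4 0 m)]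
    refine intervalIntegral.integral_congr fun t _ => ?_
    simp only [w_fS, pG]; ring
  have e3 : (∫ t in (0 : ℝ)..m, (pX v w a b t *
      (σ * mE (v - σ * w) (pl a t) / pe v w a b t)) * dpl a t) =
      σ * ∫ t in (0 : ℝ)..m, (pX v w a b t * (mE (v - σ * w) (pl a t) / pe v w a b t)) *
        dpl a t := by
    rw [← intervalIntegral.integral_const_mul]
    refine intervalIntegral.integral_congr fun t _ => ?_
    ring
  rw [e2, e3] at h
  have e4 : pP v w a b m = ∫ t in (0 : ℝ)..m, (pX v w a b t * pG v w a b t) * dpl b t := by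
    unfold pP pG
    refine intervalIntegral.integral_congr fun t _ => ?_
    ring
  rw [e4]
  linarith

end shear

end Pool.Agent.Work.MP_b5407d_pos_h13
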