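import Pool.Agent.Work.MP_b5407d_pos_helper13.VBoth
import Pool.Agent.Work.MP_b5407d_pos_helper13.Blocks
import Pool.Agent.Work.MP_b5407d_pos_helper9.Bridge3

/-! # MP_b5407d_gt (POS): near chain glued to `K'`, functionals (helper13) -/

set_option autoImplicit false

open MeasureTheory Set Filter Topology

namespace Pool.Agent.Work.MP_b5407d_pos_h13

open Pool.LBM Pool.LBM.Path

/-! ### shifted sequences -/

section
variable {p q r : ℕ} {c c' : ℕ → ℝ}

theorem pl_sh (hc : ∀ k, p ≤ k → k ≤ q → c' (k + r) = c k) {s : ℝ}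
    (hs : s ∈ Icc (p : ℝ) q) : pl c' (s + r) = pl c s := by
  have hs0 : 0 ≤ s := le_trans (Nat.cast_nonneg p) hs.1
  rcases hs.2.eq_or_lt with h | h
  · have e : s + (r : ℝ) = ((q + r : ℕ) : ℝ) := by rw [h]; push_cast; ring
    rw [e, h, pl_nat, pl_nat]
    exact hc q (by exact_mod_cast (h ▸ hs.1)) le_rfl
  · set k := ⌊s⌋₊ with hk
    have hk1 : (k : ℝ) ≤ s := Nat.floor_le hs0
    have hk2 : s < k + 1 := Nat.lt_floor_add_one s
    have hkq : k < q := by
      have : (k : ℝ) < q := lt_of_le_of_lt hk1 h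
      exact_mod_cast this
    have hpk : p ≤ k := Nat.le_floor hs.1
    rw [pl_aff c k hk1 hk2.le, pl_aff c' (k + r) (by push_cast; linarith)
      (by push_cast; linarith), hc k hpk hkq.le]
    have e1 : k + r + 1 = (k + 1) + r := by ring
    rw [e1, hc (k + 1) (by omega) hkq]
    push_cast; ring

theorem dpl_sh (hc : ∀ k, p ≤ k → k ≤ q → c' (k + r) = c k) {s : ℝ}
    (hs : s ∈ Ico (p : ℝ) q) : dpl c' (s + r) = dpl c s := by
  have hs0 : 0 ≤ s := le_trans (Nat.cast_nonneg p) hs.1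
  set k := ⌊s⌋₊ with hk
  have hk1 : (k : ℝ) ≤ s := Nat.floor_le hs0
  have hk2 : s < k + 1 := Nat.lt_floor_add_one s
  have hkq : k < q := by
    have : (k : ℝ) < q := lt_of_le_of_lt hk1 hs.2
    exact_mod_cast this
  have hpk : p ≤ k := Nat.le_floor hs.1
  have hfl : ⌊s + (r : ℝ)⌋₊ = k + r := by
    rw [Nat.floor_add_natCast hs0]
  simp only [dpl]
  rw [hfl, ← hk, hc k hpk hkq.le]
  have e1 : k + r + 1 = (k + 1) + r := by ring
  rw [e1, hc (k + 1) (by omega) hkq]

theorem int_sh (hc : ∀ k, p ≤ k → k ≤ q → c' (k + r) = c k) (f : ℝ → ℝ)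
    {s1 s2 : ℝ} (h1 : s1 ∈ Icc (p : ℝ) q) (h2 : s2 ∈ Icc (p : ℝ) q) :
    (∫ s in (s1 + r)..(s2 + r), f s * dpl c' s) = ∫ t in s1..s2, f (t + r) * dpl c t := by
  rw [← intervalIntegral.integral_comp_add_right (fun s => f s * dpl c' s) (r : ℝ)]
  refine intervalIntegral.integral_congr_ae ?_
  have hne : ∀ᵐ u : ℝ, u ≠ q := by rw [ae_iff]; simp
  filter_upwards [hne] with s hs hsI
  have hs2 : s ∈ Icc (p : ℝ) q :=
    (ordConnected_Icc.uIcc_subset h1 h2) (uIoc_subset_uIcc hsI)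
  rw [dpl_sh hc ⟨hs2.1, lt_of_le_of_ne hs2.2 hs⟩]

/-- sequences which agree up to `q` -/
theorem pl_cg (hc : ∀ k, k ≤ q → c' k = c k) {s : ℝ} (hs : s ∈ Icc (0 : ℝ) q) :
    pl c' s = pl c s := by
  have := pl_sh (p := 0) (q := q) (r := 0) (c := c) (c' := c') (fun k _ hk => hc k hk)
    (s := s) (by simpa using hs)
  simpa using this

theorem int_cg (hc : ∀ k, k ≤ q → c' k = c k) (f : ℝ → ℝ)
    {s1 s2 : ℝ} (h1 : s1 ∈ Icc (0 : ℝ) q) (h2 : s2 ∈ Icc (0 : ℝ) q) :
    (∫ s in s1..s2, f s * dpl c' s) = ∫ t in s1..s2, f t * dpl c t := by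
  have := int_sh (p := 0) (q := q) (r := 0) (c := c) (c' := c') (fun k _ hk => hc k hk) f
    (s1 := s1) (s2 := s2) (by simpa using h1) (by simpa using h2)
  simpa using this

end

section
variable (v w : ℝ) (a b : ℕ → ℝ) (m r : ℕ)

/-- integrals with `R`, flat edge `r` -/
theorem R_split (hr : b (r + 1) = b r) (hrm : r < m) {g : ℝ → ℝ} (hg : Continuous g) :
    (∫ t in (0 : ℝ)..m, pRt v w a b m ((r : ℝ) + 1) t * g t * dpl b t) =
      (∫ t in (0 : ℝ)..r, (pL v w a b t * g t) * dpl b t) +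
      ∫ t in ((r : ℝ) + 1)..m, ((pL v w a b t + pJ v w a b m) * g t) * dpl b t := by
  have hτ : (r : ℝ) + 1 ≤ m := by exact_mod_cast hrm
  have hL := pL_cont v w a b
  have hLg : Continuous fun t => pL v w a b t * g t := hL.mul hg
  rw [int_R v w a b m (by positivity) hτ hg b, split3 (r := r) hLg b (int_flat b _ hr),
    add_assoc]
  congr 1
  rw [← intervalIntegral.integral_const_mul, ← intervalIntegral.integral_add
    (mul_ii b hLg _ _) ((mul_ii b hg _ _).const_mul _)]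
  refine intervalIntegral.integral_congr fun t _ => ?_
  ring

theorem pN_split (hr : b (r + 1) = b r) (hrm : r < m) :
    pN v w a b m r = (∫ t in (0 : ℝ)..r, (pL v w a b t / pe v w a b t) * dpl b t) +
      ∫ t in ((r : ℝ) + 1)..m, ((pL v w a b t + pJ v w a b m) / pe v w a b t) * dpl b t := by
  have hei : Continuous fun t => (pe v w a b t)⁻¹ := (pe_cont v w a b).inv₀ (pe_ne v w a b)
  have h := R_split v w a b m r hr hrm hei
  simp only [← div_eq_mul_inv] at h
  exact h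

theorem pM_split (hr : b (r + 1) = b r) (hrm : r < m) :
    pM v w a b m r = (∫ t in (0 : ℝ)..r, (pX v w a b t * pL v w a b t / pe v w a b t) *
      dpl b t) + ∫ t in ((r : ℝ) + 1)..m,
        (pX v w a b t * (pL v w a b t + pJ v w a b m) / pe v w a b t) * dpl b t := by
  have hX := pX_cont v w a b
  have hei : Continuous fun t => (pe v w a b t)⁻¹ := (pe_cont v w a b).inv₀ (pe_ne v w a b)
  have hg : Continuous fun t => pX v w a b t * (pe v w a b t)⁻¹ := hX.mul hei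
  have h := R_split v w a b m r hr hrm hg
  have e0 : pM v w a b m r = ∫ t in (0 : ℝ)..m, pRt v w a b m ((r : ℝ) + 1) t *
      (pX v w a b t * (pe v w a b t)⁻¹) * dpl b t := by
    unfold pM
    refine intervalIntegral.integral_congr fun t _ => ?_
    simp only [pR_eq, div_eq_mul_inv]; ring
  rw [e0, h]
  congr 1
  · refine intervalIntegral.integral_congr fun t _ => ?_
    simp only [div_eq_mul_inv]; ring
  · refine intervalIntegral.integral_congr fun t _ => ?_
    simp only [div_eq_mul_inv]; ring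

theorem pd_split (hr : b (r + 1) = b r) :
    pd v w a b m = (∫ t in (0 : ℝ)..r, (mE v (pl a t) / pe v w a b t) * dpl b t) +
      ∫ t in ((r : ℝ) + 1)..m, (mE v (pl a t) / pe v w a b t) * dpl b t :=
  split3 (r := r) (pG_cont v w a b) b (int_flat b _ hr)

theorem pP_split (hr : b (r + 1) = b r) :
    pP v w a b m = (∫ t in (0 : ℝ)..r, (pX v w a b t * mE v (pl a t) / pe v w a b t) *
      dpl b t) + ∫ t in ((r : ℝ) + 1)..m,
        (pX v w a b t * mE v (pl a t) / pe v w a b t) * dpl b t := by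
  have hX := pX_cont v w a b
  have hm : Continuous fun t => mE v (pl a t) := (mE_cont v).comp (cont_pl a)
  exact split3 (r := r) ((hX.mul hm).div (pe_cont v w a b) (pe_ne v w a b)) b
    (int_flat b _ hr)

end

/-! ### the glued path -/

section glue
variable {M r : ℕ} {a b X Y : ℕ → ℝ} (v w : ℝ)

theorem glu_le (o : ℕ → ℝ) {k : ℕ} (hk : k ≤ r) : glu r X o k = X k := by
  simp [glu, hk]

theorem glu_gt (o : ℕ → ℝ) {k : ℕ} (hk : 1 ≤ k) : glu r X o (k + r) = o k := by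
  have h1 : ¬ (k + r ≤ r) := by omega
  simp [glu, h1]

theorem pl_g1 (o : ℕ → ℝ) {s : ℝ} (hs : s ∈ Icc (0 : ℝ) r) : pl (glu r X o) s = pl X s :=
  pl_cg (q := r) (fun _ hk => glu_le o hk) hs

theorem int_g1 (o : ℕ → ℝ) (f : ℝ → ℝ) {s1 s2 : ℝ} (h1 : s1 ∈ Icc (0 : ℝ) r)
    (h2 : s2 ∈ Icc (0 : ℝ) r) :
    (∫ s in s1..s2, f s * dpl (glu r X o) s) = ∫ t in s1..s2, f t * dpl X t :=
  int_cg (q := r) (fun _ hk => glu_le o hk) f h1 h2

theorem pl_g2 (o : ℕ → ℝ) {s : ℝ} (hs : s ∈ Icc (1 : ℝ) M) :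
    pl (glu r X o) (s + r) = pl o s :=
  pl_sh (p := 1) (q := M) (fun _ hk _ => glu_gt o hk) (by simpa using hs)

theorem int_g2 (o : ℕ → ℝ) (f : ℝ → ℝ) {s1 s2 : ℝ} (h1 : s1 ∈ Icc (1 : ℝ) M)
    (h2 : s2 ∈ Icc (1 : ℝ) M) :
    (∫ s in (s1 + r)..(s2 + r), f s * dpl (glu r X o) s) =
      ∫ t in s1..s2, f (t + r) * dpl o t :=
  int_sh (p := 1) (q := M) (fun _ hk _ => glu_gt o hk) f (by simpa using h1)
    (by simpa using h2)

theorem pe_g1 {s : ℝ} (hs : s ∈ Icc (0 : ℝ) r) :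
    pe v w (glu r X a) (glu r Y b) s = pe v w X Y s := by
  unfold pe; rw [pl_g1 a hs, pl_g1 b hs]

theorem pe_g2 {s : ℝ} (hs : s ∈ Icc (1 : ℝ) M) :
    pe v w (glu r X a) (glu r Y b) (s + r) = pe v w a b s := by
  unfold pe; rw [pl_g2 a hs, pl_g2 b hs]

theorem pq_g1 {s : ℝ} (hs : s ∈ Icc (0 : ℝ) r) :
    pq v w (glu r X a) (glu r Y b) s = pq v w X Y s := by
  unfold pq; rw [pl_g1 a hs, pl_g1 b hs]

theorem pq_g2 {s : ℝ} (hs : s ∈ Icc (1 : ℝ) M) :
    pq v w (glu r X a) (glu r Y b) (s + r) = pq v w a b s := by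
  unfold pq; rw [pl_g2 a hs, pl_g2 b hs]

theorem pX_g1 {s : ℝ} (hs : s ∈ Icc (0 : ℝ) r) :
    pX v w (glu r X a) (glu r Y b) s = pX v w X Y s := by
  have h0 : (0 : ℝ) ∈ Icc (0 : ℝ) r := ⟨le_rfl, hs.1.trans hs.2⟩
  unfold pX
  rw [int_g1 a _ h0 hs]
  refine intervalIntegral.integral_congr fun u hu => ?_
  simp only [pe_g1 v w ((ordConnected_Icc.uIcc_subset h0 hs) hu)]

theorem pL_g1 {s : ℝ} (hs : s ∈ Icc (0 : ℝ) r) :
    pL v w (glu r X a) (glu r Y b) s = pL v w X Y s := by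
  have h0 : (0 : ℝ) ∈ Icc (0 : ℝ) r := ⟨le_rfl, hs.1.trans hs.2⟩
  unfold pL
  rw [int_g1 a _ h0 hs]
  refine intervalIntegral.integral_congr fun u hu => ?_
  simp only [pq_g1 v w ((ordConnected_Icc.uIcc_subset h0 hs) hu)]

/-- `∫ e dx` along a flat edge on `y = 0` -/
theorem int_flat_e (a b : ℕ → ℝ) {k : ℕ} (h1 : b k = 0) (h2 : b (k + 1) = 0) :
    (∫ t in (k : ℝ)..((k : ℝ) + 1), pe v w a b t * dpl a t) =
      mE v (a (k + 1)) - mE v (a k) := by
  have e1 : (∫ t in (k : ℝ)..((k : ℝ) + 1), pe v w a b t * dpl a t) =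
      ∫ t in (k : ℝ)..((k : ℝ) + 1), Real.exp (-(v * pl a t)) * dpl a t := by
    refine intervalIntegral.integral_congr fun u hu => ?_
    rw [uIcc_of_le (by linarith)] at hu
    have : pl b u = 0 := by rw [pl_aff b k hu.1 hu.2, h1, h2]; ring
    simp only [pe, this, mul_zero, sub_zero]
  rw [e1]
  have hE := cexp v a
  have hF : Continuous fun t => mE v (pl a t) := (mE_cont v).comp (cont_pl _)
  have h := ftc2 a a hF hE (g := fun _ => (0:ℝ)) continuous_const
    (fun t ht => by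
      refine (mEx_deriv v a ht).congr_deriv ?_
      ring) (k : ℝ) ((k : ℝ) + 1)
  simp only [zero_mul, intervalIntegral.integral_zero, add_zero] at h
  rw [h]
  have e5 : pl a ((k : ℝ) + 1) = a (k + 1) := by
    have : ((k : ℝ) + 1) = ((k + 1 : ℕ) : ℝ) := by push_cast; ring
    rw [this, pl_nat]
  rw [e5, pl_nat]

/-- hats on the outer chain -/
theorem pX_g2 (hY : Y r = 0) (ha0 : a 0 = 0) (hb0 : b 0 = 0) (hb1 : b 1 = 0) (hM : 1 ≤ M)
    {s : ℝ} (hs : s ∈ Icc (1 : ℝ) M) :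
    pX v w (glu r X a) (glu r Y b) (s + r) + (mE v (X r) - pX v w X Y r) = pX v w a b s := by
  have hM' : (1 : ℝ) ≤ M := by exact_mod_cast hM
  have h1 : (1 : ℝ) ∈ Icc (1 : ℝ) M := ⟨le_rfl, hM'⟩
  have hec := pe_cont v w (glu r X a) (glu r Y b)
  have i : ∀ x y : ℝ, IntervalIntegrable (fun t => pe v w (glu r X a) (glu r Y b) t *
    dpl (glu r X a) t) volume x y := fun x y => mul_ii _ hec x y
  have hec' := pe_cont v w a b
  have i' : ∀ x y : ℝ, IntervalIntegrable (fun t => pe v w a b t * dpl a t) volume x y :=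
    fun x y => mul_ii _ hec' x y
  have e0 : pX v w (glu r X a) (glu r Y b) (s + r) = pX v w (glu r X a) (glu r Y b) r +
      (∫ t in (r : ℝ)..((r : ℝ) + 1), pe v w (glu r X a) (glu r Y b) t * dpl (glu r X a) t) +
      ∫ t in ((1 : ℝ) + r)..(s + r), pe v w (glu r X a) (glu r Y b) t *
        dpl (glu r X a) t := by
    unfold pX
    rw [add_comm (1 : ℝ) (r : ℝ), intervalIntegral.integral_add_adjacent_intervals (i _ _)
      (i _ _), intervalIntegral.integral_add_adjacent_intervals (i _ _) (i _ _)]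
  have g1 : glu r Y b r = 0 := by rw [glu_le b le_rfl, hY]
  have g2 : glu r Y b (r + 1) = 0 := by rw [add_comm, glu_gt b le_rfl, hb1]
  have g3 : glu r X a r = X r := glu_le a le_rfl
  have g4 : glu r X a (r + 1) = a 1 := by rw [add_comm, glu_gt a le_rfl]
  rw [e0, int_flat_e v w _ _ g1 g2, int_g2 a _ h1 hs, pX_g1 v w ⟨Nat.cast_nonneg r, le_rfl⟩,
    g3, g4]
  have e1 : (∫ t in (1 : ℝ)..s, pe v w (glu r X a) (glu r Y b) (t + r) * dpl a t) =
      ∫ t in (1 : ℝ)..s, pe v w a b t * dpl a t := by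
    refine intervalIntegral.integral_congr fun t ht => ?_
    simp only [pe_g2 v w ((ordConnected_Icc.uIcc_subset h1 hs) ht)]
  rw [e1]
  have e2 : pX v w a b s = (∫ t in (0 : ℝ)..1, pe v w a b t * dpl a t) +
      ∫ t in (1 : ℝ)..s, pe v w a b t * dpl a t := by
    unfold pX
    rw [intervalIntegral.integral_add_adjacent_intervals (i' _ _) (i' _ _)]
  have e3 := int_flat_e v w a b (k := 0) hb0 (by simpa using hb1)
  simp only [Nat.cast_zero, zero_add, ha0, mE_zero, sub_zero] at e3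
  rw [e2, e3]; ring

/-- mass to the left on the outer chain -/
theorem pL_g2 (hM : 1 ≤ M) {s : ℝ} (hs : s ∈ Icc (1 : ℝ) M) :
    pL v w (glu r X a) (glu r Y b) (s + r) + pJ v w (glu r X a) (glu r Y b) (M + r) =
      pL v w a b s + pJ v w a b M := by
  have hM' : (1 : ℝ) ≤ M := by exact_mod_cast hM
  have h1 : (M : ℝ) ∈ Icc (1 : ℝ) M := ⟨hM', le_rfl⟩
  have hq := pq_cont v w (glu r X a) (glu r Y b)
  have hq' := pq_cont v w a b
  have e1 : pL v w (glu r X a) (glu r Y b) (s + r) +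
      pJ v w (glu r X a) (glu r Y b) (M + r) =
      ∫ t in ((M : ℝ) + r)..(s + r), pq v w (glu r X a) (glu r Y b) t *
        dpl (glu r X a) t := by
    unfold pJ pL
    rw [← sub_eq_add_neg, Nat.cast_add,
      intervalIntegral.integral_interval_sub_left (mul_ii _ hq _ _) (mul_ii _ hq _ _)]
  have e2 : pL v w a b s + pJ v w a b M = ∫ t in (M : ℝ)..s, pq v w a b t * dpl a t := by
    unfold pJ pL
    rw [← sub_eq_add_neg,
      intervalIntegral.integral_interval_sub_left (mul_ii _ hq' _ _) (mul_ii _ hq' _ _)]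
  rw [e1, e2, int_g2 a _ h1 hs]
  refine intervalIntegral.integral_congr fun t ht => ?_
  simp only [pq_g2 v w ((ordConnected_Icc.uIcc_subset h1 hs) ht)]

end glue

end Pool.Agent.Work.MP_b5407d_pos_h13
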