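import Pool.Agent.Work.MP_b5407d_pos_helper13.Split

/-! # MP_b5407d_gt (POS): functionals of the glued path in terms of `K'` and the near chain
(helper13) -/

set_option autoImplicit false

open MeasureTheory Set Filter Topology

namespace Pool.Agent.Work.MP_b5407d_pos_h13

open Pool.LBM Pool.LBM.Path
open Pool.Agent.Work.MP_b5407d_pos_h9.FV (cd cn cpp cm chh cp cr' cF cG ce Zd Zn Zp Zm Xh Jl)

section
variable {M r : ℕ} {a b X Y : ℕ → ℝ} (v w : ℝ)

theorem e_eq_pe (s : ℝ) : Pool.Agent.Work.MP_b5407d_pos_h9.FV.e v w (pl X) (pl Y) s =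
    pe v w X Y s := rfl

theorem mE_eq_mE (x : ℝ) : Pool.Agent.Work.MP_b5407d_pos_h9.FV.mE v x = mE v x := rfl

theorem Jl_eq (s : ℝ) : Jl v w (pl X) (dpl X) (pl Y) s = pL v w X Y s := rfl

theorem Xh_eq (s : ℝ) : Xh v w (pl X) (dpl X) (pl Y) r s =
    pX v w X Y s + (mE v (X r) - pX v w X Y r) := by
  have he := pe_cont v w X Y
  unfold Xh
  rw [mE_eq_mE, pl_nat]
  have h : (∫ u in (r : ℝ)..s, Pool.Agent.Work.MP_b5407d_pos_h9.FV.e v w (pl X) (pl Y) u *
      dpl X u) = pX v w X Y s - pX v w X Y r := by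
    unfold pX
    rw [intervalIntegral.integral_interval_sub_left (mul_ii _ he _ _) (mul_ii _ he _ _)]
    rfl
  rw [h]; ring

/-- second part of the integrals -/
theorem part2_eq (o : ℕ → ℝ) (hM : 1 ≤ M) (f g : ℝ → ℝ)
    (hfg : ∀ s ∈ Icc (1 : ℝ) M, f (s + r) = g s) :
    (∫ t in ((r : ℝ) + 1)..((M + r : ℕ) : ℝ), f t * dpl (glu r Y o) t) =
      ∫ t in (((0 : ℕ) : ℝ) + 1)..M, g t * dpl o t := by
  have hM' : (1 : ℝ) ≤ M := by exact_mod_cast hM
  have h1 : (1 : ℝ) ∈ Icc (1 : ℝ) M := ⟨le_rfl, hM'⟩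
  have h2 : (M : ℝ) ∈ Icc (1 : ℝ) M := ⟨hM', le_rfl⟩
  rw [Nat.cast_add, add_comm (r : ℝ) 1, int_g2 o f h1 h2, Nat.cast_zero, zero_add]
  refine intervalIntegral.integral_congr fun t ht => ?_
  simp only [hfg t ((ordConnected_Icc.uIcc_subset h1 h2) ht)]

theorem part1_eq (o : ℕ → ℝ) (f g : ℝ → ℝ) (hfg : ∀ s ∈ Icc (0 : ℝ) r, f s = g s) :
    (∫ t in (0 : ℝ)..r, f t * dpl (glu r Y o) t) = ∫ t in (0 : ℝ)..r, g t * dpl Y t := by
  have h1 : (0 : ℝ) ∈ Icc (0 : ℝ) r := ⟨le_rfl, Nat.cast_nonneg r⟩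
  have h2 : (r : ℝ) ∈ Icc (0 : ℝ) r := ⟨Nat.cast_nonneg r, le_rfl⟩
  rw [int_g1 o f h1 h2]
  refine intervalIntegral.integral_congr fun t ht => ?_
  simp only [hfg t ((ordConnected_Icc.uIcc_subset h1 h2) ht)]

/-- hypotheses on `K'` and the near chain -/
structure GH (M r : ℕ) (a b X Y : ℕ → ℝ) : Prop where
  a0 : a 0 = 0
  b0 : b 0 = 0
  b1 : b 1 = 0
  Y0 : Y r = 0
  M1 : 1 ≤ M

variable {v w}

theorem glu_flat (h : GH M r a b X Y) : glu r Y b (r + 1) = glu r Y b r := by
  rw [glu_le b le_rfl, h.Y0, add_comm, glu_gt b le_rfl, h.b1]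

theorem glue_d (h : GH M r a b X Y) :
    pd v w (glu r X a) (glu r Y b) (M + r) = pd v w a b M - cd v w X Y r := by
  have hM := h.M1
  rw [pd_split v w _ _ (M + r) r (glu_flat h),
    pd_split v w a b M 0 (by rw [zero_add, h.b1, h.b0])]
  rw [part1_eq (r := r) (Y := Y) b _ (fun t => mE v (pl X t) / pe v w X Y t) (fun s hs => by
      rw [pl_g1 a hs, pe_g1 v w hs]),
    part2_eq (M := M) (r := r) (Y := Y) b hM _ (fun t => mE v (pl a t) / pe v w a b t)
      (fun s hs => by rw [pl_g2 a hs, pe_g2 v w hs])]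
  unfold cd Zd
  simp only [e_eq_pe, mE_eq_mE, Nat.cast_zero, intervalIntegral.integral_same]
  ring

theorem glue_N (h : GH M r a b X Y) :
    pN v w (glu r X a) (glu r Y b) (M + r) r = pN v w a b M 0 - cn v w X Y r := by
  have hM := h.M1
  rw [pN_split v w _ _ (M + r) r (glu_flat h) (by omega),
    pN_split v w a b M 0 (by rw [zero_add, h.b1, h.b0]) (by omega)]
  rw [part1_eq (r := r) (Y := Y) b _ (fun t => pL v w X Y t / pe v w X Y t) (fun s hs => by
      rw [pL_g1 v w hs, pe_g1 v w hs]),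
    part2_eq (M := M) (r := r) (Y := Y) b hM _
      (fun t => (pL v w a b t + pJ v w a b M) / pe v w a b t)
      (fun s hs => by rw [pL_g2 v w hM hs, pe_g2 v w hs])]
  unfold cn Zn
  simp only [e_eq_pe, Jl_eq, Nat.cast_zero, intervalIntegral.integral_same]
  ring

theorem glue_P (h : GH M r a b X Y) :
    pP v w (glu r X a) (glu r Y b) (M + r) +
      (mE v (X r) - pX v w X Y r) * pd v w (glu r X a) (glu r Y b) (M + r) =
      pP v w a b M - cpp v w X Y r := by
  have hM := h.M1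
  set c1 := mE v (X r) - pX v w X Y r with hc1
  -- combine
  have hX := pX_cont v w (glu r X a) (glu r Y b)
  have he := pe_cont v w (glu r X a) (glu r Y b)
  have hne := pe_ne v w (glu r X a) (glu r Y b)
  have hm : Continuous fun t => mE v (pl (glu r X a) t) := (mE_cont v).comp (cont_pl _)
  have hG := pG_cont v w (glu r X a) (glu r Y b)
  have hXm : Continuous fun t => pX v w (glu r X a) (glu r Y b) t *
    mE v (pl (glu r X a) t) / pe v w (glu r X a) (glu r Y b) t := (hX.mul hm).div he hne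
  have e1 : pP v w (glu r X a) (glu r Y b) (M + r) +
      c1 * pd v w (glu r X a) (glu r Y b) (M + r) =
      ∫ t in (0 : ℝ)..((M + r : ℕ) : ℝ), ((pX v w (glu r X a) (glu r Y b) t + c1) *
        mE v (pl (glu r X a) t) / pe v w (glu r X a) (glu r Y b) t) * dpl (glu r Y b) t := by
    have e2 : pd v w (glu r X a) (glu r Y b) (M + r) = ∫ t in (0 : ℝ)..((M + r : ℕ) : ℝ),
      pG v w (glu r X a) (glu r Y b) t * dpl (glu r Y b) t := rfl
    rw [e2]
    unfold pP
    rw [← intervalIntegral.integral_const_mul, ← intervalIntegral.integral_add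
      (mul_ii _ hXm _ _) ((mul_ii _ hG _ _).const_mul _)]
    refine intervalIntegral.integral_congr fun t _ => ?_
    simp only [pG]; ring
  have hg : Continuous fun t => (pX v w (glu r X a) (glu r Y b) t + c1) *
        mE v (pl (glu r X a) t) / pe v w (glu r X a) (glu r Y b) t :=
    ((hX.add continuous_const).mul hm).div he hne
  rw [e1, split3 (r := r) hg _ (int_flat _ _ (glu_flat h)),
    pP_split v w a b M 0 (by rw [zero_add, h.b1, h.b0])]
  rw [part1_eq (r := r) (Y := Y) b _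
      (fun t => (pX v w X Y t + c1) * mE v (pl X t) / pe v w X Y t) (fun s hs => by
      rw [pl_g1 a hs, pe_g1 v w hs, pX_g1 v w hs]),
    part2_eq (M := M) (r := r) (Y := Y) b hM _
      (fun t => pX v w a b t * mE v (pl a t) / pe v w a b t)
      (fun s hs => by
        rw [pl_g2 a hs, pe_g2 v w hs, hc1, pX_g2 v w h.Y0 h.a0 h.b0 h.b1 hM hs])]
  unfold cpp Zp
  simp only [e_eq_pe, mE_eq_mE, Xh_eq, Nat.cast_zero, intervalIntegral.integral_same,
    ← hc1]
  ring

theorem glue_M (h : GH M r a b X Y) :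
    pM v w (glu r X a) (glu r Y b) (M + r) r +
      (mE v (X r) - pX v w X Y r) * pN v w (glu r X a) (glu r Y b) (M + r) r =
      pM v w a b M 0 - cm v w X Y r := by
  have hM := h.M1
  set c1 := mE v (X r) - pX v w X Y r with hc1
  have hX := pX_cont v w (glu r X a) (glu r Y b)
  have hL := pL_cont v w (glu r X a) (glu r Y b)
  have he := pe_cont v w (glu r X a) (glu r Y b)
  have hne := pe_ne v w (glu r X a) (glu r Y b)
  rw [pM_split v w _ _ (M + r) r (glu_flat h) (by omega),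
    pN_split v w _ _ (M + r) r (glu_flat h) (by omega),
    pM_split v w a b M 0 (by rw [zero_add, h.b1, h.b0]) (by omega)]
  set J := pJ v w (glu r X a) (glu r Y b) (M + r) with hJ
  have k1 : Continuous fun t => pX v w (glu r X a) (glu r Y b) t *
    pL v w (glu r X a) (glu r Y b) t / pe v w (glu r X a) (glu r Y b) t :=
    (hX.mul hL).div he hne
  have k2 : Continuous fun t => pL v w (glu r X a) (glu r Y b) t /
    pe v w (glu r X a) (glu r Y b) t := hL.div he hne
  have k3 : Continuous fun t => pX v w (glu r X a) (glu r Y b) t *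
    (pL v w (glu r X a) (glu r Y b) t + J) / pe v w (glu r X a) (glu r Y b) t :=
    (hX.mul (hL.add continuous_const)).div he hne
  have k4 : Continuous fun t => (pL v w (glu r X a) (glu r Y b) t + J) /
    pe v w (glu r X a) (glu r Y b) t := (hL.add continuous_const).div he hne
  have e1 : (∫ t in (0 : ℝ)..r, (pX v w (glu r X a) (glu r Y b) t *
      pL v w (glu r X a) (glu r Y b) t / pe v w (glu r X a) (glu r Y b) t) *
      dpl (glu r Y b) t) + c1 * (∫ t in (0 : ℝ)..r, (pL v w (glu r X a) (glu r Y b) t /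
      pe v w (glu r X a) (glu r Y b) t) * dpl (glu r Y b) t) =
      ∫ t in (0 : ℝ)..r, ((pX v w (glu r X a) (glu r Y b) t + c1) *
      pL v w (glu r X a) (glu r Y b) t / pe v w (glu r X a) (glu r Y b) t) *
      dpl (glu r Y b) t := by
    rw [← intervalIntegral.integral_const_mul, ← intervalIntegral.integral_add
      (mul_ii _ k1 _ _) ((mul_ii _ k2 _ _).const_mul _)]
    refine intervalIntegral.integral_congr fun t _ => ?_
    ring
  have e2 : (∫ t in ((r : ℝ) + 1)..((M + r : ℕ) : ℝ), (pX v w (glu r X a) (glu r Y b) t *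
      (pL v w (glu r X a) (glu r Y b) t + J) / pe v w (glu r X a) (glu r Y b) t) *
      dpl (glu r Y b) t) + c1 * (∫ t in ((r : ℝ) + 1)..((M + r : ℕ) : ℝ),
      ((pL v w (glu r X a) (glu r Y b) t + J) /
      pe v w (glu r X a) (glu r Y b) t) * dpl (glu r Y b) t) =
      ∫ t in ((r : ℝ) + 1)..((M + r : ℕ) : ℝ), ((pX v w (glu r X a) (glu r Y b) t + c1) *
      (pL v w (glu r X a) (glu r Y b) t + J) / pe v w (glu r X a) (glu r Y b) t) *
      dpl (glu r Y b) t := by
    rw [← intervalIntegral.integral_const_mul, ← intervalIntegral.integral_add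
      (mul_ii _ k3 _ _) ((mul_ii _ k4 _ _).const_mul _)]
    refine intervalIntegral.integral_congr fun t _ => ?_
    ring
  rw [part1_eq (r := r) (Y := Y) b (fun t => (pX v w (glu r X a) (glu r Y b) t + c1) *
      pL v w (glu r X a) (glu r Y b) t / pe v w (glu r X a) (glu r Y b) t)
      (fun t => (pX v w X Y t + c1) * pL v w X Y t / pe v w X Y t) (fun s hs => by
      simp only [pL_g1 v w hs, pe_g1 v w hs, pX_g1 v w hs])] at e1
  rw [part2_eq (M := M) (r := r) (Y := Y) b hM (fun t =>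
      (pX v w (glu r X a) (glu r Y b) t + c1) *
      (pL v w (glu r X a) (glu r Y b) t + J) / pe v w (glu r X a) (glu r Y b) t)
      (fun t => pX v w a b t * (pL v w a b t + pJ v w a b M) / pe v w a b t)
      (fun s hs => by
        simp only [pe_g2 v w hs, hc1, pX_g2 v w h.Y0 h.a0 h.b0 h.b1 hM hs, hJ,
          pL_g2 v w hM hs])] at e2
  unfold cm Zm
  simp only [e_eq_pe, Jl_eq, Xh_eq, Nat.cast_zero, intervalIntegral.integral_same,
    ← hc1] at e2 ⊢
  linarith

/-- `h` of the glued polygon is helper9's function -/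
theorem hK_glue (h : GH M r a b X Y) (hd : pd v w (glu r X a) (glu r Y b) (M + r) ≠ 0) :
    hK v w (glu r X a) (glu r Y b) (M + r) ((r : ℝ) + 1) =
      chh v w X Y r (pd v w a b M) (pP v w a b M) (pN v w a b M 0) (pM v w a b M 0) := by
  have h1 := glue_d (v := v) (w := w) h
  have h2 := glue_N (v := v) (w := w) h
  have h3 := glue_P (v := v) (w := w) h
  have h4 := glue_M (v := v) (w := w) h
  unfold chh
  rw [← h1, ← h2, ← h3, ← h4]
  have e1 : hK v w (glu r X a) (glu r Y b) (M + r) ((r : ℝ) + 1) =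
      pP v w (glu r X a) (glu r Y b) (M + r) / pd v w (glu r X a) (glu r Y b) (M + r) *
        pN v w (glu r X a) (glu r Y b) (M + r) r -
        pM v w (glu r X a) (glu r Y b) (M + r) r := rfl
  rw [e1]
  field_simp
  ring

theorem CC_glue (h : GH M r a b X Y) (hd : pd v w (glu r X a) (glu r Y b) (M + r) ≠ 0) :
    CC v w (glu r X a) (glu r Y b) (M + r) + (mE v (X r) - pX v w X Y r) =
      (pP v w a b M - cpp v w X Y r) / (pd v w a b M - cd v w X Y r) := by
  rw [← glue_P h, ← glue_d h]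
  unfold CC
  field_simp

theorem N_glue (h : GH M r a b X Y) :
    pN v w (glu r X a) (glu r Y b) (M + r) r / pd v w (glu r X a) (glu r Y b) (M + r) =
      (pN v w a b M 0 - cn v w X Y r) / (pd v w a b M - cd v w X Y r) := by
  rw [← glue_N h, ← glue_d h]

/-- `p_T` -/
theorem pT_glue (h : GH M r a b X Y) (hd : pd v w (glu r X a) (glu r Y b) (M + r) ≠ 0) :
    pT v w (glu r X a) (glu r Y b) (M + r) r =
      cp v w X Y r ((pP v w a b M - cpp v w X Y r) / (pd v w a b M - cd v w X Y r)) r := by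
  rw [← CC_glue h hd]
  unfold pT pu cp cF ce
  rw [pX_g1 v w ⟨Nat.cast_nonneg r, le_rfl⟩, pe_g1 v w ⟨Nat.cast_nonneg r, le_rfl⟩]
  unfold Pool.Agent.Work.MP_b5407d_pos_h9.FV.F
  rw [e_eq_pe, mE_eq_mE, pl_nat, intervalIntegral.integral_same]
  congr 1
  ring

/-- `r_S` -/
theorem rS_glue (h : GH M r a b X Y) (hX0 : X 0 = 0) :
    rS v w (glu r X a) (glu r Y b) (M + r) r =
      cr' v w X Y ((pN v w a b M 0 - cn v w X Y r) / (pd v w a b M - cd v w X Y r)) 0 := by
  rw [← N_glue h]
  unfold rS cr' Pool.Agent.Work.MP_b5407d_pos_h9.FV.cG ce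
  unfold Pool.Agent.Work.MP_b5407d_pos_h9.FV.G
  rw [e_eq_pe, mE_eq_mE, glu_le b (Nat.zero_le r)]
  simp only [Nat.cast_zero, pl_zero, intervalIntegral.integral_same, sub_zero]
  have h5 : pe v w X Y 0 = Real.exp (-(w * Y 0)) := by
    rw [pe_eq, pl_zero, pl_zero, hX0]; simp
  rw [h5, Real.exp_neg, div_inv_eq_mul]

end

end Pool.Agent.Work.MP_b5407d_pos_h13
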