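import Pool.Agent.Work.MP_b5407d_pos_helper13.Area

/-! # MP_b5407d_gt (POS): polygons in standard position, V-condition (helper13) -/

set_option autoImplicit false

open MeasureTheory Set Filter Topology

namespace Pool.Agent.Work.MP_b5407d_pos_h13

open Pool.LBM Pool.LBM.Path

theorem pos_left {x y : ℝ} (h : 0 < x * y) (hy : 0 ≤ y) : 0 < x := by
  by_contra hn
  push Not at hn
  have := mul_nonpos_of_nonpos_of_nonneg hn hy
  linarith

section
variable {m r : ℕ} {a b : ℕ → ℝ}

theorem std_a_pos (h : Std m r a b) {k : ℕ} (h0 : 0 < k) (hk : k < m) : 0 < a k := by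
  have h1 := h.conv 0 k m h0 hk le_rfl
  rw [h.a0, h.am] at h1
  have h2 := h.left
  have h3 : 0 < a k * (b m - b 0) := by linarith
  exact pos_left h3 (by linarith)

theorem std_b_pos (h : Std m r a b) {k : ℕ} (hk : k ≤ m) (h1 : k ≠ r) (h2 : k ≠ r + 1) :
    0 < b k := by
  have hb := h.bot
  rcases Nat.lt_or_ge k r with hkr | hkr
  · have h3 := h.conv k r (r + 1) hkr (by omega) (by have := h.lt; omega)
    rw [h.br, h.br1] at h3
    have h4 : 0 < b k * (a (r + 1) - a r) := by linarith
    exact pos_left h4 (by linarith)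
  · have h3 := h.conv r (r + 1) k (by omega) (by omega) hk
    rw [h.br, h.br1] at h3
    have h4 : 0 < b k * (a (r + 1) - a r) := by linarith
    exact pos_left h4 (by linarith)

theorem std_b_nonneg (h : Std m r a b) {k : ℕ} (hk : k ≤ m) : 0 ≤ b k := by
  by_cases h1 : k = r
  · rw [h1, h.br]
  · by_cases h2 : k = r + 1
    · rw [h2, h.br1]
    · exact (std_b_pos h hk h1 h2).le

theorem std_a_nonneg (h : Std m r a b) {k : ℕ} (hk : k ≤ m) : 0 ≤ a k := by
  rcases Nat.eq_zero_or_pos k with h1 | h1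
  · rw [h1, h.a0]
  · rcases hk.eq_or_lt with h2 | h2
    · rw [h2, h.am]
    · exact (std_a_pos h h1 h2).le

theorem std_r1_lt (h : Std m r a b) : r + 1 < m := by
  have h1 := h.lt
  rcases Nat.lt_or_ge (r + 1) m with h2 | h2
  · exact h2
  · have h3 : r + 1 = m := by omega
    have h4 := h.bot
    rw [h3, h.am] at h4
    have h5 := std_a_nonneg h h.lt.le
    linarith

/-- monotonicity of the near chain -/
theorem std_near (h : Std m r a b) {k : ℕ} (hk : k < r) :
    a k < a (k + 1) ∧ b (k + 1) < b k := by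
  have hr := std_r1_lt h
  have hbk : 0 < b k := std_b_pos h (by omega) (by omega) (by omega)
  rcases Nat.eq_zero_or_pos k with h0 | h0
  · subst h0
    have ha1 : 0 < a (0 + 1) := std_a_pos h (by omega) (by omega)
    refine ⟨by rw [h.a0]; exact ha1, ?_⟩
    rcases Nat.lt_or_ge 1 r with h1 | h1
    · have h2 := h.conv 0 (0 + 1) r (by omega) h1 (by omega)
      rw [h.a0, h.br] at h2
      have har : 0 < a r := std_a_pos h (by omega) (by omega)
      by_contra hn
      push Not at hn
      have h3 : 0 ≤ (b (0 + 1) - b 0) * a r := mul_nonneg (by linarith) har.le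
      have h4 : 0 < a (0 + 1) * b 0 := mul_pos ha1 hbk
      nlinarith
    · have h2 : r = 0 + 1 := by omega
      rw [← h2, h.br]; exact hbk
  · have hak : 0 < a k := std_a_pos h h0 (by omega)
    have har : 0 < a r := std_a_pos h (by omega) (by omega)
    have hb0 : 0 < b 0 := std_b_pos h (by omega) (by omega) (by omega)
    -- `P_k` below the segment
    have h1 := h.conv 0 k r h0 hk (by omega)
    rw [h.a0, h.br] at h1
    set A := a (k + 1) - a k with hA
    set B := b (k + 1) - b k with hB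
    -- f(P_0) ≥ 0
    have f0 : 0 < A * (b 0 - b k) - B * (0 - a k) := by
      have := h.conv 0 k (k + 1) h0 (by omega) (by omega)
      rw [h.a0] at this
      rw [hA, hB]
      linarith
    have fr : 0 ≤ A * (0 - b k) - B * (a r - a k) := by
      rcases Nat.lt_or_ge (k + 1) r with h2 | h2
      · have := h.conv k (k + 1) r (by omega) h2 (by omega)
        rw [h.br] at this
        exact this.le
      · have h3 : k + 1 = r := by omega
        rw [hA, hB, h3, h.br]
        apply le_of_eq; ring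
    -- g = b0 ar - bk ar - ak b0 > 0
    have g : 0 < b 0 * a r - b k * a r - a k * b 0 := by linarith
    -- A b0 * g and -B ar * g
    have key : (A * b k - B * a k) * (b 0 * a r - b k * a r - a k * b 0) =
        b k * a r * (A * (b 0 - b k) - B * (0 - a k)) +
        a k * b 0 * (A * (0 - b k) - B * (a r - a k)) := by ring
    have h5 : 0 < (A * b k - B * a k) * (b 0 * a r - b k * a r - a k * b 0) := by
      rw [key]
      have h6 : 0 < b k * a r * (A * (b 0 - b k) - B * (0 - a k)) := by positivity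
      have h7 : 0 ≤ a k * b 0 * (A * (0 - b k) - B * (a r - a k)) := by
        have : 0 ≤ a k * b 0 := by positivity
        exact mul_nonneg this fr
      linarith
    have h6 : 0 < A * b k - B * a k := pos_left h5 g.le
    have h7 : 0 < A * b 0 := by nlinarith
    have h8 : 0 < -B * a r := by nlinarith
    have h9 : 0 < A := pos_left h7 hb0.le
    have h10 : 0 < -B := pos_left h8 har.le
    exact ⟨by linarith, by linarith⟩

/-- shear of a polygon in standard position which makes the edge `r - 1` horizontal -/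
theorem std_shr (h : Std m (r + 1) a b) :
    Std m r a (shr (b r / (a (r + 1) - a r)) (-(b r / (a (r + 1) - a r) * a (r + 1))) a b) := by
  have hn := (std_near h (k := r) (by omega)).1
  have hd : a (r + 1) - a r ≠ 0 := by linarith
  set σ := b r / (a (r + 1) - a r) with hσ
  refine ⟨by have := h.lt; omega, ?_, h.a0, h.am, ?_, ?_, ?_, hn⟩
  · intro i j k hij hjk hk
    have := h.conv i j k hij hjk hk
    simp only [shr]
    linarith
  · simp only [shr, h.a0, h.am]
    linarith [h.left]
  · simp only [shr]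
    rw [hσ]; field_simp; ring
  · simp only [shr]
    rw [h.br]; ring

end

section
variable {m r : ℕ} {a b : ℕ → ℝ} {v w : ℝ}

/-- `C = P / d` -/
noncomputable def CC (v w : ℝ) (a b : ℕ → ℝ) (m : ℕ) : ℝ := pP v w a b m / pd v w a b m

theorem CC_spec (h : CP m a b) : pP v w a b m = CC v w a b m * pd v w a b m := by
  have := (pd_pos (v := v) (w := w) h).ne'
  unfold CC; field_simp

/-- `h = J K_LB = P N / d - M` -/
noncomputable def hK (v w : ℝ) (a b : ℕ → ℝ) (m : ℕ) (τ : ℝ) : ℝ :=
  Ht v w a b m (CC v w a b m) τ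

theorem pos_iff (h : CP m a b) (r : ℕ) :
    pd v w a b m * pM v w a b m r ≤ pP v w a b m * pN v w a b m r ↔
      0 ≤ hK v w a b m ((r : ℝ) + 1) := by
  have hd := pd_pos (v := v) (w := w) h
  have e : pd v w a b m * hK v w a b m ((r : ℝ) + 1) =
      pP v w a b m * pN v w a b m r - pd v w a b m * pM v w a b m r := by
    unfold hK Ht CC
    have e1 : pN v w a b m r = ∫ t in (0 : ℝ)..m, pRt v w a b m ((r : ℝ) + 1) t /
      pe v w a b t * dpl b t := rfl
    have e2 : pM v w a b m r = ∫ t in (0 : ℝ)..m, pX v w a b t *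
      pRt v w a b m ((r : ℝ) + 1) t / pe v w a b t * dpl b t := rfl
    rw [e1, e2]
    field_simp
  constructor
  · intro h1
    have h2 : 0 ≤ pd v w a b m * hK v w a b m ((r : ℝ) + 1) := by rw [e]; linarith
    exact nonneg_of_mul_nonneg_right h2 hd
  · intro h1
    have h2 := mul_nonneg hd.le h1
    rw [e] at h2
    linarith

theorem shr_zero (a b : ℕ → ℝ) : shr 0 0 a b = b := by
  funext k; simp [shr]

/-- `h = -J V_y` -/
theorem hK_eq (h : CP m a b) {τ : ℝ} (h0 : 0 ≤ τ) (hτ : τ ≤ m) :
    hK v w a b m τ = -(pJ v w a b m *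
      pVy v w a b m (CC v w a b m) (etaV v w a b m (CC v w a b m)) τ) := by
  have h1 := shear_H (v := v) (w := w) (a := a) (b := b) (m := m) (C := CC v w a b m) 0 0
    h.a0 h.am (CC_spec h) (pJ_pos h).ne' h0 hτ
  simp only [zero_mul, sub_zero, shr_zero, mul_zero, neg_zero, Real.exp_zero, one_mul,
    add_zero] at h1
  exact h1

theorem CP_shr (h : CP m a b) (σ c0 : ℝ) : CP m a (shr σ c0 a b) := by
  refine ⟨h.two, ?_, h.a0, h.am, ?_⟩
  · intro i j k hij hjk hk
    have := h.conv i j k hij hjk hk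
    simp only [shr]
    linarith
  · simp only [shr, h.a0, h.am]
    linarith [h.left]

theorem CC_shr (h : CP m a b) (σ c0 : ℝ) : CC (v - σ * w) w a (shr σ c0 a b) m =
    Real.exp (-(w * c0)) * CC v w a b m := by
  have hd := (pd_pos (v := v) (w := w) h).ne'
  have hd' := (pd_pos (v := v - σ * w) (w := w) (CP_shr h σ c0)).ne'
  have h1 := pd_shr v w σ c0 a b m h.a0 h.am
  have h2 := pP_shr v w σ c0 a b m h.a0 h.am
  have hl : Real.exp (-(w * c0)) ≠ 0 := (Real.exp_pos _).ne'
  unfold CC
  rw [h2, ← h1]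
  field_simp

/-- `h` of a sheared polygon -/
theorem hK_shr (h : CP m a b) (σ c0 : ℝ) {τ : ℝ} (h0 : 0 ≤ τ) (hτ : τ ≤ m) :
    hK (v - σ * w) w a (shr σ c0 a b) m τ = -(Real.exp (-(w * c0)) * pJ v w a b m *
      (pVy v w a b m (CC v w a b m) (etaV v w a b m (CC v w a b m)) τ +
        σ * pVx v w a b (CC v w a b m) (kapV v w a b m (CC v w a b m)) τ)) := by
  unfold hK
  rw [CC_shr h]
  exact shear_H σ c0 h.a0 h.am (CC_spec h) (pJ_pos h).ne' h0 hτ

theorem int_flat (b : ℕ → ℝ) (g : ℝ → ℝ) {k : ℕ} (hk : b (k + 1) = b k) :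
    (∫ t in (k : ℝ)..((k : ℝ) + 1), g t * dpl b t) = 0 := by
  have e : (∫ t in (k : ℝ)..((k : ℝ) + 1), g t * dpl b t) =
      ∫ t in (k : ℝ)..((k : ℝ) + 1), (0 : ℝ) := by
    refine intervalIntegral.integral_congr_ae ?_
    have hne : ∀ᵐ u : ℝ, u ≠ (k : ℝ) + 1 := by rw [ae_iff]; simp
    filter_upwards [hne] with s hs hsI
    rw [uIoc_of_le (by linarith)] at hsI
    have hfl : ⌊s⌋₊ = k :=
      Nat.floor_eq_on_Ico k _ ⟨hsI.1.le, lt_of_le_of_ne hsI.2 hs⟩
    simp only [dpl, hfl, hk, sub_self, mul_zero]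
  rw [e]; simp

theorem pVy_flat (C η : ℝ) {k : ℕ} (hk : b (k + 1) = b k) :
    pVy v w a b m C η ((k : ℝ) + 1) = pVy v w a b m C η k := by
  unfold pVy
  have hu := pu_cont v w a b C
  have h1 := intervalIntegral.integral_add_adjacent_intervals (mul_ii b hu m k)
    (mul_ii b hu k ((k : ℝ) + 1))
  rw [int_flat b _ hk, add_zero] at h1
  rw [h1]

/-- the barycentre -/
noncomputable def xb (v w : ℝ) (a b : ℕ → ℝ) (m : ℕ) : ℝ := -Ixq v w a b m / pJ v w a b m

/-- V-condition: the displacement of the vertex `T` -/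
theorem V_cond (h : Std m (r + 1) a b)
    (hpos : ∀ (a' b' : ℕ → ℝ) (v' w' : ℝ), Std m r a' b' →
      pd v' w' a' b' m * pM v' w' a' b' m r ≤ pP v' w' a' b' m * pN v' w' a' b' m r) :
    ∃ Vx : ℝ, pu v w a b (CC v w a b m) ((r + 1 : ℕ) : ℝ) =
      2 * xb v w a b m - a (r + 1) + v * Vx -
        w * (hK v w a b m (((r + 1 : ℕ) : ℝ) + 1) / pJ v w a b m) ∧
      b r * Vx ≤ (a (r + 1) - a r) *
        (hK v w a b m (((r + 1 : ℕ) : ℝ) + 1) / pJ v w a b m) := by
  have hC := CP_of_Std h
  have hJ := pJ_pos (v := v) (w := w) hC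
  have hlt := std_r1_lt h
  have hn := (std_near h (k := r) (by omega)).1
  have hd : 0 < a (r + 1) - a r := by linarith
  set C := CC v w a b m with hCC
  set κ := kapV v w a b m C with hκ
  set η := etaV v w a b m C with hη
  have hr1 : (((r + 1 : ℕ) : ℝ)) ≤ m := by exact_mod_cast h.lt.le
  have hr2 : (((r + 1 : ℕ) : ℝ)) + 1 ≤ m := by exact_mod_cast h.lt
  have hVy : hK v w a b m (((r + 1 : ℕ) : ℝ) + 1) =
      -(pJ v w a b m * pVy v w a b m C η ((r + 1 : ℕ) : ℝ)) := by
    rw [hK_eq hC (by positivity) hr2, pVy_flat C η (by rw [h.br1, h.br])]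
  have hVy' : pVy v w a b m C η ((r + 1 : ℕ) : ℝ) =
      -(hK v w a b m (((r + 1 : ℕ) : ℝ) + 1) / pJ v w a b m) := by
    rw [hVy]; field_simp
  refine ⟨pVx v w a b C κ ((r + 1 : ℕ) : ℝ), ?_, ?_⟩
  · have h1 := Pool.LBM.PC.part2 v w a b m C κ η h.am
      (pVx_m h.a0 h.am (CC_spec hC) κ) ((r + 1 : ℕ) : ℝ)
    have h2 := c_J h.a0 h.am (CC_spec (v := v) (w := w) hC) hJ.ne'
    have h3 : pc v w a b m C κ η = 2 * xb v w a b m := by
      unfold xb
      rw [← hCC] at h2
      rw [eq_comm, ← mul_div_assoc, div_eq_iff hJ.ne']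
      linarith
    rw [h3, hVy', pl_nat] at h1
    linarith
  · have h1 := (pos_iff (CP_of_Std (std_shr h)) r).1
      (hpos _ _ (v - b r / (a (r + 1) - a r) * w) w (std_shr h))
    have e : (r : ℝ) + 1 = ((r + 1 : ℕ) : ℝ) := by push_cast; ring
    rw [e, hK_shr hC _ _ (by positivity) hr1, ← hCC, ← hκ, ← hη, hVy'] at h1
    set K := hK v w a b m (((r + 1 : ℕ) : ℝ) + 1) / pJ v w a b m with hKd
    set V := pVx v w a b C κ ((r + 1 : ℕ) : ℝ) with hV
    set σ := b r / (a (r + 1) - a r) with hσ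
    have hl : 0 < Real.exp (-(w * -(σ * a (r + 1)))) * pJ v w a b m :=
      mul_pos (Real.exp_pos _) hJ
    have h2 : -K + σ * V ≤ 0 := by
      by_contra hn
      push Not at hn
      have := mul_pos hl hn
      linarith
    have h3 : σ * V * (a (r + 1) - a r) = b r * V := by
      rw [hσ]; field_simp
    nlinarith
end

end Pool.Agent.Work.MP_b5407d_pos_h13
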