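import Pool.Agent.Work.MP_b5407d_pos_helper13.Mirror2

/-! # MP_b5407d_gt (POS): V-conditions at both ends of the near chain (helper13) -/

set_option autoImplicit false

open MeasureTheory Set Filter Topology

namespace Pool.Agent.Work.MP_b5407d_pos_h13

open Pool.LBM Pool.LBM.Path

section
variable {m r : ℕ} {a b : ℕ → ℝ} {v w : ℝ}

/-- the mirrored polygon -/
theorem KK_mr (h : Std m r a b) (z : R2) :
    z ∈ KK m (mr m r b) (mr m r a) ↔ (z.2, z.1) ∈ KK m a b := by
  have hlt := h.lt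
  have hbot := h.bot
  have hleft := h.left
  have key : ∀ c : ℕ → ℝ, ∀ k, k < r → mr m r c k = c (r - k) ∧ mr m r c (k + 1) = c (r - k - 1) := by
    intro c k hk
    have h1 : k ≤ r := hk.le
    have h2 : k + 1 ≤ r := hk
    have h3 : r - (k + 1) = r - k - 1 := by omega
    simp [mr, h1, h2, h3]
  have key2 : ∀ c : ℕ → ℝ, ∀ k, r < k → k < m → mr m r c k = c (m + r + 1 - k) ∧
      mr m r c (k + 1) = c (m + r - k) := by
    intro c k hk hkm
    have h1 : ¬ k ≤ r := by omega
    have h2 : ¬ k + 1 ≤ r := by omega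
    have h3 : m + r + 1 - (k + 1) = m + r - k := by omega
    simp [mr, h1, h2, h3]
  have e3 : ∀ c : ℕ → ℝ, mr m r c r = c 0 := fun c => by simp [mr]
  have e4 : ∀ c : ℕ → ℝ, mr m r c (r + 1) = c m := fun c => by
    have h2 : m + r + 1 - (r + 1) = m := by omega
    simp [mr, h2]
  constructor
  · rintro ⟨h1, h2⟩
    refine ⟨?_, ?_⟩
    · have h3 := h2 r hlt
      rw [e3, e4, e3, e4, h.a0, h.am] at h3
      simp only [sub_zero, sub_self, zero_mul] at h3
      exact nonneg_of_mul_nonneg_right h3 (by linarith)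
    · intro k hk
      show 0 ≤ (a (k + 1) - a k) * (z.1 - b k) - (b (k + 1) - b k) * (z.2 - a k)
      rcases lt_trichotomy k r with hkr | hkr | hkr
      · have h3 := h2 (r - k - 1) (by omega)
        obtain ⟨ka, ka1⟩ := key a (r - k - 1) (by omega)
        obtain ⟨kb, kb1⟩ := key b (r - k - 1) (by omega)
        have e5 : r - (r - k - 1) = k + 1 := by omega
        have e6 : r - (r - k - 1) - 1 = k := by omega
        rw [ka, ka1, kb, kb1, e5, Nat.add_sub_cancel] at h3
        linarith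
      · subst hkr
        rw [h.br, h.br1]
        have : 0 ≤ (a (k + 1) - a k) * z.1 := mul_nonneg (by linarith) h1
        linarith
      · have h3 := h2 (m + r - k) (by omega)
        obtain ⟨ka, ka1⟩ := key2 a (m + r - k) (by omega) (by omega)
        obtain ⟨kb, kb1⟩ := key2 b (m + r - k) (by omega) (by omega)
        have e5 : m + r + 1 - (m + r - k) = k + 1 := by omega
        have e6 : m + r - (m + r - k) = k := by omega
        rw [ka, ka1, kb, kb1, e5, e6] at h3
        linarith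
  · rintro ⟨h1, h2⟩
    have h1' : 0 ≤ z.2 := h1
    have h2' : ∀ k < m, 0 ≤ (a (k + 1) - a k) * (z.1 - b k) - (b (k + 1) - b k) * (z.2 - a k) :=
      h2
    refine ⟨?_, ?_⟩
    · have h3 := h2' r hlt
      rw [h.br, h.br1] at h3
      simp only [sub_zero, sub_self, zero_mul] at h3
      exact nonneg_of_mul_nonneg_right h3 (by linarith)
    · intro k hk
      rcases lt_trichotomy k r with hkr | hkr | hkr
      · obtain ⟨ka, ka1⟩ := key a k hkr
        obtain ⟨kb, kb1⟩ := key b k hkr
        have h3 := h2' (r - k - 1) (by omega)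
        have e5 : r - k - 1 + 1 = r - k := by omega
        rw [e5] at h3
        rw [ka, ka1, kb, kb1]
        linarith
      · subst hkr
        rw [e3, e4, e3, e4, h.a0, h.am]
        have : 0 ≤ (b m - b 0) * z.2 := mul_nonneg (by linarith) h1'
        linarith
      · obtain ⟨ka, ka1⟩ := key2 a k hkr hk
        obtain ⟨kb, kb1⟩ := key2 b k hkr hk
        have h3 := h2' (m + r - k) (by omega)
        have e5 : m + r - k + 1 = m + r + 1 - k := by omega
        rw [e5] at h3
        rw [ka, ka1, kb, kb1]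
        linarith

/-- integrals over the mirrored polygon -/
theorem int_KK_mr (h : Std m r a b) (f : R2 → ℝ) :
    ∫ z in KK m (mr m r b) (mr m r a), f z = ∫ z in KK m a b, f (z.2, z.1) := by
  have hmp : MeasurePreserving (Prod.swap : R2 → R2) volume volume :=
    Measure.measurePreserving_swap
  have hemb : MeasurableEmbedding (Prod.swap : R2 → R2) :=
    MeasurableEquiv.prodComm.measurableEmbedding
  have h1 := hmp.setIntegral_preimage_emb hemb f (KK m (mr m r b) (mr m r a))
  rw [← h1]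
  have h2 : (Prod.swap : R2 → R2) ⁻¹' (KK m (mr m r b) (mr m r a)) = KK m a b := by
    ext z
    exact KK_mr h (Prod.swap z)
  rw [h2]
  rfl

/-- `∫_K e` -/
theorem pJ_mr (h : Std m r a b) : pJ w v (mr m r b) (mr m r a) m = pJ v w a b m := by
  rw [← pJ_area (CP_of_Std h), ← pJ_area (CP_of_Std (std_mr h)), int_KK_mr h]
  congr 1
  funext z
  congr 1
  ring

/-- `∫_K y e` -/
noncomputable def Iy (v w : ℝ) (a b : ℕ → ℝ) (m : ℕ) : ℝ :=
  ∫ z in KK m a b, z.2 * Real.exp (-(v * z.1) - w * z.2)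

/-- `∫_K x e` -/
noncomputable def Ix (v w : ℝ) (a b : ℕ → ℝ) (m : ℕ) : ℝ :=
  ∫ z in KK m a b, z.1 * Real.exp (-(v * z.1) - w * z.2)

theorem Ix_mr (h : Std m r a b) : Ix w v (mr m r b) (mr m r a) m = Iy v w a b m := by
  unfold Ix Iy
  rw [int_KK_mr h]
  congr 1
  funext z
  congr 2
  ring

theorem xb_eq (h : CP m a b) : xb v w a b m = Ix v w a b m / pJ v w a b m := by
  unfold xb Ix
  rw [Ixq_area h]

/-- slopes: the first slope is the largest -/
theorem slope_le (h : Std m (r + 1) a b) :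
    b r * a 1 ≤ (b 0 - b 1) * (a (r + 1) - a r) := by
  have hr := std_r1_lt h
  have hs : ∀ k ≤ r, (b k - b (k + 1)) * a 1 ≤ (b 0 - b 1) * (a (k + 1) - a k) := by
    intro k hk
    induction k with
    | zero => rw [h.a0]; simp
    | succ k ih =>
      have ih' := ih (by omega)
      have h1 := h.conv k (k + 1) (k + 2) (by omega) (by omega) (by omega)
      obtain ⟨h2, h2'⟩ := std_near h (k := k) (by omega)
      obtain ⟨h3, h3'⟩ := std_near h (k := k + 1) (by omega)
      have ha1 : 0 < a 1 := std_a_pos h (by omega) (by omega)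
      have e1 : k + 1 + 1 = k + 2 := by ring
      rw [e1] at h3 h3' ⊢
      -- (b(k+1) - b(k+2)) (a(k+1) - a k) ≤ (b k - b(k+1)) (a(k+2) - a(k+1))
      have h4 : (b (k + 1) - b (k + 2)) * (a (k + 1) - a k) ≤
          (b k - b (k + 1)) * (a (k + 2) - a (k + 1)) := by linarith
      have h5 : ((b (k + 1) - b (k + 2)) * a 1) * (a (k + 1) - a k) ≤
          ((b 0 - b 1) * (a (k + 2) - a (k + 1))) * (a (k + 1) - a k) := by
        have h6 := mul_le_mul_of_nonneg_right h4 ha1.le
        have h7 := mul_le_mul_of_nonneg_right ih'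
          (show 0 ≤ a (k + 2) - a (k + 1) by linarith)
        linarith
      exact le_of_mul_le_mul_right h5 (by linarith)
  have h1 := hs r le_rfl
  rw [h.br] at h1
  linarith

/-- `p` at `T` -/
noncomputable def pT (v w : ℝ) (a b : ℕ → ℝ) (m r : ℕ) : ℝ := pu v w a b (CC v w a b m) r

/-- `r` at `S` -/
noncomputable def rS (v w : ℝ) (a b : ℕ → ℝ) (m r : ℕ) : ℝ :=
  (pN v w a b m r / pd v w a b m - mE w (b 0)) * Real.exp (w * b 0)

theorem rS_mr (h : Std m r a b) : pT w v (mr m r b) (mr m r a) m r = rS v w a b m r := by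
  unfold pT rS pu
  rw [(hK_mr v w h).2.2, pX_mr1 v w ⟨Nat.cast_nonneg r, le_rfl⟩,
    pe_mr1 v w ⟨Nat.cast_nonneg r, le_rfl⟩, sub_self]
  have h4 : (∫ s in (0 : ℝ)..r, pe v w a b s * dpl b s) + Yf r a b v w 0 = 0 := by
    have he := pe_cont v w a b
    unfold Yf
    rw [intervalIntegral.integral_add_adjacent_intervals (mul_ii b he _ _) (mul_ii b he _ _)]
    simp
  have h5 : pe v w a b 0 = Real.exp (-(w * b 0)) := by
    rw [pe_eq, pl_zero, pl_zero, h.a0]; simp
  rw [h5, div_eq_mul_inv, ← Real.exp_neg, neg_neg]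
  congr 1
  linarith

/-- V-condition at `T` -/
theorem V_T (h : Std m (r + 1) a b)
    (hpos : ∀ (a' b' : ℕ → ℝ) (v' w' : ℝ), Std m r a' b' →
      pd v' w' a' b' m * pM v' w' a' b' m r ≤ pP v' w' a' b' m * pN v' w' a' b' m r) :
    ∃ V : ℝ, pT v w a b m (r + 1) = 2 * (Ix v w a b m / pJ v w a b m) - a (r + 1) + v * V -
        w * (hK v w a b m (((r + 1 : ℕ) : ℝ) + 1) / pJ v w a b m) ∧
      b r * V ≤ (a (r + 1) - a r) *
        (hK v w a b m (((r + 1 : ℕ) : ℝ) + 1) / pJ v w a b m) := by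
  obtain ⟨V, h1, h2⟩ := V_cond (v := v) (w := w) h hpos
  refine ⟨V, ?_, h2⟩
  rw [← xb_eq (CP_of_Std h)]
  exact h1

/-- V-condition at `S` -/
theorem V_S (h : Std m (r + 1) a b)
    (hpos : ∀ (a' b' : ℕ → ℝ) (v' w' : ℝ), Std m r a' b' →
      pd v' w' a' b' m * pM v' w' a' b' m r ≤ pP v' w' a' b' m * pN v' w' a' b' m r) :
    ∃ V : ℝ, rS v w a b m (r + 1) = 2 * (Iy v w a b m / pJ v w a b m) - b 0 + w * V -
        v * (hK v w a b m (((r + 1 : ℕ) : ℝ) + 1) / pJ v w a b m) ∧
      a 1 * V ≤ (b 0 - b 1) *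
        (hK v w a b m (((r + 1 : ℕ) : ℝ) + 1) / pJ v w a b m) := by
  obtain ⟨V, h1, h2⟩ := V_T (v := w) (w := v) (std_mr h) hpos
  have e1 : mr m (r + 1) b (r + 1) = b 0 := by simp [mr]
  have e2 : mr m (r + 1) b r = b 1 := by simp [mr]
  have e3 : mr m (r + 1) a r = a 1 := by simp [mr]
  have e4 := (hK_mr v w h).1
  rw [rS_mr h, Ix_mr h, pJ_mr h, e4, e1] at h1
  rw [e1, e2, e3, e4, pJ_mr h] at h2
  exact ⟨V, h1, h2⟩

/-- V4: `v p_T + w r_S ≤ 2 (v x_b + w y_b) - v a - w b` if `h ≤ 0` -/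
theorem V4 (h : Std m (r + 1) a b)
    (hpos : ∀ (a' b' : ℕ → ℝ) (v' w' : ℝ), Std m r a' b' →
      pd v' w' a' b' m * pM v' w' a' b' m r ≤ pP v' w' a' b' m * pN v' w' a' b' m r)
    (hh : hK v w a b m (((r + 1 : ℕ) : ℝ) + 1) ≤ 0) :
    v * pT v w a b m (r + 1) + w * rS v w a b m (r + 1) ≤
      2 * (v * (Ix v w a b m / pJ v w a b m) + w * (Iy v w a b m / pJ v w a b m)) -
        v * a (r + 1) - w * b 0 := by
  obtain ⟨V, h1, h2⟩ := V_T (v := v) (w := w) h hpos
  obtain ⟨V', h1', h2'⟩ := V_S (v := v) (w := w) h hpos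
  have hJ := pJ_pos (v := v) (w := w) (CP_of_Std h)
  set K := hK v w a b m (((r + 1 : ℕ) : ℝ) + 1) / pJ v w a b m with hK'
  have hK0 : K ≤ 0 := div_nonpos_of_nonpos_of_nonneg hh hJ.le
  rw [h1, h1']
  have hr := std_r1_lt h
  obtain ⟨ha, -⟩ := std_near h (k := r) (by omega)
  obtain ⟨-, hb⟩ := std_near h (k := 0) (by omega)
  rw [zero_add] at hb
  have hbr : 0 < b r := std_b_pos h (by omega) (by omega) (by omega)
  have ha1 : 0 < a 1 := std_a_pos h (by omega) (by omega)
  have hsl := slope_le h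
  set A := a (r + 1) - a r with hA
  set B := b 0 - b 1 with hB
  have hA0 : 0 < A := by linarith
  have hB0 : 0 < B := by linarith
  have hV : V ≤ A / b r * K := by
    rw [div_mul_eq_mul_div, le_div_iff₀ hbr]; linarith
  have hV' : V' ≤ B / a 1 * K := by
    rw [div_mul_eq_mul_div, le_div_iff₀ ha1]; linarith
  have h3 : v ^ 2 * V ≤ v ^ 2 * (A / b r * K) := mul_le_mul_of_nonneg_left hV (sq_nonneg v)
  have h4 : w ^ 2 * V' ≤ w ^ 2 * (B / a 1 * K) := mul_le_mul_of_nonneg_left hV' (sq_nonneg w)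
  have h5 : b r / A ≤ B / a 1 := by
    rw [div_le_div_iff₀ hA0 ha1]; linarith
  have h6 : w ^ 2 * (b r / A) ≤ w ^ 2 * (B / a 1) := mul_le_mul_of_nonneg_left h5 (sq_nonneg w)
  have h7 : 0 ≤ v ^ 2 * (A / b r) + w ^ 2 * (b r / A) - 2 * v * w := by
    have : v ^ 2 * (A / b r) + w ^ 2 * (b r / A) - 2 * v * w =
        (v * A - w * b r) ^ 2 / (A * b r) := by
      field_simp; ring
    rw [this]; positivity
  have h8 : K * (v ^ 2 * (A / b r) + w ^ 2 * (B / a 1) - 2 * v * w) ≤ 0 :=
    mul_nonpos_of_nonpos_of_nonneg hK0 (by linarith)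
  nlinarith

/-- one near edge, nonpositive tilts: `b p_T + a r_S ≥ 2 (b x_b + a y_b) - 2 a b` -/
theorem V_one (h : Std m 1 a b)
    (hpos : ∀ (a' b' : ℕ → ℝ) (v' w' : ℝ), Std m 0 a' b' →
      pd v' w' a' b' m * pM v' w' a' b' m 0 ≤ pP v' w' a' b' m * pN v' w' a' b' m 0)
    (hh : hK v w a b m (((1 : ℕ) : ℝ) + 1) ≤ 0) (hv : v ≤ 0) (hw : w ≤ 0) :
    2 * (b 0 * (Ix v w a b m / pJ v w a b m) + a 1 * (Iy v w a b m / pJ v w a b m)) -
        2 * (a 1 * b 0) ≤ b 0 * pT v w a b m 1 + a 1 * rS v w a b m 1 := by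
  obtain ⟨V, h1, h2⟩ := V_T (r := 0) (v := v) (w := w) h hpos
  obtain ⟨V', h1', h2'⟩ := V_S (r := 0) (v := v) (w := w) h hpos
  simp only [zero_add] at h1 h1' h2 h2'
  set K := hK v w a b m (((1 : ℕ) : ℝ) + 1) / pJ v w a b m with hK'
  have hb1 : b 1 = 0 := h.br
  rw [h.a0, sub_zero] at h2
  rw [hb1, sub_zero] at h2'
  rw [h1, h1']
  have h3 : v * (a 1 * K) ≤ v * (b 0 * V) := mul_le_mul_of_nonpos_left h2 hv
  have h4 : w * (b 0 * K) ≤ w * (a 1 * V') := mul_le_mul_of_nonpos_left h2' hw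
  nlinarith

/-- for one near edge `b x_b + a y_b > a b` -/
theorem bary_gt (h : Std m 1 a b) :
    a 1 * b 0 < b 0 * (Ix v w a b m / pJ v w a b m) + a 1 * (Iy v w a b m / pJ v w a b m) := by
  have hC := CP_of_Std h
  have hJ := pJ_pos (v := v) (w := w) hC
  have hr := std_r1_lt h
  have hb1 : b 1 = 0 := h.br
  have ha1 : 0 < a 1 := std_a_pos h (by omega) (by omega)
  have hb0 : 0 < b 0 := std_b_pos h (by omega) (by omega) (by omega)
  have hc1 : Continuous fun z : R2 => Real.exp (-(v * z.1) - w * z.2) := by fun_prop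
  have hc2 : Continuous fun z : R2 => z.1 * Real.exp (-(v * z.1) - w * z.2) := by fun_prop
  have hc3 : Continuous fun z : R2 => z.2 * Real.exp (-(v * z.1) - w * z.2) := by fun_prop
  have hc4 : Continuous fun z : R2 => (b 0 * z.1 + a 1 * z.2 - a 1 * b 0) *
    Real.exp (-(v * z.1) - w * z.2) := by fun_prop
  have i1 := hc1.continuousOn.integrableOn_compact (μ := volume) (KK_compact hC)
  have i2 := hc2.continuousOn.integrableOn_compact (μ := volume) (KK_compact hC)
  have i3 := hc3.continuousOn.integrableOn_compact (μ := volume) (KK_compact hC)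
  have i4 := hc4.continuousOn.integrableOn_compact (μ := volume) (KK_compact hC)
  have hge : ∀ z ∈ KK m a b, 0 ≤ b 0 * z.1 + a 1 * z.2 - a 1 * b 0 := by
    intro z hz
    have h1 := hz.2 0 (by omega)
    rw [zero_add, h.a0, hb1] at h1
    linarith
  have hpos : 0 < ∫ z in KK m a b, (b 0 * z.1 + a 1 * z.2 - a 1 * b 0) *
      Real.exp (-(v * z.1) - w * z.2) := by
    rw [setIntegral_pos_iff_support_of_nonneg_ae ?_ i4]
    · -- the support contains the interior
      have hsub : interior (KK m a b) ⊆ Function.support (fun z : R2 =>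
          (b 0 * z.1 + a 1 * z.2 - a 1 * b 0) * Real.exp (-(v * z.1) - w * z.2)) ∩
          KK m a b := by
        intro z hz
        refine ⟨?_, interior_subset hz⟩
        simp only [Function.mem_support]
        apply mul_ne_zero _ (Real.exp_ne_zero _)
        intro h0
        -- move in direction `-(1,0)`
        obtain ⟨ε, hε, hball⟩ := Metric.mem_nhds_iff.1 (mem_interior_iff_mem_nhds.1 hz)
        have hmem : (z.1 - ε / 2, z.2) ∈ KK m a b := by
          apply hball
          rw [Metric.mem_ball, Prod.dist_eq]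
          simp only [dist_self, Real.dist_eq]
          rw [max_lt_iff]
          refine ⟨?_, hε⟩
          rw [abs_lt]; constructor <;> linarith
        have h2 := hge _ hmem
        simp only at h2
        have : 0 < b 0 * (ε / 2) := by positivity
        linarith
      exact lt_of_lt_of_le (isOpen_interior.measure_pos volume (KK_interior hC))
        (measure_mono hsub)
    · rw [Filter.EventuallyLE, ae_restrict_iff' (KK_closed m a b).measurableSet]
      refine Eventually.of_forall fun z hz => ?_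
      exact mul_nonneg (hge z hz) (Real.exp_pos _).le
  have e : (∫ z in KK m a b, (b 0 * z.1 + a 1 * z.2 - a 1 * b 0) *
      Real.exp (-(v * z.1) - w * z.2)) =
      b 0 * Ix v w a b m + a 1 * Iy v w a b m - (a 1 * b 0) * pJ v w a b m := by
    rw [← pJ_area hC]
    unfold Ix Iy
    have i5 : IntegrableOn (fun z : R2 => b 0 * (z.1 * Real.exp (-(v * z.1) - w * z.2)) +
        a 1 * (z.2 * Real.exp (-(v * z.1) - w * z.2))) (KK m a b) volume :=
      (i2.const_mul _).add (i3.const_mul _)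
    rw [← integral_const_mul, ← integral_const_mul, ← integral_const_mul, ← integral_add
      (i2.const_mul _) (i3.const_mul _), ← integral_sub i5 (i1.const_mul _)]
    congr 1
    funext z
    ring
  rw [e] at hpos
  have h5 : a 1 * b 0 < (b 0 * Ix v w a b m + a 1 * Iy v w a b m) / pJ v w a b m := by
    rw [lt_div_iff₀ hJ]; linarith
  have h6 : (b 0 * Ix v w a b m + a 1 * Iy v w a b m) / pJ v w a b m =
      b 0 * (Ix v w a b m / pJ v w a b m) + a 1 * (Iy v w a b m / pJ v w a b m) := by ring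
  linarith

end

end Pool.Agent.Work.MP_b5407d_pos_h13
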