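import Pool.Agent.Work.MP_b5407d_pos_helper13.Shear

/-! # MP_b5407d_gt (POS): displacement of the vertices and `POS` of sheared polygons (helper13) -/

set_option autoImplicit false

open MeasureTheory Set Filter Topology

namespace Pool.Agent.Work.MP_b5407d_pos_h13

open Pool.LBM Pool.LBM.Path

section
variable (v w : ℝ) (a b : ℕ → ℝ) (m : ℕ) (C : ℝ)

/-- `∫_0^t u dx` -/
noncomputable def V0 (t : ℝ) : ℝ := ∫ s in (0 : ℝ)..t, pu v w a b C s * dpl a s

/-- `κ` -/
noncomputable def kapV : ℝ :=
  ((∫ t in (0 : ℝ)..m, (mL v (pl a t) * pu v w a b C t) * dpl b t) -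
    ∫ t in (0 : ℝ)..m, (pq v w a b t * V0 v w a b C t) * dpl a t) / pJ v w a b m

/-- `η` -/
noncomputable def etaV : ℝ :=
  -(∫ t in (0 : ℝ)..m, (pL v w a b t * pu v w a b C t) * dpl b t) / pJ v w a b m

/-- `C N - M = ∫ u R dy`, threshold `τ` -/
noncomputable def Ht (τ : ℝ) : ℝ :=
  C * (∫ t in (0 : ℝ)..m, pRt v w a b m τ t / pe v w a b t * dpl b t) -
    (∫ t in (0 : ℝ)..m, pX v w a b t * pRt v w a b m τ t / pe v w a b t * dpl b t)

theorem V0_cont : Continuous (V0 v w a b C) := prim_cont a (pu_cont v w a b C) 0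

theorem V0_deriv {t : ℝ} (ht : t ∉ Nt) :
    HasDerivAt (V0 v w a b C) (pu v w a b C t * dpl a t) t :=
  prim_deriv a (pu_cont v w a b C) 0 ht

@[simp] theorem V0_zero : V0 v w a b C 0 = 0 := by simp [V0]

variable {v w a b m C}

theorem V0_m (ha0 : a 0 = 0) (ham : a m = 0) (hC : pP v w a b m = C * pd v w a b m) :
    V0 v w a b C m = 0 := by
  have h := Pool.LBM.PC.part1 v w a b m C ha0 ham
  unfold V0
  rw [h, hC]; ring

theorem pVx_m (ha0 : a 0 = 0) (ham : a m = 0) (hC : pP v w a b m = C * pd v w a b m) (κ : ℝ) :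
    pVx v w a b C κ m = -κ := by
  have := V0_m ha0 ham hC
  unfold pVx
  unfold V0 at this
  rw [this]; ring

/-- `(g(x)/e)' = σ S/e x' + (S - σ Λ)/e y'` -/
theorem gE_deriv (σ : ℝ) {t : ℝ} (ht : t ∉ Nt) :
    HasDerivAt (fun t => fG v w σ (pl a t) / pe v w a b t)
      ((σ * fS v w σ (pl a t) / pe v w a b t) * dpl a t +
        ((fS v w σ (pl a t) - σ * mL v (pl a t)) / pe v w a b t) * dpl b t) t := by
  have h1 := (fG_deriv v w σ (pl a t)).comp t (deriv_pl a ht)
  have h2 := h1.div (pe_deriv v w a b ht) (pe_ne v w a b t)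
  refine h2.congr_deriv ?_
  have h3 := G3 v w σ (pl a t)
  have h4 := w_fG v w σ (pl a t)
  have hne := pe_ne v w a b t
  simp only [Function.comp]
  field_simp
  linear_combination (dpl a t) * h3 + (dpl b t + σ * dpl a t) * h4

/-- `∫ u S (dy + σ dx) = σ ∫ u Λ dy` -/
theorem int_uS (σ : ℝ) (ha0 : a 0 = 0) (ham : a m = 0) :
    (∫ t in (0 : ℝ)..m, (pu v w a b C t * fS v w σ (pl a t)) * dpl b t) +
      σ * (∫ t in (0 : ℝ)..m, (pu v w a b C t * fS v w σ (pl a t)) * dpl a t) =
    σ * ∫ t in (0 : ℝ)..m, (mL v (pl a t) * pu v w a b C t) * dpl b t := by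
  have hX := pX_cont v w a b
  have hu := pu_cont v w a b C
  have hS : Continuous fun t => fS v w σ (pl a t) := (fS_cont v w σ).comp (cont_pl a)
  have hG : Continuous fun t => fG v w σ (pl a t) := (fG_cont v w σ).comp (cont_pl a)
  have hL : Continuous fun t => mL v (pl a t) := (mL_cont v).comp (cont_pl a)
  have hGe : Continuous fun t => fG v w σ (pl a t) / pe v w a b t :=
    hG.div (pe_cont v w a b) (pe_ne v w a b)
  have hpr : Continuous fun t => pr (fG v w σ) (pl a t) :=
    (pr_cont (fG_cont v w σ)).comp (cont_pl a)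
  have hF : Continuous fun t => (C - pX v w a b t) * (fG v w σ (pl a t) / pe v w a b t) +
      pr (fG v w σ) (pl a t) := by fun_prop
  have h := ftc2 a b hF (f := fun t => σ * (pu v w a b C t * fS v w σ (pl a t)))
    (g := fun t => pu v w a b C t * fS v w σ (pl a t) -
      σ * (mL v (pl a t) * pu v w a b C t)) (by fun_prop) (by fun_prop) (fun t ht => by
    have h1 := ((pX_deriv v w a b ht).const_sub C).mul (gE_deriv (v := v) (w := w) (a := a)
      (b := b) σ ht)
    have h2 := (pr_deriv (fG_cont v w σ) (pl a t)).comp t (deriv_pl a ht)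
    refine (h1.add h2).congr_deriv ?_
    have hne := pe_ne v w a b t
    unfold pu
    field_simp
    ring) 0 m
  rw [pl_nat, pl_zero, ha0, ham] at h
  simp only [fG_zero, zero_div, mul_zero, pr_zero, add_zero, sub_self] at h
  have i1 : IntervalIntegrable (fun t => (pu v w a b C t * fS v w σ (pl a t)) * dpl b t)
      volume 0 m := mul_ii b (by fun_prop) 0 m
  have i2 : IntervalIntegrable (fun t => (mL v (pl a t) * pu v w a b C t) * dpl b t)
      volume 0 m := mul_ii b (by fun_prop) 0 m
  have e1 : (∫ t in (0 : ℝ)..m, (σ * (pu v w a b C t * fS v w σ (pl a t))) * dpl a t) =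
      σ * ∫ t in (0 : ℝ)..m, (pu v w a b C t * fS v w σ (pl a t)) * dpl a t := by
    rw [← intervalIntegral.integral_const_mul]
    refine intervalIntegral.integral_congr fun t _ => ?_
    ring
  have e2 : (∫ t in (0 : ℝ)..m, (pu v w a b C t * fS v w σ (pl a t) -
      σ * (mL v (pl a t) * pu v w a b C t)) * dpl b t) =
      (∫ t in (0 : ℝ)..m, (pu v w a b C t * fS v w σ (pl a t)) * dpl b t) -
      σ * ∫ t in (0 : ℝ)..m, (mL v (pl a t) * pu v w a b C t) * dpl b t := by
    rw [← intervalIntegral.integral_const_mul, ← intervalIntegral.integral_sub i1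
      (i2.const_mul σ)]
    refine intervalIntegral.integral_congr fun t _ => ?_
    ring
  rw [e1, e2] at h
  linarith

/-- `∫ L u dx = - ∫ q V0 dx` -/
theorem int_Lu (ha0 : a 0 = 0) (ham : a m = 0) (hC : pP v w a b m = C * pd v w a b m) :
    (∫ t in (0 : ℝ)..m, (pL v w a b t * pu v w a b C t) * dpl a t) =
      -∫ t in (0 : ℝ)..m, (pq v w a b t * V0 v w a b C t) * dpl a t := by
  have hL := pL_cont v w a b
  have hV := V0_cont v w a b C
  have hu := pu_cont v w a b C
  have hq := pq_cont v w a b
  have hF : Continuous fun t => pL v w a b t * V0 v w a b C t := hL.mul hV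
  have h := ftc2 a b hF (f := fun t => pL v w a b t * pu v w a b C t +
      pq v w a b t * V0 v w a b C t) (g := fun _ => (0:ℝ)) (by fun_prop) continuous_const
    (fun t ht => by
      refine ((pL_deriv v w a b ht).mul (V0_deriv v w a b C ht)).congr_deriv ?_
      ring) 0 m
  rw [V0_m ha0 ham hC] at h
  simp only [V0_zero, mul_zero, zero_mul, intervalIntegral.integral_zero, add_zero,
    sub_self] at h
  have i1 : IntervalIntegrable (fun t => (pL v w a b t * pu v w a b C t) * dpl a t)
      volume 0 m := mul_ii a (by fun_prop) 0 m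
  have i2 : IntervalIntegrable (fun t => (pq v w a b t * V0 v w a b C t) * dpl a t)
      volume 0 m := mul_ii a (by fun_prop) 0 m
  have e2 : (∫ t in (0 : ℝ)..m, (pL v w a b t * pu v w a b C t +
      pq v w a b t * V0 v w a b C t) * dpl a t) =
      (∫ t in (0 : ℝ)..m, (pL v w a b t * pu v w a b C t) * dpl a t) +
      ∫ t in (0 : ℝ)..m, (pq v w a b t * V0 v w a b C t) * dpl a t := by
    rw [← intervalIntegral.integral_add i1 i2]
    refine intervalIntegral.integral_congr fun t _ => ?_
    ring
  rw [e2] at h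
  linarith

/-- the shear formula -/
theorem shear_H (σ c0 : ℝ) (ha0 : a 0 = 0) (ham : a m = 0)
    (hC : pP v w a b m = C * pd v w a b m) (hJ : pJ v w a b m ≠ 0) {τ : ℝ} (h0 : 0 ≤ τ)
    (hτ : τ ≤ m) :
    Ht (v - σ * w) w a (shr σ c0 a b) m (Real.exp (-(w * c0)) * C) τ =
      -(Real.exp (-(w * c0)) * pJ v w a b m *
        (pVy v w a b m C (etaV v w a b m C) τ + σ * pVx v w a b C (kapV v w a b m C) τ)) := by
  set l := Real.exp (-(w * c0)) with hl
  have hl0 : l ≠ 0 := (Real.exp_pos _).ne'
  have hu := pu_cont v w a b C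
  have hLc := pL_cont v w a b
  have hS : Continuous fun t => fS v w σ (pl a t) := (fS_cont v w σ).comp (cont_pl a)
  have hm' : Continuous fun t => mE (v - σ * w) (pl a t) := (mE_cont _).comp (cont_pl a)
  -- `u' = u`
  have hu' : ∀ t, pu (v - σ * w) w a (shr σ c0 a b) (l * C) t = pu v w a b C t := by
    intro t
    unfold pu
    rw [pX_shr, pe_shr, ← hl]
    have := pe_ne v w a b t
    field_simp
  -- `R'`
  have hR' : ∀ t, pRt (v - σ * w) w a (shr σ c0 a b) m τ t =
      l * pRt v w a b m τ t + (l * fS v w σ (pl a t) + mE w c0 * mE (v - σ * w) (pl a t)) := by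
    intro t
    unfold pRt
    rw [pL_shr v w σ c0 a b ha0, pJ_shr v w σ c0 a b m ha0 ham, fPhi_eq, ← hl]
    split_ifs <;> ring
  unfold Ht
  rw [CNM_eq]
  have e1 : (∫ t in (0 : ℝ)..m, pRt (v - σ * w) w a (shr σ c0 a b) m τ t *
      pu (v - σ * w) w a (shr σ c0 a b) (l * C) t * dpl (shr σ c0 a b) t) =
      l * (∫ t in (0 : ℝ)..m, pRt v w a b m τ t * pu v w a b C t * dpl (shr σ c0 a b) t) +
      l * (∫ t in (0 : ℝ)..m, (pu v w a b C t * fS v w σ (pl a t)) * dpl (shr σ c0 a b) t) +
      mE w c0 * (∫ t in (0 : ℝ)..m, (pu v w a b C t * mE (v - σ * w) (pl a t)) *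
        dpl (shr σ c0 a b) t) := by
    have i1 := ii_R v w a b m τ hu (shr σ c0 a b)
    have i2 : IntervalIntegrable (fun t => (pu v w a b C t * fS v w σ (pl a t)) *
      dpl (shr σ c0 a b) t) volume 0 m := mul_ii _ (by fun_prop) 0 m
    have i3 : IntervalIntegrable (fun t => (pu v w a b C t * mE (v - σ * w) (pl a t)) *
      dpl (shr σ c0 a b) t) volume 0 m := mul_ii _ (by fun_prop) 0 m
    rw [← intervalIntegral.integral_const_mul, ← intervalIntegral.integral_const_mul,
      ← intervalIntegral.integral_const_mul, ← intervalIntegral.integral_add (i1.const_mul l)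
      (i2.const_mul l), ← intervalIntegral.integral_add ((i1.const_mul l).add (i2.const_mul l))
      (i3.const_mul _)]
    refine intervalIntegral.integral_congr fun t _ => ?_
    simp only [hu', hR']
    ring
  rw [e1]
  -- the last integral is zero
  have hz : (∫ t in (0 : ℝ)..m, (pu v w a b C t * mE (v - σ * w) (pl a t)) *
      dpl (shr σ c0 a b) t) = 0 := by
    have hd := pd_shr v w σ c0 a b m ha0 ham
    have hP := pP_shr v w σ c0 a b m ha0 ham
    have hei : Continuous fun t => mE (v - σ * w) (pl a t) / pe v w a b t :=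
      hm'.div (pe_cont v w a b) (pe_ne v w a b)
    have hXe : Continuous fun t => pX v w a b t * (mE (v - σ * w) (pl a t) / pe v w a b t) :=
      (pX_cont v w a b).mul hei
    have e3 : l * pd (v - σ * w) w a (shr σ c0 a b) m =
        ∫ t in (0 : ℝ)..m, (mE (v - σ * w) (pl a t) / pe v w a b t) *
          dpl (shr σ c0 a b) t := by
      unfold pd
      rw [← intervalIntegral.integral_const_mul]
      refine intervalIntegral.integral_congr fun t _ => ?_
      simp only [pe_shr, ← hl]
      have := pe_ne v w a b t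
      field_simp
    have e4 : pP (v - σ * w) w a (shr σ c0 a b) m =
        ∫ t in (0 : ℝ)..m, (pX v w a b t * (mE (v - σ * w) (pl a t) / pe v w a b t)) *
          dpl (shr σ c0 a b) t := by
      unfold pP
      refine intervalIntegral.integral_congr fun t _ => ?_
      simp only [pe_shr, pX_shr, ← hl]
      have := pe_ne v w a b t
      field_simp
    have e5 : (∫ t in (0 : ℝ)..m, (pu v w a b C t * mE (v - σ * w) (pl a t)) *
        dpl (shr σ c0 a b) t) = C * (l * pd (v - σ * w) w a (shr σ c0 a b) m) -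
          pP (v - σ * w) w a (shr σ c0 a b) m := by
      rw [e3, e4, ← intervalIntegral.integral_const_mul, ← intervalIntegral.integral_sub
        ((mul_ii _ hei 0 m).const_mul C) (mul_ii _ hXe 0 m)]
      refine intervalIntegral.integral_congr fun t _ => ?_
      simp only [pu]
      ring
    rw [e5, hd, hP, hC]; ring
  rw [hz, mul_zero, add_zero]
  -- the first integral
  have hLu : Continuous fun t => pL v w a b t * pu v w a b C t := hLc.mul hu
  have huS : Continuous fun t => pu v w a b C t * fS v w σ (pl a t) := hu.mul hS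
  rw [int_R v w a b m h0 hτ hu, int_shr σ c0 a b hLu, int_shr σ c0 a b hu,
    int_shr σ c0 a b huS]
  have h1 := int_uS (v := v) (w := w) (a := a) (b := b) (m := m) (C := C) σ ha0 ham
  have h2 := int_Lu (v := v) (w := w) (a := a) (b := b) (m := m) (C := C) ha0 ham hC
  have h3 : pJ v w a b m * etaV v w a b m C =
      -(∫ t in (0 : ℝ)..m, (pL v w a b t * pu v w a b C t) * dpl b t) := by
    unfold etaV; field_simp
  have h4 : pJ v w a b m * kapV v w a b m C =
      (∫ t in (0 : ℝ)..m, (mL v (pl a t) * pu v w a b C t) * dpl b t) -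
        ∫ t in (0 : ℝ)..m, (pq v w a b t * V0 v w a b C t) * dpl a t := by
    unfold kapV; field_simp
  have h5 : pVy v w a b m C (etaV v w a b m C) τ = etaV v w a b m C -
      ∫ t in τ..m, pu v w a b C t * dpl b t := by
    unfold pVy
    rw [intervalIntegral.integral_symm]; ring
  have h6 : pVx v w a b C (kapV v w a b m C) τ = -kapV v w a b m C -
      ∫ t in τ..m, pu v w a b C t * dpl a t := by
    unfold pVx
    have hm := V0_m (v := v) (w := w) (b := b) (C := C) ha0 ham hC
    unfold V0 at hm
    have := intervalIntegral.integral_add_adjacent_intervals (mul_ii a hu 0 τ) (mul_ii a hu τ m)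
    rw [hm] at this
    linarith
  rw [h5, h6]
  linear_combination l * h1 + l * σ * h2 + l * h3 - σ * l * h4

end

end Pool.Agent.Work.MP_b5407d_pos_h13
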