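import Pool.Agent.Work.MP_b5407d_pos_helper13.Cont

/-! # MP_b5407d_gt (POS): no bottom edge, only a bottom vertex (helper13) -/

set_option autoImplicit false

open MeasureTheory Set Filter Topology

namespace Pool.Agent.Work.MP_b5407d_pos_h13

open Pool.LBM Pool.LBM.Path

section
variable {n q : ℕ} {A B : ℕ → ℝ} {v w : ℝ}

/-- facet condition -/
theorem facet_near (h : CP n A B) (hq : q + 1 ≤ n) (hA : A q < A (q + 1))
    (IH : ∀ (a b : ℕ → ℝ) (v w : ℝ), Std n q a b → PI v w n q a b) :
    pVy v w A B n (CC v w A B n) (etaV v w A B n (CC v w A B n)) ((q : ℝ) + 1) +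
      (B q - B (q + 1)) / (A (q + 1) - A q) *
        pVx v w A B (CC v w A B n) (kapV v w A B n (CC v w A B n)) ((q : ℝ) + 1) ≤ 0 := by
  have hd : A (q + 1) - A q ≠ 0 := by linarith
  set σ := (B q - B (q + 1)) / (A (q + 1) - A q) with hσ
  have hS : Std n q A (shr σ (-(B (q + 1) + σ * A (q + 1))) A B) := by
    have hC := CP_shr h σ (-(B (q + 1) + σ * A (q + 1)))
    refine ⟨by omega, hC.conv, h.a0, h.am, hC.left, ?_, ?_, hA⟩
    · simp only [shr]
      rw [hσ]; field_simp; ring
    · simp only [shr]; ring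
  have h1 := (pos_iff (CP_of_Std hS) q).1 (IH _ _ (v - σ * w) w hS)
  have hqn : (q : ℝ) + 1 ≤ n := by exact_mod_cast hq
  rw [hK_shr h σ _ (by positivity) hqn] at h1
  have hJ := pJ_pos (v := v) (w := w) h
  by_contra hn
  push Not at hn
  have := mul_pos (mul_pos (Real.exp_pos (-(w * -(B (q + 1) + σ * A (q + 1))))) hJ) hn
  linarith

/-- `V_y + σ V_x` is constant on an edge of slope `-σ` -/
theorem const_edge {k : ℕ} {σ : ℝ} (C η κ : ℝ) (hk : B (k + 1) + σ * A (k + 1) = B k + σ * A k) :
    pVy v w A B n C η ((k : ℝ) + 1) + σ * pVx v w A B C κ ((k : ℝ) + 1) =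
      pVy v w A B n C η k + σ * pVx v w A B C κ k := by
  have hu := pu_cont v w A B C
  have h1 := intervalIntegral.integral_add_adjacent_intervals (mul_ii B hu n k)
    (mul_ii B hu k ((k : ℝ) + 1))
  have h2 := intervalIntegral.integral_add_adjacent_intervals (mul_ii A hu 0 k)
    (mul_ii A hu k ((k : ℝ) + 1))
  have h3 := int_flat (shr σ 0 A B) (pu v w A B C) (k := k) (by simp only [shr]; linarith)
  rw [int_shr σ 0 A B hu] at h3
  unfold pVy pVx
  rw [← h1, ← h2]
  linarith

/-- facet condition at a top edge -/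
theorem facet_left (h : CP n A B) (hq : q + 1 ≤ n) (hA : A (q + 1) < A q)
    (IH : ∀ (r : ℕ) (a b : ℕ → ℝ) (v w : ℝ), Std n r a b → PI v w n r a b) :
    0 ≤ pVy v w A B n (CC v w A B n) (etaV v w A B n (CC v w A B n)) q +
      (B q - B (q + 1)) / (A (q + 1) - A q) *
        pVx v w A B (CC v w A B n) (kapV v w A B n (CC v w A B n)) q := by
  have hd : A (q + 1) - A q ≠ 0 := by linarith
  set σ := (B q - B (q + 1)) / (A (q + 1) - A q) with hσ
  set c0 := -(B (q + 1) + σ * A (q + 1)) with hc0
  set b' := shr σ c0 A B with hb'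
  have e1 : b' q = 0 := by
    simp only [hb', shr]
    rw [hc0, hσ]; field_simp; ring
  have e2 : b' (q + 1) = 0 := by
    simp only [hb', shr]; rw [hc0]; ring
  have hC := CP_shr h σ c0
  rw [← hb'] at hC
  set p := n - q - 1 with hp
  have i1 : n - p = q + 1 := by omega
  have i2 : n - (p + 1) = q := by omega
  have hS : Std n p (ra n A) (rb n 0 b') := by
    refine ⟨by omega, ?_, ?_, ?_, ?_, ?_, ?_, ?_⟩
    · intro i j k hij hjk hk
      have h1 := hC.conv (n - k) (n - j) (n - i) (by omega) (by omega) (by omega)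
      simp only [ra, rb]
      linarith
    · simp only [ra, Nat.sub_zero]; exact h.am
    · simp only [ra, Nat.sub_self]; exact h.a0
    · simp only [rb, Nat.sub_self, Nat.sub_zero]
      have := hC.left
      linarith
    · simp only [rb, i1, e2, sub_zero]
    · simp only [rb, i2, e1, sub_zero]
    · simp only [ra, i1, i2]; exact hA
  have h1 := (pos_iff (CP_of_Std hS) p).1 (IH p _ _ (v - σ * w) (-w) hS)
  have e3 : (p : ℝ) + 1 = n - q := by
    have : ((p + 1 : ℕ) : ℝ) = ((n - q : ℕ) : ℝ) := by congr 1; omega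
    rw [Nat.cast_sub (by omega)] at this
    push_cast at this
    exact this
  have hqn : (q : ℝ) ≤ n := by exact_mod_cast (by omega : q ≤ n)
  rw [e3, hK_refl 0 h.a0 h.am (pd_pos hC).ne' (Nat.cast_nonneg q) hqn,
    hK_shr h σ c0 (Nat.cast_nonneg q) hqn, mul_zero, Real.exp_zero, one_mul, neg_neg] at h1
  have hJ := pJ_pos (v := v) (w := w) h
  exact nonneg_of_mul_nonneg_right h1 (mul_pos (Real.exp_pos _) hJ)

theorem CP_open (h : CP n A B) {al : ℕ → ℝ} (h0 : al 0 = 0) (hn : al n = 0) :
    ∀ᶠ t in 𝓝 (0 : ℝ), CP n (fun k => A k + t * al k) B := by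
  have h1 : ∀ᶠ t in 𝓝 (0 : ℝ), ∀ i ∈ Finset.range (n + 1), ∀ j ∈ Finset.range (n + 1),
      ∀ k ∈ Finset.range (n + 1), i < j → j < k →
      0 < ((A j + t * al j) - (A i + t * al i)) * (B k - B i) -
        (B j - B i) * ((A k + t * al k) - (A i + t * al i)) := by
    refine (Filter.eventually_all_finset _).2 fun i hi => (Filter.eventually_all_finset _).2
      fun j hj => (Filter.eventually_all_finset _).2 fun k hk => ?_
    by_cases hij : i < j
    · by_cases hjk : j < k
      · have hc := h.conv i j k hij hjk (by have := Finset.mem_range.1 hk; omega)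
        have := ev_lt (f := fun _ => (0:ℝ)) (g := fun t : ℝ =>
          ((A j + t * al j) - (A i + t * al i)) * (B k - B i) -
          (B j - B i) * ((A k + t * al k) - (A i + t * al i))) (by fun_prop) (by fun_prop)
          (by simpa using hc)
        filter_upwards [this] with t ht _ _
        exact ht
      · exact Eventually.of_forall fun t _ h5 => absurd h5 hjk
    · exact Eventually.of_forall fun t h5 => absurd h5 hij
  filter_upwards [h1] with t ht
  refine ⟨h.two, ?_, ?_, ?_, h.left⟩
  · intro i j k hij hjk hk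
    exact ht i (Finset.mem_range.2 (by omega)) j (Finset.mem_range.2 (by omega)) k
      (Finset.mem_range.2 (by omega)) hij hjk
  · simp [h.a0, h0]
  · simp [h.am, hn]

/-- bottom vertex, next edge not vertical -/
theorem vertex_case1 (h : CP n A B) (hn : q + 2 ≤ n) (hB : B (q + 1) = 0)
    (hA : A q < A (q + 1)) (hBq : 0 < B q) (hB2 : 0 < B (q + 2)) (hne : A (q + 2) ≠ A (q + 1))
    (IH : ∀ (r : ℕ) (a b : ℕ → ℝ) (v w : ℝ), Std n r a b → PI v w n r a b) :
    PI v w n q A B := by
  refine (pos_iff h q).2 ?_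
  have hqn : (q : ℝ) + 1 ≤ n := by exact_mod_cast (by omega : q + 1 ≤ n)
  rw [hK_eq h (by positivity) hqn]
  have hJ := pJ_pos (v := v) (w := w) h
  have hf := facet_near (v := v) (w := w) h (by omega) hA (IH q)
  rw [hB, sub_zero] at hf
  set C := CC v w A B n with hC
  set Vy := pVy v w A B n C (etaV v w A B n C) ((q : ℝ) + 1) with hVy
  set Vx := pVx v w A B C (kapV v w A B n C) ((q : ℝ) + 1) with hVx
  set s := B q / (A (q + 1) - A q) with hs
  have hs0 : 0 < s := div_pos hBq (by linarith)
  have e0 : ((q + 1 : ℕ) : ℝ) = (q : ℝ) + 1 := by push_cast; ring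
  suffices hV : Vy ≤ 0 by
    have := mul_nonpos_of_nonneg_of_nonpos hJ.le hV
    linarith
  rcases lt_or_gt_of_ne hne with hlt | hgt
  · -- slanted to the left
    have h1 := facet_left (v := v) (w := w) (q := q + 1) h (by omega) hlt IH
    rw [hB, e0, ← hC, ← hVy, ← hVx] at h1
    have e1 : q + 1 + 1 = q + 2 := rfl
    rw [e1] at h1
    set σ := (0 - B (q + 2)) / (A (q + 2) - A (q + 1)) with hσ
    have hσs : s < σ := by
      have hc := h.conv q (q + 1) (q + 2) (by omega) (by omega) hn
      rw [hB] at hc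
      have e2 : σ = B (q + 2) / (A (q + 1) - A (q + 2)) := by
        rw [hσ, zero_sub, ← neg_sub (A (q + 1)) (A (q + 2)), neg_div_neg_eq]
      rw [e2, hs, div_lt_div_iff₀ (by linarith) (by linarith)]
      linarith
    have h2 : 0 ≤ (σ - s) * Vx := by linarith
    have h3 : 0 ≤ Vx := nonneg_of_mul_nonneg_right h2 (by linarith)
    have h4 := mul_nonneg hs0.le h3
    linarith
  · -- slanted to the right
    have h1 := facet_near (v := v) (w := w) (q := q + 1) h (by omega) hgt (IH (q + 1))
    have e1 : q + 1 + 1 = q + 2 := rfl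
    rw [const_edge _ _ _ (by
      have : A (q + 2) - A (q + 1) ≠ 0 := by linarith
      rw [e1]; field_simp; ring), e1, hB, e0, ← hC, ← hVy, ← hVx] at h1
    set σ := (0 - B (q + 2)) / (A (q + 2) - A (q + 1)) with hσ
    have hσ0 : σ < 0 := by
      rw [hσ, zero_sub, neg_div]
      have := div_pos hB2 (show 0 < A (q + 2) - A (q + 1) by linarith)
      linarith
    have h2 := mul_le_mul_of_nonneg_left hf (show 0 ≤ -σ by linarith)
    have h3 := mul_le_mul_of_nonneg_left h1 hs0.le
    have h4 : (s - σ) * Vy ≤ 0 := by linarith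
    by_contra hn
    push Not at hn
    have := mul_pos (show 0 < s - σ by linarith) hn
    linarith

/-- bottom vertex -/
theorem vertex_case (h : CP n A B) (hn : q + 2 ≤ n) (hB : B (q + 1) = 0)
    (hA : A q < A (q + 1)) (hBq : 0 < B q) (hB2 : 0 < B (q + 2)) (hApos : 0 < A (q + 1))
    (IH : ∀ (r : ℕ) (a b : ℕ → ℝ) (v w : ℝ), Std n r a b → PI v w n r a b) :
    PI v w n q A B := by
  by_cases hne : A (q + 2) ≠ A (q + 1)
  · exact vertex_case1 h hn hB hA hBq hB2 hne IH
  · push Not at hne
    have hn2 : q + 2 ≠ n := by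
      intro h0
      rw [h0, h.am] at hne
      linarith
    set al : ℕ → ℝ := fun k => if k = q + 2 then 1 else 0 with hal
    have hal0 : al 0 = 0 := by simp [hal]
    have haln : al n = 0 := by simp [hal]; omega
    have hev := CP_open h hal0 haln
    set γ : ℝ → PP := fun t => (fun k => A k + t * al k, B) with hγ
    have hγc : Continuous γ := by rw [hγ]; fun_prop
    have h0 : γ 0 = (A, B) := by rw [hγ]; simp
    have hlim := PI_lim v w n q hγc (by
      have hev' := hev.filter_mono (nhdsWithin_le_nhds (s := Ioi (0:ℝ)))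
      filter_upwards [hev', self_mem_nhdsWithin] with t ht ht0
      have ht0' : 0 < t := ht0
      refine vertex_case1 ht hn hB ?_ hBq hB2 ?_ IH
      · have e1 : al q = 0 := by simp [hal]
        have e2 : al (q + 1) = 0 := by simp [hal]
        show A q + t * al q < A (q + 1) + t * al (q + 1)
        rw [e1, e2, mul_zero, add_zero, add_zero]; exact hA
      · have e1 : al (q + 2) = 1 := by simp [hal]
        have e2 : al (q + 1) = 0 := by simp [hal]
        show A (q + 2) + t * al (q + 2) ≠ A (q + 1) + t * al (q + 1)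
        rw [e1, e2, mul_one, mul_zero, add_zero, hne]
        linarith)
    rw [h0] at hlim
    exact hlim

end

end Pool.Agent.Work.MP_b5407d_pos_h13
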