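import Pool.Agent.Work.MP_b5407d_pos_helper13.VertexCase
import Pool.Agent.Work.MP_b5407d_pos_helper19.REM

/-! # MP_b5407d_gt (POS): weakly convex near chains (helper13) -/

set_option autoImplicit false

open MeasureTheory Set Filter Topology

namespace Pool.Agent.Work.MP_b5407d_pos_h13

open Pool.LBM Pool.LBM.Path

/-- weakly convex near chains in `K'` -/
structure WC (M r : ℕ) (a b X Y : ℕ → ℝ) : Prop where
  X0 : X 0 = 0
  Yr : Y r = 0
  mono : ∀ k < r, X k ≤ X (k + 1) ∧ Y (k + 1) ≤ Y k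
  conv : ∀ i j k, i < j → j < k → k ≤ r →
    0 ≤ (X j - X i) * (Y k - Y i) - (Y j - Y i) * (X k - X i)
  Xr : X r ≤ a 1
  Y0 : Y 0 ≤ b M

/-- strictness -/
def SC (r : ℕ) (X Y : ℕ → ℝ) : Prop := (∀ k < r, X k < X (k + 1) ∧ Y (k + 1) < Y k) ∧
  ∀ k, k + 1 < r → (Y (k + 1) - Y (k + 2)) * (X (k + 1) - X k) <
    (Y k - Y (k + 1)) * (X (k + 2) - X (k + 1))

/-- the inequality for the glued polygon -/
def PIg (v w : ℝ) (M r : ℕ) (a b X Y : ℕ → ℝ) : Prop :=
  PI v w (M + r) r (glu r X a) (glu r Y b)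

section
variable {M r : ℕ} {a b X Y : ℕ → ℝ} {v w : ℝ}

theorem rem_glu {k : ℕ} (hk : k ≤ r) (X a : ℕ → ℝ) :
    rem (k + 1) (glu (r + 1) X a) = glu r (rem (k + 1) X) a := by
  funext j
  by_cases h : j < k + 1
  · have h1 : j ≤ r + 1 := by omega
    have h2 : j ≤ r := by omega
    simp [rem, glu, h, h1, h2]
  · by_cases h2 : j ≤ r
    · have h1 : j + 1 ≤ r + 1 := by omega
      simp [rem, glu, h, h2]
    · have h1 : ¬ j + 1 ≤ r + 1 := by omega
      have h3 : j + 1 - (r + 1) = j - r := by omega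
      simp [rem, glu, h, h2]

theorem rem_glu0 (X a : ℕ → ℝ) : rem 0 (glu (r + 1) X a) = glu r (rem 0 X) a := by
  funext j
  by_cases h2 : j ≤ r
  · simp [rem, glu, h2]
  · simp [rem, glu, h2]

/-- removal of a near vertex -/
theorem wc_rem (W : WC M (r + 1) a b X Y) {k : ℕ} (hk : k ≤ r) (hl : k = r → Y r = 0) :
    WC M r a b (rem (k + 1) X) (rem (k + 1) Y) := by
  refine ⟨?_, ?_, ?_, ?_, ?_, ?_⟩
  · simp [rem, W.X0]
  · by_cases h : r < k + 1
    · simp only [rem, h, if_true]; exact hl (by omega)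
    · simp only [rem, h, if_false]; exact W.Yr
  · intro j hj
    obtain ⟨m1, m1'⟩ := W.mono j (by omega)
    obtain ⟨m2, m2'⟩ := W.mono (j + 1) (by omega)
    by_cases h1 : j + 1 < k + 1
    · have h2 : j < k + 1 := by omega
      simp only [rem, h1, h2, if_true]
      exact ⟨m1, m1'⟩
    · by_cases h2 : j < k + 1
      · simp only [rem, h1, h2, if_true, if_false]
        exact ⟨m1.trans m2, m2'.trans m1'⟩
      · simp only [rem, h1, h2, if_false]
        exact ⟨m2, m2'⟩
  · intro i j l hij hjl hl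
    set φ : ℕ → ℕ := fun i => if i < k + 1 then i else i + 1 with hφ
    have hr : ∀ (c : ℕ → ℝ) (i : ℕ), rem (k + 1) c i = c (φ i) := by
      intro c i
      by_cases h : i < k + 1
      · simp only [rem, hφ, h, if_true]
      · simp only [rem, hφ, h, if_false]
    rw [hr, hr, hr, hr, hr, hr]
    refine W.conv (φ i) (φ j) (φ l) ?_ ?_ ?_
    · simp only [hφ]; split_ifs <;> omega
    · simp only [hφ]; split_ifs <;> omega
    · simp only [hφ]; split_ifs <;> omega
  · by_cases h : r < k + 1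
    · simp only [rem, h, if_true]
      exact (W.mono r (by omega)).1.trans W.Xr
    · simp only [rem, h, if_false]; exact W.Xr
  · simp only [rem, Nat.succ_pos, if_true]; exact W.Y0

theorem wc_rem0 (W : WC M (r + 1) a b X Y) (hX : X 1 = 0) :
    WC M r a b (rem 0 X) (rem 0 Y) := by
  refine ⟨?_, ?_, ?_, ?_, ?_, ?_⟩
  · simpa [rem] using hX
  · simpa [rem] using W.Yr
  · intro j hj
    have := W.mono (j + 1) (by omega)
    simpa [rem] using this
  · intro i j l hij hjl hl
    have := W.conv (i + 1) (j + 1) (l + 1) (by omega) (by omega) (by omega)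
    simpa [rem] using this
  · simpa [rem] using W.Xr
  · have := (W.mono 0 (by omega)).2
    simp only [rem, Nat.not_lt_zero, if_false]
    exact this.trans W.Y0

theorem pi_rem {k : ℕ} (hM : 1 ≤ M) (hk : k ≤ r) {θ : ℝ} (h0 : 0 ≤ θ) (h1 : θ ≤ 1)
    (hX : glu (r + 1) X a (k + 1) = (1 - θ) * glu (r + 1) X a k + θ * glu (r + 1) X a (k + 2))
    (hY : glu (r + 1) Y b (k + 1) = (1 - θ) * glu (r + 1) Y b k + θ * glu (r + 1) Y b (k + 2))
    (h : PIg v w M r a b (rem (k + 1) X) (rem (k + 1) Y)) : PIg v w M (r + 1) a b X Y := by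
  obtain ⟨e1, e2, e3, e4⟩ := Pool.Agent.Work.MP_b5407d_pos_h19.stmt_REM (M + r) r k
    (glu (r + 1) X a) (glu (r + 1) Y b) v w θ hk (by omega) h0 h1 hX hY
  unfold PIg PI at h ⊢
  rw [← rem_glu hk, ← rem_glu hk] at h
  have e5 : M + (r + 1) = M + r + 1 := rfl
  rw [e5, e1, e2, e3, e4]
  exact h

theorem pi_rem0 (hM : 1 ≤ M) (hX0 : X 0 = 0) (hX1 : X 1 = 0)
    (h : PIg v w M r a b (rem 0 X) (rem 0 Y)) : PIg v w M (r + 1) a b X Y := by
  obtain ⟨e1, e2, e3, e4⟩ := Pool.Agent.Work.MP_b5407d_pos_h19.stmt_REM0 (M + r) r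
    (glu (r + 1) X a) (glu (r + 1) Y b) v w (by omega)
    (by rw [glu_le a (by omega)]; exact hX0) (by rw [glu_le a (by omega)]; exact hX1)
  unfold PIg PI at h ⊢
  rw [← rem_glu0, ← rem_glu0] at h
  have e5 : M + (r + 1) = M + r + 1 := rfl
  rw [e5, e1, e2, e3, e4]
  exact h

theorem wc_X_mono (W : WC M r a b X Y) {i j : ℕ} (hij : i ≤ j) (hj : j ≤ r) : X i ≤ X j := by
  induction j with
  | zero => have : i = 0 := by omega
            rw [this]
  | succ j ih =>
    rcases Nat.lt_or_ge i (j + 1) with h | h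
    · exact (ih (by omega) (by omega)).trans (W.mono j (by omega)).1
    · have : i = j + 1 := by omega
      rw [this]

theorem wc_Y_mono (W : WC M r a b X Y) {i j : ℕ} (hij : i ≤ j) (hj : j ≤ r) : Y j ≤ Y i := by
  induction j with
  | zero => have : i = 0 := by omega
            rw [this]
  | succ j ih =>
    rcases Nat.lt_or_ge i (j + 1) with h | h
    · exact (W.mono j (by omega)).2.trans (ih (by omega) (by omega))
    · have : i = j + 1 := by omega
      rw [this]

/-- a weakly convex chain is strict, or a vertex can be removed -/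
theorem reduce (hM : 1 ≤ M) (hb1 : b 1 = 0) (W : WC M (r + 1) a b X Y) : SC (r + 1) X Y ∨
    ∃ X' Y' : ℕ → ℝ, WC M r a b X' Y' ∧
      ∀ v w, PIg v w M r a b X' Y' → PIg v w M (r + 1) a b X Y := by
  by_cases hX1 : X 1 = 0
  · right
    exact ⟨_, _, wc_rem0 W hX1, fun v w h => pi_rem0 hM W.X0 hX1 h⟩
  by_cases hYr : Y r = 0
  · right
    have hm := (W.mono r (by omega)).1
    have hX := W.Xr
    have g1 : glu (r + 1) X a (r + 1) = X (r + 1) := glu_le a le_rfl
    have g2 : glu (r + 1) X a r = X r := glu_le a (by omega)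
    have g3 : glu (r + 1) X a (r + 2) = a 1 := by
      have e : r + 2 = 1 + (r + 1) := by ring
      rw [e, glu_gt a le_rfl]
    have g4 : glu (r + 1) Y b (r + 1) = Y (r + 1) := glu_le b le_rfl
    have g5 : glu (r + 1) Y b r = Y r := glu_le b (by omega)
    have g6 : glu (r + 1) Y b (r + 2) = b 1 := by
      have e : r + 2 = 1 + (r + 1) := by ring
      rw [e, glu_gt b le_rfl]
    rcases eq_or_lt_of_le (hm.trans hX) with he | hlt
    · refine ⟨_, _, wc_rem W le_rfl (fun _ => hYr), fun v w h =>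
        pi_rem (θ := 0) hM le_rfl le_rfl zero_le_one ?_ ?_ h⟩
      · rw [g1, g2, g3]; linarith
      · rw [g4, g5, g6, W.Yr, hYr]; ring
    · refine ⟨_, _, wc_rem W le_rfl (fun _ => hYr), fun v w h =>
        pi_rem (θ := (X (r + 1) - X r) / (a 1 - X r)) hM le_rfl (div_nonneg (by linarith)
          (by linarith)) (by rw [div_le_one (by linarith)]; linarith) ?_ ?_ h⟩
      · rw [g1, g2, g3]
        have : a 1 - X r ≠ 0 := by linarith
        field_simp; ring
      · rw [g4, g5, g6, W.Yr, hYr, hb1]; ring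
  -- now `X 1 > 0`, `Y r > 0`
  have hX1' : 0 < X 1 := by
    have := (W.mono 0 (by omega)).1
    rw [W.X0, zero_add] at this
    exact lt_of_le_of_ne this (Ne.symm hX1)
  have hYr' : 0 < Y r := by
    have := (W.mono r (by omega)).2
    rw [W.Yr] at this
    exact lt_of_le_of_ne this (Ne.symm hYr)
  -- degenerate edge
  by_cases hdeg : ∃ k, 1 ≤ k ∧ k ≤ r ∧ X k = X (k + 1) ∧ Y k = Y (k + 1)
  · right
    obtain ⟨k, hk1, hkr, hXk, hYk⟩ := hdeg
    obtain ⟨j, rfl⟩ : ∃ j, k = j + 1 := ⟨k - 1, by omega⟩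
    refine ⟨_, _, wc_rem W (k := j) (by omega) (fun h => by omega), fun v w h =>
        pi_rem (θ := 1) hM (k := j) (by omega) zero_le_one le_rfl ?_ ?_ h⟩
    · rw [glu_le a (by omega : j + 1 ≤ r + 1), glu_le a (by omega : j ≤ r + 1),
        glu_le a (by omega : j + 2 ≤ r + 1), hXk]; ring
    · rw [glu_le b (by omega : j + 1 ≤ r + 1), glu_le b (by omega : j ≤ r + 1),
        glu_le b (by omega : j + 2 ≤ r + 1), hYk]; ring
  push Not at hdeg
  have hXs : ∀ k < r + 1, X k < X (k + 1) := by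
    intro k hk
    refine lt_of_le_of_ne (W.mono k hk).1 fun he => ?_
    rcases Nat.eq_zero_or_pos k with h0 | h0
    · subst h0
      rw [W.X0, zero_add] at he
      linarith
    · have h1 := hdeg k h0 (by omega) he
      have h2 := (W.mono k hk).2
      have h3 : Y (k + 1) < Y k := lt_of_le_of_ne h2 (Ne.symm h1)
      have h4 := W.conv 0 k (k + 1) h0 (by omega) (by omega)
      rw [W.X0, ← he] at h4
      have h5 : 0 < X k := lt_of_lt_of_le hX1' (wc_X_mono W h0 (by omega))
      have h6 : 0 < X k * (Y k - Y (k + 1)) := mul_pos h5 (by linarith)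
      linarith
  have hYs : ∀ k < r + 1, Y (k + 1) < Y k := by
    intro k hk
    refine lt_of_le_of_ne (W.mono k hk).2 fun he => ?_
    rcases Nat.lt_or_ge k r with h0 | h0
    · have h4 := W.conv k (k + 1) (r + 1) (by omega) (by omega) le_rfl
      rw [W.Yr, he] at h4
      have h5 : 0 < Y k := lt_of_lt_of_le hYr' (wc_Y_mono W h0.le (by omega))
      have h6 : 0 < (X (k + 1) - X k) * Y k := mul_pos (by linarith [hXs k hk]) h5
      linarith
    · have h1 : k = r := by omega
      subst h1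
      rw [W.Yr] at he
      linarith
  by_cases hcol : ∃ k, k + 1 < r + 1 ∧ (Y k - Y (k + 1)) * (X (k + 2) - X (k + 1)) ≤
      (Y (k + 1) - Y (k + 2)) * (X (k + 1) - X k)
  · right
    obtain ⟨k, hk, hle⟩ := hcol
    have h1 := W.conv k (k + 1) (k + 2) (by omega) (by omega) (by omega)
    have heq : (Y k - Y (k + 1)) * (X (k + 2) - X (k + 1)) =
      (Y (k + 1) - Y (k + 2)) * (X (k + 1) - X k) := by linarith
    have hx1 := hXs k (by omega)
    have hx2 := hXs (k + 1) (by omega)
    have e1 : k + 1 + 1 = k + 2 := rfl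
    rw [e1] at hx2
    have hne : X (k + 2) - X k ≠ 0 := by linarith
    refine ⟨_, _, wc_rem W (k := k) (by omega) (fun h => by omega), fun v w h =>
        pi_rem (θ := (X (k + 1) - X k) / (X (k + 2) - X k)) hM (k := k) (by omega)
          (div_nonneg (by linarith) (by linarith))
          (by rw [div_le_one (by linarith)]; linarith) ?_ ?_ h⟩
    · rw [glu_le a (by omega : k + 1 ≤ r + 1), glu_le a (by omega : k ≤ r + 1),
        glu_le a (by omega : k + 2 ≤ r + 1)]
      field_simp; ring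
    · rw [glu_le b (by omega : k + 1 ≤ r + 1), glu_le b (by omega : k ≤ r + 1),
        glu_le b (by omega : k + 2 ≤ r + 1)]
      field_simp
      linarith
  · left
    push Not at hcol
    exact ⟨fun k hk => ⟨hXs k hk, hYs k hk⟩, fun k hk => hcol k hk⟩

end

end Pool.Agent.Work.MP_b5407d_pos_h13
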